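import Pool.Agent.U700.IB3

/-!
All rational numbers in the unit interval as kernel dimensions for one family of matrices over a
group with two generators.
-/

set_option autoImplicit false
set_option linter.unusedSectionVars false

open scoped InnerProductSpace ENNReal ComplexConjugate
open Filter Topology

namespace Pool.Agent.U700.IB

open Pool.Agent.W656.VA
open Pool.Agent.H80R2
open Pool.Agent.H80R2.BC (L2 GMat vdim IsTr LInv Equi act kerA Coef pt vals)
open Pool.Agent.H812R3
open Pool.Agent.TH25.AD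
open Pool.Agent.Results.MP_95030e_al.AllOrNothing (TorsionFree ClosedClass cls all_values)

variable {ι κ : Type} [Fintype ι] [Fintype κ]

theorem push_aff {G G' : Type} [Group G] [Group G'] (f : G →* G') (X Y : GMat κ ι G) (g : G) :
    BC.push f (aff X Y g) = aff (BC.push f X) (BC.push f Y) (f g) := by
  funext k i
  change (X k i + rm (Y k i) g).mapDomain f = (X k i).mapDomain f + rm ((Y k i).mapDomain f) (f g)
  rw [Finsupp.mapDomain_add, rm_push]

/-- restriction of the entries to a subgroup -/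
theorem exists_restrict {V : Type} [Group V] (K : Subgroup V) (X : GMat κ ι V)
    (hX : Coef (⊥ : Subring ℂ) X) (hK : ∀ k i, ∀ x ∈ (X k i).support, x ∈ K) :
    ∃ X0 : GMat κ ι K, Coef (⊥ : Subring ℂ) X0 ∧ BC.push K.subtype X0 = X := by
  refine ⟨fun k i => (X k i).comapDomain (Subtype.val : K → V) Subtype.val_injective.injOn,
    fun k i h => hX k i h, ?_⟩
  funext k i
  change Finsupp.mapDomain (Subtype.val : K → V)
    ((X k i).comapDomain (Subtype.val : K → V) Subtype.val_injective.injOn) = X k i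
  apply Finsupp.mapDomain_comapDomain _ Subtype.val_injective
  intro x hx
  exact ⟨⟨x, hK k i x hx⟩, rfl⟩

variable {C : (G : Type) → [Group G] → Prop}

/-- **All or nothing for one family over one group with two generators.** -/
theorem rational_family (hC : ClosedClass C)
    (h : ¬ ∀ (G : Type) [Group G], C G → ∀ (m n : ℕ) (A : Matrix (Fin m) (Fin n) (G →₀ ℂ)),
      ∃ z : ℤ, Pool.Agent.Results.MP_95030e_al.AllOrNothing.kerDim A = z) :
    ∃ (V : Type) (_ : Group V), C V ∧ (∃ a b : V, Subgroup.closure {a, b} = ⊤) ∧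
      ∃ (m n : ℕ) (X Y : GMat (Fin m) (Fin n) V),
        Coef (⊥ : Subring ℂ) X ∧ Coef (⊥ : Subring ℂ) Y ∧
          ∀ r : ℚ, 0 ≤ r → r ≤ 1 → ∃ g : V, vdim (kerA (aff X Y g)) = r := by
  classical
  obtain ⟨V, _, hV, m, n, X, Y, hX, hY, hr⟩ := all_family hC h
  have hr' : ∀ q : {q : ℚ // 0 ≤ q ∧ q ≤ 1}, ∃ g : V, vdim (kerA (aff X Y g)) = (q : ℚ) :=
    fun q => hr q (by exact_mod_cast q.2.1) (by exact_mod_cast q.2.2)
  choose g hg using hr'
  let F : Finset V := (Finset.univ.biUnion fun k => Finset.univ.biUnion fun i => (X k i).support) ∪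
    (Finset.univ.biUnion fun k => Finset.univ.biUnion fun i => (Y k i).support)
  let J : Type := F ⊕ {q : ℚ // 0 ≤ q ∧ q ≤ 1}
  let φ : FreeGroup J →* V := FreeGroup.lift (Sum.elim (fun x : F => (x : V)) g)
  have hXK : ∀ k i, ∀ x ∈ (X k i).support, x ∈ φ.range := by
    intro k i x hx
    have hF : x ∈ F := by
      simp only [F, Finset.mem_union, Finset.mem_biUnion]
      exact Or.inl ⟨k, Finset.mem_univ _, i, Finset.mem_univ _, hx⟩
    exact ⟨FreeGroup.of (Sum.inl ⟨x, hF⟩), by simp only [φ, FreeGroup.lift_apply_of, Sum.elim_inl]⟩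
  have hYK : ∀ k i, ∀ x ∈ (Y k i).support, x ∈ φ.range := by
    intro k i x hx
    have hF : x ∈ F := by
      simp only [F, Finset.mem_union, Finset.mem_biUnion]
      exact Or.inr ⟨k, Finset.mem_univ _, i, Finset.mem_univ _, hx⟩
    exact ⟨FreeGroup.of (Sum.inl ⟨x, hF⟩), by simp only [φ, FreeGroup.lift_apply_of, Sum.elim_inl]⟩
  have hgK : ∀ q, g q ∈ φ.range := fun q =>
    ⟨FreeGroup.of (Sum.inr q), by simp only [φ, FreeGroup.lift_apply_of, Sum.elim_inr]⟩
  obtain ⟨X0, hX0, hX0'⟩ := exists_restrict φ.range X hX hXK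
  obtain ⟨Y0, hY0, hY0'⟩ := exists_restrict φ.range Y hY hYK
  have hCK : C φ.range := hC.subgroup _ _ φ.range.subtype φ.range.subtype_injective hV
  have : Countable φ.range := φ.rangeRestrict_surjective.countable
  obtain ⟨W, iW, hW, hab, f, hf⟩ := NI.two_gen hC φ.range hCK
  refine ⟨W, iW, hW, hab, m, n, BC.push f X0, BC.push f Y0, coef_push f X0 hX0,
    coef_push f Y0 hY0, fun r hr0 hr1 => ⟨f ⟨g ⟨r, hr0, hr1⟩, hgK _⟩, ?_⟩⟩
  rw [← push_aff, vdim_push f hf, ← vdim_push φ.range.subtype φ.range.subtype_injective,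
    push_aff, hX0', hY0']
  exact hg ⟨r, hr0, hr1⟩

end Pool.Agent.U700.IB
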