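import Mathlib

set_option autoImplicit false

namespace Pool.Agent.U700

/-- Coherence of two vertices: they have the same neighbours apart from themselves. -/
def Coh {V : Type*} (G : SimpleGraph V) (a b : V) : Prop :=
  ∀ d, d ≠ a → d ≠ b → (G.Adj a d ↔ G.Adj b d)

namespace Coh
variable {V : Type*} {G : SimpleGraph V} {a b c a' b' : V}

theorem refl (G : SimpleGraph V) (a : V) : Coh G a a := fun _ _ _ => Iff.rfl

theorem symm (h : Coh G a b) : Coh G b a := fun d h1 h2 => (h d h2 h1).symm

theorem trans (h : Coh G a b) (h' : Coh G b c) : Coh G a c := by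
  intro d hda hdc
  by_cases hac : a = c
  · subst hac; rfl
  by_cases hdb : d = b
  · subst hdb
    have e1 := h c (Ne.symm hac) (Ne.symm hdc)
    have e2 := h' a (Ne.symm hda) hac
    rw [G.adj_comm a d, e2, G.adj_comm c a, e1, G.adj_comm d c]
  · exact (h d hda hdb).trans (h' d hdb hdc)

/-- adjacency is invariant under moving one endpoint inside its class -/
theorem adj_left (h : Coh G a a') (hab : G.Adj a b) (hne : a' ≠ b) : G.Adj a' b :=
  (h b (G.ne_of_adj hab).symm (Ne.symm hne)).1 hab

theorem adj_both (h : Coh G a a') (h' : Coh G b b') (hab : G.Adj a b) (hne : a' ≠ b') :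
    G.Adj a' b' := by
  by_cases h1 : a' = b
  · subst h1
    by_cases h2 : b' = a
    · subst h2; exact hab.symm
    · have h3 : Coh G a b' := h.trans h'
      have h4 := (h3 a' (G.ne_of_adj hab).symm hne).1 hab
      exact h4.symm
  · have h2 : G.Adj a' b := h.adj_left hab h1
    exact (h'.adj_left h2.symm (Ne.symm hne)).symm

theorem mem_of_adj_class (h : Coh G a b) (_ : a ≠ b) (d : V) (hd : d ≠ a) (hda : ¬ G.Adj a d)
    (hdb : d ≠ b) : ¬ G.Adj b d := fun h2 => hda ((h d hd hdb).2 h2)

end Coh

open Classical in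
/-- number of neighbours -/
noncomputable def dg {V : Type*} [Fintype V] (G : SimpleGraph V) (a : V) : ℕ :=
  Fintype.card {d // G.Adj a d}

open Classical in
theorem dg_le_of_coh {V : Type*} [Fintype V] {G : SimpleGraph V} {a b : V} (h : Coh G a b) :
    dg G a ≤ dg G b := by
  unfold dg
  refine Fintype.card_le_of_injective
    (fun d : {d // G.Adj a d} => (⟨Equiv.swap a b d.1, ?_⟩ : {d // G.Adj b d})) ?_
  · obtain ⟨d, hd⟩ := d
    have hda : d ≠ a := (G.ne_of_adj hd).symm
    by_cases hdb : d = b
    · subst hdb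
      simpa using hd.symm
    · simp only [Equiv.swap_apply_of_ne_of_ne hda hdb]
      exact (h d hda hdb).1 hd
  · intro x y hxy
    have := congrArg Subtype.val hxy
    exact Subtype.ext ((Equiv.swap a b).injective this)

theorem dg_eq_of_coh {V : Type*} [Fintype V] {G : SimpleGraph V} {a b : V} (h : Coh G a b) :
    dg G a = dg G b := le_antisymm (dg_le_of_coh h) (dg_le_of_coh h.symm)

open Classical in
/-- the class of a vertex as a finset -/
noncomputable def cls {V : Type*} [Fintype V] (G : SimpleGraph V) (a : V) : Finset V :=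
  Finset.univ.filter (fun b => Coh G a b)

theorem mem_cls {V : Type*} [Fintype V] {G : SimpleGraph V} {a b : V} :
    b ∈ cls G a ↔ Coh G a b := by simp [cls]

theorem self_mem_cls {V : Type*} [Fintype V] (G : SimpleGraph V) (a : V) : a ∈ cls G a :=
  mem_cls.2 (Coh.refl G a)

theorem cls_eq_of_coh {V : Type*} [Fintype V] {G : SimpleGraph V} {a b : V} (h : Coh G a b) :
    cls G a = cls G b := by
  ext c
  rw [mem_cls, mem_cls]
  exact ⟨fun h' => h.symm.trans h', fun h' => h.trans h'⟩

theorem coh_of_cls_eq {V : Type*} [Fintype V] {G : SimpleGraph V} {a b : V}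
    (h : cls G a = cls G b) : Coh G a b := by
  have : b ∈ cls G a := h ▸ self_mem_cls G b
  exact mem_cls.1 this

end Pool.Agent.U700
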