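import Mathlib
import Pool.Agent.U700.Comb

set_option autoImplicit false

namespace Pool.Agent.U700

/-- `b` is a basis presenting `N` as the 2-step nilpotent Lie algebra of the graph `G`. -/
structure GLie {n : ℕ} (G : SimpleGraph (Fin n)) {N : Type} [LieRing N] [LieAlgebra ℚ N]
    (b : Module.Basis (Fin n ⊕ G.edgeSet) ℚ N) : Prop where
  adj : ∀ (i j : Fin n) (h : G.Adj i j), i < j →
          ⁅b (Sum.inl i), b (Sum.inl j)⁆ = b (Sum.inr ⟨s(i, j), G.mem_edgeSet.mpr h⟩)
  nadj : ∀ i j : Fin n, ¬ G.Adj i j → ⁅b (Sum.inl i), b (Sum.inl j)⁆ = 0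
  cen : ∀ (e : G.edgeSet) (k : Fin n ⊕ G.edgeSet), ⁅b (Sum.inr e), b k⁆ = 0

section
variable {n : ℕ} {G : SimpleGraph (Fin n)} {N : Type} [LieRing N] [LieAlgebra ℚ N]
    {b : Module.Basis (Fin n ⊕ G.edgeSet) ℚ N}

theorem GLie.cen' (hb : GLie G b) (e : G.edgeSet) (k : Fin n ⊕ G.edgeSet) :
    ⁅b k, b (Sum.inr e)⁆ = 0 := by
  rw [← lie_skew, hb.cen, neg_zero]

/-- coordinates along the vertices -/
noncomputable def X (b : Module.Basis (Fin n ⊕ G.edgeSet) ℚ N) (i : Fin n) : N →ₗ[ℚ] ℚ :=
  b.coord (Sum.inl i)

theorem X_inl (i j : Fin n) : X b i (b (Sum.inl j)) = if j = i then 1 else 0 := by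
  classical
  simp [X, Module.Basis.coord_apply, Finsupp.single_apply]

theorem X_inr (i : Fin n) (e : G.edgeSet) : X b i (b (Sum.inr e)) = 0 := by
  classical
  simp [X, Module.Basis.coord_apply]

/-- a functional computing a 2x2 minor for every edge -/
theorem GLie.exists_fun (hb : GLie G b) (i j : Fin n) (hij : G.Adj i j) :
    ∃ l : N →ₗ[ℚ] ℚ, ∀ x y : N, l ⁅x, y⁆ = X b i x * X b j y - X b j x * X b i y := by
  classical
  -- first the ordered case
  have key : ∀ i j : Fin n, G.Adj i j → i < j →
      ∃ l : N →ₗ[ℚ] ℚ, ∀ x y : N, l ⁅x, y⁆ = X b i x * X b j y - X b j x * X b i y := by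
    intro i j hij hlt
    refine ⟨b.coord (Sum.inr ⟨s(i, j), G.mem_edgeSet.mpr hij⟩), ?_⟩
    set l := b.coord (Sum.inr ⟨s(i, j), G.mem_edgeSet.mpr hij⟩) with hl
    have hle : ∀ (k m : Fin n) (h : G.Adj k m),
        l (b (Sum.inr ⟨s(k, m), G.mem_edgeSet.mpr h⟩)) = if s(k,m) = s(i,j) then 1 else 0 := by
      intro k m h
      simp [hl, Module.Basis.coord_apply, Finsupp.single_apply]
    have hbas : ∀ k m : Fin n ⊕ G.edgeSet,
        l ⁅b k, b m⁆ = X b i (b k) * X b j (b m) - X b j (b k) * X b i (b m) := by
      intro k m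
      rcases k with k | e
      · rcases m with m | e
        · simp only [X_inl]
          by_cases hkm : G.Adj k m
          · rcases lt_or_gt_of_ne (G.ne_of_adj hkm) with hlt' | hlt'
            · rw [hb.adj k m hkm hlt', hle k m hkm]
              by_cases h1 : k = i
              · subst h1
                by_cases h2 : m = j
                · subst h2
                  simp [hlt.ne, hlt.ne']
                · simp [h2, hlt.ne, hlt.ne']
              · have : ¬ (s(k,m) = s(i,j)) := by
                  intro h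
                  rw [Sym2.eq_iff] at h
                  rcases h with h | h
                  · exact h1 h.1
                  · rw [h.1, h.2] at hlt'
                    exact absurd hlt' (not_lt.2 hlt.le)
                rw [if_neg this]
                by_cases h3 : k = j
                · subst h3
                  have : m ≠ i := by
                    rintro rfl
                    exact absurd hlt' (not_lt.2 hlt.le)
                  simp [h1, this]
                · simp [h1, h3]
            · rw [← lie_skew, hb.adj m k hkm.symm hlt', map_neg, hle m k hkm.symm]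
              by_cases h1 : m = i
              · subst h1
                by_cases h2 : k = j
                · subst h2
                  simp [hlt.ne, hlt.ne']
                · simp [h2, hlt.ne, hlt.ne']
              · have : ¬ (s(m,k) = s(i,j)) := by
                  intro h
                  rw [Sym2.eq_iff] at h
                  rcases h with h | h
                  · exact h1 h.1
                  · rw [h.1, h.2] at hlt'
                    exact absurd hlt' (not_lt.2 hlt.le)
                rw [if_neg this]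
                by_cases h3 : m = j
                · subst h3
                  have : k ≠ i := by
                    rintro rfl
                    exact absurd hlt' (not_lt.2 hlt.le)
                  simp [h1, this]
                · simp [h1, h3]
          · rw [hb.nadj k m hkm, map_zero]
            by_cases h1 : k = i
            · subst h1
              by_cases h2 : m = j
              · subst h2; exact absurd hij hkm
              · by_cases h3 : m = k
                · subst h3; simp [hlt.ne]
                · simp [h2, h3]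
            · by_cases h3 : k = j
              · subst h3
                by_cases h4 : m = i
                · subst h4; exact absurd hij.symm hkm
                · simp [h1, h4]
              · simp [h1, h3]
        · rw [hb.cen']
          simp [X_inr]
      · rw [hb.cen]
        simp [X_inr]
    have e : (LinearMap.mk₂ ℚ (fun x y : N => l ⁅x, y⁆)
        (by intros; simp) (by intros; simp) (by intros; simp) (by intros; simp)) =
        (LinearMap.mk₂ ℚ (fun x y : N => X b i x * X b j y - X b j x * X b i y)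
          (by intros; simp; ring) (by intros; simp; ring)
          (by intros; simp; ring) (by intros; simp; ring)) := by
      refine b.ext fun k => b.ext fun m => ?_
      simpa using hbas k m
    intro x y
    have := LinearMap.congr_fun (LinearMap.congr_fun e x) y
    simpa using this
  rcases lt_or_gt_of_ne (G.ne_of_adj hij) with h | h
  · exact key i j hij h
  · obtain ⟨l, hl⟩ := key j i hij.symm h
    refine ⟨-l, fun x y => ?_⟩
    rw [LinearMap.neg_apply, hl]
    ring

theorem GLie.X_lie (hb : GLie G b) (i : Fin n) (x y : N) : X b i ⁅x, y⁆ = 0 := by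
  classical
  have hbas : ∀ k m : Fin n ⊕ G.edgeSet, X b i ⁅b k, b m⁆ = 0 := by
    intro k m
    rcases k with k | e
    · rcases m with m | e
      · by_cases hkm : G.Adj k m
        · rcases lt_or_gt_of_ne (G.ne_of_adj hkm) with hlt' | hlt'
          · rw [hb.adj k m hkm hlt', X_inr]
          · rw [← lie_skew, hb.adj m k hkm.symm hlt', map_neg, X_inr, neg_zero]
        · rw [hb.nadj k m hkm, map_zero]
      · rw [hb.cen', map_zero]
    · rw [hb.cen, map_zero]
  have e : (LinearMap.mk₂ ℚ (fun x y : N => X b i ⁅x, y⁆)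
      (by intros; simp) (by intros; simp) (by intros; simp) (by intros; simp)) = 0 := by
    refine b.ext fun k => b.ext fun m => ?_
    simpa using hbas k m
  have := LinearMap.congr_fun (LinearMap.congr_fun e x) y
  simpa using this

/-- rank of `ad x` -/
noncomputable def rk (x : N) : ℕ :=
  Module.finrank ℚ (LinearMap.range (LieAlgebra.ad ℚ N x : N →ₗ[ℚ] N))

theorem rk_equiv (h : N ≃ₗ⁅ℚ⁆ N) (x : N) : rk (h x) = rk x := by
  unfold rk
  have : LinearMap.range (LieAlgebra.ad ℚ N (h x) : N →ₗ[ℚ] N) =
      (LinearMap.range (LieAlgebra.ad ℚ N x : N →ₗ[ℚ] N)).map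
        (h.toLinearEquiv : N →ₗ[ℚ] N) := by
    ext z
    constructor
    · rintro ⟨y, rfl⟩
      refine ⟨⁅x, h.symm y⁆, ⟨h.symm y, rfl⟩, ?_⟩
      show h ⁅x, h.symm y⁆ = ⁅h x, y⁆
      rw [LieEquiv.map_lie, LieEquiv.apply_symm_apply]
    · rintro ⟨_, ⟨y, rfl⟩, rfl⟩
      refine ⟨h y, ?_⟩
      show ⁅h x, h y⁆ = h ⁅x, y⁆
      rw [LieEquiv.map_lie]
  rw [this]
  exact LinearEquiv.finrank_map_eq h.toLinearEquiv _

variable [FiniteDimensional ℚ N]

theorem le_rk_of_surj {Q : Type} [AddCommGroup Q] [Module ℚ Q] 
    (x : N) (p : N →ₗ[ℚ] Q) (hs : ∀ q : Q, ∃ y : N, p ⁅x, y⁆ = q) :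
    Module.finrank ℚ Q ≤ rk x := by
  unfold rk
  have hsurj : Function.Surjective
      (p.comp (LinearMap.range (LieAlgebra.ad ℚ N x : N →ₗ[ℚ] N)).subtype) := by
    intro q
    obtain ⟨y, hy⟩ := hs q
    exact ⟨⟨⁅x, y⁆, ⟨y, rfl⟩⟩, hy⟩
  exact LinearMap.finrank_le_finrank_of_surjective hsurj

theorem GLie.dg_le_rk (hb : GLie G b) (x : N) (β : Fin n) (hx : X b β x ≠ 0) :
    dg G β ≤ rk x := by
  classical
  choose! l hl using fun j (h : G.Adj β j) => hb.exists_fun β j h
  let p : N →ₗ[ℚ] ({d // G.Adj β d} → ℚ) := LinearMap.pi fun d => l d.1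
  have := le_rk_of_surj x p (fun q => by
    refine ⟨∑ d : {d // G.Adj β d}, (q d / X b β x) • b (Sum.inl d.1), ?_⟩
    funext d
    have h1 : X b β (∑ d : {d // G.Adj β d}, (q d / X b β x) • b (Sum.inl d.1)) = 0 := by
      rw [map_sum]
      refine Finset.sum_eq_zero fun d _ => ?_
      rw [map_smul, X_inl, if_neg (G.ne_of_adj d.2).symm, smul_zero]
    have h2 : X b d.1 (∑ d : {d // G.Adj β d}, (q d / X b β x) • b (Sum.inl d.1)) =
        q d / X b β x := by
      rw [map_sum, Finset.sum_eq_single d]
      · rw [map_smul, X_inl, if_pos rfl]; simp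
      · intro d' _ hd'
        rw [map_smul, X_inl, if_neg (fun h => hd' (Subtype.ext h)), smul_zero]
      · simp
    show l d.1 ⁅x, _⁆ = _
    rw [hl d.1 d.2, h1, h2]
    field_simp
    ring)
  simpa [dg] using this

theorem GLie.dg_lt_rk (hb : GLie G b) (x : N) (β γ δ : Fin n) (hx : X b β x ≠ 0)
    (hx' : X b γ x ≠ 0) (h1 : G.Adj γ δ) (h2 : ¬ G.Adj β δ) (h3 : δ ≠ β) :
    dg G β + 1 ≤ rk x := by
  classical
  choose! l hl using fun j (h : G.Adj β j) => hb.exists_fun β j h
  obtain ⟨l', hl'⟩ := hb.exists_fun γ δ h1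
  let p : N →ₗ[ℚ] ({d // G.Adj β d} → ℚ) × ℚ := (LinearMap.pi fun d => l d.1).prod l'
  have := le_rk_of_surj x p (fun q => by
    set y0 : N := ∑ d : {d // G.Adj β d}, (q.1 d / X b β x) • b (Sum.inl d.1) with hy0
    have a1 : X b β y0 = 0 := by
      rw [hy0, map_sum]
      refine Finset.sum_eq_zero fun d _ => ?_
      rw [map_smul, X_inl, if_neg (G.ne_of_adj d.2).symm, smul_zero]
    have a2 : ∀ d : {d // G.Adj β d}, X b d.1 y0 = q.1 d / X b β x := by
      intro d
      rw [hy0, map_sum, Finset.sum_eq_single d]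
      · rw [map_smul, X_inl, if_pos rfl]; simp
      · intro d' _ hd'
        rw [map_smul, X_inl, if_neg (fun h => hd' (Subtype.ext h)), smul_zero]
      · simp
    have a3 : X b δ y0 = 0 := by
      rw [hy0, map_sum]
      refine Finset.sum_eq_zero fun d _ => ?_
      rw [map_smul, X_inl, if_neg (fun (h : d.1 = δ) => h2 (h ▸ d.2)), smul_zero]
    refine ⟨y0 + ((q.2 + X b δ x * X b γ y0) / X b γ x) • b (Sum.inl δ), ?_⟩
    refine Prod.ext ?_ ?_
    · funext d
      show l d.1 ⁅x, _⁆ = _
      have hd : δ ≠ d.1 := fun h => h2 (by rw [h]; exact d.2)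
      rw [hl d.1 d.2, map_add, map_add, map_smul, map_smul, X_inl, X_inl, if_neg h3,
        if_neg hd, a1, a2]
      field_simp
      ring
    · show l' ⁅x, _⁆ = _
      rw [hl', map_add, map_add, map_smul, map_smul, X_inl, X_inl, if_pos rfl,
        if_neg (G.ne_of_adj h1).symm, a3]
      rw [smul_zero, add_zero, zero_add, smul_eq_mul, mul_one, mul_div_cancel₀ _ hx']
      ring)
  simpa [dg] using this

/-- an element whose `ad` has minimal rank is supported in one class in top degree -/
theorem GLie.coh_of_rk_le (hb : GLie G b) (x : N) (β γ : Fin n) (hx : X b β x ≠ 0)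
    (hx' : X b γ x ≠ 0) (hr : rk x ≤ dg G β) (hr' : rk x ≤ dg G γ) : Coh G β γ := by
  intro d hdβ hdγ
  constructor
  · intro h
    by_contra h'
    have := hb.dg_lt_rk x γ β d hx' hx h h' hdγ
    omega
  · intro h
    by_contra h'
    have := hb.dg_lt_rk x β γ d hx hx' h h' hdβ
    omega

theorem GLie.rk_le (hb : GLie G b) (x : N) (α : Fin n)
    (hx : x ∈ Submodule.span ℚ ((fun a => b (Sum.inl a)) '' {a | Coh G α a})) :
    rk x ≤ dg G α := by
  classical
  -- expand x
  have hx2 : ∃ c : Fin n → ℚ, (∀ a, ¬ Coh G α a → c a = 0) ∧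
      x = ∑ a, c a • b (Sum.inl a) := by
    induction hx using Submodule.span_induction with
    | mem y hy =>
      obtain ⟨a, ha, rfl⟩ := hy
      refine ⟨Pi.single a 1, ?_, ?_⟩
      · intro a' ha'
        rw [Pi.single_apply, if_neg]
        rintro rfl
        exact ha' ha
      · simp [Pi.single_apply]
    | zero => exact ⟨0, by simp, by simp⟩
    | add y z _ _ hy hz =>
      obtain ⟨c, hc, rfl⟩ := hy
      obtain ⟨c', hc', rfl⟩ := hz
      refine ⟨c + c', ?_, ?_⟩
      · intro a ha; simp [hc a ha, hc' a ha]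
      · simp [add_smul, Finset.sum_add_distrib]
    | smul r y _ hy =>
      obtain ⟨c, hc, rfl⟩ := hy
      refine ⟨r • c, ?_, ?_⟩
      · intro a ha; simp [hc a ha]
      · simp [mul_smul, Finset.smul_sum]
  obtain ⟨c, hc, hxc⟩ := hx2
  by_cases h0 : ∀ a, c a = 0
  · have : x = 0 := by rw [hxc]; simp [h0]
    rw [this]
    unfold rk
    rw [map_zero]
    have h0 : LinearMap.range (0 : N →ₗ[ℚ] N) = ⊥ := LinearMap.range_zero
    exact (congrArg (fun S : Submodule ℚ N => Module.finrank ℚ S) h0).le.trans
      (by rw [finrank_bot]; exact Nat.zero_le _)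
  push Not at h0
  obtain ⟨a0, ha0⟩ := h0
  have hca0 : Coh G α a0 := by
    by_contra h; exact ha0 (hc a0 h)
  rw [dg_eq_of_coh hca0]
  -- the range of ad x is spanned by brackets with the neighbours of a0
  let v : {d // G.Adj a0 d} → N := fun d => ⁅x, b (Sum.inl d.1)⁆
  have hnon : ∀ d, d ≠ a0 → ¬ G.Adj a0 d → ⁅x, b (Sum.inl d)⁆ = 0 := by
    intro d hd hnd
    rw [hxc, sum_lie]
    refine Finset.sum_eq_zero fun a _ => ?_
    rw [smul_lie]
    by_cases hca : Coh G α a
    · by_cases hda : d = a
      · subst hda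
        rw [lie_self, smul_zero]
      · have h1 : Coh G a0 a := hca0.symm.trans hca
        have h2 : ¬ G.Adj a d := fun h => hnd ((h1 d hd hda).2 h)
        rw [hb.nadj a d h2, smul_zero]
    · rw [hc a hca, zero_smul]
  have hspan : ∀ k, ⁅x, b k⁆ ∈ Submodule.span ℚ (Set.range v) := by
    have hne : ∀ d, d ≠ a0 → ⁅x, b (Sum.inl d)⁆ ∈ Submodule.span ℚ (Set.range v) := by
      intro d hd
      by_cases h : G.Adj a0 d
      · exact Submodule.subset_span ⟨⟨d, h⟩, rfl⟩
      · rw [hnon d hd h]; exact Submodule.zero_mem _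
    intro k
    rcases k with d | e
    · by_cases hd : d = a0
      · subst hd
        have h1 : ⁅x, x⁆ = ∑ a, c a • ⁅x, b (Sum.inl a)⁆ := by
          conv_lhs => 
            arg 2
            rw [hxc]
          rw [lie_sum]
          simp only [lie_smul]
        rw [lie_self, ← Finset.add_sum_erase Finset.univ _ (Finset.mem_univ d)] at h1
        have h2 : c d • ⁅x, b (Sum.inl d)⁆ =
            - ∑ a ∈ Finset.univ.erase d, c a • ⁅x, b (Sum.inl a)⁆ := by
          rw [eq_neg_iff_add_eq_zero]; exact h1.symm
        have h3 : c d • ⁅x, b (Sum.inl d)⁆ ∈ Submodule.span ℚ (Set.range v) := by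
          rw [h2]
          refine Submodule.neg_mem _ (Submodule.sum_mem _ fun a ha => ?_)
          exact Submodule.smul_mem _ _ (hne a (Finset.ne_of_mem_erase ha))
        exact (Submodule.smul_mem_iff _ ha0).1 h3
      · exact hne d hd
    · have : ⁅x, b (Sum.inr e)⁆ = 0 := by
        rw [hxc, sum_lie]
        refine Finset.sum_eq_zero fun a _ => ?_
        rw [smul_lie, hb.cen', smul_zero]
      rw [this]; exact Submodule.zero_mem _
  have hle : LinearMap.range (LieAlgebra.ad ℚ N x : N →ₗ[ℚ] N) ≤
      Submodule.span ℚ (Set.range v) := by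
    rintro _ ⟨y, rfl⟩
    have : (LieAlgebra.ad ℚ N x : N →ₗ[ℚ] N) y ∈ (LinearMap.range
      (LieAlgebra.ad ℚ N x : N →ₗ[ℚ] N)) := ⟨y, rfl⟩
    rw [LinearMap.range_eq_map, ← b.span_eq, Submodule.map_span] at this
    refine (Submodule.span_le.2 ?_) this
    rintro _ ⟨_, ⟨k, rfl⟩, rfl⟩
    exact hspan k
  unfold rk dg
  calc _ ≤ Module.finrank ℚ (Submodule.span ℚ (Set.range v)) := Submodule.finrank_mono hle
    _ ≤ _ := finrank_range_le_card v
end

end Pool.Agent.U700
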