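import Mathlib
import Pool.Agent.U700.PartA

set_option autoImplicit false

namespace Pool.Agent.U700

section
variable {n : ℕ} {G : SimpleGraph (Fin n)} {N : Type} [LieRing N] [LieAlgebra ℚ N]
    {b : Module.Basis (Fin n ⊕ G.edgeSet) ℚ N} [FiniteDimensional ℚ N]

theorem X_expand (i : Fin n) (h : N →ₗ[ℚ] N) (hh : ∀ e, X b i (h (b (Sum.inr e))) = 0) (x : N) :
    X b i (h x) = ∑ a, X b a x * X b i (h (b (Sum.inl a))) := by
  classical
  haveI : Fintype G.edgeSet := Fintype.ofFinite _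
  have e : (X b i).comp h = ∑ a, (X b i (h (b (Sum.inl a)))) • X b a := by
    refine b.ext fun k => ?_
    rcases k with a | e
    · simp only [LinearMap.comp_apply, LinearMap.sum_apply, LinearMap.smul_apply, X_inl]
      simp
    · simp only [LinearMap.comp_apply, LinearMap.sum_apply, LinearMap.smul_apply, X_inr, hh]
      simp
  have := LinearMap.congr_fun e x
  simp only [LinearMap.comp_apply, LinearMap.sum_apply, LinearMap.smul_apply, smul_eq_mul] at this
  rw [this]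
  exact Finset.sum_congr rfl fun a _ => mul_comm _ _

theorem GLie.edge_eq_lie (hb : GLie G b) (e : G.edgeSet) : ∃ i j : Fin n, ∃ h : G.Adj i j,
    i < j ∧ e = ⟨s(i, j), G.mem_edgeSet.mpr h⟩ ∧ b (Sum.inr e) = ⁅b (Sum.inl i), b (Sum.inl j)⁆ := by
  obtain ⟨e, he⟩ := e
  induction e using Sym2.ind with
  | _ i j =>
    have hij : G.Adj i j := G.mem_edgeSet.1 he
    rcases lt_or_gt_of_ne (G.ne_of_adj hij) with h | h
    · exact ⟨i, j, hij, h, rfl, (hb.adj i j hij h).symm⟩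
    · refine ⟨j, i, hij.symm, h, ?_, ?_⟩
      · exact Subtype.ext Sym2.eq_swap
      · rw [hb.adj j i hij.symm h]
        congr 2
        exact Subtype.ext Sym2.eq_swap

theorem GLie.X_map_inr (hb : GLie G b) (h : N ≃ₗ⁅ℚ⁆ N) (i : Fin n) (e : G.edgeSet) :
    X b i (h (b (Sum.inr e))) = 0 := by
  obtain ⟨k, l, _, _, _, he⟩ := hb.edge_eq_lie e
  rw [he, LieEquiv.map_lie, hb.X_lie]

theorem GLie.rk_b (hb : GLie G b) (α : Fin n) : rk (b (Sum.inl α)) ≤ dg G α :=
  hb.rk_le _ α (Submodule.subset_span ⟨α, Coh.refl G α, rfl⟩)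

/-- matrix entries only go down in degree -/
theorem GLie.dg_le_of_entry (hb : GLie G b) (h : N ≃ₗ⁅ℚ⁆ N) (α γ : Fin n)
    (hne : X b γ (h (b (Sum.inl α))) ≠ 0) : dg G γ ≤ dg G α :=
  (hb.dg_le_rk _ γ hne).trans ((rk_equiv h _).le.trans (hb.rk_b α))

theorem GLie.coh_of_entry (hb : GLie G b) (h : N ≃ₗ⁅ℚ⁆ N) (α α' γ γ' : Fin n)
    (hc : Coh G α α') (hne : X b γ (h (b (Sum.inl α))) ≠ 0)
    (hne' : X b γ' (h (b (Sum.inl α'))) ≠ 0) (hd : dg G γ = dg G α) (hd' : dg G γ' = dg G α) :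
    Coh G γ γ' := by
  by_cases hαα : α = α'
  · subst hαα
    have hr := (rk_equiv h _).le.trans (hb.rk_b α)
    exact hb.coh_of_rk_le _ γ γ' hne hne' (hd ▸ hr) (hd' ▸ hr)
  have hdα := dg_eq_of_coh hc
  by_contra hcon
  have h1 : X b γ' (h (b (Sum.inl α))) = 0 := by
    by_contra h1
    have hr := (rk_equiv h _).le.trans (hb.rk_b α)
    exact hcon (hb.coh_of_rk_le _ γ γ' hne h1 (hd ▸ hr) (hd' ▸ hr))
  have h2 : X b γ (h (b (Sum.inl α'))) = 0 := by
    by_contra h2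
    have hr := (rk_equiv h _).le.trans (hb.rk_b α')
    rw [← hdα] at hr
    exact hcon (hb.coh_of_rk_le _ γ γ' h2 hne' (hd ▸ hr) (hd' ▸ hr))
  have hr : rk (h (b (Sum.inl α) + b (Sum.inl α'))) ≤ dg G α := by
    rw [rk_equiv]
    refine hb.rk_le _ α (Submodule.add_mem _ ?_ ?_)
    · exact Submodule.subset_span ⟨α, Coh.refl G α, rfl⟩
    · exact Submodule.subset_span ⟨α', hc, rfl⟩
  refine hcon (hb.coh_of_rk_le _ γ γ' ?_ ?_ (hd ▸ hr) (hd' ▸ hr))
  · rw [map_add, map_add, h2, add_zero]; exact hne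
  · rw [map_add, map_add, h1, zero_add]; exact hne'

/-- elements of low degree -/
def Ulow (b : Module.Basis (Fin n ⊕ G.edgeSet) ℚ N) (d : ℕ) : Submodule ℚ N where
  carrier := {x | ∀ β, d ≤ dg G β → X b β x = 0}
  add_mem' := by
    intro x y hx hy β hβ
    rw [map_add, hx β hβ, hy β hβ, add_zero]
  zero_mem' := by intro β _; exact map_zero _
  smul_mem' := by
    intro c x hx β hβ
    rw [map_smul, hx β hβ, smul_zero]

theorem mem_Ulow {d : ℕ} {x : N} : x ∈ Ulow b d ↔ ∀ β, d ≤ dg G β → X b β x = 0 := Iff.rfl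

/-- low degree plus the class of `α` -/
def Pcl (b : Module.Basis (Fin n ⊕ G.edgeSet) ℚ N) (α : Fin n) : Submodule ℚ N where
  carrier := {x | ∀ β, dg G α ≤ dg G β → ¬ Coh G α β → X b β x = 0}
  add_mem' := by
    intro x y hx hy β hβ hc
    rw [map_add, hx β hβ hc, hy β hβ hc, add_zero]
  zero_mem' := by intro β _ _; exact map_zero _
  smul_mem' := by
    intro c x hx β hβ hc
    rw [map_smul, hx β hβ hc, smul_zero]

theorem mem_Pcl {α : Fin n} {x : N} :
    x ∈ Pcl b α ↔ ∀ β, dg G α ≤ dg G β → ¬ Coh G α β → X b β x = 0 := Iff.rfl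

theorem GLie.map_Ulow (hb : GLie G b) (h : N ≃ₗ⁅ℚ⁆ N) (d : ℕ) (x : N) (hx : x ∈ Ulow b d) :
    h x ∈ Ulow b d := by
  rw [mem_Ulow] at *
  intro β hβ
  have := X_expand (b := b) β (h.toLinearEquiv : N →ₗ[ℚ] N) (fun e => hb.X_map_inr h β e) x
  refine this.trans (Finset.sum_eq_zero fun a _ => ?_)
  by_cases h1 : d ≤ dg G a
  · rw [hx a h1, zero_mul]
  · have : X b β (h (b (Sum.inl a))) = 0 := by
      by_contra h2
      have := hb.dg_le_of_entry h a β h2
      omega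
    show _ * X b β (h (b (Sum.inl a))) = 0
    rw [this, mul_zero]

theorem GLie.exists_entry (hb : GLie G b) (h : N ≃ₗ⁅ℚ⁆ N) (α : Fin n) :
    ∃ γ, dg G γ = dg G α ∧ X b γ (h (b (Sum.inl α))) ≠ 0 := by
  by_contra hcon
  push Not at hcon
  have h1 : h (b (Sum.inl α)) ∈ Ulow b (dg G α) := by
    rw [mem_Ulow]
    intro β hβ
    by_contra h2
    have h3 := hb.dg_le_of_entry h α β h2
    exact h2 (hcon β (le_antisymm h3 hβ))
  have h2 := hb.map_Ulow h.symm _ _ h1
  rw [LieEquiv.symm_apply_apply, mem_Ulow] at h2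
  have := h2 α le_rfl
  rw [X_inl, if_pos rfl] at this
  exact one_ne_zero this

theorem GLie.key (hb : GLie G b) (h : N ≃ₗ⁅ℚ⁆ N) (α : Fin n) :
    ∃ γ, dg G γ = dg G α ∧ ∀ x ∈ Pcl b α, h x ∈ Pcl b γ := by
  obtain ⟨γ, hγ, hne⟩ := hb.exists_entry h α
  refine ⟨γ, hγ, fun x hx => ?_⟩
  rw [mem_Pcl] at *
  intro β hβ hcβ
  have := X_expand (b := b) β (h.toLinearEquiv : N →ₗ[ℚ] N) (fun e => hb.X_map_inr h β e) x
  refine this.trans (Finset.sum_eq_zero fun a _ => ?_)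
  show _ * X b β (h (b (Sum.inl a))) = 0
  by_cases h1 : X b a x = 0
  · rw [h1, zero_mul]
  by_cases h2 : X b β (h (b (Sum.inl a))) = 0
  · rw [h2, mul_zero]
  exfalso
  have h3 := hb.dg_le_of_entry h a β h2
  have h4 : Coh G α a := by
    by_contra h4
    exact h1 (hx a (by omega) h4)
  have h5 := dg_eq_of_coh h4
  exact hcβ (hb.coh_of_entry h α a γ β h4 hne h2 hγ (by omega))

theorem Pcl_eq_of_coh {α β : Fin n} (h : Coh G α β) : Pcl b α = Pcl b β := by
  ext x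
  rw [mem_Pcl, mem_Pcl, dg_eq_of_coh h]
  exact ⟨fun hx γ h1 h2 => hx γ h1 (fun h3 => h2 (h.symm.trans h3)),
    fun hx γ h1 h2 => hx γ h1 (fun h3 => h2 (h.trans h3))⟩

/-- iterate of a Lie automorphism -/
def lpow (f : N ≃ₗ⁅ℚ⁆ N) : ℕ → (N ≃ₗ⁅ℚ⁆ N)
  | 0 => LieEquiv.refl
  | k + 1 => (lpow f k).trans f

theorem lpow_apply (f : N ≃ₗ⁅ℚ⁆ N) (k : ℕ) (x : N) : lpow f k x = (⇑f)^[k] x := by
  induction k generalizing x with
  | zero => rfl
  | succ k ih =>
    rw [Function.iterate_succ_apply']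
    show (lpow f k).trans f x = _
    rw [LieEquiv.trans_apply, ih]

/-- some power of an automorphism preserves the class of `α` modulo low degree -/
theorem GLie.exists_pow (hb : GLie G b) (f : N ≃ₗ⁅ℚ⁆ N) (α : Fin n) :
    ∃ m : ℕ, 1 ≤ m ∧ ∀ x ∈ Pcl b α, lpow f m x ∈ Pcl b α := by
  choose γ hγ hP using fun k => hb.key (lpow f k) α
  obtain ⟨i, j, hij, hγij⟩ := Finite.exists_ne_map_eq_of_infinite γ
  wlog hlt : i < j generalizing i j with H
  · exact H j i hij.symm hγij.symm (lt_of_le_of_ne (not_lt.1 hlt) hij.symm)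
  obtain ⟨ν, hν, hPν⟩ := hb.key (lpow f i).symm (γ i)
  have h1 : Coh G ν α := by
    have hα : b (Sum.inl α) ∈ Pcl b α := by
      rw [mem_Pcl]
      intro β _ hc
      rw [X_inl, if_neg]
      rintro rfl
      exact hc (Coh.refl G _)
    have h2 := hPν _ (hP i _ hα)
    rw [LieEquiv.symm_apply_apply, mem_Pcl] at h2
    by_contra h3
    have := h2 α (by rw [hν, hγ]) h3
    rw [X_inl, if_pos rfl] at this
    exact one_ne_zero this
  refine ⟨j - i, by omega, fun x hx => ?_⟩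
  have h2 := hP j x hx
  rw [← hγij] at h2
  have h3 := hPν _ h2
  rw [Pcl_eq_of_coh h1] at h3
  have h4 : (lpow f i).symm (lpow f j x) = lpow f (j - i) x := by
    rw [LieEquiv.symm_apply_eq, lpow_apply, lpow_apply, lpow_apply, ← Function.iterate_add_apply]
    congr 1
    congr 1
    omega
  rwa [h4] at h3

end

end Pool.Agent.U700
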