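import Mathlib
import Pool.Agent.U700.PartA2

set_option autoImplicit false

namespace Pool.Agent.U700

open Polynomial

/-- an eigenvalue seen modulo an invariant subspace -/
theorem exists_eigen {N : Type} [AddCommGroup N] [Module ℚ N] [FiniteDimensional ℚ N]
    (g : N →ₗ[ℚ] N) (U : Submodule ℚ N) (hU : ∀ x ∈ U, g x ∈ U) (x : N) (hx : x ∉ U) (q : ℚ)
    (hq : g x - q • x ∈ U) : ∃ y, y ≠ 0 ∧ g y = q • y := by
  by_contra hcon
  push Not at hcon
  let k : N →ₗ[ℚ] N := g - q • LinearMap.id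
  have hk : ∀ y, k y = g y - q • y := fun y => rfl
  have hinj : Function.Injective k := by
    rw [injective_iff_map_eq_zero]
    intro y hy
    by_contra h
    exact hcon y h (sub_eq_zero.1 ((hk y).symm.trans hy))
  have hkU : ∀ y ∈ U, k y ∈ U := fun y hy =>
    (hk y).symm ▸ U.sub_mem (hU y hy) (U.smul_mem q hy)
  -- `k` is onto on `U`
  have hsurj : Function.Surjective (k.restrict hkU) := by
    apply LinearMap.surjective_of_injective
    intro a c hac
    exact Subtype.ext (hinj (congrArg Subtype.val hac))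
  obtain ⟨u, hu⟩ := hsurj ⟨k x, (hk x).symm ▸ hq⟩
  have : k u.1 = k x := congrArg Subtype.val hu
  exact hx (hinj this ▸ u.2)

theorem integral_unit_root {p : ℤ[X]} (hp : p.Monic) (h0 : p.coeff 0 = 1 ∨ p.coeff 0 = -1)
    {z : ℂ} (hz : aeval z p = 0) : IsIntegral ℤ z ∧ IsIntegral ℤ z⁻¹ ∧ z ≠ 0 := by
  have h1 : IsIntegral ℤ z := ⟨p, hp, hz⟩
  have h2 : IsIntegral ℤ (aeval z p.divX) := by
    have := (aeval (⟨z, h1⟩ : integralClosure ℤ ℂ) p.divX).2
    have e : ((aeval (⟨z, h1⟩ : integralClosure ℤ ℂ) p.divX : integralClosure ℤ ℂ) : ℂ)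
        = aeval z p.divX := by
      rw [← Subalgebra.coe_val, ← Polynomial.aeval_algHom_apply]
      rfl
    rw [e] at this
    exact this
  have h3 : aeval z p.divX * z + ((p.coeff 0 : ℤ) : ℂ) = 0 := by
    have := congrArg (aeval z) (Polynomial.divX_mul_X_add p)
    rw [hz, map_add, map_mul, aeval_X, aeval_C] at this
    simpa using this
  have hz0 : z ≠ 0 := by
    rintro rfl
    rw [mul_zero, zero_add] at h3
    rcases h0 with h | h <;> rw [h] at h3 <;> norm_num at h3
  refine ⟨h1, ?_, hz0⟩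
  rcases h0 with h | h
  · have : z⁻¹ = - aeval z p.divX := by
      rw [h] at h3
      field_simp
      push_cast at h3
      linear_combination h3
    rw [this]
    exact h2.neg
  · have : z⁻¹ = aeval z p.divX := by
      rw [h] at h3
      field_simp
      push_cast at h3
      linear_combination -h3
    rw [this]
    exact h2

theorem rat_unit_of_integral {q : ℚ} (h1 : IsIntegral ℤ (q : ℂ)) (h2 : IsIntegral ℤ ((q : ℂ)⁻¹))
    (hq : q ≠ 0) : |q| = 1 := by
  have h1' : IsIntegral ℤ q := (isIntegral_algebraMap_iff (algebraMap ℚ ℂ).injective).1 (by simpa using h1)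
  have h2' : IsIntegral ℤ q⁻¹ := (isIntegral_algebraMap_iff (algebraMap ℚ ℂ).injective).1 (by simpa using h2)
  obtain ⟨a, ha⟩ := IsIntegrallyClosed.isIntegral_iff.1 h1'
  obtain ⟨c, hc⟩ := IsIntegrallyClosed.isIntegral_iff.1 h2'
  have h3 : a * c = 1 := by
    have : (a : ℚ) * (c : ℚ) = 1 := by
      have ha' : (a : ℚ) = q := ha
      have hc' : (c : ℚ) = q⁻¹ := hc
      rw [ha', hc', mul_inv_cancel₀ hq]
    exact_mod_cast this
  have h4 : IsUnit a := IsUnit.of_mul_eq_one c h3
  have ha' : (a : ℚ) = q := ha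
  rcases Int.isUnit_iff.1 h4 with h | h <;> rw [← ha', h] <;> norm_num

theorem no_rational_eigenvalue {N : Type} [AddCommGroup N] [Module ℚ N] [FiniteDimensional ℚ N]
    (f : N →ₗ[ℚ] N) (p : ℤ[X]) (hp : p.map (Int.castRingHom ℚ) = f.charpoly)
    (h0 : p.coeff 0 = 1 ∨ p.coeff 0 = -1)
    (hroot : ∀ z : ℂ, (p.map (Int.castRingHom ℂ)).IsRoot z → ‖z‖ ≠ 1)
    (m : ℕ) (hm : 1 ≤ m) (q : ℚ) (y : N) (hy : y ≠ 0) (hq : (f ^ m) y = q • y) : False := by
  have hmonic : p.Monic := by
    refine monic_of_injective (f := Int.castRingHom ℚ) (RingHom.injective_int _) ?_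
    rw [hp]; exact f.charpoly_monic
  have hnc : ¬ IsCoprime (p.map (Int.castRingHom ℚ)) (Polynomial.X ^ m - C q) := by
    rintro ⟨a, c, hac⟩
    have h1 : aeval f (a * p.map (Int.castRingHom ℚ) + c * (Polynomial.X ^ m - C q)) y = y := by
      rw [hac]; simp
    have h2 : aeval f (p.map (Int.castRingHom ℚ)) = 0 := by
      rw [hp]; exact LinearMap.aeval_self_charpoly f
    have h3 : aeval f (Polynomial.X ^ m - C q) y = 0 := by
      rw [map_sub, map_pow, aeval_X, aeval_C, LinearMap.sub_apply, hq]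
      simp
    rw [map_add, map_mul, map_mul, h2, mul_zero, zero_add] at h1
    rw [Module.End.mul_apply, h3, map_zero] at h1
    exact hy h1.symm
  rw [isCoprime_iff_aeval_ne_zero_of_isAlgClosed ℚ ℂ] at hnc
  push Not at hnc
  obtain ⟨z, hz1, hz2⟩ := hnc
  have hz1' : aeval z p = 0 := by
    have : aeval z (p.map (Int.castRingHom ℚ)) = aeval z p := by
      rw [← algebraMap_int_eq, aeval_map_algebraMap]
    rw [← this]; exact hz1
  have hz3 : z ^ m = (q : ℂ) := by
    rw [map_sub, map_pow, aeval_X, aeval_C] at hz2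
    simpa [sub_eq_zero] using hz2
  obtain ⟨i1, i2, hz0⟩ := integral_unit_root hmonic h0 hz1'
  have hq0 : q ≠ 0 := by
    rintro rfl
    have : z ^ m ≠ 0 := pow_ne_zero _ hz0
    exact this (by simpa using hz3)
  have h5 : |q| = 1 := by
    refine rat_unit_of_integral ?_ ?_ hq0
    · rw [← hz3]; exact i1.pow m
    · rw [← hz3, ← inv_pow]; exact i2.pow m
  have h6 : ‖z‖ ^ m = 1 := by
    rw [← norm_pow, hz3]
    rw [show ((q : ℚ) : ℂ) = ((q : ℝ) : ℂ) by norm_cast, Complex.norm_real, Real.norm_eq_abs]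
    exact_mod_cast h5
  have h7 : ‖z‖ = 1 := by
    exact (pow_eq_one_iff_of_nonneg (norm_nonneg z) (by omega)).1 h6
  refine hroot z ?_ h7
  rw [IsRoot.def, eval_map, ← algebraMap_int_eq]
  exact hz1'

section
variable {n : ℕ} {G : SimpleGraph (Fin n)} {N : Type} [LieRing N] [LieAlgebra ℚ N]
    {b : Module.Basis (Fin n ⊕ G.edgeSet) ℚ N} [FiniteDimensional ℚ N]

theorem pow_eq_lpow (f : N ≃ₗ⁅ℚ⁆ N) (m : ℕ) (x : N) :
    ((f.toLinearEquiv.toLinearMap) ^ m) x = lpow f m x := by
  rw [lpow_apply, Module.End.pow_apply]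
  rfl

theorem GLie.A1 (hb : GLie G b) (f : N ≃ₗ⁅ℚ⁆ N) (p : ℤ[X])
    (hp : p.map (Int.castRingHom ℚ) = LinearMap.charpoly f.toLinearEquiv.toLinearMap)
    (h0 : p.coeff 0 = 1 ∨ p.coeff 0 = -1)
    (hroot : ∀ z : ℂ, (p.map (Int.castRingHom ℂ)).IsRoot z → ‖z‖ ≠ 1) (α : Fin n) :
    ∃ β, β ≠ α ∧ Coh G α β := by
  by_contra hcon
  push Not at hcon
  obtain ⟨m, hm, hP⟩ := hb.exists_pow f α
  have hα : b (Sum.inl α) ∈ Pcl b α := by
    rw [mem_Pcl]
    intro β _ hc
    rw [X_inl, if_neg]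
    rintro rfl
    exact hc (Coh.refl G _)
  obtain ⟨y, hy, hyq⟩ := exists_eigen (f.toLinearEquiv.toLinearMap ^ m) (Ulow b (dg G α))
    (fun x hx => by rw [pow_eq_lpow]; exact hb.map_Ulow _ _ _ hx) (b (Sum.inl α))
    (by
      rw [mem_Ulow]
      intro h
      have := h α le_rfl
      rw [X_inl, if_pos rfl] at this
      exact one_ne_zero this)
    (X b α (lpow f m (b (Sum.inl α))))
    (by
      rw [pow_eq_lpow, mem_Ulow]
      intro β hβ
      rw [map_sub, map_smul, X_inl]
      by_cases h : β = α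
      · subst h; simp
      · rw [if_neg (Ne.symm h)]
        have := (mem_Pcl.1 (hP _ hα)) β hβ (hcon β h)
        rw [this]; simp)
  exact no_rational_eigenvalue _ p hp h0 hroot m hm _ y hy hyq

theorem GLie.A2 (hb : GLie G b) (f : N ≃ₗ⁅ℚ⁆ N) (p : ℤ[X])
    (hp : p.map (Int.castRingHom ℚ) = LinearMap.charpoly f.toLinearEquiv.toLinearMap)
    (h0 : p.coeff 0 = 1 ∨ p.coeff 0 = -1)
    (hroot : ∀ z : ℂ, (p.map (Int.castRingHom ℂ)).IsRoot z → ‖z‖ ≠ 1) (α β : Fin n)
    (hadj : G.Adj α β) (hcoh : Coh G α β) :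
    ∃ γ, γ ≠ α ∧ γ ≠ β ∧ Coh G α γ := by
  by_contra hcon
  push Not at hcon
  have hαβ : α ≠ β := G.ne_of_adj hadj
  have hdg := dg_eq_of_coh hcoh
  obtain ⟨m, hm, hP⟩ := hb.exists_pow f α
  have hmem : ∀ γ, Coh G α γ → b (Sum.inl γ) ∈ Pcl b α := by
    intro γ hγ
    rw [mem_Pcl]
    intro δ _ hc
    rw [X_inl, if_neg]
    rintro rfl
    exact hc hγ
  set h := lpow f m with hh
  set x := h (b (Sum.inl α)) with hx
  set y := h (b (Sum.inl β)) with hy
  have hxP : x ∈ Pcl b α := hP _ (hmem α (Coh.refl G α))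
  have hyP : y ∈ Pcl b α := hP _ (hmem β hcoh)
  set q : ℚ := X b α x * X b β y - X b β x * X b α y with hq
  let W : Submodule ℚ N := Submodule.span ℚ {w | ∃ (z : N) (u : N), u ∈ Ulow b (dg G α) ∧ w = ⁅z, u⁆}
  obtain ⟨l, hl⟩ := hb.exists_fun α β hadj
  have hdec : ∀ z ∈ Pcl b α,
      z - X b α z • b (Sum.inl α) - X b β z • b (Sum.inl β) ∈ Ulow b (dg G α) := by
    intro z hz
    rw [mem_Ulow]
    intro γ hγ
    rw [map_sub, map_sub, map_smul, map_smul, X_inl, X_inl]
    by_cases h1 : γ = α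
    · subst h1; simp [hαβ.symm]
    by_cases h2 : γ = β
    · subst h2; simp [hαβ]
    rw [(mem_Pcl.1 hz) γ hγ (hcon γ h1 h2), if_neg (Ne.symm h1), if_neg (Ne.symm h2)]
    simp
  obtain ⟨v, hv, hvq⟩ := exists_eigen (f.toLinearEquiv.toLinearMap ^ m) W
    (by
      intro w hw
      rw [pow_eq_lpow]
      induction hw using Submodule.span_induction with
      | mem w hw =>
        obtain ⟨z, u, hu, rfl⟩ := hw
        rw [LieEquiv.map_lie]
        exact Submodule.subset_span ⟨_, _, hb.map_Ulow _ _ _ hu, rfl⟩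
      | zero => rw [map_zero]; exact W.zero_mem
      | add w w' _ _ h1 h2 => rw [map_add]; exact W.add_mem h1 h2
      | smul c w _ h1 => rw [map_smul]; exact W.smul_mem c h1)
    ⁅b (Sum.inl α), b (Sum.inl β)⁆
    (by
      intro hmem
      have h1 : ∀ w ∈ W, l w = 0 := by
        intro w hw
        induction hw using Submodule.span_induction with
        | mem w hw =>
          obtain ⟨z, u, hu, rfl⟩ := hw
          rw [hl, mem_Ulow.1 hu α le_rfl, mem_Ulow.1 hu β hdg.le]
          ring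
        | zero => exact map_zero _
        | add w w' _ _ h1 h2 => rw [map_add, h1, h2, add_zero]
        | smul c w _ h1 => rw [map_smul, h1, smul_zero]
      have h2 := h1 _ hmem
      rw [hl, X_inl, X_inl, X_inl, X_inl] at h2
      simp [hαβ, hαβ.symm] at h2)
    q
    (by
      rw [pow_eq_lpow, LieEquiv.map_lie]
      change ⁅x, y⁆ - q • ⁅b (Sum.inl α), b (Sum.inl β)⁆ ∈ W
      have hu := hdec x hxP
      have hu' := hdec y hyP
      set u := x - X b α x • b (Sum.inl α) - X b β x • b (Sum.inl β) with hu_def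
      set u' := y - X b α y • b (Sum.inl α) - X b β y • b (Sum.inl β) with hu'_def
      have ex : x = X b α x • b (Sum.inl α) + X b β x • b (Sum.inl β) + u := by
        rw [hu_def]; abel
      have ey : y = X b α y • b (Sum.inl α) + X b β y • b (Sum.inl β) + u' := by
        rw [hu'_def]; abel
      have e1 : ⁅x, y⁆ - q • ⁅b (Sum.inl α), b (Sum.inl β)⁆ =
          ⁅X b α x • b (Sum.inl α) + X b β x • b (Sum.inl β), u'⁆ - ⁅y, u⁆ := by
        have e2 : ⁅x, y⁆ = ⁅X b α x • b (Sum.inl α) + X b β x • b (Sum.inl β), y⁆ - ⁅y, u⁆ := by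
          conv_lhs => rw [ex]
          rw [add_lie, ← lie_skew u y, sub_eq_add_neg]
        rw [e2]
        have e3 : ⁅X b α x • b (Sum.inl α) + X b β x • b (Sum.inl β), y⁆ =
            q • ⁅b (Sum.inl α), b (Sum.inl β)⁆ +
            ⁅X b α x • b (Sum.inl α) + X b β x • b (Sum.inl β), u'⁆ := by
          conv_lhs => rw [ey]
          rw [lie_add, add_left_inj]
          rw [add_lie, lie_add, lie_add, smul_lie, smul_lie, smul_lie, smul_lie, lie_smul,
            lie_smul, lie_smul, lie_smul, lie_self, lie_self,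
            ← lie_skew (b (Sum.inl β)) (b (Sum.inl α)), hq]
          module
        rw [e3]
        abel
      rw [e1]
      refine W.sub_mem ?_ ?_
      · exact Submodule.subset_span ⟨_, _, hu', rfl⟩
      · exact Submodule.subset_span ⟨_, _, hu, rfl⟩)
  exact no_rational_eigenvalue _ p hp h0 hroot m hm _ v hv hvq

end

end Pool.Agent.U700
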