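import Mathlib
import Pool.Agent.U700.PartA2

set_option autoImplicit false
open scoped TensorProduct

namespace Pool.Agent.U700

/-- the span of all brackets -/
def brSub (A Q : Type) [Field A] [LieRing Q] [LieAlgebra A Q] : Submodule A Q :=
  Submodule.span A {z | ∃ x y : Q, ⁅x, y⁆ = z}

section
variable {M : Type} [LieRing M] [LieAlgebra ℚ M]

theorem brSub_baseChange (A : Type) [Field A] [Algebra ℚ A] :
    brSub A (A ⊗[ℚ] M) = (brSub ℚ M).baseChange A := by
  unfold brSub
  rw [Submodule.baseChange_span]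
  refine le_antisymm (Submodule.span_le.2 ?_) (Submodule.span_mono ?_)
  · rintro _ ⟨x, y, rfl⟩
    induction x using TensorProduct.induction_on with
    | zero => rw [zero_lie]; exact Submodule.zero_mem _
    | tmul r m =>
      induction y using TensorProduct.induction_on with
      | zero => rw [lie_zero]; exact Submodule.zero_mem _
      | tmul s m' =>
        rw [LieAlgebra.ExtendScalars.bracket_tmul, ← mul_one (r * s), ← smul_eq_mul,
          ← TensorProduct.smul_tmul']
        exact Submodule.smul_mem _ _ (Submodule.subset_span ⟨⁅m, m'⁆, ⟨m, m', rfl⟩, rfl⟩)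
      | add a b ha hb => rw [lie_add]; exact Submodule.add_mem _ ha hb
    | add a b ha hb => rw [add_lie]; exact Submodule.add_mem _ ha hb
  · rintro _ ⟨_, ⟨m, m', rfl⟩, rfl⟩
    exact ⟨1 ⊗ₜ m, 1 ⊗ₜ m', by
      rw [LieAlgebra.ExtendScalars.bracket_tmul, mul_one]; rfl⟩

theorem finrank_brSub_baseChange (A : Type) [Field A] [Algebra ℚ A] [FiniteDimensional ℚ M] :
    Module.finrank A (brSub A (A ⊗[ℚ] M)) = Module.finrank ℚ (brSub ℚ M) := by
  rw [brSub_baseChange, ← (Submodule.toBaseChange.toLinearEquiv A (brSub ℚ M)).finrank_eq,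
    Module.finrank_baseChange]

theorem finrank_brSub_equiv {A Q Q' : Type} [Field A] [LieRing Q] [LieAlgebra A Q] [LieRing Q']
    [LieAlgebra A Q'] (Φ : Q ≃ₗ⁅A⁆ Q') :
    Module.finrank A (brSub A Q) = Module.finrank A (brSub A Q') := by
  have h : brSub A Q' = (brSub A Q).map (Φ.toLinearEquiv : Q →ₗ[A] Q') := by
    unfold brSub
    rw [Submodule.map_span]
    congr 1
    ext z
    constructor
    · rintro ⟨x, y, rfl⟩
      refine ⟨⁅Φ.symm x, Φ.symm y⁆, ⟨_, _, rfl⟩, ?_⟩
      show Φ ⁅Φ.symm x, Φ.symm y⁆ = ⁅x, y⁆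
      rw [LieEquiv.map_lie, LieEquiv.apply_symm_apply, LieEquiv.apply_symm_apply]
    · rintro ⟨_, ⟨x, y, rfl⟩, rfl⟩
      exact ⟨Φ x, Φ y, (LieEquiv.map_lie Φ x y).symm⟩
  rw [h]
  exact (LinearEquiv.finrank_map_eq Φ.toLinearEquiv _).symm

end

section
variable {n : ℕ} {G : SimpleGraph (Fin n)} {N : Type} [LieRing N] [LieAlgebra ℚ N]
    {b : Module.Basis (Fin n ⊕ G.edgeSet) ℚ N}

theorem GLie.brSub_eq (hb : GLie G b) [FiniteDimensional ℚ N] :
    brSub ℚ N = Submodule.span ℚ (Set.range fun e : G.edgeSet => b (Sum.inr e)) := by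
  classical
  have : Fintype G.edgeSet := Fintype.ofFinite _
  refine le_antisymm (Submodule.span_le.2 ?_) (Submodule.span_le.2 ?_)
  · rintro _ ⟨x, y, rfl⟩
    have h : ∀ i j, ⁅b i, b j⁆ ∈ Submodule.span ℚ
        (Set.range fun e : G.edgeSet => b (Sum.inr e)) := by
      intro k m
      rcases k with k | e
      · rcases m with m | e
        · by_cases hkm : G.Adj k m
          · rcases lt_or_gt_of_ne (G.ne_of_adj hkm) with hlt' | hlt'
            · rw [hb.adj k m hkm hlt']
              exact Submodule.subset_span ⟨_, rfl⟩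
            · rw [← lie_skew, hb.adj m k hkm.symm hlt']
              exact Submodule.neg_mem _ (Submodule.subset_span ⟨_, rfl⟩)
          · rw [hb.nadj k m hkm]
            exact Submodule.zero_mem _
        · rw [hb.cen']
          exact Submodule.zero_mem _
      · rw [hb.cen]
        exact Submodule.zero_mem _
    rw [← b.sum_repr x, ← b.sum_repr y, sum_lie]
    refine Submodule.sum_mem _ fun i _ => ?_
    rw [lie_sum]
    refine Submodule.sum_mem _ fun j _ => ?_
    rw [smul_lie, lie_smul]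
    exact Submodule.smul_mem _ _ (Submodule.smul_mem _ _ (h i j))
  · rintro _ ⟨e, rfl⟩
    obtain ⟨i, j, _, _, _, h⟩ := hb.edge_eq_lie e
    exact Submodule.subset_span ⟨_, _, h.symm⟩

theorem GLie.finrank_brSub (hb : GLie G b) [Fintype G.edgeSet] [FiniteDimensional ℚ N] :
    Module.finrank ℚ (brSub ℚ N) = Fintype.card G.edgeSet := by
  rw [hb.brSub_eq, finrank_span_eq_card]
  exact b.linearIndependent.comp _ Sum.inr_injective

theorem GLie.finrank_form (hb : GLie G b) [Fintype G.edgeSet] [FiniteDimensional ℚ N] {M : Type}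
    [LieRing M] [LieAlgebra ℚ M] [FiniteDimensional ℚ M]
    (Φ : (ℝ ⊗[ℚ] M) ≃ₗ⁅ℝ⁆ (ℝ ⊗[ℚ] N)) :
    Module.finrank ℚ (brSub ℚ M) = Fintype.card G.edgeSet ∧
      Module.finrank ℚ M = Fintype.card (Fin n ⊕ G.edgeSet) := by
  constructor
  · rw [← finrank_brSub_baseChange ℝ, finrank_brSub_equiv Φ, finrank_brSub_baseChange,
      hb.finrank_brSub]
  · rw [← Module.finrank_baseChange (R := ℝ) (S := ℚ) (M' := M), Φ.toLinearEquiv.finrank_eq,
      Module.finrank_baseChange, Module.finrank_eq_card_basis b]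

end

end Pool.Agent.U700
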