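import Mathlib

set_option autoImplicit false

namespace Pool.Agent.U700

/-- low order part of the weight of a vertex -/
def r2 {n : ℕ} (s : Finset (Fin n)) : ℕ := ∑ a ∈ s, 2 ^ a.1

theorem r2_eq {n : ℕ} (s : Finset (Fin n)) :
    r2 s = ∑ k ∈ s.map Fin.valEmbedding, 2 ^ k := by
  simp [r2, Finset.sum_map]

theorem r2_inj {n : ℕ} {s t : Finset (Fin n)} (h : r2 s = r2 t) : s = t := by
  rw [r2_eq, r2_eq] at h
  exact Finset.map_injective _ (Finset.geomSum_injective le_rfl h)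

theorem r2_lt {n : ℕ} (s : Finset (Fin n)) : r2 s < 2 ^ n := by
  rw [r2_eq]
  refine Nat.geomSum_lt le_rfl ?_
  intro k hk
  simp only [Finset.mem_map, Fin.valEmbedding_apply] at hk
  obtain ⟨a, _, rfl⟩ := hk
  exact a.2

/-- weights of the vertices -/
def dS (n : ℕ) (a : Fin n) : ℕ := 2 ^ (n + 2) + 2 ^ a.1

theorem sum_dS {n : ℕ} (s : Finset (Fin n)) :
    ∑ a ∈ s, dS n a = s.card * 2 ^ (n + 2) + r2 s := by
  simp [dS, r2, Finset.sum_add_distrib]

theorem sum_dS_inj {n : ℕ} {s t : Finset (Fin n)}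
    (h : ∑ a ∈ s, dS n a = ∑ a ∈ t, dS n a) : s = t := by
  rw [sum_dS, sum_dS] at h
  apply r2_inj
  have h1 := r2_lt s
  have h2 := r2_lt t
  have h3 : 2 ^ n < 2 ^ (n + 2) := Nat.pow_lt_pow_right (by norm_num) (by omega)
  have h4 : r2 s < 2 ^ (n + 2) := h1.trans h3
  have h5 : r2 t < 2 ^ (n + 2) := h2.trans h3
  have h6 := congrArg (· % 2 ^ (n + 2)) h
  simpa [Nat.add_mod, Nat.mod_eq_of_lt h4, Nat.mod_eq_of_lt h5] using h6

/-- the weights of vertices and edges -/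
def wt {n : ℕ} (G : SimpleGraph (Fin n)) : Fin n ⊕ G.edgeSet → ℕ
  | Sum.inl a => dS n a
  | Sum.inr e => Sym2.lift ⟨fun a b => dS n a + dS n b, fun _ _ => add_comm _ _⟩ e.1

theorem wt_inl {n : ℕ} (G : SimpleGraph (Fin n)) (a : Fin n) : wt G (Sum.inl a) = dS n a := rfl

theorem wt_inr {n : ℕ} (G : SimpleGraph (Fin n)) (a b : Fin n) (h : s(a, b) ∈ G.edgeSet) :
    wt G (Sum.inr ⟨s(a, b), h⟩) = dS n a + dS n b := rfl

theorem dS_pair {n : ℕ} {a b : Fin n} (h : a ≠ b) :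
    dS n a + dS n b = 2 * 2 ^ (n + 2) + r2 {a, b} := by
  rw [← Finset.sum_pair (f := dS n) h, sum_dS, Finset.card_pair h]

/-- shape of all weights -/
theorem wt_shape {n : ℕ} (G : SimpleGraph (Fin n)) (i : Fin n ⊕ G.edgeSet) :
    (∃ a, i = Sum.inl a ∧ wt G i = 1 * 2 ^ (n + 2) + r2 {a}) ∨
    (∃ a b, ∃ h : G.Adj a b, i = Sum.inr ⟨s(a, b), G.mem_edgeSet.mpr h⟩ ∧
      wt G i = 2 * 2 ^ (n + 2) + r2 {a, b}) := by
  rcases i with a | ⟨e, he⟩
  · left
    refine ⟨a, rfl, ?_⟩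
    simp [wt_inl, dS, r2]
  · right
    induction e using Sym2.ind with
    | _ a b =>
      have h : G.Adj a b := G.mem_edgeSet.1 he
      exact ⟨a, b, h, rfl, by rw [wt_inr, dS_pair (G.ne_of_adj h)]⟩

theorem pow_bound (n : ℕ) : 2 ^ (n + 2) = 4 * 2 ^ n := by rw [pow_add]; ring

theorem wt_inj {n : ℕ} (G : SimpleGraph (Fin n)) : Function.Injective (wt G) := by
  intro i j hij
  have hK := pow_bound n
  rcases wt_shape G i with ⟨a, rfl, hi⟩ | ⟨a, b, hab, rfl, hi⟩ <;>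
    rcases wt_shape G j with ⟨c, rfl, hj⟩ | ⟨c, d, hcd, rfl, hj⟩
  · rw [hi, hj] at hij
    have : r2 {a} = r2 {c} := by omega
    have := r2_inj this
    rw [Finset.singleton_inj] at this
    rw [this]
  · exfalso
    rw [hi, hj] at hij
    have h1 := r2_lt {a}
    have h2 := r2_lt {c, d}
    omega
  · exfalso
    rw [hi, hj] at hij
    have h1 := r2_lt {c}
    have h2 := r2_lt {a, b}
    omega
  · rw [hi, hj] at hij
    have : r2 {a, b} = r2 {c, d} := by omega
    have := r2_inj this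
    congr 2
    have h5 : ({a, b} : Set (Fin n)) = {c, d} := by
      have := congrArg (fun s : Finset (Fin n) => (s : Set (Fin n))) this
      simpa using this
    rw [Sym2.eq_iff]
    exact Set.pair_eq_pair_iff.1 h5

theorem wt_add {n : ℕ} (G : SimpleGraph (Fin n)) (i j k : Fin n ⊕ G.edgeSet)
    (h : wt G i + wt G j = wt G k) :
    ∃ a b, ∃ h : G.Adj a b, i = Sum.inl a ∧ j = Sum.inl b ∧
      k = Sum.inr ⟨s(a, b), G.mem_edgeSet.mpr h⟩ := by
  have hK := pow_bound n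
  rcases wt_shape G i with ⟨a, rfl, hi⟩ | ⟨a, b, hab, rfl, hi⟩ <;>
    rcases wt_shape G j with ⟨c, rfl, hj⟩ | ⟨c, d, hcd, rfl, hj⟩ <;>
      rcases wt_shape G k with ⟨x, rfl, hk⟩ | ⟨x, y, hxy, rfl, hk⟩ <;>
        rw [hi, hj, hk] at h
  · exfalso
    have h1 := r2_lt {a}
    have h2 := r2_lt {c}
    have h3 := r2_lt {x}
    omega
  · have h1 : r2 {a} + r2 {c} = r2 {x, y} := by omega
    have hne : a ≠ c := by
      rintro rfl
      rw [r2_eq, r2_eq, Finset.map_singleton, Finset.sum_singleton] at h1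
      have h2 : ∑ k ∈ ({a.1 + 1} : Finset ℕ), 2 ^ k =
          ∑ k ∈ ({x, y} : Finset (Fin n)).map Fin.valEmbedding, 2 ^ k := by
        rw [← h1, Finset.sum_singleton, pow_succ, Fin.valEmbedding_apply]; ring
      have h3 := congrArg Finset.card (Finset.geomSum_injective le_rfl h2)
      rw [Finset.card_singleton, Finset.card_map, Finset.card_pair (G.ne_of_adj hxy)] at h3
      omega
    have h2 : r2 {a, c} = r2 {x, y} := by
      rw [← h1]
      simp [r2, Finset.sum_pair hne]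
    have h3 := r2_inj h2
    have h5 : ({a, c} : Set (Fin n)) = {x, y} := by
      have := congrArg (fun s : Finset (Fin n) => (s : Set (Fin n))) h3
      simpa using this
    rcases Set.pair_eq_pair_iff.1 h5 with ⟨rfl, rfl⟩ | ⟨rfl, rfl⟩
    · exact ⟨a, c, hxy, rfl, rfl, rfl⟩
    · exact ⟨a, c, hxy.symm, rfl, rfl, by congr 2; exact Sym2.eq_swap⟩
  all_goals
    exfalso
    have h1 := r2_lt {a}
    have h2 := r2_lt {c}
    try have h3 := r2_lt {x}
    try have h4 := r2_lt {x, y}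
    try have h5 := r2_lt {a, b}
    try have h6 := r2_lt {c, d}
    omega

end Pool.Agent.U700
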