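import Mathlib
import Pool.Agent.U700.PartA
import Pool.Agent.U700.Weights

set_option autoImplicit false
open scoped TensorProduct

namespace Pool.Agent.U700

/-- finitely many reals can be approximated by the values of one `ℚ`-linear functional -/
theorem exists_approx {ι : Type} [Fintype ι] (x : ι → ℝ) (δ : ℝ) (hδ : 0 < δ) :
    ∃ φ : ℝ →ₗ[ℚ] ℚ, ∀ i, |((φ (x i) : ℚ) : ℝ) - x i| < δ := by
  classical
  let F : Submodule ℚ ℝ := Submodule.span ℚ (Set.range x)
  have : FiniteDimensional ℚ F := FiniteDimensional.span_of_finite ℚ (Set.finite_range x)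
  let B := Module.finBasis ℚ F
  have hxF : ∀ i, x i ∈ F := fun i => Submodule.subset_span ⟨i, rfl⟩
  let c : ι → Fin (Module.finrank ℚ F) → ℚ := fun i t => B.repr ⟨x i, hxF i⟩ t
  let C : ℝ := 1 + ∑ i, ∑ t, |(c i t : ℝ)|
  have hC : 0 < C := by
    have : 0 ≤ ∑ i, ∑ t, |(c i t : ℝ)| :=
      Finset.sum_nonneg fun i _ => Finset.sum_nonneg fun t _ => abs_nonneg _
    show 0 < 1 + _
    linarith
  have hq : ∀ t, ∃ q : ℚ, |(q : ℝ) - (B t : ℝ)| < δ / C := by
    intro t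
    obtain ⟨q, hq1, hq2⟩ := exists_rat_btwn (show (B t : ℝ) < B t + δ / C by
      have := div_pos hδ hC; linarith)
    refine ⟨q, ?_⟩
    rw [abs_of_pos (by linarith)]
    linarith
  choose q hq using hq
  obtain ⟨φ, hφ⟩ := (B.constr ℚ q : F →ₗ[ℚ] ℚ).exists_extend
  refine ⟨φ, fun i => ?_⟩
  have h1 : φ (x i) = ∑ t, c i t * q t := by
    have e : φ (x i) = (B.constr ℚ q : F →ₗ[ℚ] ℚ) ⟨x i, hxF i⟩ := by
      rw [← hφ]; rfl
    rw [e, Module.Basis.constr_apply_fintype]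
    rfl
  have h2 : x i = ∑ t, (c i t : ℝ) * (B t : ℝ) := by
    have := congrArg (Subtype.val) (B.sum_repr ⟨x i, hxF i⟩)
    refine this.symm.trans ?_
    rw [Submodule.coe_sum]
    refine Finset.sum_congr rfl fun t _ => ?_
    rw [Submodule.coe_smul, Rat.smul_def]
  have h3 : ((φ (x i) : ℚ) : ℝ) - x i = ∑ t, (c i t : ℝ) * ((q t : ℝ) - (B t : ℝ)) := by
    rw [h1]
    conv_lhs => rw [h2]
    push_cast
    rw [← Finset.sum_sub_distrib]
    exact Finset.sum_congr rfl fun t _ => by ring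
  rw [h3]
  have h4 : ∑ t, |(c i t : ℝ)| ≤ C - 1 := by
    have : ∑ t, |(c i t : ℝ)| ≤ ∑ i, ∑ t, |(c i t : ℝ)| :=
      Finset.single_le_sum (f := fun i => ∑ t, |(c i t : ℝ)|)
        (fun i _ => Finset.sum_nonneg fun t _ => abs_nonneg _) (Finset.mem_univ i)
    show _ ≤ 1 + _ - 1
    linarith
  calc |∑ t, (c i t : ℝ) * ((q t : ℝ) - (B t : ℝ))|
      ≤ ∑ t, |(c i t : ℝ) * ((q t : ℝ) - (B t : ℝ))| := Finset.abs_sum_le_sum_abs _ _
    _ ≤ ∑ t, |(c i t : ℝ)| * (δ / C) := by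
        refine Finset.sum_le_sum fun t _ => ?_
        rw [abs_mul]
        exact mul_le_mul_of_nonneg_left (hq t).le (abs_nonneg _)
    _ = (∑ t, |(c i t : ℝ)|) * (δ / C) := by rw [Finset.sum_mul]
    _ ≤ (C - 1) * (δ / C) := mul_le_mul_of_nonneg_right h4 (div_pos hδ hC).le
    _ < C * (δ / C) := mul_lt_mul_of_pos_right (by linarith) (div_pos hδ hC)
    _ = δ := by field_simp

section contr
variable {M : Type} [LieRing M] [LieAlgebra ℚ M]

/-- contraction of the scalar factor by a functional -/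
noncomputable def contr (φ : ℝ →ₗ[ℚ] ℚ) : ℝ ⊗[ℚ] M →ₗ[ℚ] M :=
  (TensorProduct.lid ℚ M).toLinearMap ∘ₗ (LinearMap.rTensor M φ)

theorem contr_tmul (φ : ℝ →ₗ[ℚ] ℚ) (r : ℝ) (m : M) : contr φ (r ⊗ₜ m) = φ r • m := by
  simp [contr]

theorem contr_lie (φ : ℝ →ₗ[ℚ] ℚ) (Y : ℝ ⊗[ℚ] M) (m : M) :
    contr φ ⁅Y, (1 : ℝ) ⊗ₜ[ℚ] m⁆ = ⁅contr φ Y, m⁆ := by
  induction Y using TensorProduct.induction_on with
  | zero => simp
  | tmul r m' =>
    rw [LieAlgebra.ExtendScalars.bracket_tmul, contr_tmul, contr_tmul, mul_one, smul_lie]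
  | add a b ha hb => rw [add_lie, map_add, map_add, add_lie, ha, hb]

theorem contr_lie' (φ : ℝ →ₗ[ℚ] ℚ) (Y : ℝ ⊗[ℚ] M) (m : M) :
    contr φ ⁅(1 : ℝ) ⊗ₜ[ℚ] m, Y⁆ = ⁅m, contr φ Y⁆ := by
  rw [← lie_skew, map_neg, contr_lie, lie_skew]

theorem contr_repr (φ : ℝ →ₗ[ℚ] ℚ) {ι : Type} (B : Module.Basis ι ℚ M) (Y : ℝ ⊗[ℚ] M) (i : ι) :
    B.repr (contr φ Y) i = φ ((B.baseChange ℝ).repr Y i) := by
  induction Y using TensorProduct.induction_on with
  | zero => simp
  | tmul r m' =>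
    rw [contr_tmul, Module.Basis.baseChange_repr_tmul, map_smul, map_smul, Finsupp.smul_apply,
      smul_eq_mul, smul_eq_mul, mul_comm]
  | add a b ha hb => rw [map_add, map_add, Finsupp.add_apply, ha, hb, map_add, Finsupp.add_apply,
      map_add]

end contr

section
variable {n : ℕ} {G : SimpleGraph (Fin n)} {N : Type} [LieRing N] [LieAlgebra ℚ N]
    {b : Module.Basis (Fin n ⊕ G.edgeSet) ℚ N}

/-- the grading derivation -/
noncomputable def Dl (b : Module.Basis (Fin n ⊕ G.edgeSet) ℚ N) : N →ₗ[ℚ] N :=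
  b.constr ℚ (fun i => (wt G i : ℚ) • b i)

theorem Dl_apply (i : Fin n ⊕ G.edgeSet) : Dl b (b i) = (wt G i : ℚ) • b i := by
  rw [Dl, Module.Basis.constr_basis]

theorem GLie.Dl_lie (hb : GLie G b) (x y : N) : Dl b ⁅x, y⁆ = ⁅Dl b x, y⁆ + ⁅x, Dl b y⁆ := by
  classical
  have hbas : ∀ k m : Fin n ⊕ G.edgeSet,
      Dl b ⁅b k, b m⁆ = ⁅Dl b (b k), b m⁆ + ⁅b k, Dl b (b m)⁆ := by
    intro k m
    rw [Dl_apply, Dl_apply, smul_lie, lie_smul]
    rcases k with k | e
    · rcases m with m | e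
      · by_cases hkm : G.Adj k m
        · rcases lt_or_gt_of_ne (G.ne_of_adj hkm) with hlt' | hlt'
          · rw [hb.adj k m hkm hlt', Dl_apply, wt_inr, wt_inl, wt_inl, ← add_smul]
            push_cast
            rfl
          · rw [← lie_skew, hb.adj m k hkm.symm hlt', map_neg, Dl_apply, wt_inr, wt_inl, wt_inl,
              ← add_smul]
            push_cast
            rw [smul_neg, add_comm]
        · rw [hb.nadj k m hkm]; simp
      · rw [hb.cen']; simp
    · rw [hb.cen]; simp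
  have e : (LinearMap.mk₂ ℚ (fun x y : N => Dl b ⁅x, y⁆)
      (by intros; simp) (by intros; simp) (by intros; simp) (by intros; simp)) =
      (LinearMap.mk₂ ℚ (fun x y : N => ⁅Dl b x, y⁆ + ⁅x, Dl b y⁆)
        (by intros; simp only [map_add, add_lie]; abel)
        (by intros; simp only [map_smul, smul_lie, smul_add])
        (by intros; simp only [map_add, lie_add]; abel)
        (by intros; simp only [map_smul, lie_smul, smul_add])) := by
    refine b.ext fun k => b.ext fun m => ?_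
    simpa using hbas k m
  have := LinearMap.congr_fun (LinearMap.congr_fun e x) y
  simpa using this

theorem baseChange_lie {M : Type} [LieRing M] [LieAlgebra ℚ M] (A : Type) [Field A] [Algebra ℚ A]
    (D : M →ₗ[ℚ] M)
    (hD : ∀ x y, D ⁅x, y⁆ = ⁅D x, y⁆ + ⁅x, D y⁆) (x y : A ⊗[ℚ] M) :
    D.baseChange A ⁅x, y⁆ = ⁅D.baseChange A x, y⁆ + ⁅x, D.baseChange A y⁆ := by
  induction x using TensorProduct.induction_on with
  | zero => simp
  | tmul r m =>
    induction y using TensorProduct.induction_on with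
    | zero => simp
    | tmul s m' =>
      simp only [LieAlgebra.ExtendScalars.bracket_tmul, LinearMap.baseChange_tmul, hD,
        TensorProduct.tmul_add]
    | add a b ha hb => simp only [lie_add, map_add, ha, hb]; abel
  | add a b ha hb => simp only [add_lie, map_add, ha, hb]; abel

theorem Dl_charpoly [Fintype G.edgeSet] [FiniteDimensional ℚ N] :
    (Dl b).charpoly = ∏ i, (Polynomial.X - Polynomial.C ((wt G i : ℕ) : ℚ)) := by
  classical
  rw [← LinearMap.charpoly_toMatrix (Dl b) b]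
  have : LinearMap.toMatrix b b (Dl b) = Matrix.diagonal (fun i => ((wt G i : ℕ) : ℚ)) := by
    ext i j
    rw [LinearMap.toMatrix_apply, Dl_apply, map_smul, Module.Basis.repr_self, Finsupp.smul_single,
      smul_eq_mul, mul_one, Finsupp.single_apply, Matrix.diagonal_apply]
    by_cases h : i = j
    · subst h; simp
    · rw [if_neg h, if_neg (Ne.symm h)]
  rw [this, Matrix.charpoly_diagonal]

open Polynomial in
/-- existence of a rational derivation with real spectrum close to a multiple of the weights -/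
theorem GLie.exists_derivation (hb : GLie G b) [FiniteDimensional ℚ N] {M : Type} [LieRing M]
    [LieAlgebra ℚ M] [FiniteDimensional ℚ M] (Φ : (ℝ ⊗[ℚ] M) ≃ₗ⁅ℝ⁆ (ℝ ⊗[ℚ] N))
    (ε : ℝ) (hε : 0 < ε) (hε' : ε < 1 / 2) :
    ∃ (D : M →ₗ[ℚ] M) (e : Fin n ⊕ G.edgeSet → ℝ) (k : ℝ),
      (∀ x y, D ⁅x, y⁆ = ⁅D x, y⁆ + ⁅x, D y⁆) ∧ 1 ≤ k ∧
      (∀ i, |e i - k * (wt G i : ℝ)| < k * ε) ∧ (∀ i, aeval (e i) D.charpoly = 0) ∧
      (∀ i, IsIntegral ℤ (e i)) := by
  classical
  have : Fintype G.edgeSet := Fintype.ofFinite _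
  -- the real derivation
  let Dr : ℝ ⊗[ℚ] M →ₗ[ℝ] ℝ ⊗[ℚ] M :=
    Φ.symm.toLinearEquiv.toLinearMap ∘ₗ ((Dl b).baseChange ℝ) ∘ₗ Φ.toLinearEquiv.toLinearMap
  have hDr_apply : ∀ x, Dr x = Φ.symm ((Dl b).baseChange ℝ (Φ x)) := fun x => rfl
  have hDr : ∀ x y, Dr ⁅x, y⁆ = ⁅Dr x, y⁆ + ⁅x, Dr y⁆ := by
    intro x y
    rw [hDr_apply, hDr_apply, hDr_apply, LieEquiv.map_lie, baseChange_lie ℝ (Dl b) hb.Dl_lie,
      map_add, LieEquiv.map_lie, LieEquiv.map_lie, LieEquiv.symm_apply_apply,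
      LieEquiv.symm_apply_apply]
  have hchar : Dr.charpoly = ∏ i, (Polynomial.X - Polynomial.C ((wt G i : ℕ) : ℝ)) := by
    have h1 : Dr = Φ.symm.toLinearEquiv.conj ((Dl b).baseChange ℝ) := by
      ext x
      rfl
    rw [h1, LinearEquiv.charpoly_conj, LinearMap.charpoly_baseChange, Dl_charpoly,
      Polynomial.map_prod]
    simp
  let mB := Module.finBasis ℚ M
  let mR := mB.baseChange ℝ
  let A0 := LinearMap.toMatrix mR mR Dr
  -- continuity
  let P : (Fin (Module.finrank ℚ M) → Fin (Module.finrank ℚ M) → ℝ) → ℝ → ℝ :=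
    fun B z => ((Matrix.of B).charpoly).eval z
  have hPc : ∀ z, Continuous (fun B => P B z) := by
    intro z
    have : (fun B => P B z) = fun B : (Fin (Module.finrank ℚ M) → Fin (Module.finrank ℚ M) → ℝ) =>
        (Matrix.scalar _ z - Matrix.of B).det := by
      funext B
      exact Matrix.eval_charpoly _ _
    rw [this]
    refine Continuous.matrix_det ?_
    refine continuous_const.sub ?_
    exact continuous_id
  have hP0 : ∀ z, P (fun i j => A0 i j) z = ∏ i, (z - (wt G i : ℝ)) := by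
    intro z
    show ((Matrix.of (fun i j => A0 i j)).charpoly).eval z = _
    have : (Matrix.of (fun i j => A0 i j)) = A0 := rfl
    rw [this, LinearMap.charpoly_toMatrix, hchar, Polynomial.eval_prod]
    simp
  have hsign : ∀ i : Fin n ⊕ G.edgeSet,
      P (fun i j => A0 i j) ((wt G i : ℝ) - ε) * P (fun i j => A0 i j) ((wt G i : ℝ) + ε) < 0 := by
    intro i
    rw [hP0, hP0, ← Finset.prod_mul_distrib, ← Finset.mul_prod_erase Finset.univ _
      (Finset.mem_univ i)]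
    refine mul_neg_of_neg_of_pos ?_ ?_
    · have : (((wt G i : ℕ) : ℝ) - ε - ((wt G i : ℕ) : ℝ)) *
        (((wt G i : ℕ) : ℝ) + ε - ((wt G i : ℕ) : ℝ)) = -(ε * ε) := by ring
      rw [this]
      have := mul_pos hε hε
      linarith
    · refine Finset.prod_pos fun j hj => ?_
      have hne : wt G j ≠ wt G i := fun h => (Finset.ne_of_mem_erase hj) (wt_inj G h)
      rcases lt_or_gt_of_ne hne with h | h
      · have h' : ((wt G j : ℕ) : ℝ) + 1 ≤ ((wt G i : ℕ) : ℝ) := by exact_mod_cast h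
        refine mul_pos ?_ ?_ <;> linarith
      · have h' : ((wt G i : ℕ) : ℝ) + 1 ≤ ((wt G j : ℕ) : ℝ) := by exact_mod_cast h
        refine mul_pos_of_neg_of_neg ?_ ?_ <;> linarith
  have hnear : ∀ᶠ B in nhds (fun i j => A0 i j : Fin (Module.finrank ℚ M) →
      Fin (Module.finrank ℚ M) → ℝ), ∀ i : Fin n ⊕ G.edgeSet,
      P B ((wt G i : ℝ) - ε) * P B ((wt G i : ℝ) + ε) < 0 := by
    rw [Filter.eventually_all]
    intro i
    exact ((hPc _).mul (hPc _)).continuousAt.eventually_lt continuousAt_const (hsign i)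
  obtain ⟨δ, hδ, hball⟩ := Metric.eventually_nhds_iff.1 hnear
  obtain ⟨φ, hφ⟩ := exists_approx (fun ij : Fin (Module.finrank ℚ M) × Fin (Module.finrank ℚ M)
    => A0 ij.1 ij.2) δ hδ
  -- the rational derivation
  let D1 : M →ₗ[ℚ] M := (contr φ) ∘ₗ (Dr.restrictScalars ℚ) ∘ₗ (TensorProduct.mk ℚ ℝ M 1)
  have hD1_apply : ∀ m, D1 m = contr φ (Dr ((1 : ℝ) ⊗ₜ m)) := fun m => rfl
  have hD1 : ∀ x y, D1 ⁅x, y⁆ = ⁅D1 x, y⁆ + ⁅x, D1 y⁆ := by
    intro x y
    rw [hD1_apply, hD1_apply, hD1_apply]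
    have : (1 : ℝ) ⊗ₜ[ℚ] ⁅x, y⁆ = ⁅(1 : ℝ) ⊗ₜ[ℚ] x, (1 : ℝ) ⊗ₜ[ℚ] y⁆ := by
      rw [LieAlgebra.ExtendScalars.bracket_tmul, mul_one]
    rw [this, hDr, map_add, contr_lie, contr_lie']
  have hmat : ∀ i j, LinearMap.toMatrix mB mB D1 i j = φ (A0 i j) := by
    intro i j
    rw [LinearMap.toMatrix_apply, hD1_apply, contr_repr]
    show _ = φ (LinearMap.toMatrix mR mR Dr i j)
    rw [LinearMap.toMatrix_apply, Module.Basis.baseChange_apply]
  have hroots : ∀ i : Fin n ⊕ G.edgeSet, ∃ z : ℝ, |z - (wt G i : ℝ)| < ε ∧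
      aeval z D1.charpoly = 0 := by
    intro i
    have h1 := hball (y := fun i j => ((φ (A0 i j) : ℚ) : ℝ)) (by
      rw [dist_pi_lt_iff hδ]
      intro i
      rw [dist_pi_lt_iff hδ]
      intro j
      rw [Real.dist_eq]
      exact hφ (i, j)) i
    have h2 : ∀ z, P (fun i j => ((φ (A0 i j) : ℚ) : ℝ)) z =
        (D1.charpoly.map (algebraMap ℚ ℝ)).eval z := by
      intro z
      show ((Matrix.of _).charpoly).eval z = _
      congr 1
      rw [← LinearMap.charpoly_toMatrix D1 mB, ← Matrix.charpoly_map]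
      congr 1
      ext i j
      rw [Matrix.map_apply, hmat]
      rfl
    rw [h2, h2] at h1
    have hcont : ContinuousOn (fun z => (D1.charpoly.map (algebraMap ℚ ℝ)).eval z)
      (Set.Icc ((wt G i : ℝ) - ε) ((wt G i : ℝ) + ε)) := by
      fun_prop
    have hle : (wt G i : ℝ) - ε ≤ (wt G i : ℝ) + ε := by linarith
    have hz : ∃ z ∈ Set.Icc ((wt G i : ℝ) - ε) ((wt G i : ℝ) + ε),
        (D1.charpoly.map (algebraMap ℚ ℝ)).eval z = 0 := by
      rcases mul_neg_iff.1 h1 with ⟨ha, hb'⟩ | ⟨ha, hb'⟩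
      · obtain ⟨z, hz, hz'⟩ := intermediate_value_Icc' hle hcont ⟨hb'.le, ha.le⟩
        exact ⟨z, hz, hz'⟩
      · obtain ⟨z, hz, hz'⟩ := intermediate_value_Icc hle hcont ⟨ha.le, hb'.le⟩
        exact ⟨z, hz, hz'⟩
    obtain ⟨z, hz, hz0⟩ := hz
    refine ⟨z, ?_, by rw [← hz0, Polynomial.eval_map_algebraMap]⟩
    have hz1 : z ≠ (wt G i : ℝ) - ε := by
      rintro rfl
      rw [hz0, zero_mul] at h1
      exact lt_irrefl _ h1
    have hz2 : z ≠ (wt G i : ℝ) + ε := by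
      rintro rfl
      rw [hz0, mul_zero] at h1
      exact lt_irrefl _ h1
    rw [abs_lt]
    constructor
    · have := lt_of_le_of_ne hz.1 (Ne.symm hz1); linarith
    · have := lt_of_le_of_ne hz.2 hz2; linarith
  choose z hz1 hz2 using hroots
  -- make everything integral
  have hint : ∀ i, ∃ y : ℤ, y ≠ 0 ∧ IsIntegral ℤ (y • z i) := by
    intro i
    have halg : IsAlgebraic ℚ (z i) := ⟨D1.charpoly, D1.charpoly_monic.ne_zero, hz2 i⟩
    have halg' : IsAlgebraic ℤ (z i) := (IsFractionRing.isAlgebraic_iff ℤ ℚ ℝ).2 halg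
    obtain ⟨y, hy, hy'⟩ := halg'.exists_integral_multiple
    exact ⟨y, hy, hy'⟩
  choose y hy0 hyint using hint
  let k : ℕ := ∏ i, (y i).natAbs
  have hk : 1 ≤ k := Nat.one_le_iff_ne_zero.2
    (Finset.prod_ne_zero_iff.2 fun i _ => Int.natAbs_ne_zero.2 (hy0 i))
  refine ⟨(k : ℚ) • D1, fun i => (k : ℝ) * z i, (k : ℝ), ?_, by exact_mod_cast hk, ?_, ?_, ?_⟩
  · intro x y
    simp only [LinearMap.smul_apply, hD1, smul_add, smul_lie, lie_smul]
  · intro i
    rw [← mul_sub, abs_mul, Nat.abs_cast]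
    refine mul_lt_mul_of_pos_left (hz1 i) ?_
    exact_mod_cast hk
  · intro i
    -- root of the charpoly of the scaled derivation
    have h1 : ((D1.baseChange ℝ).charpoly).eval (z i) = 0 := by
      rw [LinearMap.charpoly_baseChange, Polynomial.eval_map_algebraMap]
      exact hz2 i
    rw [LinearMap.eval_charpoly] at h1
    have h2 : ((((k : ℚ) • D1).baseChange ℝ).charpoly).eval ((k : ℝ) * z i) = 0 := by
      rw [LinearMap.eval_charpoly]
      have h3 : algebraMap ℝ (Module.End ℝ (ℝ ⊗[ℚ] M)) ((k : ℝ) * z i) -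
          ((k : ℚ) • D1).baseChange ℝ =
          (k : ℝ) • (algebraMap ℝ (Module.End ℝ (ℝ ⊗[ℚ] M)) (z i) - D1.baseChange ℝ) := by
        rw [smul_sub]
        congr 1
        · rw [Algebra.algebraMap_eq_smul_one, Algebra.algebraMap_eq_smul_one, mul_smul]
        · ext m
          show (1 : ℝ) ⊗ₜ[ℚ] ((k : ℚ) • D1 m) = (k : ℝ) • ((1 : ℝ) ⊗ₜ[ℚ] D1 m)
          rw [TensorProduct.tmul_smul, TensorProduct.smul_tmul', TensorProduct.smul_tmul',
            Rat.smul_def, smul_eq_mul]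
          norm_num
      rw [h3, LinearMap.det_smul, h1, mul_zero]
    rw [LinearMap.charpoly_baseChange, Polynomial.eval_map_algebraMap] at h2
    exact h2
  · intro i
    have hdvd : (y i) ∣ (k : ℤ) := by
      have : (y i).natAbs ∣ k := Finset.dvd_prod_of_mem _ (Finset.mem_univ i)
      exact Int.natAbs_dvd.1 (Int.natCast_dvd_natCast.2 this)
    obtain ⟨c, hc⟩ := hdvd
    have : (k : ℝ) * z i = (c : ℝ) * ((y i) • z i) := by
      have : ((k : ℤ) : ℝ) = (y i : ℝ) * (c : ℝ) := by rw [hc]; push_cast; ring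
      rw [zsmul_eq_mul, ← mul_assoc, mul_comm (c : ℝ), ← this]
      push_cast
      rfl
    show IsIntegral ℤ ((k : ℝ) * z i)
    rw [this]
    exact (isIntegral_algebraMap (x := c)).mul (hyint i)

end

end Pool.Agent.U700
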