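import Mathlib
import Pool.Agent.U700.DimCount
import Pool.Agent.U700.Rat

set_option autoImplicit false
open scoped TensorProduct

namespace Pool.Agent.U700

section
variable {L : Type} [Field L] [Algebra ℚ L] {M : Type} [LieRing M] [LieAlgebra ℚ M]

/-- semilinear action of the Galois group on `L ⊗ M` -/
noncomputable def sg (σ : L ≃ₐ[ℚ] L) : L ⊗[ℚ] M →ₗ[ℚ] L ⊗[ℚ] M :=
  LinearMap.rTensor M σ.toLinearMap

theorem sg_tmul (σ : L ≃ₐ[ℚ] L) (l : L) (m : M) : sg σ (l ⊗ₜ[ℚ] m) = σ l ⊗ₜ[ℚ] m := rfl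

theorem sg_smul (σ : L ≃ₐ[ℚ] L) (l : L) (x : L ⊗[ℚ] M) : sg σ (l • x) = σ l • sg σ x := by
  induction x using TensorProduct.induction_on with
  | zero => simp
  | tmul r m => rw [TensorProduct.smul_tmul', sg_tmul, sg_tmul, smul_eq_mul, map_mul,
      TensorProduct.smul_tmul', smul_eq_mul]
  | add a b ha hb => rw [smul_add, map_add, map_add, smul_add, ha, hb]

theorem sg_lie (σ : L ≃ₐ[ℚ] L) (x y : L ⊗[ℚ] M) : sg σ ⁅x, y⁆ = ⁅sg σ x, sg σ y⁆ := by
  induction x using TensorProduct.induction_on with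
  | zero => simp
  | tmul r m =>
    induction y using TensorProduct.induction_on with
    | zero => simp
    | tmul s m' =>
      rw [LieAlgebra.ExtendScalars.bracket_tmul, sg_tmul, sg_tmul, sg_tmul,
        LieAlgebra.ExtendScalars.bracket_tmul, map_mul]
    | add a b ha hb => rw [lie_add, map_add, map_add, lie_add, ha, hb]
  | add a b ha hb => rw [add_lie, map_add, map_add, add_lie, ha, hb]

theorem sg_baseChange (σ : L ≃ₐ[ℚ] L) (f : M →ₗ[ℚ] M) (x : L ⊗[ℚ] M) :
    sg σ (f.baseChange L x) = f.baseChange L (sg σ x) := by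
  induction x using TensorProduct.induction_on with
  | zero => simp
  | tmul r m => rw [LinearMap.baseChange_tmul, sg_tmul, sg_tmul, LinearMap.baseChange_tmul]
  | add a b ha hb => rw [map_add, map_add, map_add, map_add, ha, hb]

theorem sg_repr (σ : L ≃ₐ[ℚ] L) {ι : Type} (B : Module.Basis ι ℚ M) (x : L ⊗[ℚ] M) (i : ι) :
    (B.baseChange L).repr (sg σ x) i = σ ((B.baseChange L).repr x i) := by
  induction x using TensorProduct.induction_on with
  | zero => simp
  | tmul r m =>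
    rw [sg_tmul, Module.Basis.baseChange_repr_tmul, Module.Basis.baseChange_repr_tmul, map_smul]
  | add a b ha hb => rw [map_add, map_add, map_add, Finsupp.add_apply, Finsupp.add_apply, map_add,
      ha, hb]

theorem sg_sg_symm (σ : L ≃ₐ[ℚ] L) (x : L ⊗[ℚ] M) : sg σ (sg σ.symm x) = x := by
  induction x using TensorProduct.induction_on with
  | zero => simp
  | tmul r m => rw [sg_tmul, sg_tmul, AlgEquiv.apply_symm_apply]
  | add a b ha hb => rw [map_add, map_add, ha, hb]

theorem sg_ne_zero (σ : L ≃ₐ[ℚ] L) (x : L ⊗[ℚ] M) (hx : x ≠ 0) : sg σ x ≠ 0 := by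
  intro h
  apply hx
  have := sg_sg_symm σ.symm x
  rw [AlgEquiv.symm_symm] at this
  rw [← this, h, map_zero]

variable [FiniteDimensional ℚ M] [IsGalois ℚ L]

theorem descent (x : L ⊗[ℚ] M) (hx : ∀ σ : L ≃ₐ[ℚ] L, sg σ x = x) :
    ∃ m : M, x = (1 : L) ⊗ₜ[ℚ] m := by
  classical
  let B := Module.finBasis ℚ M
  have h1 : ∀ i, ∃ q : ℚ, algebraMap ℚ L q = (B.baseChange L).repr x i := by
    intro i
    have : (B.baseChange L).repr x i ∈ Set.range (algebraMap ℚ L) := by
      rw [InfiniteGalois.mem_range_algebraMap_iff_fixed]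
      intro σ
      rw [← sg_repr, hx]
    exact this
  choose q hq using h1
  refine ⟨∑ i, q i • B i, ?_⟩
  rw [TensorProduct.tmul_sum, ← (B.baseChange L).sum_repr x]
  refine Finset.sum_congr rfl fun i _ => ?_
  rw [← hq, Module.Basis.baseChange_apply, TensorProduct.tmul_smul, algebraMap_smul]

omit [IsGalois ℚ L] in
theorem one_tmul_inj {m m' : M} (h : (1 : L) ⊗ₜ[ℚ] m = (1 : L) ⊗ₜ[ℚ] m') : m = m' := by
  classical
  let B := Module.finBasis ℚ M
  refine B.ext_elem fun i => ?_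
  have := congrArg (fun x => (B.baseChange L).repr x i) h
  simp only [Module.Basis.baseChange_repr_tmul] at this
  rw [← Algebra.algebraMap_eq_smul_one, ← Algebra.algebraMap_eq_smul_one] at this
  exact (algebraMap ℚ L).injective this

/-- a linear operator commuting with the Galois group is defined over `ℚ` -/
theorem descent_op (T : L ⊗[ℚ] M →ₗ[L] L ⊗[ℚ] M)
    (hT : ∀ (σ : L ≃ₐ[ℚ] L) x, T (sg σ x) = sg σ (T x)) :
    ∃ T0 : M →ₗ[ℚ] M, T = T0.baseChange L := by
  have h1 : ∀ m : M, ∃ m' : M, T ((1 : L) ⊗ₜ[ℚ] m) = (1 : L) ⊗ₜ[ℚ] m' := by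
    intro m
    refine descent _ fun σ => ?_
    rw [← hT, sg_tmul, map_one]
  choose T0 hT0 using h1
  refine ⟨{ toFun := T0, map_add' := ?_, map_smul' := ?_ }, ?_⟩
  · intro x y
    apply one_tmul_inj (L := L)
    rw [← hT0, TensorProduct.tmul_add, map_add, hT0, hT0, TensorProduct.tmul_add]
  · intro c x
    apply one_tmul_inj (L := L)
    rw [← hT0, TensorProduct.tmul_smul, RingHom.id_apply, TensorProduct.tmul_smul, ← hT0,
      ← algebraMap_smul L c, map_smul, algebraMap_smul]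
  · ext m
    exact hT0 m

end

/-- the structure of `L ⊗ M` with respect to eigenvectors of a derivation -/
structure EigData {n : ℕ} (G : SimpleGraph (Fin n)) (L M : Type) [Field L] [Algebra ℚ L] [LieRing M]
    [LieAlgebra ℚ M] (E : Fin n ⊕ G.edgeSet → L)
    (u : Module.Basis (Fin n ⊕ G.edgeSet) L (L ⊗[ℚ] M)) : Prop where
  nadj : ∀ a b, ¬ G.Adj a b → ⁅u (Sum.inl a), u (Sum.inl b)⁆ = 0
  cen : ∀ e i, ⁅u (Sum.inr e), u i⁆ = 0
  adj : ∀ a b (h : G.Adj a b), ∃ c : L, c ≠ 0 ∧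
    ⁅u (Sum.inl a), u (Sum.inl b)⁆ = c • u (Sum.inr ⟨s(a, b), G.mem_edgeSet.mpr h⟩)
  gal : ∀ σ : L ≃ₐ[ℚ] L, ∃ τ : Equiv.Perm (Fin n), (∀ a, σ (E (Sum.inl a)) = E (Sum.inl (τ a))) ∧
    (∀ a b, G.Adj a b ↔ G.Adj (τ a) (τ b)) ∧
    (∀ a, sg σ (u (Sum.inl a)) = u (Sum.inl (τ a)))

section
variable {n : ℕ} {G : SimpleGraph (Fin n)} {L : Type} [Field L] [Algebra ℚ L] [IsAlgClosed L]
  {M : Type} [LieRing M] [LieAlgebra ℚ M] [FiniteDimensional ℚ M]

theorem exists_eigData [Fintype G.edgeSet] (D : M →ₗ[ℚ] M)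
    (hD : ∀ x y, D ⁅x, y⁆ = ⁅D x, y⁆ + ⁅x, D y⁆)
    (E : Fin n ⊕ G.edgeSet → L) (hE : Function.Injective E)
    (hroot : ∀ i, Polynomial.aeval (E i) D.charpoly = 0)
    (hgen : ∀ i j k, E i + E j = E k → ∃ a b, ∃ h : G.Adj a b, i = Sum.inl a ∧ j = Sum.inl b ∧
      k = Sum.inr ⟨s(a, b), G.mem_edgeSet.mpr h⟩)
    (hfin : Module.finrank ℚ M = Fintype.card (Fin n ⊕ G.edgeSet))
    (hbr : Module.finrank ℚ (brSub ℚ M) = Fintype.card G.edgeSet) :
    ∃ u : Module.Basis (Fin n ⊕ G.edgeSet) L (L ⊗[ℚ] M), EigData G L M E u := by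
  classical
  let DL : Module.End L (L ⊗[ℚ] M) := D.baseChange L
  have hDL : ∀ x y, DL ⁅x, y⁆ = ⁅DL x, y⁆ + ⁅x, DL y⁆ := baseChange_lie L D hD
  -- eigenvectors
  have hev : ∀ i, DL.HasEigenvalue (E i) := by
    intro i
    rw [Module.End.hasEigenvalue_iff_isRoot_charpoly]
    show (LinearMap.charpoly (D.baseChange L)).IsRoot (E i)
    rw [LinearMap.charpoly_baseChange, Polynomial.IsRoot.def, Polynomial.eval_map_algebraMap]
    exact hroot i
  choose w0 hw0 using fun i => (hev i).exists_hasEigenvector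
  have hli := Module.End.eigenvectors_linearIndependent' DL E hE w0 hw0
  have hcard : Fintype.card (Fin n ⊕ G.edgeSet) = Module.finrank L (L ⊗[ℚ] M) := by
    rw [Module.finrank_baseChange, hfin]
  let w := Module.Basis.mk hli (LinearIndependent.span_eq_top_of_card_eq_finrank' hli hcard).ge
  have hw : ∀ i, w i = w0 i := fun i => Module.Basis.mk_apply _ _ _
  -- a generic rational vector
  let ξ : (Fin n ⊕ G.edgeSet) → (M →ₗ[ℚ] L) := fun i =>
    ((w.coord i).restrictScalars ℚ) ∘ₗ (TensorProduct.mk ℚ L M 1)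
  have hξ : ∀ i, LinearMap.ker (ξ i) ≠ ⊤ := by
    intro i hi
    have h1 : w.coord i = 0 := by
      ext m
      have : m ∈ LinearMap.ker (ξ i) := hi ▸ Submodule.mem_top
      exact this
    have h2 : w.coord i (w i) = 1 := by
      rw [Module.Basis.coord_apply, Module.Basis.repr_self, Finsupp.single_eq_same]
    rw [h1] at h2
    exact zero_ne_one h2
  obtain ⟨x0, hx0⟩ : ∃ x0 : M, ∀ i, ξ i x0 ≠ 0 := by
    by_contra hcon
    push Not at hcon
    obtain ⟨i, hi⟩ := Subspace.exists_eq_top_of_iUnion_eq_univ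
      (p := fun i => LinearMap.ker (ξ i)) (by
        ext x
        simp only [Set.mem_iUnion, SetLike.mem_coe, LinearMap.mem_ker, Set.mem_univ, iff_true]
        exact hcon x)
    exact hξ i hi
  let y0 : L ⊗[ℚ] M := (1 : L) ⊗ₜ[ℚ] x0
  have hc0 : ∀ i, IsUnit (w.repr y0 i) := fun i => (hx0 i).isUnit
  let u := w.isUnitSMul hc0
  have hu : ∀ i, u i = w.repr y0 i • w i := fun i => Module.Basis.isUnitSMul_apply _ _
  have hDu : ∀ i, DL (u i) = E i • u i := by
    intro i
    rw [hu, map_smul, hw, (hw0 i).apply_eq_smul, smul_comm]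
  have hsum : ∑ i, u i = y0 := by
    rw [← w.sum_repr y0]
    exact Finset.sum_congr rfl fun i _ => hu i
  have hcoord : ∀ x i, u.repr (DL x) i = E i * u.repr x i := by
    intro x i
    have : (u.coord i) ∘ₗ DL = E i • u.coord i := by
      refine u.ext fun j => ?_
      rw [LinearMap.comp_apply, hDu, map_smul, LinearMap.smul_apply, Module.Basis.coord_apply,
        Module.Basis.repr_self, smul_eq_mul, smul_eq_mul, Finsupp.single_apply]
      by_cases h : j = i
      · subst h; rfl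
      · rw [if_neg h, mul_zero, mul_zero]
    exact LinearMap.congr_fun this x
  have hline : ∀ (z : L ⊗[ℚ] M) (μ : L), DL z = μ • z → ∀ k, u.repr z k ≠ 0 → E k = μ := by
    intro z μ hz k hk
    have h1 := hcoord z k
    rw [hz, map_smul, Finsupp.smul_apply, smul_eq_mul] at h1
    exact (mul_right_cancel₀ hk h1).symm
  have hline' : ∀ (z : L ⊗[ℚ] M) (k), DL z = E k • z → z = u.repr z k • u k := by
    intro z k hz
    conv_lhs => rw [← u.sum_repr z]
    rw [Finset.sum_eq_single k]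
    · intro j _ hj
      have : u.repr z j = 0 := by
        by_contra h
        exact hj (hE (hline z _ hz j h))
      rw [this, zero_smul]
    · intro h; exact absurd (Finset.mem_univ _) h
  have hbrE : ∀ i j, DL ⁅u i, u j⁆ = (E i + E j) • ⁅u i, u j⁆ := by
    intro i j
    rw [hDL, hDu, hDu, smul_lie, lie_smul, add_smul]
  have hA : ∀ i j, ⁅u i, u j⁆ ≠ 0 → ∃ a b, ∃ h : G.Adj a b, i = Sum.inl a ∧ j = Sum.inl b ∧
      E i + E j = E (Sum.inr ⟨s(a, b), G.mem_edgeSet.mpr h⟩) ∧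
      ∃ c : L, c ≠ 0 ∧ ⁅u i, u j⁆ = c • u (Sum.inr ⟨s(a, b), G.mem_edgeSet.mpr h⟩) := by
    intro i j hne
    have : ∃ k, u.repr ⁅u i, u j⁆ k ≠ 0 := by
      by_contra hcon
      push Not at hcon
      apply hne
      apply u.repr.injective
      ext k
      rw [hcon k, map_zero, Finsupp.zero_apply]
    obtain ⟨k, hk⟩ := this
    have hEk := hline _ _ (hbrE i j) k hk
    obtain ⟨a, b, h, rfl, rfl, rfl⟩ := hgen i j k hEk.symm
    refine ⟨a, b, h, rfl, rfl, hEk.symm, _, hk, ?_⟩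
    exact hline' _ _ (by rw [hEk]; exact hbrE _ _)
  have hadj : ∀ a b (h : G.Adj a b), ⁅u (Sum.inl a), u (Sum.inl b)⁆ ≠ 0 := by
    intro a b h hzero
    have hle : brSub L (L ⊗[ℚ] M) ≤ Submodule.span L (Set.range
        (fun e : {e : G.edgeSet // e ≠ ⟨s(a, b), G.mem_edgeSet.mpr h⟩} => u (Sum.inr e.1))) := by
      refine Submodule.span_le.2 ?_
      rintro _ ⟨x, y, rfl⟩
      rw [← u.sum_repr x, ← u.sum_repr y, sum_lie]
      refine Submodule.sum_mem _ fun i _ => ?_
      rw [lie_sum]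
      refine Submodule.sum_mem _ fun j _ => ?_
      rw [smul_lie, lie_smul]
      refine Submodule.smul_mem _ _ (Submodule.smul_mem _ _ ?_)
      by_cases hij : ⁅u i, u j⁆ = 0
      · rw [hij]; exact Submodule.zero_mem _
      · obtain ⟨a', b', h', rfl, rfl, _, c, _, hc⟩ := hA i j hij
        rw [hc]
        refine Submodule.smul_mem _ _ (Submodule.subset_span ⟨⟨_, ?_⟩, rfl⟩)
        intro heq
        have heq' : s(a', b') = s(a, b) := congrArg Subtype.val heq
        rcases Sym2.eq_iff.1 heq' with ⟨rfl, rfl⟩ | ⟨rfl, rfl⟩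
        · exact hij hzero
        · apply hij
          rw [← lie_skew, hzero, neg_zero]
    have h1 := Submodule.finrank_mono hle
    rw [finrank_brSub_baseChange, hbr] at h1
    have h2 : Fintype.card {e : G.edgeSet // e ≠ ⟨s(a, b), G.mem_edgeSet.mpr h⟩} <
        Fintype.card G.edgeSet :=
      Fintype.card_subtype_lt (x := ⟨s(a, b), G.mem_edgeSet.mpr h⟩) (by simp)
    have h3 := finrank_range_le_card (R := L)
      (fun e : {e : G.edgeSet // e ≠ ⟨s(a, b), G.mem_edgeSet.mpr h⟩} => u (Sum.inr e.1))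
    unfold Set.finrank at h3
    omega
  have hEadj : ∀ a b (h : G.Adj a b), E (Sum.inl a) + E (Sum.inl b) =
      E (Sum.inr ⟨s(a, b), G.mem_edgeSet.mpr h⟩) := by
    intro a b h
    obtain ⟨a', b', h', ha, hb, hEE, _⟩ := hA _ _ (hadj a b h)
    rw [Sum.inl.injEq] at ha hb
    subst ha hb
    exact hEE
  -- Galois action on the eigenvalues
  have hP : ∀ (σ : L ≃ₐ[ℚ] L) i, ∃ j, E j = σ (E i) := by
    intro σ i
    have h1 : Polynomial.aeval (σ (E i)) D.charpoly = 0 := by
      have := Polynomial.aeval_algHom_apply σ.toAlgHom (E i) D.charpoly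
      rw [hroot, map_zero] at this
      exact this
    have h2 : DL.HasEigenvalue (σ (E i)) := by
      rw [Module.End.hasEigenvalue_iff_isRoot_charpoly]
      show (LinearMap.charpoly (D.baseChange L)).IsRoot (σ (E i))
      rw [LinearMap.charpoly_baseChange, Polynomial.IsRoot.def, Polynomial.eval_map_algebraMap]
      exact h1
    obtain ⟨v, hv⟩ := h2.exists_hasEigenvector
    have : ∃ k, u.repr v k ≠ 0 := by
      by_contra hcon
      push Not at hcon
      apply hv.2
      apply u.repr.injective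
      ext k
      rw [hcon k, map_zero, Finsupp.zero_apply]
    obtain ⟨k, hk⟩ := this
    exact ⟨k, hline v _ hv.apply_eq_smul k hk⟩
  choose P hP using hP
  have hPP : ∀ (σ : L ≃ₐ[ℚ] L) i, P σ.symm (P σ i) = i := by
    intro σ i
    apply hE
    rw [hP, hP, AlgEquiv.symm_apply_apply]
  have hPinr : ∀ (σ : L ≃ₐ[ℚ] L) e, ∃ e', P σ (Sum.inr e) = Sum.inr e' := by
    intro σ e
    obtain ⟨e, he⟩ := e
    induction e using Sym2.ind with
    | _ a b =>
      have h := G.mem_edgeSet.1 he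
      have h1 := hEadj a b h
      have h2 : E (P σ (Sum.inl a)) + E (P σ (Sum.inl b)) =
          E (P σ (Sum.inr ⟨s(a, b), he⟩)) := by
        rw [hP, hP, hP, ← map_add, h1]
      obtain ⟨a', b', h', _, _, h3⟩ := hgen _ _ _ h2
      exact ⟨_, h3⟩
  have hPinl : ∀ (σ : L ≃ₐ[ℚ] L) a, ∃ a', P σ (Sum.inl a) = Sum.inl a' := by
    intro σ a
    rcases h : P σ (Sum.inl a) with a' | e
    · exact ⟨a', rfl⟩
    · exfalso
      obtain ⟨e', he'⟩ := hPinr σ.symm e
      rw [← h, hPP] at he'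
      exact Sum.inl_ne_inr he'
  choose τ hτ using hPinl
  have hττ : ∀ (σ : L ≃ₐ[ℚ] L) a, τ σ.symm (τ σ a) = a := by
    intro σ a
    have h1 := hPP σ (Sum.inl a)
    rw [hτ, hτ] at h1
    exact Sum.inl_injective h1
  have hτadj : ∀ (σ : L ≃ₐ[ℚ] L) a b, G.Adj a b → G.Adj (τ σ a) (τ σ b) := by
    intro σ a b h
    have h1 := hEadj a b h
    have h2 : E (Sum.inl (τ σ a)) + E (Sum.inl (τ σ b)) =
        E (P σ (Sum.inr ⟨s(a, b), G.mem_edgeSet.mpr h⟩)) := by
      rw [← hτ, ← hτ, hP, hP, hP, ← map_add, h1]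
    obtain ⟨a', b', h', h3, h4, _⟩ := hgen _ _ _ h2
    rw [Sum.inl.injEq] at h3 h4
    rw [h3, h4]
    exact h'
  have hsgu : ∀ (σ : L ≃ₐ[ℚ] L) i, sg σ (u i) = u (P σ i) := by
    intro σ i
    have hinj : Function.Injective (P σ) := fun i j hij => by
      rw [← hPP σ i, ← hPP σ j, hij]
    have h1 : ∀ i, sg σ (u i) = u.repr (sg σ (u i)) (P σ i) • u (P σ i) := by
      intro i
      apply hline'
      rw [hP]
      show D.baseChange L (sg σ (u i)) = _
      rw [← sg_baseChange, ← sg_smul]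
      exact congrArg _ (hDu i)
    have h2 : ∑ i, sg σ (u i) = ∑ i, u i := by
      rw [← map_sum, hsum]
      show sg σ ((1 : L) ⊗ₜ[ℚ] x0) = _
      rw [sg_tmul, map_one]
    have h3 := congrArg (fun x => u.repr x (P σ i)) h2
    simp only [map_sum, Finsupp.coe_finset_sum, Finset.sum_apply] at h3
    rw [Finset.sum_eq_single i, Finset.sum_eq_single (P σ i)] at h3
    · rw [h1 i, h3, Module.Basis.repr_self, Finsupp.single_eq_same, one_smul]
    · intro j _ hj
      rw [Module.Basis.repr_self, Finsupp.single_eq_of_ne (Ne.symm hj)]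
    · intro h; exact absurd (Finset.mem_univ _) h
    · intro j _ hj
      rw [h1 j, map_smul, Module.Basis.repr_self, Finsupp.smul_apply,
        Finsupp.single_eq_of_ne (fun h => hj (hinj h).symm), smul_zero]
    · intro h; exact absurd (Finset.mem_univ _) h
  refine ⟨u, ⟨?_, ?_, ?_, ?_⟩⟩
  · intro a b hab
    by_contra hne
    obtain ⟨a', b', h', ha, hb, _⟩ := hA _ _ hne
    rw [Sum.inl.injEq] at ha hb
    subst ha hb
    exact hab h'
  · intro e i
    by_contra hne
    obtain ⟨a', b', h', ha, hb, _⟩ := hA _ _ hne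
    exact Sum.inr_ne_inl ha
  · intro a b h
    obtain ⟨a', b', h', ha, hb, _, c, hc, hcc⟩ := hA _ _ (hadj a b h)
    rw [Sum.inl.injEq] at ha hb
    subst ha hb
    exact ⟨c, hc, hcc⟩
  · intro σ
    refine ⟨⟨τ σ, τ σ.symm, hττ σ, ?_⟩, ?_, ?_, ?_⟩
    · intro a
      have := hττ σ.symm a
      rwa [AlgEquiv.symm_symm] at this
    · intro a
      show _ = E (Sum.inl (τ σ a))
      rw [← hτ, hP]
    · intro a b
      show _ ↔ G.Adj (τ σ a) (τ σ b)
      refine ⟨hτadj σ a b, fun h => ?_⟩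
      have := hτadj σ.symm _ _ h
      rwa [hττ, hττ] at this
    · intro a
      show _ = u (Sum.inl (τ σ a))
      rw [hsgu, hτ]

end

end Pool.Agent.U700
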