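import Mathlib

set_option autoImplicit false

namespace Pool.Agent.U700

/-- value of the polynomial of a class -/
def gf {L : Type} [Field L] (k : ℕ) (A x : L) : L := x ^ k * (x - A) + 1

/-- the polynomial of a class -/
noncomputable def gp {L : Type} [Field L] (k : ℕ) (A : L) : Polynomial L :=
  Polynomial.X ^ k * (Polynomial.X - Polynomial.C A) + 1

section alg
variable {L : Type} [Field L]

theorem gp_eval (k : ℕ) (A x : L) : (gp k A).eval x = gf k A x := by
  simp [gp, gf]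

theorem gp_monic_natDegree (k : ℕ) (A : L) : (gp k A).Monic ∧ (gp k A).natDegree = k + 1 := by
  have h0 : (Polynomial.X ^ k * (Polynomial.X - Polynomial.C A) : Polynomial L).Monic :=
    (Polynomial.monic_X_pow k).mul (Polynomial.monic_X_sub_C A)
  have h1 : (Polynomial.X ^ k * (Polynomial.X - Polynomial.C A) : Polynomial L).natDegree
      = k + 1 := by
    rw [Polynomial.Monic.natDegree_mul (Polynomial.monic_X_pow k) (Polynomial.monic_X_sub_C A),
      Polynomial.natDegree_X_pow, Polynomial.natDegree_X_sub_C]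
  have h2 : (1 : Polynomial L).degree <
      (Polynomial.X ^ k * (Polynomial.X - Polynomial.C A) : Polynomial L).degree := by
    rw [Polynomial.degree_eq_natDegree h0.ne_zero, h1, Polynomial.degree_one]
    exact_mod_cast Nat.succ_pos k
  refine ⟨h0.add_of_left h2, ?_⟩
  have h3 := Polynomial.degree_add_eq_left_of_degree_lt h2
  rw [gp, Polynomial.natDegree, h3, ← Polynomial.natDegree, h1]

/-- partial fractions for the class polynomial -/
theorem partial_fractions {ι : Type} [DecidableEq ι] (s : Finset ι) (v : ι → L)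
    (hv : Set.InjOn v s) (k : ℕ)
    (hk : k + 1 = s.card) (A r : L) (hr : gf k A r = 0) (hne : ∀ i ∈ s, r ≠ v i) :
    ∑ i ∈ s, (-(Lagrange.nodalWeight s v i) * gf k A (v i)) / (r - v i) = 1 := by
  set h : Polynomial L := gp k A - Lagrange.nodal s v with hh
  have hdeg : h.degree < s.card := by
    have h1 := gp_monic_natDegree k A
    have h2 : (gp k A).degree = (Lagrange.nodal s v).degree := by
      rw [Lagrange.degree_nodal, Polynomial.degree_eq_natDegree h1.1.ne_zero, h1.2, hk]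
    have h3 := Polynomial.degree_sub_lt_left h2 h1.1.ne_zero (by
      rw [h1.1.leadingCoeff, Lagrange.nodal_monic.leadingCoeff])
    rw [Polynomial.degree_eq_natDegree h1.1.ne_zero, h1.2, hk] at h3
    exact h3
  have e1 := Lagrange.eq_interpolate hv hdeg
  have e2 : h.eval r = (Lagrange.nodal s v).eval r *
      ∑ i ∈ s, Lagrange.nodalWeight s v i * (r - v i)⁻¹ * h.eval (v i) := by
    conv_lhs => rw [e1]
    rw [Lagrange.eval_interpolate_not_at_node _ hne]
  have e3 : h.eval r = - (Lagrange.nodal s v).eval r := by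
    rw [hh, Polynomial.eval_sub, gp_eval, hr, zero_sub]
  have e4 : ∀ i ∈ s, h.eval (v i) = gf k A (v i) := by
    intro i hi
    rw [hh, Polynomial.eval_sub, gp_eval, Lagrange.eval_nodal_at_node hi, sub_zero]
  have hnz : (Lagrange.nodal s v).eval r ≠ 0 := by
    rw [Lagrange.eval_nodal]
    exact Finset.prod_ne_zero_iff.2 fun i hi => sub_ne_zero.2 (hne i hi)
  rw [e3] at e2
  have e5 : ∑ i ∈ s, Lagrange.nodalWeight s v i * (r - v i)⁻¹ * h.eval (v i) = -1 := by
    have : (Lagrange.nodal s v).eval r *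
      ∑ i ∈ s, Lagrange.nodalWeight s v i * (r - v i)⁻¹ * h.eval (v i) =
      (Lagrange.nodal s v).eval r * (-1) := by rw [← e2]; ring
    exact mul_left_cancel₀ hnz this
  have e6 : ∑ i ∈ s, (-(Lagrange.nodalWeight s v i) * gf k A (v i)) / (r - v i) =
      - ∑ i ∈ s, Lagrange.nodalWeight s v i * (r - v i)⁻¹ * h.eval (v i) := by
    rw [← Finset.sum_neg_distrib]
    refine Finset.sum_congr rfl fun i hi => ?_
    rw [e4 i hi]
    ring
  rw [e6, e5, neg_neg]

theorem gf_root_integral {k : ℕ} (hk : 1 ≤ k) {A r : L} (hA : IsIntegral ℤ A)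
    (hr : gf k A r = 0) : IsIntegral ℤ r ∧ IsIntegral ℤ r⁻¹ ∧ r ≠ 0 := by
  have hr0 : r ≠ 0 := by
    rintro rfl
    rw [gf, zero_pow (by omega), zero_mul, zero_add] at hr
    exact one_ne_zero hr
  have h1 : IsIntegral ℤ r := by
    let A' : integralClosure ℤ L := ⟨A, hA⟩
    have : IsIntegral (integralClosure ℤ L) r := by
      refine ⟨Polynomial.X ^ k * (Polynomial.X - Polynomial.C A') + 1, ?_, ?_⟩
      · have h0 : (Polynomial.X ^ k * (Polynomial.X - Polynomial.C A') :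
            Polynomial (integralClosure ℤ L)).Monic :=
          (Polynomial.monic_X_pow k).mul (Polynomial.monic_X_sub_C A')
        have h1 : (Polynomial.X ^ k * (Polynomial.X - Polynomial.C A') :
            Polynomial (integralClosure ℤ L)).natDegree = k + 1 := by
          rw [Polynomial.Monic.natDegree_mul (Polynomial.monic_X_pow k)
            (Polynomial.monic_X_sub_C A'), Polynomial.natDegree_X_pow,
            Polynomial.natDegree_X_sub_C]
        refine h0.add_of_left ?_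
        rw [Polynomial.degree_eq_natDegree h0.ne_zero, h1, Polynomial.degree_one]
        exact_mod_cast Nat.succ_pos k
      · rw [← Polynomial.aeval_def]
        simp only [map_add, map_mul, map_pow, Polynomial.aeval_X, map_sub, Polynomial.aeval_C,
          map_one]
        exact hr
    exact isIntegral_trans (R := ℤ) (A := integralClosure ℤ L) r this
  refine ⟨h1, ?_, hr0⟩
  have h2 : r⁻¹ = r ^ (k - 1) * (A - r) := by
    obtain ⟨m, rfl⟩ : ∃ m, k = m + 1 := ⟨k - 1, by omega⟩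
    rw [Nat.add_sub_cancel]
    rw [gf] at hr
    field_simp
    linear_combination hr
  rw [h2]
  exact (h1.pow _).mul (hA.sub h1)

end alg

section cpx

variable {k : ℕ} {A : ℝ} {r : ℂ}

theorem gf_norm (hr : gf k (A : ℂ) r = 0) : ‖r‖ ^ k * ‖r - A‖ = 1 := by
  have h : r ^ k * (r - A) = -1 := by rw [gf] at hr; linear_combination hr
  have := congrArg norm h
  rw [norm_mul, norm_pow, norm_neg, norm_one] at this
  exact this

theorem norm_ne_one (hA : 10 ≤ A) (hr : gf k (A : ℂ) r = 0) : ‖r‖ ≠ 1 := by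
  intro h
  have h1 := gf_norm hr
  rw [h, one_pow, one_mul] at h1
  have h2 : A ≤ ‖r - A‖ + ‖r‖ := by
    have := norm_sub_le r (r - A)
    rw [sub_sub_cancel, Complex.norm_real, Real.norm_eq_abs, abs_of_pos (by linarith)] at this
    linarith
  linarith

theorem big_root (hk : 1 ≤ k) (hA : 10 ≤ A) (hr : gf k (A : ℂ) r = 0) (hbig : 1 < ‖r‖) :
    A - 1 ≤ ‖r‖ ∧ |‖r‖ - A| ≤ 1 / 9 := by
  have h1 := gf_norm hr
  have h2 : ‖r‖ ≤ ‖r‖ ^ k := by
    calc ‖r‖ = ‖r‖ ^ 1 := (pow_one _).symm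
      _ ≤ ‖r‖ ^ k := pow_le_pow_right₀ hbig.le hk
  have h3 : ‖r‖ * ‖r - A‖ ≤ 1 := by
    rw [← h1]
    exact mul_le_mul_of_nonneg_right h2 (norm_nonneg _)
  have h4 : A ≤ ‖r - A‖ + ‖r‖ := by
    have := norm_sub_le r (r - A)
    rw [sub_sub_cancel, Complex.norm_real, Real.norm_eq_abs, abs_of_pos (by linarith)] at this
    linarith
  have h5 : ‖r - A‖ ≤ 1 := by
    have := norm_nonneg (r - A)
    nlinarith
  have h6 : A - 1 ≤ ‖r‖ := by linarith
  refine ⟨h6, ?_⟩
  have h7 : ‖r - A‖ ≤ 1 / 9 := by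
    have h8 : (9 : ℝ) ≤ ‖r‖ := by linarith
    have := norm_nonneg (r - A)
    nlinarith
  have h8 : |‖r‖ - ‖(A : ℂ)‖| ≤ ‖r - A‖ := abs_norm_sub_norm_le _ _
  have h9 : ‖(A : ℂ)‖ = A := by
    rw [Complex.norm_real, Real.norm_eq_abs, abs_of_pos (by linarith)]
  rw [h9] at h8
  linarith

theorem small_root (hA : 10 ≤ A) (hr : gf k (A : ℂ) r = 0) (hsmall : ‖r‖ < 1) :
    1 ≤ ‖r‖ ^ k * (A + 1) := by
  have h1 := gf_norm hr
  have h2 : ‖r - A‖ ≤ A + 1 := by
    have := norm_sub_le r (A : ℂ)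
    rw [Complex.norm_real, Real.norm_eq_abs, abs_of_pos (by linarith)] at this
    linarith
  calc (1 : ℝ) = ‖r‖ ^ k * ‖r - A‖ := h1.symm
    _ ≤ ‖r‖ ^ k * (A + 1) := mul_le_mul_of_nonneg_left h2 (pow_nonneg (norm_nonneg _) _)

theorem prod_aux {k' : ℕ} {B A' : ℝ} {s : ℂ} (hB : 10 ≤ B) (hk : 1 ≤ k) (hk' : 1 ≤ k')
    (hA : B ≤ A) (hA' : B ≤ A') (hA'' : A' ≤ 2 * B)
    (hr : gf k (A : ℂ) r = 0) (hs : gf k' (A' : ℂ) s = 0)
    (hsep : 2 ≤ k' ∨ 1 ≤ |A - A'|) (hbig : 1 < ‖r‖) (hsmall : ‖s‖ < 1) : ‖r * s‖ ≠ 1 := by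
  intro h
  rw [norm_mul] at h
  have hb := big_root hk (by linarith) hr hbig
  have hsm := small_root (by linarith) hs hsmall
  by_cases hk2 : 2 ≤ k'
  · have h1 : ‖s‖ ^ k' ≤ ‖s‖ ^ 2 := pow_le_pow_of_le_one (norm_nonneg _) hsmall.le hk2
    have h2 : 1 ≤ ‖s‖ ^ 2 * (A' + 1) :=
      hsm.trans (mul_le_mul_of_nonneg_right h1 (by linarith))
    have h3 : ‖r‖ ^ 2 ≤ A' + 1 := by
      have : ‖r‖ ^ 2 * ‖s‖ ^ 2 = 1 := by rw [← mul_pow, h, one_pow]
      nlinarith [sq_nonneg ‖r‖]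
    have h4 : (A - 1) ^ 2 ≤ ‖r‖ ^ 2 := by
      have := hb.1
      gcongr
      linarith
    nlinarith
  · have hk1 : k' = 1 := by omega
    subst hk1
    have hsep' : 1 ≤ |A - A'| := by
      rcases hsep with h' | h'
      · omega
      · exact h'
    have hs0 : s ≠ 0 := by
      rintro rfl
      simp [gf] at hs
    have hs' : gf 1 (A' : ℂ) s⁻¹ = 0 := by
      rw [gf] at hs ⊢
      field_simp
      linear_combination hs
    have hs1 : 0 < ‖s‖ := norm_pos_iff.2 hs0
    have hbig' : 1 < ‖s⁻¹‖ := by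
      rw [norm_inv]
      exact (one_lt_inv₀ hs1).2 hsmall
    have hb' := big_root le_rfl (by linarith) hs' hbig'
    have heq : ‖s⁻¹‖ = ‖r‖ := by
      rw [norm_inv]
      exact (eq_inv_of_mul_eq_one_left h).symm
    rw [heq] at hb'
    have h1 := abs_le.1 hb.2
    have h2 := abs_le.1 hb'.2
    have h3 : |A - A'| ≤ 2 / 9 := by
      rw [abs_le]
      constructor <;> linarith
    linarith

theorem prod_ne_one {k' : ℕ} {B A' : ℝ} {s : ℂ} (hB : 10 ≤ B) (hk : 1 ≤ k) (hk' : 1 ≤ k')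
    (hA : B ≤ A) (hA2 : A ≤ 2 * B) (hA' : B ≤ A') (hA'' : A' ≤ 2 * B)
    (hr : gf k (A : ℂ) r = 0) (hs : gf k' (A' : ℂ) s = 0)
    (hsep : (2 ≤ k ∧ 2 ≤ k') ∨ 1 ≤ |A - A'|) : ‖r * s‖ ≠ 1 := by
  have hr1 : ‖r‖ ≠ 1 := norm_ne_one (by linarith) hr
  have hs1 : ‖s‖ ≠ 1 := norm_ne_one (by linarith) hs
  rcases lt_or_gt_of_ne hr1 with h1 | h1 <;> rcases lt_or_gt_of_ne hs1 with h2 | h2
  · rw [norm_mul]
    exact (mul_lt_one_of_nonneg_of_lt_one_left (norm_nonneg _) h1 h2.le).ne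
  · rw [mul_comm]
    refine prod_aux hB hk' hk hA' hA hA2 hs hr ?_ h2 h1
    rcases hsep with h | h
    · exact Or.inl h.1
    · rw [abs_sub_comm] at h; exact Or.inr h
  · refine prod_aux hB hk hk' hA hA' hA'' hr hs ?_ h1 h2
    rcases hsep with h | h
    · exact Or.inl h.2
    · exact Or.inr h
  · rw [norm_mul]
    exact (one_lt_mul_of_lt_of_le h1 h2.le).ne'

theorem deriv_ne (hk : 1 ≤ k) (hA : (k : ℝ) + 2 ≤ A) (hr : gf k (A : ℂ) r = 0) :
    (k : ℂ) * r ^ (k - 1) * (r - A) + r ^ k ≠ 0 := by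
  intro h
  have hr0 : r ≠ 0 := by
    rintro rfl
    rw [gf, zero_pow (by omega), zero_mul, zero_add] at hr
    exact one_ne_zero hr
  obtain ⟨m, rfl⟩ : ∃ m, k = m + 1 := ⟨k - 1, by omega⟩
  rw [Nat.add_sub_cancel, pow_succ] at h
  have h1 : ((m + 1 : ℕ) : ℂ) * (r - A) + r = 0 := by
    have : r ^ m * (((m + 1 : ℕ) : ℂ) * (r - A) + r) = 0 := by linear_combination h
    exact (mul_eq_zero.1 this).resolve_left (pow_ne_zero _ hr0)
  have hm : (0 : ℝ) ≤ m := Nat.cast_nonneg m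
  have h2 : r = ((((m + 1) * A / (m + 2) : ℝ)) : ℂ) := by
    have hne : ((m : ℂ) + 2) ≠ 0 := by
      have : ((m : ℝ) + 2) ≠ 0 := by positivity
      exact_mod_cast this
    push_cast at h1 ⊢
    field_simp
    linear_combination h1
  have h3 := gf_norm hr
  have hA2 : (m : ℝ) + 3 ≤ A := by push_cast at hA; linarith
  have hApos : 0 < A := by linarith
  have h4 : ‖r‖ = (m + 1) * A / (m + 2) := by
    rw [h2, Complex.norm_real, Real.norm_eq_abs, abs_of_pos (by positivity)]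
  have h5 : ‖r - A‖ = A / (m + 2) := by
    rw [h2, ← Complex.ofReal_sub, Complex.norm_real, Real.norm_eq_abs, abs_sub_comm]
    have : A - (m + 1) * A / (m + 2) = A / (m + 2) := by field_simp; ring
    rw [this, abs_of_pos (by positivity)]
  have h6 : 1 < A / (m + 2) := by
    rw [lt_div_iff₀ (by positivity)]
    linarith
  have h7 : 1 ≤ ‖r‖ := by
    rw [h4, le_div_iff₀ (by positivity)]
    nlinarith
  have h8 : 1 ≤ ‖r‖ ^ (m + 1) := one_le_pow₀ h7
  rw [h5] at h3
  nlinarith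

end cpx

end Pool.Agent.U700
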