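import Mathlib
import Pool.Agent.U700.Gal
import Pool.Agent.U700.Roots

set_option autoImplicit false
open scoped TensorProduct

namespace Pool.Agent.U700

section
variable {n : ℕ} {G : SimpleGraph (Fin n)} {L : Type} [Field L] [Algebra ℚ L]
  {M : Type} [LieRing M] [LieAlgebra ℚ M] [FiniteDimensional ℚ M]
  {E : Fin n ⊕ G.edgeSet → L} {u : Module.Basis (Fin n ⊕ G.edgeSet) L (L ⊗[ℚ] M)}

theorem EigData.cen' (hu : EigData G L M E u) (e i) : ⁅u i, u (Sum.inr e)⁆ = 0 := by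
  rw [← lie_skew, hu.cen, neg_zero]

theorem EigData.lie_mem (hu : EigData G L M E u) (x y : L ⊗[ℚ] M) :
    ⁅x, y⁆ ∈ Submodule.span L (Set.range fun e : G.edgeSet => u (Sum.inr e)) := by
  classical
  have : Fintype G.edgeSet := Fintype.ofFinite _
  have h : ∀ i j, ⁅u i, u j⁆ ∈ Submodule.span L
      (Set.range fun e : G.edgeSet => u (Sum.inr e)) := by
    intro i j
    rcases i with a | e
    · rcases j with b | e
      · by_cases hab : G.Adj a b
        · obtain ⟨c, _, hc⟩ := hu.adj a b hab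
          rw [hc]
          exact Submodule.smul_mem _ _ (Submodule.subset_span ⟨_, rfl⟩)
        · rw [hu.nadj a b hab]; exact Submodule.zero_mem _
      · rw [hu.cen']; exact Submodule.zero_mem _
    · rw [hu.cen]; exact Submodule.zero_mem _
  rw [← u.sum_repr x, ← u.sum_repr y, sum_lie]
  refine Submodule.sum_mem _ fun i _ => ?_
  rw [lie_sum]
  refine Submodule.sum_mem _ fun j _ => ?_
  rw [smul_lie, lie_smul]
  exact Submodule.smul_mem _ _ (Submodule.smul_mem _ _ (h i j))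

theorem EigData.cen_of_mem (hu : EigData G L M E u) (x z : L ⊗[ℚ] M)
    (hz : z ∈ Submodule.span L (Set.range fun e : G.edgeSet => u (Sum.inr e))) :
    ⁅z, x⁆ = 0 := by
  classical
  have : Fintype G.edgeSet := Fintype.ofFinite _
  induction hz using Submodule.span_induction with
  | mem z hz =>
    obtain ⟨e, rfl⟩ := hz
    rw [← u.sum_repr x, lie_sum]
    refine Finset.sum_eq_zero fun i _ => ?_
    show ⁅u (Sum.inr e), _⁆ = 0
    rw [lie_smul, hu.cen, smul_zero]
  | zero => exact zero_lie _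
  | add a b _ _ ha hb => rw [add_lie, ha, hb, add_zero]
  | smul c a _ ha => rw [smul_lie, ha, smul_zero]

/-- brackets between nonadjacent classes vanish -/
theorem EigData.lie_cls_eq_zero (hu : EigData G L M E u) (a b : Fin n) (hab : ¬ G.Adj a b)
    (hne : a ≠ b) (x y : L ⊗[ℚ] M)
    (hx : x ∈ Submodule.span L ((fun c => u (Sum.inl c)) '' (cls G a : Set (Fin n))))
    (hy : y ∈ Submodule.span L ((fun c => u (Sum.inl c)) '' (cls G b : Set (Fin n)))) :
    ⁅x, y⁆ = 0 := by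
  induction hx using Submodule.span_induction with
  | mem x hx =>
    obtain ⟨c, hc, rfl⟩ := hx
    have hc' : Coh G a c := mem_cls.1 hc
    induction hy using Submodule.span_induction with
    | mem y hy =>
      obtain ⟨d, hd, rfl⟩ := hy
      have hd' : Coh G b d := mem_cls.1 hd
      refine hu.nadj c d fun h => ?_
      exact hab (hc'.symm.adj_both hd'.symm h hne)
    | zero => exact lie_zero _
    | add a b _ _ ha hb => rw [lie_add, ha, hb, add_zero]
    | smul c a _ ha => rw [lie_smul, ha, smul_zero]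
  | zero => exact zero_lie _
  | add a b _ _ ha hb => rw [add_lie, ha, hb, add_zero]
  | smul c a _ ha => rw [smul_lie, ha, smul_zero]

/-- degree parameter of a class -/
noncomputable def kk (G : SimpleGraph (Fin n)) (a : Fin n) : ℕ := (cls G a).card - 1

open Classical in
/-- coefficients -/
noncomputable def rho (G : SimpleGraph (Fin n)) (E : Fin n ⊕ G.edgeSet → L) (A : Fin n → L)
    (a : Fin n) : L :=
  -(Lagrange.nodalWeight (cls G a) (fun c => E (Sum.inl c)) a) *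
    gf (kk G a) (A a) (E (Sum.inl a))

/-- the rank one part -/
noncomputable def wv (u : Module.Basis (Fin n ⊕ G.edgeSet) L (L ⊗[ℚ] M))
    (E : Fin n ⊕ G.edgeSet → L) (A : Fin n → L) (a : Fin n) : L ⊗[ℚ] M :=
  ∑ c ∈ cls G a, rho G E A c • u (Sum.inl c)

/-- images of the vertices -/
noncomputable def TV (u : Module.Basis (Fin n ⊕ G.edgeSet) L (L ⊗[ℚ] M))
    (E : Fin n ⊕ G.edgeSet → L) (A : Fin n → L) (a : Fin n) : L ⊗[ℚ] M :=
  E (Sum.inl a) • u (Sum.inl a) + wv u E A a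

theorem TV_mem (A : Fin n → L) (a : Fin n) : TV u E A a ∈
    Submodule.span L ((fun c => u (Sum.inl c)) '' (cls G a : Set (Fin n))) := by
  refine Submodule.add_mem _ ?_ (Submodule.sum_mem _ fun c hc => ?_)
  · exact Submodule.smul_mem _ _ (Submodule.subset_span ⟨a, self_mem_cls G a, rfl⟩)
  · exact Submodule.smul_mem _ _ (Submodule.subset_span ⟨c, hc, rfl⟩)

theorem EigData.TV_nadj (hu : EigData G L M E u) (A : Fin n → L) (a b : Fin n)
    (hab : ¬ G.Adj a b) : ⁅TV u E A a, TV u E A b⁆ = 0 := by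
  by_cases h : a = b
  · subst h; exact lie_self _
  · exact hu.lie_cls_eq_zero a b hab h _ _ (TV_mem A a) (TV_mem A b)

/-- the Lie algebra endomorphism of `L ⊗ M` with prescribed values on the vertices -/
theorem EigData.exists_T (hu : EigData G L M E u) (A : Fin n → L) :
    ∃ T : L ⊗[ℚ] M →ₗ[L] L ⊗[ℚ] M, (∀ a, T (u (Sum.inl a)) = TV u E A a) ∧
      ∀ x y, T ⁅x, y⁆ = ⁅T x, T y⁆ := by
  classical
  have : Fintype G.edgeSet := Fintype.ofFinite _
  have hch : ∀ e : G.edgeSet, ∃ a b, ∃ h : G.Adj a b, e = ⟨s(a, b), G.mem_edgeSet.mpr h⟩ ∧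
      ∃ c : L, c ≠ 0 ∧ ⁅u (Sum.inl a), u (Sum.inl b)⁆ = c • u (Sum.inr e) := by
    rintro ⟨e, he⟩
    induction e using Sym2.ind with
    | _ a b =>
      have h := G.mem_edgeSet.1 he
      exact ⟨a, b, h, rfl, hu.adj a b h⟩
  choose p q hpq heq c hc hbr using hch
  let T : L ⊗[ℚ] M →ₗ[L] L ⊗[ℚ] M := u.constr L (Sum.elim (TV u E A)
    (fun e => (c e)⁻¹ • ⁅TV u E A (p e), TV u E A (q e)⁆))
  have hTl : ∀ a, T (u (Sum.inl a)) = TV u E A a := fun a => u.constr_basis _ _ _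
  have hTr : ∀ e, T (u (Sum.inr e)) = (c e)⁻¹ • ⁅TV u E A (p e), TV u E A (q e)⁆ :=
    fun e => u.constr_basis _ _ _
  have hTadj : ∀ a b (h : G.Adj a b), T ⁅u (Sum.inl a), u (Sum.inl b)⁆ =
      ⁅TV u E A a, TV u E A b⁆ := by
    intro a b h
    set e : G.edgeSet := ⟨s(a, b), G.mem_edgeSet.mpr h⟩ with he
    have h1 := congrArg Subtype.val (heq e)
    have h2 : s(a, b) = s(p e, q e) := h1
    have h3 : T ⁅u (Sum.inl (p e)), u (Sum.inl (q e))⁆ = ⁅TV u E A (p e), TV u E A (q e)⁆ := by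
      rw [hbr e, map_smul, hTr, smul_smul, mul_inv_cancel₀ (hc e), one_smul]
    rcases Sym2.eq_iff.1 h2 with ⟨ha, hb⟩ | ⟨ha, hb⟩
    · rw [ha, hb]; exact h3
    · rw [ha, hb, ← lie_skew, map_neg, h3, lie_skew]
  have hbas : ∀ i j, T ⁅u i, u j⁆ = ⁅T (u i), T (u j)⁆ := by
    intro i j
    rcases i with a | e
    · rcases j with b | e
      · rw [hTl, hTl]
        by_cases hab : G.Adj a b
        · exact hTadj a b hab
        · rw [hu.nadj a b hab, map_zero, hu.TV_nadj A a b hab]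
      · rw [hu.cen', map_zero, hTr, lie_smul, ← lie_skew, hu.cen_of_mem _ _ (hu.lie_mem _ _),
          neg_zero, smul_zero]
    · rw [hu.cen, map_zero, hTr, smul_lie, hu.cen_of_mem _ _ (hu.lie_mem _ _), smul_zero]
  refine ⟨T, hTl, fun x y => ?_⟩
  rw [← u.sum_repr x, ← u.sum_repr y, sum_lie_sum, map_sum, map_sum, map_sum, sum_lie_sum]
  refine Finset.sum_congr rfl fun i _ => ?_
  rw [map_sum]
  refine Finset.sum_congr rfl fun j _ => ?_
  rw [smul_lie, lie_smul, map_smul, map_smul, hbas, map_smul, map_smul, smul_lie, lie_smul]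

theorem cls_map (τ : Equiv.Perm (Fin n)) (hτ : ∀ a b, G.Adj a b ↔ G.Adj (τ a) (τ b)) (a : Fin n) :
    cls G (τ a) = (cls G a).map τ.toEmbedding := by
  ext b
  rw [Finset.mem_map, mem_cls]
  constructor
  · intro h
    refine ⟨τ.symm b, mem_cls.2 ?_, by simp⟩
    intro d hd1 hd2
    rw [hτ, hτ (τ.symm b), Equiv.apply_symm_apply]
    exact h (τ d) (fun h => hd1 (τ.injective h)) (fun h => hd2 (by rw [← h]; simp))
  · rintro ⟨c, hc, rfl⟩
    intro d hd1 hd2
    have h1 := mem_cls.1 hc (τ.symm d) (fun h => hd1 (by rw [← h]; simp))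
      (fun h => hd2 (by rw [← h]; simp))
    rw [hτ, hτ c, Equiv.apply_symm_apply] at h1
    exact h1

theorem kk_map (τ : Equiv.Perm (Fin n)) (hτ : ∀ a b, G.Adj a b ↔ G.Adj (τ a) (τ b)) (a : Fin n) :
    kk G (τ a) = kk G a := by
  rw [kk, cls_map τ hτ, Finset.card_map, kk]

theorem rho_map (A : Fin n → L) (σ : L ≃ₐ[ℚ] L) (τ : Equiv.Perm (Fin n))
    (hE : ∀ a, σ (E (Sum.inl a)) = E (Sum.inl (τ a)))
    (hτ : ∀ a b, G.Adj a b ↔ G.Adj (τ a) (τ b))
    (hA : ∀ a, σ (A a) = A (τ a)) (a : Fin n) : σ (rho G E A a) = rho G E A (τ a) := by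
  classical
  unfold rho
  rw [map_mul, map_neg]
  congr 1
  · congr 1
    rw [Lagrange.nodalWeight, Lagrange.nodalWeight, map_prod, cls_map τ hτ]
    have : ((cls G a).map τ.toEmbedding).erase (τ a) =
        ((cls G a).erase a).map τ.toEmbedding := by
      rw [Finset.map_erase]; rfl
    rw [this, Finset.prod_map]
    refine Finset.prod_congr rfl fun c _ => ?_
    rw [map_inv₀, map_sub, hE, hE]
    rfl
  · rw [kk_map τ hτ]
    simp only [gf, map_add, map_mul, map_pow, map_sub, map_one, hE, hA]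

theorem sg_TV (A : Fin n → L) (σ : L ≃ₐ[ℚ] L) (τ : Equiv.Perm (Fin n))
    (hE : ∀ a, σ (E (Sum.inl a)) = E (Sum.inl (τ a)))
    (hτ : ∀ a b, G.Adj a b ↔ G.Adj (τ a) (τ b))
    (hA : ∀ a, σ (A a) = A (τ a))
    (hsg : ∀ a, sg σ (u (Sum.inl a)) = u (Sum.inl (τ a))) (a : Fin n) :
    sg σ (TV u E A a) = TV u E A (τ a) := by
  unfold TV wv
  rw [map_add, sg_smul, hE, hsg, map_sum, cls_map τ hτ, Finset.sum_map]
  congr 1
  refine Finset.sum_congr rfl fun c _ => ?_
  rw [sg_smul, hsg, rho_map A σ τ hE hτ hA]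
  rfl

/-- the operator commutes with the Galois action -/
theorem EigData.T_gal (hu : EigData G L M E u) (A : Fin n → L)
    (hA : ∀ (σ : L ≃ₐ[ℚ] L) (τ : Equiv.Perm (Fin n)),
      (∀ a, σ (E (Sum.inl a)) = E (Sum.inl (τ a))) →
      (∀ a b, G.Adj a b ↔ G.Adj (τ a) (τ b)) → ∀ a, σ (A a) = A (τ a))
    (T : L ⊗[ℚ] M →ₗ[L] L ⊗[ℚ] M) (hT : ∀ a, T (u (Sum.inl a)) = TV u E A a)
    (hTlie : ∀ x y, T ⁅x, y⁆ = ⁅T x, T y⁆) (σ : L ≃ₐ[ℚ] L) (x : L ⊗[ℚ] M) :
    T (sg σ x) = sg σ (T x) := by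
  classical
  have : Fintype G.edgeSet := Fintype.ofFinite _
  obtain ⟨τ, hτE, hτadj, hτu⟩ := hu.gal σ
  have hl : ∀ a, T (sg σ (u (Sum.inl a))) = sg σ (T (u (Sum.inl a))) := by
    intro a
    rw [hτu, hT, hT, sg_TV A σ τ hτE hτadj (hA σ τ hτE hτadj) hτu]
  have hbas : ∀ i, T (sg σ (u i)) = sg σ (T (u i)) := by
    intro i
    rcases i with a | ⟨e, he⟩
    · exact hl a
    · induction e using Sym2.ind with
      | _ a b =>
        have h := G.mem_edgeSet.1 he
        obtain ⟨c, hc, hbr⟩ := hu.adj a b h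
        have h1 : T (sg σ ⁅u (Sum.inl a), u (Sum.inl b)⁆) =
            sg σ (T ⁅u (Sum.inl a), u (Sum.inl b)⁆) := by
          rw [sg_lie, hTlie, hl, hl, ← sg_lie, ← hTlie]
        rw [hbr, sg_smul, map_smul, map_smul, sg_smul] at h1
        have hσc : σ c ≠ 0 := fun h0 => hc (σ.injective (by rw [h0, map_zero]))
        exact smul_right_injective _ hσc h1
  rw [← u.sum_repr x, map_sum, map_sum, map_sum, map_sum]
  refine Finset.sum_congr rfl fun i _ => ?_
  rw [sg_smul, map_smul, map_smul, sg_smul, hbas]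

end

end Pool.Agent.U700
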