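import Mathlib
import Pool.Agent.U700.Top

set_option autoImplicit false
open scoped TensorProduct

namespace Pool.Agent.U700

section
variable {n : ℕ} {G : SimpleGraph (Fin n)} {L : Type} [Field L] [Algebra ℚ L] [IsAlgClosed L]
  {M : Type} [LieRing M] [LieAlgebra ℚ M] [FiniteDimensional ℚ M]
  {E : Fin n ⊕ G.edgeSet → L} {u : Module.Basis (Fin n ⊕ G.edgeSet) L (L ⊗[ℚ] M)}

/-- eigenvector of a class belonging to a root -/
noncomputable def ev (u : Module.Basis (Fin n ⊕ G.edgeSet) L (L ⊗[ℚ] M))
    (E : Fin n ⊕ G.edgeSet → L) (A : Fin n → L) (a : Fin n) (r : L) : L ⊗[ℚ] M :=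
  ∑ c ∈ cls G a, (rho G E A c / (r - E (Sum.inl c))) • u (Sum.inl c)

theorem rho_eq (A : Fin n → L) (hA : ∀ a b, Coh G a b → A a = A b) (a c : Fin n)
    (hc : c ∈ cls G a) [DecidableEq (Fin n)] : rho G E A c =
    -(Lagrange.nodalWeight (cls G a) (fun c => E (Sum.inl c)) c) *
      gf (kk G a) (A a) (E (Sum.inl c)) := by
  have h := mem_cls.1 hc
  unfold rho
  rw [kk, ← cls_eq_of_coh h, ← hA a c h, ← kk]
  congr!

theorem ev_eigen (A : Fin n → L) (hA : ∀ a b, Coh G a b → A a = A b)
    (hE : Function.Injective E) (hk : ∀ a, 2 ≤ (cls G a).card)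
    (hg : ∀ a, gf (kk G a) (A a) (E (Sum.inl a)) ≠ 0)
    (T : L ⊗[ℚ] M →ₗ[L] L ⊗[ℚ] M) (hT : ∀ a, T (u (Sum.inl a)) = TV u E A a)
    (a : Fin n) (r : L) (hr : gf (kk G a) (A a) r = 0) :
    T (ev u E A a r) = r • ev u E A a r ∧ ev u E A a r ≠ 0 := by
  classical
  have hne : ∀ c ∈ cls G a, r ≠ E (Sum.inl c) := by
    intro c hc h
    apply hg c
    have h' := mem_cls.1 hc
    rw [kk, ← cls_eq_of_coh h', ← hA a c h', ← kk, ← h, hr]
  have hinj : Function.Injective (fun c : Fin n => E (Sum.inl c)) :=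
    fun c d hcd => Sum.inl_injective (hE hcd)
  have hpf := partial_fractions (cls G a) (fun c => E (Sum.inl c)) hinj.injOn (kk G a)
    (by have := hk a; rw [kk]; omega) (A a) r hr hne
  have hpf' : ∑ c ∈ cls G a, rho G E A c / (r - E (Sum.inl c)) = 1 := by
    rw [← hpf]
    refine Finset.sum_congr rfl fun c hc => ?_
    rw [rho_eq A hA a c hc]
  constructor
  · have hw : ∀ c ∈ cls G a, wv u E A c = wv u E A a := by
      intro c hc
      unfold wv
      rw [cls_eq_of_coh (mem_cls.1 hc)]
    unfold ev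
    rw [map_sum, Finset.smul_sum]
    have h1 : ∀ c ∈ cls G a, T ((rho G E A c / (r - E (Sum.inl c))) • u (Sum.inl c)) =
        (rho G E A c / (r - E (Sum.inl c)) * E (Sum.inl c)) • u (Sum.inl c) +
        (rho G E A c / (r - E (Sum.inl c))) • wv u E A a := by
      intro c hc
      rw [map_smul, hT, TV, smul_add, smul_smul, hw c hc]
    rw [Finset.sum_congr rfl h1, Finset.sum_add_distrib, ← Finset.sum_smul, hpf', one_smul, wv,
      ← Finset.sum_add_distrib]
    refine Finset.sum_congr rfl fun c hc => ?_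
    rw [smul_smul, ← add_smul]
    congr 1
    have := sub_ne_zero.2 (hne c hc)
    field_simp
    ring
  · intro h0
    have h1 := congrArg (fun x => u.repr x (Sum.inl a)) h0
    simp only [ev, map_sum, map_smul, Module.Basis.repr_self, map_zero, Finsupp.coe_zero,
      Pi.zero_apply, Finsupp.coe_finsetSum, Finset.sum_apply, Finsupp.smul_apply,
      smul_eq_mul] at h1
    rw [Finset.sum_eq_single a] at h1
    · rw [Finsupp.single_eq_same, mul_one, div_eq_zero_iff] at h1
      rcases h1 with h1 | h1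
      · rw [rho, mul_eq_zero, neg_eq_zero] at h1
        rcases h1 with h1 | h1
        · exact Lagrange.nodalWeight_ne_zero hinj.injOn (self_mem_cls G a) h1
        · exact hg a h1
      · exact sub_ne_zero.2 (hne a (self_mem_cls G a)) h1
    · intro c _ hc
      rw [Finsupp.single_eq_of_ne (fun h => hc (Sum.inl_injective h).symm), mul_zero]
    · intro h; exact absurd (self_mem_cls G a) h

/-- the basis vectors of a class lie in the span of the eigenvectors of that class -/
theorem mem_span_ev (A : Fin n → L) (hA : ∀ a b, Coh G a b → A a = A b)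
    (hE : Function.Injective E) (hk : ∀ a, 2 ≤ (cls G a).card)
    (hg : ∀ a, gf (kk G a) (A a) (E (Sum.inl a)) ≠ 0)
    (hsep : ∀ a r, gf (kk G a) (A a) r = 0 →
      (kk G a : L) * r ^ (kk G a - 1) * (r - A a) + r ^ (kk G a) ≠ 0)
    (T : L ⊗[ℚ] M →ₗ[L] L ⊗[ℚ] M) (hT : ∀ a, T (u (Sum.inl a)) = TV u E A a) (a : Fin n) :
    u (Sum.inl a) ∈ Submodule.span L {v | ∃ r, gf (kk G a) (A a) r = 0 ∧ v = ev u E A a r} := by
  classical
  have hgp := gp_monic_natDegree (kk G a) (A a)
  set g := gp (kk G a) (A a) with hgdef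
  have hsepar : g.Separable := by
    rw [Polynomial.Separable, Polynomial.isCoprime_iff_aeval_ne_zero_of_isAlgClosed L L]
    intro z
    by_contra hcon
    push Not at hcon
    obtain ⟨h1, h2⟩ := hcon
    rw [Polynomial.coe_aeval_eq_eval] at h1 h2
    rw [hgdef, gp_eval] at h1
    refine hsep a z h1 ?_
    rw [hgdef, gp] at h2
    simp only [Polynomial.derivative_add, Polynomial.derivative_mul, Polynomial.derivative_X_pow,
      Polynomial.derivative_sub, Polynomial.derivative_X, Polynomial.derivative_C, sub_zero,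
      mul_one, Polynomial.derivative_one, add_zero, Polynomial.eval_add, Polynomial.eval_mul,
      Polynomial.eval_sub, Polynomial.eval_X, Polynomial.eval_C, Polynomial.eval_pow] at h2
    exact h2
  have hcard : g.roots.toFinset.card = (cls G a).card := by
    rw [Multiset.toFinset_card_of_nodup (Polynomial.nodup_roots hsepar),
      (IsAlgClosed.splits g).natDegree_eq_card_roots.symm, hgp.2, kk]
    have := hk a
    omega
  have hroot : ∀ r : g.roots.toFinset, gf (kk G a) (A a) r.1 = 0 := by
    rintro ⟨r, hr⟩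
    rw [Multiset.mem_toFinset, Polynomial.mem_roots hgp.1.ne_zero, Polynomial.IsRoot.def, hgdef,
      gp_eval] at hr
    exact hr
  have hli : LinearIndependent L (fun r : g.roots.toFinset => ev u E A a r.1) :=
    Module.End.eigenvectors_linearIndependent' (T : Module.End L (L ⊗[ℚ] M)) (fun r => r.1)
      Subtype.val_injective _ fun r => by
        have := ev_eigen A hA hE hk hg T hT a r.1 (hroot r)
        exact ⟨Module.End.mem_eigenspace_iff.2 this.1, this.2⟩
  have hliu : LinearIndependent L (fun c : cls G a => u (Sum.inl c.1)) :=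
    u.linearIndependent.comp (fun c : cls G a => (Sum.inl c.1 : Fin n ⊕ G.edgeSet))
      (fun c d h => Subtype.ext (Sum.inl_injective h))
  have hle : Submodule.span L (Set.range fun r : g.roots.toFinset => ev u E A a r.1) ≤
      Submodule.span L (Set.range fun c : cls G a => u (Sum.inl c.1)) := by
    rw [Submodule.span_le]
    rintro _ ⟨r, rfl⟩
    refine Submodule.sum_mem _ fun c hc => ?_
    exact Submodule.smul_mem _ _ (Submodule.subset_span ⟨⟨c, hc⟩, rfl⟩)
  have heq := Submodule.eq_of_le_of_finrank_eq hle (by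
    rw [finrank_span_eq_card hli, finrank_span_eq_card hliu, Fintype.card_coe, Fintype.card_coe,
      hcard])
  have hmem : u (Sum.inl a) ∈ Submodule.span L (Set.range fun c : cls G a => u (Sum.inl c.1)) :=
    Submodule.subset_span ⟨⟨a, self_mem_cls G a⟩, rfl⟩
  rw [← heq] at hmem
  refine Submodule.span_mono ?_ hmem
  rintro _ ⟨r, rfl⟩
  exact ⟨r.1, hroot r, rfl⟩

/-- all eigenvalues of the operator -/
theorem EigData.eigenvalue (hu : EigData G L M E u) (A : Fin n → L)
    (hA : ∀ a b, Coh G a b → A a = A b)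
    (hE : Function.Injective E) (hk : ∀ a, 2 ≤ (cls G a).card)
    (hg : ∀ a, gf (kk G a) (A a) (E (Sum.inl a)) ≠ 0)
    (hsep : ∀ a r, gf (kk G a) (A a) r = 0 →
      (kk G a : L) * r ^ (kk G a - 1) * (r - A a) + r ^ (kk G a) ≠ 0)
    (T : L ⊗[ℚ] M →ₗ[L] L ⊗[ℚ] M) (hT : ∀ a, T (u (Sum.inl a)) = TV u E A a)
    (hTlie : ∀ x y, T ⁅x, y⁆ = ⁅T x, T y⁆) (z : L)
    (hz : Module.End.HasEigenvalue (T : Module.End L (L ⊗[ℚ] M)) z) :
    (∃ a, gf (kk G a) (A a) z = 0) ∨ ∃ a b r s, G.Adj a b ∧ gf (kk G a) (A a) r = 0 ∧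
      gf (kk G b) (A b) s = 0 ∧ z = r * s := by
  classical
  by_contra hcon
  push Not at hcon
  set Z : Set L := {z' | (∃ a, gf (kk G a) (A a) z' = 0) ∨ ∃ a b r s, G.Adj a b ∧
    gf (kk G a) (A a) r = 0 ∧ gf (kk G b) (A b) s = 0 ∧ z' = r * s} with hZ
  let TT : Module.End L (L ⊗[ℚ] M) := T
  have hzZ : z ∉ Z := by
    intro h
    rcases h with ⟨a, ha⟩ | ⟨a, b, r, s, h1, h2, h3, h4⟩
    · exact hcon.1 a ha
    · exact hcon.2 a b r s h1 h2 h3 h4
  set S : Submodule L (L ⊗[ℚ] M) := ⨆ z' ∈ Z, TT.eigenspace z' with hS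
  have hSmem : ∀ z' ∈ Z, ∀ v, T v = z' • v → v ∈ S := by
    intro z' hz' v hv
    have : TT.eigenspace z' ≤ S := le_iSup₂_of_le z' hz' le_rfl
    exact this (Module.End.mem_eigenspace_iff.2 hv)
  have hl : ∀ a, u (Sum.inl a) ∈ S := by
    intro a
    have h1 := mem_span_ev A hA hE hk hg hsep T hT a
    refine (Submodule.span_le.2 ?_) h1
    rintro _ ⟨r, hr, rfl⟩
    exact hSmem r (Or.inl ⟨a, hr⟩) _ (ev_eigen A hA hE hk hg T hT a r hr).1
  have htop : S = ⊤ := by
    rw [eq_top_iff, ← u.span_eq, Submodule.span_le]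
    rintro _ ⟨i, rfl⟩
    rcases i with a | ⟨e, he⟩
    · exact hl a
    · induction e using Sym2.ind with
      | _ a b =>
        have h := G.mem_edgeSet.1 he
        obtain ⟨c, hc, hbr⟩ := hu.adj a b h
        have h1 : ⁅u (Sum.inl a), u (Sum.inl b)⁆ ∈ S := by
          have ha := mem_span_ev A hA hE hk hg hsep T hT a
          have hb := mem_span_ev A hA hE hk hg hsep T hT b
          generalize u (Sum.inl a) = x at ha
          generalize u (Sum.inl b) = y at hb
          induction ha using Submodule.span_induction with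
          | mem x hx =>
            obtain ⟨r, hr, rfl⟩ := hx
            induction hb using Submodule.span_induction with
            | mem y hy =>
              obtain ⟨s, hs, rfl⟩ := hy
              refine hSmem (r * s) (Or.inr ⟨a, b, r, s, h, hr, hs, rfl⟩) _ ?_
              rw [hTlie, (ev_eigen A hA hE hk hg T hT a r hr).1,
                (ev_eigen A hA hE hk hg T hT b s hs).1, smul_lie, lie_smul, smul_smul]
            | zero => rw [lie_zero]; exact S.zero_mem
            | add y y' _ _ h1 h2 => rw [lie_add]; exact S.add_mem h1 h2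
            | smul t y _ h1 => rw [lie_smul]; exact S.smul_mem _ h1
          | zero => rw [zero_lie]; exact S.zero_mem
          | add x x' _ _ h1 h2 => rw [add_lie]; exact S.add_mem h1 h2
          | smul t x _ h1 => rw [smul_lie]; exact S.smul_mem _ h1
        rw [hbr] at h1
        exact (S.smul_mem_iff hc).1 h1
  obtain ⟨v, hv⟩ := hz.exists_hasEigenvector
  have hind := TT.eigenspaces_iSupIndep
  have hdis : Disjoint (TT.eigenspace z) S := by
    have h1 := hind z
    refine h1.mono_right ?_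
    rw [hS]
    refine iSup₂_le fun z' hz' => ?_
    exact le_iSup₂_of_le z' (fun h => hzZ (h ▸ hz')) le_rfl
  rw [htop, disjoint_top] at hdis
  have hv1 : v ∈ TT.eigenspace z := hv.1
  rw [hdis, Submodule.mem_bot] at hv1
  exact hv.2 hv1

end

end Pool.Agent.U700
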