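import Mathlib
import Pool.Agent.U700.Spec
import Pool.Agent.U700.PartA3

set_option autoImplicit false
open scoped TensorProduct

namespace Pool.Agent.U700

theorem final_poly {L : Type} [Field L] [Algebra ℚ L] [IsAlgClosed L] (F : Polynomial ℚ)
    (hF : F.Monic)
    (hroots : ∀ z : L, Polynomial.aeval z F = 0 → IsIntegral ℤ z ∧ IsIntegral ℤ z⁻¹ ∧ z ≠ 0) :
    ∃ q : Polynomial ℤ, q.map (Int.castRingHom ℚ) = F ∧ (q.coeff 0 = 1 ∨ q.coeff 0 = -1) := by
  set P := F.map (algebraMap ℚ L) with hP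
  have hPm : P.Monic := hF.map _
  have hPs : P.Splits := IsAlgClosed.splits P
  have hr : ∀ z ∈ P.roots, IsIntegral ℤ z ∧ IsIntegral ℤ z⁻¹ ∧ z ≠ 0 := by
    intro z hz
    rw [Polynomial.mem_roots hPm.ne_zero, Polynomial.IsRoot.def, hP,
      Polynomial.eval_map_algebraMap] at hz
    exact hroots z hz
  have hlift : P ∈ Polynomial.lifts (algebraMap (integralClosure ℤ L) L) := by
    refine hPs.mem_lift_of_roots_mem_range hPm _ fun a ha => ?_
    exact ⟨⟨a, (hr a ha).1⟩, rfl⟩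
  rw [Polynomial.lifts_iff_coeff_lifts] at hlift
  have hint : ∀ i, IsIntegral ℤ (F.coeff i) := by
    intro i
    obtain ⟨c, hc⟩ := hlift i
    have h1 : IsIntegral ℤ (algebraMap ℚ L (F.coeff i)) := by
      rw [hP, Polynomial.coeff_map] at hc
      rw [← hc]
      exact c.2
    exact (isIntegral_algebraMap_iff (algebraMap ℚ L).injective).1 h1
  have hlift2 : F ∈ Polynomial.lifts (Int.castRingHom ℚ) := by
    rw [Polynomial.lifts_iff_coeff_lifts]
    intro i
    obtain ⟨a, ha⟩ := IsIntegrallyClosed.isIntegral_iff.1 (hint i)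
    exact ⟨a, ha⟩
  obtain ⟨q, hq⟩ := (Polynomial.mem_lifts _).1 hlift2
  refine ⟨q, hq, ?_⟩
  -- constant term
  have hc : ((q.coeff 0 : ℤ) : ℚ) = F.coeff 0 := by
    rw [← hq, Polynomial.coeff_map]; rfl
  have hprod : algebraMap ℚ L (F.coeff 0) = (-1) ^ P.natDegree * P.roots.prod := by
    rw [← hPs.coeff_zero_eq_prod_roots_of_monic hPm, hP, Polynomial.coeff_map]
  have hne : F.coeff 0 ≠ 0 := by
    intro h0
    rw [h0, map_zero] at hprod
    have h1 : P.roots.prod ≠ 0 := by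
      refine Multiset.prod_ne_zero ?_
      intro h
      exact (hr 0 h).2.2 rfl
    exact mul_ne_zero (pow_ne_zero _ (by norm_num)) h1 hprod.symm
  have hinv : IsIntegral ℤ ((F.coeff 0)⁻¹) := by
    refine (isIntegral_algebraMap_iff (algebraMap ℚ L).injective).1 ?_
    have hpi : P.roots.prod⁻¹ = (P.roots.map (fun x => x⁻¹)).prod := by
      rw [Multiset.prod_map_inv]; simp
    rw [map_inv₀, hprod, mul_inv, hpi]
    refine IsIntegral.mul ?_ (IsIntegral.multiset_prod ?_)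
    · rw [← inv_pow]
      refine IsIntegral.pow ?_ _
      rw [inv_neg, inv_one]
      exact isIntegral_one.neg
    · intro x hx
      obtain ⟨y, hy, rfl⟩ := Multiset.mem_map.1 hx
      exact (hr y hy).2.1
  obtain ⟨c, hc'⟩ := IsIntegrallyClosed.isIntegral_iff.1 hinv
  have hc'' : (c : ℚ) = (F.coeff 0)⁻¹ := hc'
  have h1 : q.coeff 0 * c = 1 := by
    have : ((q.coeff 0 : ℤ) : ℚ) * (c : ℚ) = 1 := by rw [hc, hc'', mul_inv_cancel₀ hne]
    exact_mod_cast this
  exact Int.isUnit_iff.1 (IsUnit.of_mul_eq_one c h1)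

/-- assembling an automorphism from an operator with good eigenvalues -/
theorem assemble {L : Type} [Field L] [Algebra ℚ L] [IsAlgClosed L] (ι : L →ₐ[ℚ] ℂ)
    {M : Type} [LieRing M] [LieAlgebra ℚ M] [FiniteDimensional ℚ M] (T0 : M →ₗ[ℚ] M)
    (hlie : ∀ x y, T0 ⁅x, y⁆ = ⁅T0 x, T0 y⁆)
    (hgood : ∀ z : L, Module.End.HasEigenvalue (T0.baseChange L : Module.End L (L ⊗[ℚ] M)) z →
      IsIntegral ℤ z ∧ IsIntegral ℤ z⁻¹ ∧ z ≠ 0 ∧ ‖ι z‖ ≠ 1) :
    ∃ g : M ≃ₗ⁅ℚ⁆ M, ∃ q : Polynomial ℤ,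
      q.map (Int.castRingHom ℚ) = LinearMap.charpoly g.toLinearEquiv.toLinearMap ∧
      (q.coeff 0 = 1 ∨ q.coeff 0 = -1) ∧
      ∀ z : ℂ, (q.map (Int.castRingHom ℂ)).IsRoot z → ‖z‖ ≠ 1 := by
  have hroot : ∀ z : L, Polynomial.aeval z T0.charpoly = 0 →
      IsIntegral ℤ z ∧ IsIntegral ℤ z⁻¹ ∧ z ≠ 0 ∧ ‖ι z‖ ≠ 1 := by
    intro z hz
    apply hgood
    rw [Module.End.hasEigenvalue_iff_isRoot_charpoly]
    show (LinearMap.charpoly (T0.baseChange L)).IsRoot z
    rw [LinearMap.charpoly_baseChange, Polynomial.IsRoot.def, Polynomial.eval_map_algebraMap]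
    exact hz
  obtain ⟨q, hq, hq0⟩ := final_poly (L := L) T0.charpoly T0.charpoly_monic
    (fun z hz => ⟨(hroot z hz).1, (hroot z hz).2.1, (hroot z hz).2.2.1⟩)
  have hdet : LinearMap.det T0 ≠ 0 := by
    intro h0
    have h1 := LinearMap.det_eq_sign_charpoly_coeff T0
    rw [h0, ← hq, Polynomial.coeff_map] at h1
    have h2 : ((Int.castRingHom ℚ) (q.coeff 0)) ≠ 0 := by
      rcases hq0 with h | h <;> rw [h] <;> norm_num
    exact mul_ne_zero (pow_ne_zero _ (by norm_num)) h2 h1.symm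
  let e := T0.equivOfDetNeZero hdet
  have he : ∀ x, e x = T0 x := fun x => rfl
  let g : M ≃ₗ⁅ℚ⁆ M :=
    { toFun := T0
      map_add' := T0.map_add
      map_smul' := T0.map_smul
      map_lie' := fun {x y} => hlie x y
      invFun := e.symm
      left_inv := fun x => by
        show e.symm (T0 x) = x
        rw [← he, LinearEquiv.symm_apply_apply]
      right_inv := fun x => by
        show T0 (e.symm x) = x
        rw [← he, LinearEquiv.apply_symm_apply] }
  have hg : g.toLinearEquiv.toLinearMap = T0 := by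
    ext x; rfl
  refine ⟨g, q, by rw [hg, hq], hq0, fun z hz => ?_⟩
  have hz' : z ∈ T0.charpoly.rootSet ℂ := by
    rw [Polynomial.mem_rootSet]
    refine ⟨T0.charpoly_monic.ne_zero, ?_⟩
    rw [← hq, ← algebraMap_int_eq, Polynomial.aeval_map_algebraMap]
    rw [Polynomial.IsRoot.def, ← algebraMap_int_eq, Polynomial.eval_map_algebraMap] at hz
    exact hz
  rw [← (IsAlgClosed.splits (T0.charpoly.map (algebraMap ℚ L))).image_rootSet ι] at hz'
  obtain ⟨w, hw, rfl⟩ := hz'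
  rw [Polynomial.mem_rootSet] at hw
  exact (hroot w hw.2).2.2.2

section
variable {n : ℕ} {G : SimpleGraph (Fin n)} {N : Type} [LieRing N] [LieAlgebra ℚ N]
    {b : Module.Basis (Fin n ⊕ G.edgeSet) ℚ N}

theorem dS_pos (a : Fin n) : (5 : ℝ) ≤ (dS n a : ℝ) := by
  have h1 : 1 ≤ 2 ^ n := Nat.one_le_two_pow
  have h2 : 1 ≤ 2 ^ a.1 := Nat.one_le_two_pow
  have h3 : 5 ≤ dS n a := by
    rw [dS, pow_bound]
    omega
  exact_mod_cast h3

/-- approximations of the class sums -/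
theorem class_sum_gap (e : Fin n ⊕ G.edgeSet → ℝ) (k : ℝ) (hk : 1 ≤ k)
    (he : ∀ i, |e i - k * (wt G i : ℝ)| < k * (1 / (8 * ((n : ℝ) + 1)))) (s t : Finset (Fin n))
    (hst : s ≠ t) : 1 ≤ |2 * ∑ a ∈ s, e (Sum.inl a) - 2 * ∑ a ∈ t, e (Sum.inl a)| := by
  have hn : (0 : ℝ) < (n : ℝ) + 1 := by positivity
  have hsum : ∀ s : Finset (Fin n),
      |∑ a ∈ s, e (Sum.inl a) - k * ((∑ a ∈ s, dS n a : ℕ) : ℝ)| ≤ k / 8 := by
    intro s
    have h1 : ∑ a ∈ s, e (Sum.inl a) - k * ((∑ a ∈ s, dS n a : ℕ) : ℝ) =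
        ∑ a ∈ s, (e (Sum.inl a) - k * (wt G (Sum.inl a) : ℝ)) := by
      rw [Finset.sum_sub_distrib, ← Finset.mul_sum]
      push_cast
      rfl
    rw [h1]
    calc _ ≤ ∑ a ∈ s, |e (Sum.inl a) - k * (wt G (Sum.inl a) : ℝ)| :=
          Finset.abs_sum_le_sum_abs _ _
      _ ≤ ∑ _a ∈ s, k * (1 / (8 * ((n : ℝ) + 1))) := Finset.sum_le_sum fun a _ => (he _).le
      _ = (s.card : ℝ) * (k * (1 / (8 * ((n : ℝ) + 1)))) := by
          rw [Finset.sum_const, nsmul_eq_mul]
      _ ≤ ((n : ℝ) + 1) * (k * (1 / (8 * ((n : ℝ) + 1)))) := by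
          refine mul_le_mul_of_nonneg_right ?_ (by positivity)
          have : s.card ≤ n := by simpa using Finset.card_le_univ s
          have : (s.card : ℝ) ≤ n := by exact_mod_cast this
          linarith
      _ = k / 8 := by field_simp
  have hs := hsum s
  have ht := hsum t
  have hne : (∑ a ∈ s, dS n a) ≠ ∑ a ∈ t, dS n a := fun h => hst (sum_dS_inj h)
  rw [abs_le] at hs ht
  rcases lt_or_gt_of_ne hne with h | h
  · have h' : ((∑ a ∈ s, dS n a : ℕ) : ℝ) + 1 ≤ ((∑ a ∈ t, dS n a : ℕ) : ℝ) := by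
      exact_mod_cast h
    have h2 := mul_le_mul_of_nonneg_left h' (by linarith : (0 : ℝ) ≤ k)
    rw [le_abs]
    right
    linarith
  · have h' : ((∑ a ∈ t, dS n a : ℕ) : ℝ) + 1 ≤ ((∑ a ∈ s, dS n a : ℕ) : ℝ) := by
      exact_mod_cast h
    have h2 := mul_le_mul_of_nonneg_left h' (by linarith : (0 : ℝ) ≤ k)
    rw [le_abs]
    left
    linarith

theorem GLie.main (L : Type) [Field L] [Algebra ℚ L] [IsAlgClosed L] [IsGalois ℚ L]
    (ι : L →ₐ[ℚ] ℂ) (hb : GLie G b) [FiniteDimensional ℚ N]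
    (hc2 : ∀ a, 2 ≤ (cls G a).card)
    (hc3 : ∀ a c, G.Adj a c → Coh G a c → 3 ≤ (cls G a).card)
    {M : Type} [LieRing M] [LieAlgebra ℚ M] [FiniteDimensional ℚ M]
    (Φ : (ℝ ⊗[ℚ] M) ≃ₗ⁅ℝ⁆ (ℝ ⊗[ℚ] N)) :
    ∃ g : M ≃ₗ⁅ℚ⁆ M, ∃ q : Polynomial ℤ,
      q.map (Int.castRingHom ℚ) = LinearMap.charpoly g.toLinearEquiv.toLinearMap ∧
      (q.coeff 0 = 1 ∨ q.coeff 0 = -1) ∧
      ∀ z : ℂ, (q.map (Int.castRingHom ℂ)).IsRoot z → ‖z‖ ≠ 1 := by
  classical
  have : Fintype G.edgeSet := Fintype.ofFinite _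
  have hn : (0 : ℝ) ≤ (n : ℝ) := Nat.cast_nonneg n
  have hε : (1 : ℝ) / (8 * ((n : ℝ) + 1)) ≤ 1 / 8 := by
    rw [div_le_div_iff₀ (by positivity) (by norm_num)]
    linarith
  obtain ⟨D, e, k, hD, hk, he, heroot, heint⟩ := hb.exists_derivation Φ
    (1 / (8 * ((n : ℝ) + 1))) (by positivity) (by linarith)
  obtain ⟨hbr, hfin⟩ := hb.finrank_form Φ
  have hEx : ∀ i, ∃ w : L, Polynomial.aeval w D.charpoly = 0 ∧
      ι w = (e i : ℂ) := by
    intro i
    have h1 : ((e i : ℝ) : ℂ) ∈ D.charpoly.rootSet ℂ := by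
      rw [Polynomial.mem_rootSet]
      refine ⟨D.charpoly_monic.ne_zero, ?_⟩
      have h2 := Polynomial.aeval_algebraMap_apply ℂ (e i) D.charpoly
      rw [heroot, map_zero] at h2
      exact h2
    rw [← (IsAlgClosed.splits (D.charpoly.map (algebraMap ℚ L))).image_rootSet ι] at h1
    obtain ⟨w, hw, hw'⟩ := h1
    rw [Polynomial.mem_rootSet] at hw
    exact ⟨w, hw.2, hw'⟩
  choose E hEroot hEι using hEx
  have hclose : ∀ i, |e i - k * (wt G i : ℝ)| < k / 8 := fun i =>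
    (he i).trans_le (by
      have := mul_le_mul_of_nonneg_left hε (by linarith : (0 : ℝ) ≤ k)
      linarith)
  have heinj : Function.Injective e := by
    intro i j hij
    by_contra hne
    have hw : wt G i ≠ wt G j := fun h => hne (wt_inj G h)
    have h1 := abs_lt.1 (hclose i)
    have h2 := abs_lt.1 (hclose j)
    rw [hij] at h1
    rcases lt_or_gt_of_ne hw with h | h
    · have h' : ((wt G i : ℕ) : ℝ) + 1 ≤ ((wt G j : ℕ) : ℝ) := by exact_mod_cast h
      have := mul_le_mul_of_nonneg_left h' (by linarith : (0 : ℝ) ≤ k)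
      linarith
    · have h' : ((wt G j : ℕ) : ℝ) + 1 ≤ ((wt G i : ℕ) : ℝ) := by exact_mod_cast h
      have := mul_le_mul_of_nonneg_left h' (by linarith : (0 : ℝ) ≤ k)
      linarith
  have hEinj : Function.Injective E := by
    intro i j hij
    apply heinj
    have : ((e i : ℝ) : ℂ) = ((e j : ℝ) : ℂ) := by rw [← hEι, ← hEι, hij]
    exact_mod_cast this
  have hgen : ∀ i j k', E i + E j = E k' → ∃ a b, ∃ h : G.Adj a b, i = Sum.inl a ∧
      j = Sum.inl b ∧ k' = Sum.inr ⟨s(a, b), G.mem_edgeSet.mpr h⟩ := by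
    intro i j l h
    have h1 : e i + e j = e l := by
      have : ((e i : ℝ) : ℂ) + ((e j : ℝ) : ℂ) = ((e l : ℝ) : ℂ) := by
        rw [← hEι, ← hEι, ← hEι, ← map_add, h]
      exact_mod_cast this
    apply wt_add G i j l
    by_contra hne
    have h2 := abs_lt.1 (hclose i)
    have h3 := abs_lt.1 (hclose j)
    have h4 := abs_lt.1 (hclose l)
    rcases lt_or_gt_of_ne hne with h | h
    · have h' : ((wt G i : ℕ) : ℝ) + ((wt G j : ℕ) : ℝ) + 1 ≤ ((wt G l : ℕ) : ℝ) := by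
        exact_mod_cast h
      have := mul_le_mul_of_nonneg_left h' (by linarith : (0 : ℝ) ≤ k)
      linarith
    · have h' : ((wt G l : ℕ) : ℝ) + 1 ≤ ((wt G i : ℕ) : ℝ) + ((wt G j : ℕ) : ℝ) := by
        exact_mod_cast h
      have := mul_le_mul_of_nonneg_left h' (by linarith : (0 : ℝ) ≤ k)
      linarith
  obtain ⟨u, hu⟩ := exists_eigData D hD E hEinj hEroot hgen hfin hbr
  have hEint : ∀ i, IsIntegral ℤ (E i) := by
    intro i
    have h1 : IsIntegral ℤ (ι (E i)) := by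
      rw [hEι]
      exact (heint i).algebraMap (B := ℂ)
    exact (isIntegral_algHom_iff (ι.restrictScalars ℤ) ι.injective).1 h1
  -- bounds for the eigenvalues
  have he4 : ∀ a, 4 ≤ e (Sum.inl a) := by
    intro a
    have h1 := abs_lt.1 (hclose (Sum.inl a))
    have h2 := dS_pos a
    rw [wt_inl] at h1
    have := mul_le_mul_of_nonneg_left h2 (by linarith : (0 : ℝ) ≤ k)
    linarith
  obtain ⟨Nb, hNb⟩ := exists_nat_ge (2 * ∑ a, e (Sum.inl a) + (n : ℝ) + 10)
  have hsumle : ∀ s : Finset (Fin n), ∑ a ∈ s, e (Sum.inl a) ≤ ∑ a, e (Sum.inl a) := fun s =>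
    Finset.sum_le_sum_of_subset_of_nonneg (Finset.subset_univ _)
      (fun a _ _ => by linarith [he4 a])
  have hsumnn : ∀ s : Finset (Fin n), 0 ≤ ∑ a ∈ s, e (Sum.inl a) := fun s =>
    Finset.sum_nonneg (fun a _ => by linarith [he4 a])
  let α : Fin n → ℝ := fun a => (Nb : ℝ) + 2 * ∑ c ∈ cls G a, e (Sum.inl c)
  let A : Fin n → L := fun a =>
    (Nb : L) + 2 * ∑ c ∈ cls G a, E (Sum.inl c)
  have hAα : ∀ a, ι (A a) = ((α a : ℝ) : ℂ) := by
    intro a
    simp only [A, α, map_add, map_natCast, map_mul, map_ofNat, map_sum, hEι]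
    push_cast
    rfl
  have hAint : ∀ a, IsIntegral ℤ (A a) := by
    intro a
    refine IsIntegral.add ?_ (IsIntegral.mul ?_ (IsIntegral.sum _ fun c _ => hEint _))
    · have h := isIntegral_algebraMap (R := ℤ) (A := L) (x := (Nb : ℤ))
      rwa [eq_intCast, Int.cast_natCast] at h
    · have h := isIntegral_algebraMap (R := ℤ) (A := L) (x := (2 : ℤ))
      rwa [eq_intCast, Int.cast_ofNat] at h
  have hαlow : ∀ a, (Nb : ℝ) ≤ α a := fun a => by
    have := hsumnn (cls G a)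
    show (Nb : ℝ) ≤ (Nb : ℝ) + 2 * ∑ c ∈ cls G a, e (Sum.inl c)
    linarith
  have hNb10 : (n : ℝ) + 10 ≤ Nb := by
    have := hsumnn Finset.univ
    linarith
  have hαup : ∀ a, α a ≤ 2 * (Nb : ℝ) := fun a => by
    have := hsumle (cls G a)
    show (Nb : ℝ) + 2 * ∑ c ∈ cls G a, e (Sum.inl c) ≤ 2 * (Nb : ℝ)
    linarith
  have hgι : ∀ a (z : L), ι (gf (kk G a) (A a) z) =
      gf (kk G a) ((α a : ℝ) : ℂ) (ι z) := by
    intro a z
    simp only [gf, map_add, map_mul, map_pow, map_sub, map_one, hAα]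
  have hgroot : ∀ a (z : L), gf (kk G a) (A a) z = 0 →
      gf (kk G a) ((α a : ℝ) : ℂ) (ι z) = 0 := by
    intro a z h
    rw [← hgι, h, map_zero]
  have hkk1 : ∀ a, 1 ≤ kk G a := fun a => by
    have := hc2 a
    rw [kk]; omega
  have hkkn : ∀ a, ((kk G a : ℕ) : ℝ) ≤ n := fun a => by
    have h1 : (cls G a).card ≤ n := by simpa using Finset.card_le_univ (cls G a)
    have h2 : kk G a ≤ n := by rw [kk]; omega
    exact_mod_cast h2
  have hAcls : ∀ a c, Coh G a c → A a = A c := by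
    intro a c h
    simp only [A, cls_eq_of_coh h]
  have hg : ∀ a, gf (kk G a) (A a) (E (Sum.inl a)) ≠ 0 := by
    intro a h
    have h1 := hgroot a _ h
    rw [hEι, gf] at h1
    have h2 : (e (Sum.inl a)) ^ (kk G a) * (e (Sum.inl a) - α a) + 1 = 0 := by exact_mod_cast h1
    have h3 : 1 ≤ (e (Sum.inl a)) ^ (kk G a) := one_le_pow₀ (by linarith [he4 a])
    have h4 : e (Sum.inl a) - α a ≤ -2 := by
      have h5 : e (Sum.inl a) ≤ ∑ c ∈ cls G a, e (Sum.inl c) :=
        Finset.single_le_sum (f := fun c => e (Sum.inl c)) (fun c _ => by linarith [he4 c])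
          (self_mem_cls G a)
      show e (Sum.inl a) - ((Nb : ℝ) + 2 * ∑ c ∈ cls G a, e (Sum.inl c)) ≤ -2
      linarith [he4 a]
    nlinarith
  have hsep : ∀ a r, gf (kk G a) (A a) r = 0 →
      ((kk G a : ℕ) : L) * r ^ (kk G a - 1) * (r - A a) + r ^ (kk G a) ≠ 0 := by
    intro a r hr h
    have h1 := deriv_ne (hkk1 a) (by linarith [hkkn a, hαlow a] : ((kk G a : ℕ) : ℝ) + 2 ≤ α a)
      (hgroot a r hr)
    apply h1
    have h2 := congrArg ι h
    simpa only [map_add, map_mul, map_pow, map_sub, map_natCast, hAα, map_zero] using h2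
  obtain ⟨T, hT, hTlie⟩ := hu.exists_T A
  have hAgal : ∀ (σ : L ≃ₐ[ℚ] L) (τ : Equiv.Perm (Fin n)),
      (∀ a, σ (E (Sum.inl a)) = E (Sum.inl (τ a))) →
      (∀ a b, G.Adj a b ↔ G.Adj (τ a) (τ b)) → ∀ a, σ (A a) = A (τ a) := by
    intro σ τ h1 h2 a
    simp only [A, map_add, map_natCast, map_mul, map_ofNat, map_sum, h1]
    rw [cls_map τ h2, Finset.sum_map]
    rfl
  obtain ⟨T0, hT0⟩ := descent_op T (fun σ x => hu.T_gal A hAgal T hT hTlie σ x)
  refine assemble ι T0 ?_ ?_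
  · intro x y
    apply one_tmul_inj (L := L)
    have h1 := hTlie ((1 : L) ⊗ₜ[ℚ] x) ((1 : L) ⊗ₜ[ℚ] y)
    rw [hT0] at h1
    simpa only [LieAlgebra.ExtendScalars.bracket_tmul, mul_one, LinearMap.baseChange_tmul]
      using h1
  · intro z hz
    rw [← hT0] at hz
    rcases hu.eigenvalue A hAcls hEinj hc2 hg hsep T hT hTlie z hz with
      ⟨a, ha⟩ | ⟨a, c, r, s, hac, hr, hs, rfl⟩
    · obtain ⟨i1, i2, i3⟩ := gf_root_integral (hkk1 a) (hAint a) ha
      exact ⟨i1, i2, i3, norm_ne_one (by linarith [hαlow a]) (hgroot a z ha)⟩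
    · obtain ⟨i1, i2, i3⟩ := gf_root_integral (hkk1 a) (hAint a) hr
      obtain ⟨j1, j2, j3⟩ := gf_root_integral (hkk1 c) (hAint c) hs
      refine ⟨i1.mul j1, by rw [mul_inv]; exact i2.mul j2, mul_ne_zero i3 j3, ?_⟩
      rw [map_mul]
      refine prod_ne_one (B := (Nb : ℝ)) (by linarith) (hkk1 a) (hkk1 c) (hαlow a) (hαup a)
        (hαlow c) (hαup c) (hgroot a r hr) (hgroot c s hs) ?_
      by_cases hco : Coh G a c
      · left
        have h1 := hc3 a c hac hco
        have h2 := hc3 c a hac.symm hco.symm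
        rw [kk, kk]
        omega
      · right
        have h1 := class_sum_gap e k hk he (cls G a) (cls G c) (fun h => hco (coh_of_cls_eq h))
        have h2 : α a - α c = 2 * ∑ x ∈ cls G a, e (Sum.inl x) -
            2 * ∑ x ∈ cls G c, e (Sum.inl x) := by
          simp only [α]; ring
        rw [h2]
        exact h1

theorem two_le_card_cls {V : Type*} [Fintype V] [DecidableEq V] {G : SimpleGraph V} {a c : V}
    (hne : c ≠ a) (h : Coh G a c) : 2 ≤ (cls G a).card := by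
  have hsub : ({a, c} : Finset V) ⊆ cls G a := by
    intro x hx
    rw [Finset.mem_insert, Finset.mem_singleton] at hx
    rcases hx with rfl | rfl
    · exact self_mem_cls G _
    · exact mem_cls.2 h
  have := Finset.card_le_card hsub
  rwa [Finset.card_pair hne.symm] at this

theorem three_le_card_cls {V : Type*} [Fintype V] [DecidableEq V] {G : SimpleGraph V} {a c d : V}
    (hac : a ≠ c) (h : Coh G a c) (hda : d ≠ a) (hdc : d ≠ c) (hd : Coh G a d) :
    3 ≤ (cls G a).card := by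
  have hsub : ({a, c, d} : Finset V) ⊆ cls G a := by
    intro x hx
    rw [Finset.mem_insert, Finset.mem_insert, Finset.mem_singleton] at hx
    rcases hx with rfl | rfl | rfl
    · exact self_mem_cls G _
    · exact mem_cls.2 h
    · exact mem_cls.2 hd
  have := Finset.card_le_card hsub
  have h3 : ({a, c, d} : Finset V).card = 3 := by
    rw [Finset.card_eq_three]
    exact ⟨a, c, d, hac, hda.symm, hdc.symm, rfl⟩
  omega

end

end Pool.Agent.U700
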