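import Pool.Agent.U700.CP
import Pool.Agent.TH107.LB.AA

/-!
Ultraproducts of group rings and the Bass trace conjecture.
-/

set_option autoImplicit false

open Filter MonoidAlgebra

namespace Pool.Agent.U700.BT

open Pool.Agent.U700.CP
open Pool.Agent.H26R2.Bass (tau ind tau_eq)
open Pool.Agent.H23R2.Cyc (ell ell_single ell_eq_sum tf tf_apply)

universe u v w

/-! ### Ultraproducts of rings -/

section ring

variable (R : ℕ → Type u) [∀ n, CommRing (R n)] (U : Ultrafilter ℕ)

/-- sequences which are eventually zero -/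
def nulI : Ideal (∀ n, R n) where
  carrier := {x | ∀ᶠ n in (U : Filter ℕ), x n = 0}
  add_mem' := by
    intro a b ha hb
    filter_upwards [ha, hb] with n h1 h2
    rw [Pi.add_apply, h1, h2, add_zero]
  zero_mem' := Eventually.of_forall fun n => rfl
  smul_mem' := by
    intro c a ha
    filter_upwards [ha] with n h1
    rw [smul_eq_mul, Pi.mul_apply, h1, mul_zero]

/-- the ultraproduct of rings -/
abbrev UR : Type u := (∀ n, R n) ⧸ nulI R U

variable {R U}

theorem mkR_eq {x y : ∀ n, R n} :
    Ideal.Quotient.mk (nulI R U) x = Ideal.Quotient.mk (nulI R U) y ↔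
      ∀ᶠ n in (U : Filter ℕ), x n = y n := by
  rw [Ideal.Quotient.eq]
  change (∀ᶠ n in (U : Filter ℕ), (x - y) n = 0) ↔ _
  refine eventually_congr (Eventually.of_forall fun n => ?_)
  rw [Pi.sub_apply, sub_eq_zero]

theorem mkR_eq_zero {x : ∀ n, R n} :
    Ideal.Quotient.mk (nulI R U) x = 0 ↔ ∀ᶠ n in (U : Filter ℕ), x n = 0 := by
  rw [← map_zero (Ideal.Quotient.mk (nulI R U)), mkR_eq]
  rfl

theorem isDomain_UR [∀ n, IsDomain (R n)] : IsDomain (UR R U) := by
  have h1 : (nulI R U).IsPrime := by
    constructor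
    · intro h
      have h2 : (1 : ∀ n, R n) ∈ nulI R U := by rw [h]; trivial
      obtain ⟨n, hn⟩ := Eventually.exists (f := (U : Filter ℕ)) h2
      exact one_ne_zero hn
    · intro x y hxy
      have h2 : ∀ᶠ n in (U : Filter ℕ), x n = 0 ∨ y n = 0 := by
        have h3 : ∀ᶠ n in (U : Filter ℕ), (x * y) n = 0 := hxy
        filter_upwards [h3] with n hn
        exact mul_eq_zero.1 hn
      exact Ultrafilter.eventually_or.1 h2
  infer_instance

theorem charZero_UR [∀ n, CharZero (R n)] : CharZero (UR R U) := by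
  refine charZero_of_inj_zero fun m hm => ?_
  have h1 : Ideal.Quotient.mk (nulI R U) (m : ∀ n, R n) = 0 := by
    rw [map_natCast]
    exact hm
  rw [mkR_eq_zero] at h1
  obtain ⟨n, hn⟩ := h1.exists
  rw [Pi.natCast_apply] at hn
  exact_mod_cast hn

end ring

/-! ### Group rings -/

section grp

variable {R : ℕ → Type u} [∀ n, CommRing (R n)] {G : ℕ → Type v} [∀ n, Group (G n)]

/-- evaluation -/
noncomputable def ev (R : ℕ → Type u) [∀ n, CommRing (R n)] (G : ℕ → Type v) [∀ n, Group (G n)]
    (n : ℕ) : MonoidAlgebra (∀ n, R n) (∀ n, G n) →+* MonoidAlgebra (R n) (G n) :=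
  (mapRingHom (G n) (Pi.evalRingHom R n)).comp
    (mapDomainRingHom (∀ n, R n) (Pi.evalMonoidHom G n))

/-- the map to the group ring of the ultraproduct -/
noncomputable def psi (R : ℕ → Type u) [∀ n, CommRing (R n)] (G : ℕ → Type v) [∀ n, Group (G n)]
    (U : Ultrafilter ℕ) :
    MonoidAlgebra (∀ n, R n) (∀ n, G n) →+* MonoidAlgebra (UR R U) (UP G U) :=
  (mapRingHom (UP G U) (Ideal.Quotient.mk (nulI R U))).comp
    (mapDomainRingHom (∀ n, R n) (QuotientGroup.mk' (nul G U)))

theorem ev_single (n : ℕ) (t : ∀ n, G n) (c : ∀ n, R n) :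
    ev R G n (single t c) = single (t n) (c n) := by
  simp [ev]

theorem psi_single (U : Ultrafilter ℕ) (t : ∀ n, G n) (c : ∀ n, R n) :
    psi R G U (single t c) = single (mk t) (Ideal.Quotient.mk (nulI R U) c) := by
  simp [psi, CP.mk]

open Classical in
theorem ell_psi (U : Ultrafilter ℕ) (P : ∀ n, G n → Prop) (P' : UP G U → Prop)
    (h : ∀ t : ∀ n, G n, P' (mk t) ↔ ∀ᶠ n in (U : Filter ℕ), P n (t n))
    (x : MonoidAlgebra (∀ n, R n) (∀ n, G n)) :
    ell (fun y => if P' y then (1 : UR R U) else 0) (psi R G U x) =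
      Ideal.Quotient.mk (nulI R U)
        (fun n => ell (fun y => if P n y then (1 : R n) else 0) (ev R G n x)) := by
  induction x using MonoidAlgebra.induction_linear with
  | zero =>
    simp only [map_zero]
    symm
    exact mkR_eq_zero.2 (Eventually.of_forall fun n => rfl)
  | add x y hx hy =>
    simp only [map_add]
    rw [hx, hy, ← map_add]
    rfl
  | single t c =>
    simp only [psi_single, ev_single, ell_single]
    by_cases hP : P' (mk t)
    · rw [if_pos hP, mul_one, mkR_eq]
      filter_upwards [(h t).1 hP] with n hn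
      rw [if_pos hn, mul_one]
    · rw [if_neg hP, mul_zero]
      symm
      rw [mkR_eq_zero]
      have h1 := mt (h t).2 hP
      rw [← Ultrafilter.eventually_not] at h1
      filter_upwards [h1] with n hn
      rw [if_neg hn, mul_zero]

theorem psi_eq_zero (U : Ultrafilter ℕ) (x : MonoidAlgebra (∀ n, R n) (∀ n, G n))
    (h : ∀ n, ev R G n x = 0) : psi R G U x = 0 := by
  classical
  have key : ∀ y : ∀ n, G n, (psi R G U x).coeff (mk y) = 0 := by
    intro y
    have h1 := ell_psi U (R := R) (fun n z => z = y n) (fun z => z = mk y) (fun t => mk_eq) x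
    rw [ell_eq_sum _ (insert (CP.mk y) (psi R G U x).coeff.support) _
        (fun g hg => Finset.mem_insert_of_mem (Finsupp.mem_support_iff.2 hg))] at h1
    simp only [mul_ite, mul_one, mul_zero, Finset.sum_ite_eq', Finset.mem_insert_self,
      if_true] at h1
    rw [h1, mkR_eq_zero]
    refine Eventually.of_forall fun n => ?_
    rw [h n, map_zero]
  ext y
  obtain ⟨z, rfl⟩ := QuotientGroup.mk_surjective y
  exact key z

theorem conj_mk (U : Ultrafilter ℕ) (g t : ∀ n, G n) :
    IsConj (mk t : UP G U) (mk g) ↔ ∀ᶠ n in (U : Filter ℕ), IsConj (t n) (g n) := by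
  constructor
  · intro h
    obtain ⟨c, hc⟩ := isConj_iff.1 h
    rw [← mk_rp c, ← mk_inv, ← mk_mul, ← mk_mul, mk_eq] at hc
    filter_upwards [hc] with n hn
    exact isConj_iff.2 ⟨rp c n, hn⟩
  · intro h
    have h1 : ∀ n, ∃ c : G n, IsConj (t n) (g n) → c * t n * c⁻¹ = g n := by
      intro n
      by_cases h2 : IsConj (t n) (g n)
      · obtain ⟨c, hc⟩ := isConj_iff.1 h2
        exact ⟨c, fun _ => hc⟩
      · exact ⟨1, fun h3 => absurd h3 h2⟩
    choose c hc using h1
    refine isConj_iff.2 ⟨mk c, ?_⟩
    rw [← mk_inv, ← mk_mul, ← mk_mul, mk_eq]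
    filter_upwards [h] with n hn
    exact hc n hn

/-- sparse elements -/
theorem sparse {R : Type u} [CommRing R] {G : Type v} [Group G] (x : MonoidAlgebra R G) (k : ℕ)
    (hk : x.coeff.support.card ≤ k) :
    ∃ (a : Fin k → G) (c : Fin k → R), x = ∑ l, single (a l) (c l) := by
  classical
  obtain ⟨ι⟩ : Nonempty (x.coeff.support ↪ Fin k) := by
    apply Function.Embedding.nonempty_of_card_le
    simpa using hk
  set a : Fin k → G := Function.extend ι (fun a => (a : G)) (fun _ => 1) with ha
  set c : Fin k → R := Function.extend ι (fun a => x.coeff a) (fun _ => 0) with hc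
  have haι : ∀ t, a (ι t) = t := fun t => ι.injective.extend_apply _ _ t
  have hcι : ∀ t, c (ι t) = x.coeff t := fun t => ι.injective.extend_apply _ _ t
  have hc0 : ∀ j, j ∉ Set.range ι → c j = 0 := by
    intro j hj
    rw [hc, Function.extend_apply']
    rintro ⟨t, ht⟩
    exact hj ⟨t, ht⟩
  refine ⟨a, c, ?_⟩
  have h1 : x = ∑ t : x.coeff.support, single (t : G) (x.coeff t) := by
    rw [Finset.sum_coe_sort x.coeff.support (fun t => single t (x.coeff t))]
    apply MonoidAlgebra.coeff_injective
    ext h
    rw [MonoidAlgebra.coeff_sum, Finset.sum_apply']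
    by_cases hh : h ∈ x.coeff.support
    · rw [Finset.sum_eq_single h]
      · rw [coeff_single, Finsupp.single_eq_same]
      · intro b _ hb
        rw [coeff_single, Finsupp.single_eq_of_ne hb.symm]
      · intro h2
        exact absurd hh h2
    · rw [Finset.sum_eq_zero]
      · exact Finsupp.notMem_support_iff.1 hh
      · intro b hb
        rw [coeff_single, Finsupp.single_eq_of_ne]
        rintro rfl
        exact hh hb
  conv_lhs => rw [h1]
  refine Fintype.sum_of_injective ι ι.injective _ _ ?_ ?_
  · intro j hj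
    rw [hc0 j hj, single_zero]
  · intro t
    rw [haι, hcι]

/-- The transfer to the ultraproduct. -/
theorem transfer (U : Ultrafilter ℕ) (n k : ℕ)
    (A : ∀ N, Matrix (Fin n) (Fin n) (MonoidAlgebra (R N) (G N))) (hA : ∀ N, A N * A N = A N)
    (hk : ∀ N i j, (A N i j).coeff.support.card ≤ k) :
    ∃ B : Matrix (Fin n) (Fin n) (MonoidAlgebra (UR R U) (UP G U)), B * B = B ∧
      (∀ i j, (B i j).coeff.support.card ≤ k) ∧
      ∀ g : ∀ N, G N, tau B (mk g) = Ideal.Quotient.mk (nulI R U) fun N => tau (A N) (g N) := by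
  classical
  have h1 : ∀ N i j, ∃ (a : Fin k → G N) (c : Fin k → R N), A N i j = ∑ l, single (a l) (c l) :=
    fun N i j => sparse (A N i j) k (hk N i j)
  choose a c hac using h1
  set L : Matrix (Fin n) (Fin n) (MonoidAlgebra (∀ N, R N) (∀ N, G N)) :=
    Matrix.of fun i j => ∑ l, single (fun N => a N i j l) (fun N => c N i j l) with hL
  have hev : ∀ N i j, ev R G N (L i j) = A N i j := by
    intro N i j
    rw [hL, Matrix.of_apply, map_sum, hac N i j]
    exact Finset.sum_congr rfl fun l _ => ev_single _ _ _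
  refine ⟨L.map (psi R G U), ?_, ?_, ?_⟩
  · rw [← Matrix.map_mul]
    ext1 i j
    rw [Matrix.map_apply, Matrix.map_apply, ← sub_eq_zero, ← map_sub]
    apply psi_eq_zero
    intro N
    rw [map_sub, hev, sub_eq_zero, Matrix.mul_apply, map_sum]
    conv_rhs => rw [← hA N, Matrix.mul_apply]
    refine Finset.sum_congr rfl fun l _ => ?_
    rw [map_mul, hev, hev]
  · intro i j
    have h2 : (L.map (psi R G U)) i j =
        ∑ l, single (mk fun N => a N i j l) (Ideal.Quotient.mk (nulI R U) fun N => c N i j l) := by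
      rw [Matrix.map_apply, hL, Matrix.of_apply, map_sum]
      exact Finset.sum_congr rfl fun l _ => psi_single _ _ _
    rw [h2]
    have h3 : (∑ l, single (mk fun N => a N i j l : UP G U)
        (Ideal.Quotient.mk (nulI R U) fun N => c N i j l)).coeff.support ⊆
        Finset.univ.image fun l => (mk fun N => a N i j l : UP G U) := by
      intro y hy
      rw [Finsupp.mem_support_iff, MonoidAlgebra.coeff_sum, Finset.sum_apply'] at hy
      obtain ⟨l, _, hl⟩ := Finset.exists_ne_zero_of_sum_ne_zero hy
      rw [coeff_single] at hl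
      have h4 : (mk fun N => a N i j l : UP G U) = y := by
        by_contra h5
        exact hl (Finsupp.single_eq_of_ne (Ne.symm h5))
      rw [← h4]
      exact Finset.mem_image_of_mem _ (Finset.mem_univ _)
    calc _ ≤ (Finset.univ.image fun l => (mk fun N => a N i j l : UP G U)).card :=
          Finset.card_le_card h3
      _ ≤ (Finset.univ : Finset (Fin k)).card := Finset.card_image_le
      _ = k := by simp
  · intro g
    have h2 : ∀ i, ell (ind (UR R U) (mk g : UP G U)) (psi R G U (L i i)) =
        Ideal.Quotient.mk (nulI R U) fun N => ell (ind (R N) (g N)) (A N i i) := by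
      intro i
      have h3 := ell_psi U (R := R) (fun N z => IsConj z (g N)) (fun z => IsConj z (mk g))
        (fun t => conj_mk U g t) (L i i)
      unfold ind
      refine h3.trans ?_
      congr 1
      funext N
      rw [hev]
    rw [tau_eq, tf_apply]
    simp only [Matrix.map_apply]
    rw [Finset.sum_congr rfl fun i _ => h2 i, ← map_sum]
    congr 1
    funext N
    rw [tau_eq, tf_apply, Finset.sum_apply]

end grp

end Pool.Agent.U700.BT
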