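import Pool.Agent.U700.BT

/-!
Linear groups over commutative algebras over the rationals.
-/

set_option autoImplicit false

open Filter

namespace Pool.Agent.U700.BT

open Pool.Agent.U700.CP
open Pool.Agent.TH107.LB

universe u v w

/-- the group embeds in `GL_m(B)` for a commutative algebra `B` over the rationals -/
def Lin (m : ℕ) (G : Type v) [Group G] : Prop :=
  ∃ (B : Type) (_ : CommRing B) (_ : Algebra ℚ B) (f : G →* (Matrix (Fin m) (Fin m) B)ˣ),
    Function.Injective f

theorem lin_up (m : ℕ) (G : ℕ → Type v) [∀ n, Group (G n)] (U : Ultrafilter ℕ)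
    (h : ∀ n, Lin m (G n)) : Lin m (UP G U) := by
  classical
  choose B i1 i2 f hf using h
  have e1 : ∀ (n : ℕ) (i j : Fin m), (1 : Matrix (Fin m) (Fin m) (B n)) i j =
      if i = j then 1 else 0 := fun n i j => Matrix.one_apply
  let F : (∀ n, G n) →* Matrix (Fin m) (Fin m) (UR B U) :=
    { toFun := fun x => Matrix.of fun i j => Ideal.Quotient.mk (nulI B U) fun n =>
        (f n (x n) : Matrix (Fin m) (Fin m) (B n)) i j
      map_one' := by
        ext i j
        rw [Matrix.of_apply, Matrix.one_apply]
        by_cases hij : i = j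
        · subst hij
          rw [if_pos rfl, ← map_one (Ideal.Quotient.mk (nulI B U))]
          congr 1
          funext n
          rw [Pi.one_apply, map_one, Units.val_one, Matrix.one_apply_eq]
          rfl
        · rw [if_neg hij, ← map_zero (Ideal.Quotient.mk (nulI B U))]
          congr 1
          funext n
          rw [Pi.one_apply, map_one, Units.val_one, Matrix.one_apply_ne hij]
          rfl
      map_mul' := by
        intro x y
        ext i j
        rw [Matrix.mul_apply]
        simp only [Matrix.of_apply]
        rw [← Finset.sum_congr rfl fun k _ => map_mul (Ideal.Quotient.mk (nulI B U)) _ _,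
          ← map_sum]
        congr 1
        funext n
        rw [Pi.mul_apply, map_mul, Units.val_mul, Matrix.mul_apply, Finset.sum_apply]
        rfl }
  have hF : ∀ x, F x = 1 ↔ x ∈ nul G U := by
    intro x
    have h1 : F x = 1 ↔ ∀ i j, F x i j = (1 : Matrix (Fin m) (Fin m) (UR B U)) i j := by
      constructor
      · intro h i j
        rw [h]
      · intro h
        ext i j
        exact h i j
    have h2 : ∀ i j, F x i j = (1 : Matrix (Fin m) (Fin m) (UR B U)) i j ↔
        ∀ᶠ n in (U : Filter ℕ), (f n (x n) : Matrix (Fin m) (Fin m) (B n)) i j =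
          (1 : Matrix (Fin m) (Fin m) (B n)) i j := by
      intro i j
      have h3 : (1 : Matrix (Fin m) (Fin m) (UR B U)) i j =
          Ideal.Quotient.mk (nulI B U) fun n => (1 : Matrix (Fin m) (Fin m) (B n)) i j := by
        rw [← map_one F]
        change Ideal.Quotient.mk (nulI B U) _ = _
        congr 1
        funext n
        rw [Pi.one_apply, map_one, Units.val_one]
      rw [h3]
      exact mkR_eq
    rw [h1]
    change _ ↔ ∀ᶠ n in (U : Filter ℕ), x n = 1
    constructor
    · intro h
      have h4 : ∀ᶠ n in (U : Filter ℕ), ∀ i j, (f n (x n) : Matrix (Fin m) (Fin m) (B n)) i j =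
          (1 : Matrix (Fin m) (Fin m) (B n)) i j := by
        rw [Filter.eventually_all]
        intro i
        rw [Filter.eventually_all]
        intro j
        exact (h2 i j).1 (h i j)
      filter_upwards [h4] with n hn
      apply hf n
      rw [map_one]
      apply Units.ext
      ext i j
      exact hn i j
    · intro h i j
      rw [h2]
      filter_upwards [h] with n hn
      rw [hn, map_one]
      rfl
  refine ⟨UR B U, inferInstance, inferInstance,
    QuotientGroup.lift (nul G U) F.toHomUnits ?_, ?_⟩
  · intro x hx
    apply Units.ext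
    exact (hF x).2 hx
  · rw [injective_iff_map_eq_one]
    intro y hy
    obtain ⟨x, rfl⟩ := QuotientGroup.mk_surjective y
    have h1 : F.toHomUnits x = 1 := hy
    have h2 : F x = 1 := congrArg Units.val h1
    exact (QuotientGroup.eq_one_iff x).2 ((hF x).1 h2)

open MvPolynomial in
/-- linear substitutions -/
noncomputable def sub {B : Type} [CommRing B] [Algebra ℚ B] (m : ℕ) :
    Matrix (Fin m) (Fin m) B →* (MvPolynomial (Fin m) B →ₐ[ℚ] MvPolynomial (Fin m) B) where
  toFun M := (aeval (R := B) fun i => ∑ k, C (M k i) * X k).restrictScalars ℚ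
  map_one' := by
    classical
    ext x
    · simp
    · simp [Matrix.one_apply]
  map_mul' := by
    intro M N
    have h1 : ∀ i : Fin m, ∑ k, C ((M * N) k i) * (X k : MvPolynomial (Fin m) B) =
        ∑ j, C (N j i) * ∑ k, C (M k j) * X k := by
      intro i
      simp only [Matrix.mul_apply, map_sum, Finset.sum_mul, Finset.mul_sum, map_mul]
      rw [Finset.sum_comm]
      refine Finset.sum_congr rfl fun j _ => Finset.sum_congr rfl fun k _ => by ring
    apply AlgHom.ext
    intro x
    rw [AlgHom.mul_apply]
    simp only [AlgHom.restrictScalars_apply]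
    rw [← AlgHom.comp_apply]
    congr 1
    ext i : 1
    simp only [aeval_X, AlgHom.comp_apply, h1, map_sum, map_mul]
    refine Finset.sum_congr rfl fun j _ => ?_
    congr 1
    rw [← algebraMap_eq, AlgHom.commutes]

open MvPolynomial in
theorem sub_inj {B : Type} [CommRing B] [Algebra ℚ B] (m : ℕ) :
    Function.Injective (sub (B := B) m) := by
  classical
  intro M N h
  ext k i
  have h1 : (sub (B := B) m M) (X i) = (sub (B := B) m N) (X i) := by rw [h]
  have h2 : ∀ M : Matrix (Fin m) (Fin m) B, (sub (B := B) m M) (X i) = ∑ k, C (M k i) * X k := by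
    intro M
    change (aeval (R := B) fun i => ∑ k, C (M k i) * (X k : MvPolynomial (Fin m) B)) (X i) = _
    rw [aeval_X]
  rw [h2, h2] at h1
  have h3 : ∀ M : Matrix (Fin m) (Fin m) B,
      coeff (Finsupp.single k 1) (∑ k, C (M k i) * (X k : MvPolynomial (Fin m) B)) = M k i := by
    intro M
    rw [coeff_sum, Finset.sum_eq_single k]
    · rw [coeff_C_mul, coeff_X, if_pos rfl, mul_one]
    · intro b _ hb
      rw [coeff_C_mul, coeff_X, if_neg, mul_zero]
      intro h4
      exact hb (Finsupp.single_left_injective one_ne_zero h4)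
    · intro h4
      exact absurd (Finset.mem_univ _) h4
  rw [← h3 M, ← h3 N, h1]

/-- finitely generated groups which are linear over a commutative algebra over the rationals -/
theorem rp_of_lin {m : ℕ} {B : Type} [CommRing B] [Algebra ℚ B] {H : Type v} [Group H]
    (hfg : Group.FG H) (f : H →* (Matrix (Fin m) (Fin m) B)ˣ) (hf : Function.Injective f) :
    ∃ E : Finset ℕ, ∀ p : ℕ, p.Prime → p ∉ E → RP p H := by
  classical
  obtain ⟨S, hS⟩ := Group.fg_def.1 hfg
  let T : Finset B := S.biUnion fun g => (Finset.univ : Finset (Fin m × Fin m)).biUnion fun q =>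
    {(f g : Matrix (Fin m) (Fin m) B) q.1 q.2, (f g⁻¹ : Matrix (Fin m) (Fin m) B) q.1 q.2}
  let A : Subalgebra ℚ B := Algebra.adjoin ℚ (T : Set B)
  have hAf : Algebra.FiniteType ℚ A := by
    rw [← Subalgebra.fg_iff_finiteType]
    exact ⟨_, rfl⟩
  have hent : ∀ g : H, ∀ a b, (f g : Matrix (Fin m) (Fin m) B) a b ∈ A ∧
      (f g⁻¹ : Matrix (Fin m) (Fin m) B) a b ∈ A := by
    intro g
    have hg : g ∈ Subgroup.closure (S : Set H) := by rw [hS]; trivial
    induction hg using Subgroup.closure_induction with
    | mem g hg =>
      intro a b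
      have h1 : ∀ c : B, c ∈ ({(f g : Matrix (Fin m) (Fin m) B) a b,
          (f g⁻¹ : Matrix (Fin m) (Fin m) B) a b} : Finset B) → c ∈ A := by
        intro c hc
        apply Algebra.subset_adjoin
        exact Finset.mem_coe.2 (Finset.mem_biUnion.2 ⟨g, hg, Finset.mem_biUnion.2
          ⟨(a, b), Finset.mem_univ _, hc⟩⟩)
      exact ⟨h1 _ (by simp), h1 _ (by simp)⟩
    | one =>
      intro a b
      have h1 : (1 : Matrix (Fin m) (Fin m) B) a b ∈ A := by
        rw [Matrix.one_apply]
        split_ifs
        · exact A.one_mem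
        · exact A.zero_mem
      exact ⟨by simpa using h1, by simpa using h1⟩
    | mul g h _ _ hg hh =>
      intro a b
      constructor
      · rw [map_mul, Units.val_mul, Matrix.mul_apply]
        exact A.sum_mem fun k _ => A.mul_mem (hg a k).1 (hh k b).1
      · rw [mul_inv_rev, map_mul, Units.val_mul, Matrix.mul_apply]
        exact A.sum_mem fun k _ => A.mul_mem (hh a k).2 (hg k b).2
    | inv g _ hg =>
      intro a b
      exact ⟨(hg a b).2, by rw [inv_inv]; exact (hg a b).1⟩
  let tm : H → Matrix (Fin m) (Fin m) A := fun g => Matrix.of fun a b =>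
    ⟨(f g : Matrix (Fin m) (Fin m) B) a b, (hent g a b).1⟩
  have htm : ∀ g a b, ((tm g a b : A) : B) = (f g : Matrix (Fin m) (Fin m) B) a b :=
    fun g a b => rfl
  let ρ : H →* Matrix (Fin m) (Fin m) A :=
    { toFun := tm
      map_one' := by
        apply Matrix.ext
        intro a b
        apply Subtype.ext
        rw [htm, map_one, Units.val_one, Matrix.one_apply, Matrix.one_apply]
        split_ifs <;> rfl
      map_mul' := by
        intro g h
        apply Matrix.ext
        intro a b
        apply Subtype.ext
        rw [htm, Matrix.mul_apply, map_mul, Units.val_mul, Matrix.mul_apply]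
        have h2 : ∀ (F : Fin m → A), ((∑ k, F k : A) : B) = ∑ k, (F k : B) := fun F =>
          map_sum A.val F Finset.univ
        rw [h2]
        rfl }
  have hρ : Function.Injective ρ := by
    intro g h hgh
    apply hf
    apply Units.ext
    apply Matrix.ext
    intro a b
    exact congrArg Subtype.val (congrFun (congrFun hgh a) b)
  -- action on the polynomial ring
  let P := MvPolynomial (Fin m) A
  have hPf : Algebra.FiniteType ℚ P :=
    Algebra.FiniteType.trans hAf (inferInstanceAs (Algebra.FiniteType A (MvPolynomial (Fin m) A)))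
  let σ : H →* (P ≃ₐ[ℚ] P) :=
    (AlgEquiv.algHomUnitsEquiv ℚ P).toMonoidHom.comp ((sub (B := A) m).comp ρ).toHomUnits
  have hσ : Function.Injective σ := by
    intro g h hgh
    have h1 := (AlgEquiv.algHomUnitsEquiv ℚ P).injective hgh
    have h2 := congrArg Units.val h1
    exact hρ (sub_inj m h2)
  have hrfg : σ.range.FG := (Group.fg_iff_subgroup_fg _).1 inferInstance
  obtain ⟨C, _, htf, θ, h1, h2⟩ := exists_model σ.range hrfg
  obtain ⟨E, hE⟩ := nonunit_assoc C h1
  refine ⟨E, fun p hp hpE => ?_⟩
  exact ((RP.ringAut' C (hE p hp hpE)).sub θ h2).sub σ.rangeRestrict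
    (fun g h hgh => hσ (congrArg Subtype.val hgh))

end Pool.Agent.U700.BT
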