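import Pool.Agent.TH57.AZ.Wedge

/-!
Ultraproducts of groups and kernels of elements of complex group algebras: upper semicontinuity of
the kernel dimension.
-/

set_option autoImplicit false

open scoped InnerProductSpace ENNReal Topology
open Filter

namespace Pool.Agent.U700.CP

open Pool.Agent.TH57.AZ

universe u

/-! ### Ultraproducts -/

section ultra

variable (G : ℕ → Type u) [∀ n, Group (G n)] (U : Ultrafilter ℕ)

/-- sequences which are eventually trivial -/
def nul : Subgroup (∀ n, G n) where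
  carrier := {x | ∀ᶠ n in (U : Filter ℕ), x n = 1}
  mul_mem' := by
    intro a b ha hb
    filter_upwards [ha, hb] with n h1 h2
    rw [Pi.mul_apply, h1, h2, one_mul]
  one_mem' := Eventually.of_forall fun n => rfl
  inv_mem' := by
    intro a ha
    filter_upwards [ha] with n h1
    rw [Pi.inv_apply, h1, inv_one]

instance nul_normal : (nul G U).Normal where
  conj_mem := by
    intro a ha g
    change ∀ᶠ n in (U : Filter ℕ), _
    filter_upwards [ha] with n h1
    rw [Pi.mul_apply, Pi.mul_apply, h1, mul_one, Pi.inv_apply, mul_inv_cancel]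

/-- the ultraproduct -/
abbrev UP : Type u := (∀ n, G n) ⧸ nul G U

variable {G U}

/-- the class of a sequence -/
def mk (x : ∀ n, G n) : UP G U := QuotientGroup.mk x

theorem mk_eq {x y : ∀ n, G n} : (mk x : UP G U) = mk y ↔ ∀ᶠ n in (U : Filter ℕ), x n = y n := by
  unfold mk
  rw [QuotientGroup.eq]
  change (∀ᶠ n in (U : Filter ℕ), (x⁻¹ * y) n = 1) ↔ _
  refine eventually_congr (Eventually.of_forall fun n => ?_)
  rw [Pi.mul_apply, Pi.inv_apply, inv_mul_eq_one]

theorem mk_mul (x y : ∀ n, G n) : (mk (x * y) : UP G U) = mk x * mk y := rfl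

theorem mk_inv (x : ∀ n, G n) : (mk x⁻¹ : UP G U) = (mk x)⁻¹ := rfl

theorem mk_one : (mk 1 : UP G U) = 1 := rfl

/-- a representative -/
noncomputable def rp (x : UP G U) : ∀ n, G n := Quotient.out x

theorem mk_rp (x : UP G U) : mk (rp x) = x := QuotientGroup.out_eq' x

theorem rp_mk (x : ∀ n, G n) : ∀ᶠ n in (U : Filter ℕ), rp (mk x : UP G U) n = x n := by
  rw [← mk_eq]
  exact mk_rp _

end ultra

/-! ### Limits of bounded sequences -/

theorem exists_lim (U : Ultrafilter ℕ) {a : ℕ → ℂ} {B : ℝ} (h : ∀ n, ‖a n‖ ≤ B) :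
    ∃ z, Tendsto a U (𝓝 z) := by
  have hc : IsCompact (Metric.closedBall (0 : ℂ) B) := isCompact_closedBall _ _
  obtain ⟨z, _, hz⟩ := hc.ultrafilter_le_nhds (U.map a) (by
    rw [le_principal_iff]
    change ∀ᶠ n in (U : Filter ℕ), a n ∈ Metric.closedBall (0 : ℂ) B
    exact Eventually.of_forall fun n => by simpa using h n)
  exact ⟨z, hz⟩

/-- the limit along the ultrafilter -/
noncomputable def ul (U : Ultrafilter ℕ) (a : ℕ → ℂ) : ℂ := limUnder (U : Filter ℕ) a

theorem tendsto_ul (U : Ultrafilter ℕ) {a : ℕ → ℂ} {B : ℝ} (h : ∀ n, ‖a n‖ ≤ B) :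
    Tendsto a U (𝓝 (ul U a)) :=
  tendsto_nhds_limUnder (exists_lim U h)

/-! ### Enumeration of the terms -/

/-- the list of the terms of an element, normalised -/
theorem data {G : Type u} [Group G] (α : G →₀ ℂ) (k : ℕ) (h0 : α ≠ 0) (hk : α.support.card ≤ k) :
    ∃ (x : Fin k → G) (c : Fin k → ℂ) (u : lp (fun _ : G => ℂ) 2),
      (∀ j, ‖c j‖ ≤ 1) ∧ (∃ j, ‖c j‖ = 1) ∧ (∀ i j, c i ≠ 0 → c j ≠ 0 → x i = x j → i = j) ∧
      (∀ y, ∑ j, c j * u ((x j)⁻¹ * y) = 0) ∧ u 1 = (kd α : ℂ) ∧ ‖u‖ ^ 2 = kd α := by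
  classical
  obtain ⟨u, hu, hu1, hu2⟩ := exists_proj α
  obtain ⟨ι⟩ : Nonempty (α.support ↪ Fin k) := by
    apply Function.Embedding.nonempty_of_card_le
    simpa using hk
  set x : Fin k → G := Function.extend ι (fun a => (a : G)) (fun _ => 1) with hx
  set c : Fin k → ℂ := Function.extend ι (fun a => α a) (fun _ => 0) with hc
  have hxι : ∀ a, x (ι a) = a := fun a => ι.injective.extend_apply _ _ a
  have hcι : ∀ a, c (ι a) = α a := fun a => ι.injective.extend_apply _ _ a
  have hc0 : ∀ j, j ∉ Set.range ι → c j = 0 := by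
    intro j hj
    rw [hc, Function.extend_apply']
    rintro ⟨a, ha⟩
    exact hj ⟨a, ha⟩
  have hsum : ∀ y, ∑ j, c j * u ((x j)⁻¹ * y) = 0 := by
    intro y
    rw [← hu y, ← Finset.sum_coe_sort α.support (fun k => α k * u (k⁻¹ * y))]
    symm
    refine Fintype.sum_of_injective ι ι.injective _ _ ?_ ?_
    · intro j hj
      rw [hc0 j hj, zero_mul]
    · intro a
      rw [hxι, hcι]
  have hinj : ∀ i j, c i ≠ 0 → c j ≠ 0 → x i = x j → i = j := by
    intro i j hi hj hij
    have hi' : i ∈ Set.range ι := by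
      by_contra h
      exact hi (hc0 i h)
    have hj' : j ∈ Set.range ι := by
      by_contra h
      exact hj (hc0 j h)
    obtain ⟨a, rfl⟩ := hi'
    obtain ⟨b, rfl⟩ := hj'
    rw [hxι, hxι] at hij
    rw [Subtype.ext hij]
  have hne : ∃ j, c j ≠ 0 := by
    obtain ⟨g, hg⟩ := Finsupp.ne_iff.1 h0
    refine ⟨ι ⟨g, Finsupp.mem_support_iff.2 (by simpa using hg)⟩, ?_⟩
    rw [hcι]
    simpa using hg
  obtain ⟨j₁, hj₁⟩ := hne
  obtain ⟨j₀, _, hj₀⟩ := Finset.exists_max_image (Finset.univ : Finset (Fin k)) (fun j => ‖c j‖)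
    ⟨j₁, Finset.mem_univ _⟩
  have hpos : 0 < ‖c j₀‖ := lt_of_lt_of_le (norm_pos_iff.2 hj₁) (hj₀ j₁ (Finset.mem_univ _))
  have hne0 : c j₀ ≠ 0 := norm_pos_iff.1 hpos
  refine ⟨x, fun j => c j / c j₀, u, ?_, ⟨j₀, ?_⟩, ?_, ?_, hu1, hu2⟩
  · intro j
    rw [norm_div, div_le_one hpos]
    exact hj₀ j (Finset.mem_univ _)
  · simp only [div_self hne0, norm_one]
  · intro i j hi hj
    refine hinj i j ?_ ?_
    · intro h
      exact hi (by simp [h])
    · intro h
      exact hj (by simp [h])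
  · intro y
    have h1 : ∀ j, c j / c j₀ * u ((x j)⁻¹ * y) = (c j * u ((x j)⁻¹ * y)) / c j₀ := fun j => by ring
    simp only [h1]
    rw [← Finset.sum_div, hsum y, zero_div]

/-! ### Semicontinuity -/

/-- Upper semicontinuity of the kernel dimension in ultraproducts. -/
theorem semicont (G : ℕ → Type u) [∀ n, Group (G n)] (U : Ultrafilter ℕ) (k : ℕ) (ε : ℝ)
    (α : ∀ n, G n →₀ ℂ) (h0 : ∀ n, α n ≠ 0) (hk : ∀ n, (α n).support.card ≤ k)
    (hε : ∀ n, ε ≤ kd (α n)) :
    ∃ β : UP G U →₀ ℂ, β ≠ 0 ∧ β.support.card ≤ k ∧ ε ≤ kd β := by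
  classical
  have hdata := fun n => data (α n) k (h0 n) (hk n)
  choose x c u hc1 hcj hinj hsum hu1 hu2 using hdata
  -- limits
  set X : Fin k → UP G U := fun j => mk fun n => x n j with hX
  set cl : Fin k → ℂ := fun j => ul U fun n => c n j with hcl
  have hclt : ∀ j, Tendsto (fun n => c n j) U (𝓝 (cl j)) := fun j =>
    tendsto_ul U (B := 1) fun n => hc1 n j
  have hun : ∀ n, ‖u n‖ ≤ 1 := by
    intro n
    have h1 : ‖u n‖ ^ 2 ≤ 1 := by
      rw [hu2]
      exact kd_le_one _
    nlinarith [norm_nonneg (u n)]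
  have hub : ∀ n (y : G n), ‖u n y‖ ≤ 1 := fun n y =>
    (lp.norm_apply_le_norm (by norm_num) (u n) y).trans (hun n)
  set f : UP G U → ℂ := fun y => ul U fun n => u n (rp y n) with hf
  have hft : ∀ y : ∀ n, G n, Tendsto (fun n => u n (y n)) U (𝓝 (f (mk y))) := by
    intro y
    have h1 : Tendsto (fun n => u n (rp (mk y : UP G U) n)) U (𝓝 (f (mk y))) :=
      tendsto_ul U (B := 1) fun n => hub n _
    refine h1.congr' ?_
    filter_upwards [rp_mk (U := U) y] with n hn
    rw [hn]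
  -- the index of a coefficient of modulus one
  obtain ⟨j₀, hj₀⟩ : ∃ j₀, ∀ᶠ n in (U : Filter ℕ), ‖c n j₀‖ = 1 := by
    rw [← Ultrafilter.eventually_exists_iff]
    exact Eventually.of_forall hcj
  have hcl0 : ‖cl j₀‖ = 1 := by
    have h1 : Tendsto (fun n => ‖c n j₀‖) U (𝓝 ‖cl j₀‖) := (hclt j₀).norm
    have h2 : Tendsto (fun n => ‖c n j₀‖) U (𝓝 1) :=
      tendsto_const_nhds.congr' (by
        filter_upwards [hj₀] with n hn
        exact hn.symm)
    exact tendsto_nhds_unique h1 h2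
  set β : UP G U →₀ ℂ := ∑ j, Finsupp.single (X j) (cl j) with hβ
  have hβ0 : β (X j₀) = cl j₀ := by
    rw [hβ, Finsupp.finsetSum_apply, Finset.sum_eq_single j₀]
    · rw [Finsupp.single_eq_same]
    · intro j _ hj
      by_cases hjx : X j = X j₀
      · rw [hjx, Finsupp.single_eq_same]
        have h1 : ∀ᶠ n in (U : Filter ℕ), c n j = 0 := by
          have h2 := mk_eq.1 hjx
          filter_upwards [h2, hj₀] with n h3 h4
          by_contra h5
          apply hj
          refine hinj n j j₀ h5 ?_ h3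
          intro h6
          rw [h6, norm_zero] at h4
          exact zero_ne_one h4
        have h2 : Tendsto (fun n => c n j) U (𝓝 0) :=
          tendsto_const_nhds.congr' (by
            filter_upwards [h1] with n hn
            exact hn.symm)
        exact tendsto_nhds_unique (hclt j) h2
      · rw [Finsupp.single_eq_of_ne (Ne.symm hjx)]
    · intro h
      exact absurd (Finset.mem_univ _) h
  have hβne : β ≠ 0 := by
    intro h
    rw [h, Finsupp.zero_apply] at hβ0
    rw [← hβ0, norm_zero] at hcl0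
    exact zero_ne_one hcl0
  have hβk : β.support.card ≤ k := by
    have h1 : β.support ⊆ Finset.univ.image X := by
      rw [hβ]
      refine (Finsupp.support_finsetSum).trans ?_
      intro z hz
      rw [Finset.mem_biUnion] at hz
      obtain ⟨j, _, hj⟩ := hz
      have := Finsupp.support_single_subset hj
      rw [Finset.mem_singleton] at this
      rw [this]
      exact Finset.mem_image_of_mem _ (Finset.mem_univ _)
    calc β.support.card ≤ (Finset.univ.image X).card := Finset.card_le_card h1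
      _ ≤ (Finset.univ : Finset (Fin k)).card := Finset.card_image_le
      _ = k := by simp
  -- the limit of the kernel dimensions
  have hkd : Tendsto (fun n => (kd (α n) : ℂ)) U (𝓝 (f 1)) := by
    have := hft 1
    rw [mk_one] at this
    refine this.congr fun n => ?_
    rw [← hu1 n]
    rfl
  set L : ℝ := (f 1).re with hL
  have hkdL : Tendsto (fun n => kd (α n)) U (𝓝 L) := by
    have := (Complex.continuous_re.tendsto _).comp hkd
    simpa [Function.comp_def] using this
  have hLε : ε ≤ L := ge_of_tendsto hkdL (Eventually.of_forall hε)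
  -- square summability
  have hfin : ∀ T : Finset (UP G U), ∑ z ∈ T, ‖f z‖ ^ 2 ≤ L := by
    intro T
    have h1 : Tendsto (fun n => ∑ z ∈ T, ‖u n (rp z n)‖ ^ 2) U (𝓝 (∑ z ∈ T, ‖f z‖ ^ 2)) := by
      refine tendsto_finsetSum _ fun z _ => ?_
      have := hft (rp z)
      rw [mk_rp] at this
      exact this.norm.pow 2
    refine le_of_tendsto_of_tendsto h1 hkdL ?_
    have h2 : ∀ᶠ n in (U : Filter ℕ), ∀ z ∈ T, ∀ w ∈ T, rp z n = rp w n → z = w := by
      rw [Filter.eventually_all_finset]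
      intro z _
      rw [Filter.eventually_all_finset]
      intro w _
      by_cases hzw : z = w
      · exact Eventually.of_forall fun n _ => hzw
      · have h3 : ¬ ∀ᶠ n in (U : Filter ℕ), rp z n = rp w n := by
          intro h
          apply hzw
          rw [← mk_rp z, ← mk_rp w]
          exact mk_eq.2 h
        rw [← Ultrafilter.eventually_not] at h3
        filter_upwards [h3] with n h4 h5
        exact absurd h5 h4
    filter_upwards [h2] with n hn
    have h4 : ∑ z ∈ T, ‖u n (rp z n)‖ ^ 2 = ∑ y ∈ T.image (fun z => rp z n), ‖u n y‖ ^ 2 := by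
      rw [Finset.sum_image]
      intro z hz w hw h
      exact hn z hz w hw h
    rw [h4, ← hu2 n]
    exact sum_le_hasSum _ (fun _ _ => by positivity) (norm_sq_eq (u n))
  have hsummable : Summable (fun z => ‖f z‖ ^ 2) :=
    summable_of_sum_le (fun _ => by positivity) hfin
  set v : lp (fun _ : UP G U => ℂ) 2 := ⟨f, mem_of_summable hsummable⟩ with hv
  have hvn : ‖v‖ ^ 2 ≤ L := by
    have h1 := norm_sq_eq v
    exact hasSum_le_of_sum_le h1 hfin
  have hvk : v ∈ kern β := by
    intro y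
    have h1 : ∑ z ∈ β.support, β z * v (z⁻¹ * y) =
        Finsupp.linearCombination ℂ (fun z => f (z⁻¹ * y)) β := by
      rw [Finsupp.linearCombination_apply, Finsupp.sum]
      rfl
    rw [h1, hβ, map_sum]
    have h2 : ∀ j, Finsupp.linearCombination ℂ (fun z => f (z⁻¹ * y))
        (Finsupp.single (X j) (cl j)) = cl j * f ((X j)⁻¹ * y) := fun j => by
      rw [Finsupp.linearCombination_single, smul_eq_mul]
    simp only [h2]
    have h3 : Tendsto (fun n => ∑ j, c n j * u n ((x n j)⁻¹ * rp y n)) U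
        (𝓝 (∑ j, cl j * f ((X j)⁻¹ * y))) := by
      refine tendsto_finsetSum _ fun j _ => (hclt j).mul ?_
      have h4 := hft (fun n => (x n j)⁻¹ * rp y n)
      have h5 : (mk (fun n => (x n j)⁻¹ * rp y n) : UP G U) = (X j)⁻¹ * y := by
        conv_rhs => rw [← mk_rp y]
        rfl
      rw [h5] at h4
      exact h4
    have h4 : Tendsto (fun n => ∑ j, c n j * u n ((x n j)⁻¹ * rp y n)) U (𝓝 0) :=
      tendsto_const_nhds.congr fun n => (hsum n (rp y n)).symm
    exact tendsto_nhds_unique h3 h4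
  refine ⟨β, hβne, hβk, ?_⟩
  have h1 := kd_ge β hvk
  have h2 : (v 1).re = L := rfl
  rw [h2] at h1
  linarith

/-- Values of the elements of the kernel. -/
theorem coef_le {G : Type u} [Group G] (α : G →₀ ℂ) {f : lp (fun _ : G => ℂ) 2} (hf : f ∈ kern α)
    (a : G) : ‖f a‖ ^ 2 ≤ kd α * ‖f‖ ^ 2 := by
  by_cases h0 : f a = 0
  · rw [h0, norm_zero, zero_pow two_ne_zero]
    exact mul_nonneg (kd_nonneg α) (by positivity)
  set v := rt a f with hv
  have hv1 : v 1 = f a := by rw [hv, rt_apply, one_mul]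
  have hvm : v ∈ kern α := rt_mem α a hf
  have hvf : ‖v‖ ^ 2 ≤ ‖f‖ ^ 2 := by
    have h1 := norm_sq_eq v
    have h2 : HasSum (fun g => ‖f (g * a)‖ ^ 2) (‖f‖ ^ 2) :=
      (Equiv.mulRight a).hasSum_iff.2 (norm_sq_eq f)
    exact (h1.unique h2).le
  have hvn : 0 < ‖v‖ ^ 2 := by
    have : v ≠ 0 := by
      intro h
      apply h0
      rw [← hv1, h]
      rfl
    positivity
  set t : ℝ := (‖v‖ ^ 2)⁻¹ with ht
  set w : lp (fun _ : G => ℂ) 2 := ((t : ℂ) * (starRingEnd ℂ) (f a)) • v with hw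
  have hwm : w ∈ kern α := (kerS α).smul_mem _ hvm
  have h2 := kd_ge α hwm
  have h3 : (w 1).re = t * ‖f a‖ ^ 2 := by
    rw [hw, lp.coeFn_smul, Pi.smul_apply, hv1, smul_eq_mul, mul_assoc, mul_comm _ (f a),
      Complex.mul_conj, ← Complex.ofReal_mul, Complex.ofReal_re, Complex.normSq_eq_norm_sq]
  have h4 : ‖w‖ ^ 2 = t * ‖f a‖ ^ 2 := by
    rw [hw, norm_smul, norm_mul, mul_pow, mul_pow, Complex.norm_real, RCLike.norm_conj,
      Real.norm_eq_abs, sq_abs]
    have : t ^ 2 * ‖f a‖ ^ 2 * ‖v‖ ^ 2 = t * ‖f a‖ ^ 2 * (t * ‖v‖ ^ 2) := by ring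
    rw [this, ht, inv_mul_cancel₀ hvn.ne', mul_one]
  rw [h3, h4] at h2
  have h5 : t * ‖f a‖ ^ 2 ≤ kd α := by linarith
  have h6 : ‖f a‖ ^ 2 ≤ kd α * ‖v‖ ^ 2 := by
    have : ‖f a‖ ^ 2 = (t * ‖f a‖ ^ 2) * ‖v‖ ^ 2 := by
      rw [ht, mul_right_comm, inv_mul_cancel₀ hvn.ne', one_mul]
    rw [this]
    exact mul_le_mul_of_nonneg_right h5 hvn.le
  exact h6.trans (mul_le_mul_of_nonneg_left hvf (kd_nonneg α))

/-! ### Classes of groups -/

/-- every finite part of `G` embeds in a group of the class -/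
def LocIn (C : (G : Type u) → [Group G] → Prop) (G : Type u) [Group G] : Prop :=
  ∀ S : Finset G, ∃ (H : Type u) (_ : Group H) (θ : G → H), C H ∧
    (∀ x ∈ S, ∀ y ∈ S, θ x = θ y → x = y) ∧ (∀ x ∈ S, ∀ y ∈ S, θ (x * y) = θ x * θ y)

theorem up_ev (G : ℕ → Type u) [∀ n, Group (G n)] (U : Ultrafilter ℕ) (S : Finset (UP G U)) :
    ∀ᶠ n in (U : Filter ℕ), (∀ x ∈ S, ∀ y ∈ S, (rp x n = rp y n → x = y)) ∧
      ∀ x ∈ S, ∀ y ∈ S, rp (x * y) n = rp x n * rp y n := by
  have h1 : ∀ᶠ n in (U : Filter ℕ), ∀ x ∈ S, ∀ y ∈ S, (rp x n = rp y n → x = y) := by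
    rw [Filter.eventually_all_finset]
    intro x _
    rw [Filter.eventually_all_finset]
    intro y _
    by_cases hxy : x = y
    · exact Eventually.of_forall fun n _ => hxy
    · have h3 : ¬ ∀ᶠ n in (U : Filter ℕ), rp x n = rp y n := by
        intro h
        apply hxy
        rw [← mk_rp x, ← mk_rp y]
        exact mk_eq.2 h
      rw [← Ultrafilter.eventually_not] at h3
      filter_upwards [h3] with n h4 h5
      exact absurd h5 h4
  have h2 : ∀ᶠ n in (U : Filter ℕ), ∀ x ∈ S, ∀ y ∈ S, rp (x * y) n = rp x n * rp y n := by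
    rw [Filter.eventually_all_finset]
    intro x _
    rw [Filter.eventually_all_finset]
    intro y _
    have h3 : (mk (rp (x * y)) : UP G U) = mk (rp x * rp y) := by
      rw [mk_rp, mk_mul, mk_rp, mk_rp]
    exact mk_eq.1 h3
  exact h1.and h2

theorem up_map (G : ℕ → Type u) [∀ n, Group (G n)] (S : Finset (UP G (hyperfilter ℕ))) (n : ℕ) :
    ∃ m, n ≤ m ∧ ∃ θ : UP G (hyperfilter ℕ) → G m,
      (∀ x ∈ S, ∀ y ∈ S, θ x = θ y → x = y) ∧
      (∀ x ∈ S, ∀ y ∈ S, θ (x * y) = θ x * θ y) := by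
  have h1 := up_ev G (hyperfilter ℕ) S
  have h2 : ∀ᶠ m in (hyperfilter ℕ : Filter ℕ), n ≤ m := by
    have : ∀ᶠ m in (cofinite : Filter ℕ), n ≤ m := by
      rw [Nat.cofinite_eq_atTop]
      exact eventually_ge_atTop n
    exact (hyperfilter_le_cofinite) this
  obtain ⟨m, hm1, hm2⟩ := (h1.and h2).exists
  exact ⟨m, hm2, fun x => rp x m, hm1.1, hm1.2⟩

theorem up_locIn (C : (G : Type u) → [Group G] → Prop) (G : ℕ → Type u) [∀ n, Group (G n)]
    (U : Ultrafilter ℕ) (hG : ∀ n, C (G n)) : LocIn C (UP G U) := by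
  intro S
  obtain ⟨n, hn1, hn2⟩ := (up_ev G U S).exists
  exact ⟨G n, inferInstance, fun x => rp x n, hG n, hn1, hn2⟩

/-- The compactness principle: if the kernel dimensions of a class which is closed under local
embeddings vanish for all its torsion-free members, then they are small for groups of the class
without small torsion. -/
theorem compact (C : (G : Type u) → [Group G] → Prop)
    (hC : ∀ (G : Type u) [Group G], LocIn C G → C G)
    (h : ∀ (G : Type u) [Group G], C G → (∀ g : G, ∀ n : ℕ, 0 < n → g ^ n = 1 → g = 1) →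
      ∀ α : G →₀ ℂ, α ≠ 0 → kd α = 0) (k : ℕ) (ε : ℝ) (hε : 0 < ε) :
    ∃ N : ℕ, ∀ (G : Type u) [Group G], C G →
      (∀ g : G, ∀ m : ℕ, 0 < m → m ≤ N → g ^ m = 1 → g = 1) →
      ∀ α : G →₀ ℂ, α ≠ 0 → α.support.card ≤ k → kd α ≤ ε := by
  by_contra hcon
  push Not at hcon
  choose G hG hCG htor α hα0 hαk hαε using hcon
  set U : Ultrafilter ℕ := hyperfilter ℕ with hU
  obtain ⟨β, hβ0, _, hβ⟩ := semicont G U k ε α hα0 hαk (fun n => (hαε n).le)
  have h1 : C (UP G U) := hC _ (up_locIn C G U hCG)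
  have h2 : ∀ g : UP G U, ∀ n : ℕ, 0 < n → g ^ n = 1 → g = 1 := by
    intro g m hm hg
    have h3 : (mk (rp g ^ m) : UP G U) = mk 1 := by
      have : (mk (rp g ^ m) : UP G U) = mk (rp g) ^ m := rfl
      rw [this, mk_rp, hg, mk_one]
    have h4 := mk_eq.1 h3
    have h5 : ∀ᶠ n in (U : Filter ℕ), m ≤ n := by
      have : ∀ᶠ n in (cofinite : Filter ℕ), m ≤ n := by
        rw [Nat.cofinite_eq_atTop]
        exact eventually_ge_atTop m
      exact (hyperfilter_le_cofinite) this
    have h6 : (mk (rp g) : UP G U) = mk 1 := by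
      rw [mk_eq]
      filter_upwards [h4, h5] with n h7 h8
      exact htor n _ m hm h8 h7
    rw [mk_rp, mk_one] at h6
    exact h6
  have h3 := h _ h1 h2 β hβ0
  rw [h3] at hβ
  linarith

end Pool.Agent.U700.CP
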