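import Pool.Agent.U700.NI5

/-!
The Atiyah conjecture for torsion-free sofic groups and permutation matrices, converse direction.
-/

set_option autoImplicit false
set_option linter.unusedSectionVars false

open scoped Pointwise
open Filter Topology Matrix

namespace Pool.Agent.U700.NI

open Pool.Agent.TH107.AT
open Pool.Agent.H80R2
open Pool.Agent.H80R2.BC (L2 GMat vdim IsTr LInv Equi act kerA)
open Pool.Agent.H812R3
open Pool.Agent.W656.VA
open Pool.Agent.H21R2 (IsSofic hamm)

section count

variable {X : Type} [Fintype X] [DecidableEq X]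

theorem mv_one : mv (1 : Equiv.Perm X) = 0 := by
  unfold mv
  rw [Finset.card_eq_zero, Finset.filter_eq_empty_iff]
  intro x _ h
  exact h rfl

theorem mv_mul_le (σ τ : Equiv.Perm X) : mv (σ * τ) ≤ mv σ + mv τ := by
  unfold mv
  refine le_trans (Finset.card_le_card ?_) (Finset.card_union_le _ _)
  intro x hx
  rw [Finset.mem_filter] at hx
  rw [Finset.mem_union, Finset.mem_filter, Finset.mem_filter]
  by_cases h : τ x = x
  · left
    refine ⟨Finset.mem_univ _, ?_⟩
    intro h2
    apply hx.2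
    rw [Equiv.Perm.mul_apply, h, h2]
  · exact Or.inr ⟨Finset.mem_univ _, h⟩

theorem mv_inv (σ : Equiv.Perm X) : mv σ⁻¹ = mv σ := by
  unfold mv
  congr 1
  ext x
  simp only [Finset.mem_filter, Finset.mem_univ, true_and, ne_eq, not_iff_not]
  constructor
  · intro h
    rw [Equiv.Perm.inv_eq_iff_eq] at h
    exact h.symm
  · intro h
    rw [Equiv.Perm.inv_eq_iff_eq]
    exact h.symm

theorem mv_conj_le (g σ : Equiv.Perm X) : mv (g * σ * g⁻¹) ≤ mv σ := by
  unfold mv
  refine Finset.card_le_card_of_injOn (fun x => g⁻¹ x) ?_ (fun x _ y _ h => g⁻¹.injective h)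
  intro x hx
  rw [Finset.mem_coe, Finset.mem_filter] at hx ⊢
  refine ⟨Finset.mem_univ _, fun h => hx.2 ?_⟩
  rw [Equiv.Perm.mul_apply, Equiv.Perm.mul_apply, h]
  simp

theorem hamm_congr (α β : Equiv.Perm X) :
    hamm ((Fintype.equivFin X).permCongr α) ((Fintype.equivFin X).permCongr β) =
      (mv (α⁻¹ * β) : ℝ) / Fintype.card X := by
  unfold hamm mv
  congr 2
  refine Finset.card_bij (fun i _ => (Fintype.equivFin X).symm i) ?_ ?_ ?_
  · intro i hi
    rw [Finset.mem_filter] at hi ⊢
    refine ⟨Finset.mem_univ _, fun h => hi.2 ?_⟩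
    rw [Equiv.permCongr_apply, Equiv.permCongr_apply]
    rw [Equiv.Perm.mul_apply, Equiv.Perm.inv_eq_iff_eq] at h
    rw [h]
  · intro i _ j _ h
    exact (Fintype.equivFin X).symm.injective h
  · intro x hx
    rw [Finset.mem_filter] at hx
    refine ⟨Fintype.equivFin X x, ?_, by simp⟩
    rw [Finset.mem_filter]
    refine ⟨Finset.mem_univ _, fun h => hx.2 ?_⟩
    rw [Equiv.permCongr_apply, Equiv.permCongr_apply] at h
    have h2 := (Fintype.equivFin X).injective h
    rw [Equiv.symm_apply_apply] at h2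
    rw [Equiv.Perm.mul_apply, Equiv.Perm.inv_eq_iff_eq]
    exact h2.symm

end count

theorem b_of_a
    (ha : ∀ (G : Type) [Group G], (∀ g : G, ∀ j : ℕ, 0 < j → g ^ j = 1 → g = 1) → IsSofic G →
      ∀ (m n : ℕ) (Y : Matrix (Fin m) (Fin n) (MonoidAlgebra ℂ G)), Itg Y →
        ∃ z : ℤ, vdim (kr (mop Y)) = z)
    (m n k : ℕ) (c : Fin m → Fin n → Fin k → ℤ) (ε : ℝ) (hε : 0 < ε) : ∃ N : ℕ,
      ∀ (X : Type) [Fintype X] [DecidableEq X] [Nonempty X] (σ : Fin k → Equiv.Perm X),
        Appr N σ → ∃ z : ℤ, |nu (FreeGroup.lift σ) (Yc c) - z| < ε := by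
  classical
  by_contra hcon
  have hcon' : ∀ N : ℕ, ∃ (X : Type) (_ : Fintype X) (_ : DecidableEq X) (_ : Nonempty X)
      (σ : Fin k → Equiv.Perm X), Appr N σ ∧ ∀ z : ℤ,
        ε ≤ |nu (FreeGroup.lift σ) (Yc c) - z| := by
    intro N
    by_contra h1
    apply hcon
    refine ⟨N, fun X i1 i2 i3 σ h2 => ?_⟩
    by_contra h4
    apply h1
    refine ⟨X, i1, i2, i3, σ, h2, fun z => ?_⟩
    by_contra h5
    exact h4 ⟨z, not_le.1 h5⟩
  choose X i1 i2 i3 σ hσ hz using hcon'
  let U : Ultrafilter ℕ := hyperfilter ℕ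
  have hU : (U : Filter ℕ) ≤ atTop := Nat.hyperfilter_le_atTop
  let φ : ∀ N, FreeGroup (Fin k) →* Equiv.Perm (X N) := fun N => FreeGroup.lift (σ N)
  have hcd : ∀ N, (0 : ℝ) < Fintype.card (X N) := fun N => by exact_mod_cast Fintype.card_pos
  let rm : FreeGroup (Fin k) → ℕ → ℝ := fun w N => (mv (φ N w) : ℝ) / Fintype.card (X N)
  let rf : FreeGroup (Fin k) → ℕ → ℝ := fun w N => (fx (φ N w) : ℝ) / Fintype.card (X N)
  have hrm0 : ∀ w N, 0 ≤ rm w N := fun w N => by positivity
  have hrf0 : ∀ w N, 0 ≤ rf w N := fun w N => by positivity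
  have hsum : ∀ w N, rf w N = 1 - rm w N := by
    intro w N
    have h1 : (fx (φ N w) : ℝ) + mv (φ N w) = Fintype.card (X N) := by
      exact_mod_cast fx_add_mv (φ N w)
    have h2 := (hcd N).ne'
    change (fx (φ N w) : ℝ) / Fintype.card (X N) = 1 - (mv (φ N w) : ℝ) / Fintype.card (X N)
    rw [eq_sub_iff_add_eq, ← add_div, h1, div_self h2]
  let K : Subgroup (FreeGroup (Fin k)) :=
    { carrier := {w | Tendsto (rm w) U (𝓝 0)}
      mul_mem' := by
        intro v w hv hw
        have h1 : Tendsto (fun N => rm v N + rm w N) U (𝓝 0) := by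
          have := Tendsto.add hv hw
          rwa [add_zero] at this
        refine squeeze_zero (hrm0 _) (fun N => ?_) h1
        change (mv (φ N (v * w)) : ℝ) / _ ≤ (mv (φ N v) : ℝ) / _ + (mv (φ N w) : ℝ) / _
        rw [← add_div]
        apply div_le_div_of_nonneg_right _ (hcd N).le
        rw [map_mul]
        exact_mod_cast mv_mul_le _ _
      one_mem' := by
        change Tendsto (rm 1) U (𝓝 0)
        refine tendsto_const_nhds.congr fun N => ?_
        change (0 : ℝ) = (mv (φ N 1) : ℝ) / _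
        rw [map_one, mv_one, Nat.cast_zero, zero_div]
      inv_mem' := by
        intro w hw
        refine Tendsto.congr (fun N => ?_) hw
        change (mv (φ N w) : ℝ) / _ = (mv (φ N w⁻¹) : ℝ) / _
        rw [map_inv, mv_inv] }
  have hK : ∀ w, w ∈ K ↔ Tendsto (rm w) U (𝓝 0) := fun w => Iff.rfl
  have hKn : K.Normal := by
    constructor
    intro w hw g
    rw [hK] at hw ⊢
    refine squeeze_zero (hrm0 _) (fun N => ?_) hw
    change (mv (φ N (g * w * g⁻¹)) : ℝ) / _ ≤ (mv (φ N w) : ℝ) / _
    apply div_le_div_of_nonneg_right _ (hcd N).le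
    rw [map_mul, map_mul, map_inv]
    exact_mod_cast mv_conj_le _ _
  have hinv : Tendsto (fun N : ℕ => 1 / (N : ℝ)) U (𝓝 0) :=
    tendsto_one_div_atTop_nhds_zero_nat.mono_left hU
  have hdich : ∀ w, w ∉ K → ∀ j, 1 ≤ j → Tendsto (rf (w ^ j)) U (𝓝 0) := by
    intro w hw j hj
    have h1 : ¬ ∀ᶠ N in (U : Filter ℕ), N * mv (φ N w) ≤ Fintype.card (X N) := by
      intro h2
      apply hw
      rw [hK]
      refine squeeze_zero' (Eventually.of_forall (hrm0 w)) ?_ hinv
      filter_upwards [h2, hU (eventually_gt_atTop 0)] with N h3 h4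
      have h5 : (0 : ℝ) < N := by exact_mod_cast h4
      change (mv (φ N w) : ℝ) / _ ≤ _
      rw [div_le_div_iff₀ (hcd N) h5, one_mul, mul_comm]
      exact_mod_cast h3
    rw [← Ultrafilter.eventually_not] at h1
    refine squeeze_zero' (Eventually.of_forall (hrf0 _)) ?_ hinv
    filter_upwards [h1, hU (eventually_gt_atTop 0), hU (eventually_ge_atTop (max w.norm j))]
      with N h3 h4 h6
    have h5 : (0 : ℝ) < N := by exact_mod_cast h4
    have h7 := (hσ N w ((le_max_left _ _).trans h6)).resolve_left h3 j hj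
      ((le_max_right _ _).trans h6)
    change (fx (φ N (w ^ j)) : ℝ) / _ ≤ _
    rw [div_le_div_iff₀ (hcd N) h5, one_mul, mul_comm]
    exact_mod_cast h7
  have hrfK : ∀ w, w ∈ K → Tendsto (rf w) U (𝓝 1) := by
    intro w hw
    have h1 : Tendsto (fun N => 1 - rm w N) U (𝓝 (1 - 0)) := Tendsto.const_sub 1 ((hK w).1 hw)
    rw [sub_zero] at h1
    exact h1.congr fun N => (hsum w N).symm
  let G := FreeGroup (Fin k) ⧸ K
  let π : FreeGroup (Fin k) →* G := QuotientGroup.mk' K
  have hπ : ∀ w, π w = 1 ↔ w ∈ K := fun w => QuotientGroup.eq_one_iff w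
  have hπs : Function.Surjective π := QuotientGroup.mk'_surjective K
  have htf : ∀ g : G, ∀ j : ℕ, 0 < j → g ^ j = 1 → g = 1 := by
    intro g j hj h
    obtain ⟨w, rfl⟩ := hπs g
    rw [← map_pow, hπ] at h
    rw [hπ]
    by_contra hw
    have h1 := hdich w hw j hj
    have h2 := hrfK _ h
    exact zero_ne_one (tendsto_nhds_unique h1 h2)
  have hsof : IsSofic G := by
    intro A hA1 δ hδ
    let r : G → FreeGroup (Fin k) := fun x => if x = 1 then 1 else Quotient.out x
    have hr1 : r 1 = 1 := if_pos rfl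
    have hr : ∀ x, π (r x) = x := by
      intro x
      by_cases h : x = 1
      · rw [h, hr1, map_one]
      · simp only [r, if_neg h]
        exact QuotientGroup.out_eq' x
    have e1 : ∀ᶠ N in (U : Filter ℕ), ∀ a ∈ A, ∀ b ∈ A,
        rm ((r (a * b))⁻¹ * (r a * r b)) N < δ := by
      rw [Filter.eventually_all_finset]
      intro a _
      rw [Filter.eventually_all_finset]
      intro b _
      have h1 : (r (a * b))⁻¹ * (r a * r b) ∈ K := by
        rw [← hπ, map_mul, map_inv, map_mul, hr, hr, hr, inv_mul_cancel]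
      exact ((hK _).1 h1).eventually (gt_mem_nhds hδ)
    have e2 : ∀ᶠ N in (U : Filter ℕ), ∀ a ∈ A, a ≠ 1 → rf (r a) N < δ := by
      rw [Filter.eventually_all_finset]
      intro a _
      by_cases h : a = 1
      · exact Eventually.of_forall fun N h2 => absurd h h2
      · have h1 : r a ∉ K := by
          rw [← hπ, hr]
          exact h
        have h2 := hdich _ h1 1 le_rfl
        rw [pow_one] at h2
        filter_upwards [h2.eventually (gt_mem_nhds hδ)] with N h3 _
        exact h3
    obtain ⟨N, h1, h2⟩ := (e1.and e2).exists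
    refine ⟨Fintype.card (X N), Fintype.card_pos, fun a => (Fintype.equivFin (X N)).permCongr
      (φ N (r a)), ?_, ?_, ?_⟩
    · simp only [hr1, map_one]
      ext i
      simp
    · intro a ha b hb _
      have h3 := h1 a ha b hb
      have h4 : (Fintype.equivFin (X N)).permCongr (φ N (r a)) *
          (Fintype.equivFin (X N)).permCongr (φ N (r b)) =
          (Fintype.equivFin (X N)).permCongr (φ N (r a * r b)) := by
        rw [map_mul]
        ext i
        simp
      simp only [h4]
      rw [hamm_congr, ← map_inv, ← map_mul]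
      exact h3
    · intro a ha hne
      have h3 := h2 a ha hne
      have h4 : (1 : Equiv.Perm (Fin (Fintype.card (X N)))) =
          (Fintype.equivFin (X N)).permCongr 1 := by
        ext i
        simp
      rw [h4, hamm_congr, mul_one, mv_inv]
      have h5 := hsum (r a) N
      change 1 - δ ≤ rm (r a) N
      linarith
  have hlim := lim (U : Filter ℕ) X φ π (by
    intro w
    by_cases h : π w = 1
    · rw [if_pos h]
      exact hrfK w ((hπ w).1 h)
    · rw [if_neg h]
      have h1 := hdich w (fun h2 => h ((hπ w).2 h2)) 1 le_rfl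
      rw [pow_one] at h1
      exact h1) (Yc c) (itg_Yc c)
  obtain ⟨z, hz'⟩ := ha G htf hsof m n (im π (Yc c)) (itg_im π _ (itg_Yc c))
  rw [hz'] at hlim
  obtain ⟨N, hN⟩ := (hlim.eventually (Metric.ball_mem_nhds _ hε)).exists
  have h1 : |nu (φ N) (Yc c) - z| < ε := by
    rw [← Real.dist_eq]
    exact hN
  exact absurd h1 (not_lt.2 (hz N z))

end Pool.Agent.U700.NI
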