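import Pool.Agent.U700.NI7
import Pool.Agent.U700.NI6

/-!
Limits of nullities of almost free permutations are kernel dimensions for one fixed pattern of
integers.
-/

set_option autoImplicit false
set_option linter.unusedSectionVars false

open scoped Pointwise
open Filter Topology Matrix

namespace Pool.Agent.U700.NI

open Pool.Agent.TH107.AT
open Pool.Agent.H80R2
open Pool.Agent.H80R2.BC (L2 GMat vdim IsTr LInv Equi act kerA)
open Pool.Agent.H812R3
open Pool.Agent.W656.VA
open Pool.Agent.H21R2 (IsSofic hamm)

/-- a sequence of more and more free permutations has a torsion-free sofic limit group -/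
theorem exists_limit (m n k : ℕ) (c : Fin m → Fin n → Fin k → ℤ) (X : ℕ → Type)
    [i1 : ∀ N, Fintype (X N)] [i2 : ∀ N, DecidableEq (X N)] [i3 : ∀ N, Nonempty (X N)]
    (σ : ∀ N, Fin k → Equiv.Perm (X N)) (hσ : ∀ N, Appr N (σ N)) (r : ℝ)
    (hr : Tendsto (fun N => nu (FreeGroup.lift (σ N)) (Yc c)) atTop (𝓝 r)) :
    ∃ (G : Type) (_ : Group G), (∀ g : G, ∀ j : ℕ, 0 < j → g ^ j = 1 → g = 1) ∧ IsSofic G ∧
      ∃ g : Fin k → G, vdim (kr (mop (im (FreeGroup.lift g) (Yc c)))) = r := by
  classical
  let U : Ultrafilter ℕ := hyperfilter ℕ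
  have hU : (U : Filter ℕ) ≤ atTop := Nat.hyperfilter_le_atTop
  let φ : ∀ N, FreeGroup (Fin k) →* Equiv.Perm (X N) := fun N => FreeGroup.lift (σ N)
  have hcd : ∀ N, (0 : ℝ) < Fintype.card (X N) := fun N => by exact_mod_cast Fintype.card_pos
  let rm : FreeGroup (Fin k) → ℕ → ℝ := fun w N => (mv (φ N w) : ℝ) / Fintype.card (X N)
  let rf : FreeGroup (Fin k) → ℕ → ℝ := fun w N => (fx (φ N w) : ℝ) / Fintype.card (X N)
  have hrm0 : ∀ w N, 0 ≤ rm w N := fun w N => by positivity
  have hrf0 : ∀ w N, 0 ≤ rf w N := fun w N => by positivity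
  have hsum : ∀ w N, rf w N = 1 - rm w N := by
    intro w N
    have h1 : (fx (φ N w) : ℝ) + mv (φ N w) = Fintype.card (X N) := by
      exact_mod_cast fx_add_mv (φ N w)
    have h2 := (hcd N).ne'
    change (fx (φ N w) : ℝ) / Fintype.card (X N) = 1 - (mv (φ N w) : ℝ) / Fintype.card (X N)
    rw [eq_sub_iff_add_eq, ← add_div, h1, div_self h2]
  let K : Subgroup (FreeGroup (Fin k)) :=
    { carrier := {w | Tendsto (rm w) U (𝓝 0)}
      mul_mem' := by
        intro v w hv hw
        have h1 : Tendsto (fun N => rm v N + rm w N) U (𝓝 0) := by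
          have := Tendsto.add hv hw
          rwa [add_zero] at this
        refine squeeze_zero (hrm0 _) (fun N => ?_) h1
        change (mv (φ N (v * w)) : ℝ) / _ ≤ (mv (φ N v) : ℝ) / _ + (mv (φ N w) : ℝ) / _
        rw [← add_div]
        apply div_le_div_of_nonneg_right _ (hcd N).le
        rw [map_mul]
        exact_mod_cast mv_mul_le _ _
      one_mem' := by
        change Tendsto (rm 1) U (𝓝 0)
        refine tendsto_const_nhds.congr fun N => ?_
        change (0 : ℝ) = (mv (φ N 1) : ℝ) / _
        rw [map_one, mv_one, Nat.cast_zero, zero_div]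
      inv_mem' := by
        intro w hw
        refine Tendsto.congr (fun N => ?_) hw
        change (mv (φ N w) : ℝ) / _ = (mv (φ N w⁻¹) : ℝ) / _
        rw [map_inv, mv_inv] }
  have hK : ∀ w, w ∈ K ↔ Tendsto (rm w) U (𝓝 0) := fun w => Iff.rfl
  have hKn : K.Normal := by
    constructor
    intro w hw g
    rw [hK] at hw ⊢
    refine squeeze_zero (hrm0 _) (fun N => ?_) hw
    change (mv (φ N (g * w * g⁻¹)) : ℝ) / _ ≤ (mv (φ N w) : ℝ) / _
    apply div_le_div_of_nonneg_right _ (hcd N).le
    rw [map_mul, map_mul, map_inv]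
    exact_mod_cast mv_conj_le _ _
  have hinv : Tendsto (fun N : ℕ => 1 / (N : ℝ)) U (𝓝 0) :=
    tendsto_one_div_atTop_nhds_zero_nat.mono_left hU
  have hdich : ∀ w, w ∉ K → ∀ j, 1 ≤ j → Tendsto (rf (w ^ j)) U (𝓝 0) := by
    intro w hw j hj
    have h1 : ¬ ∀ᶠ N in (U : Filter ℕ), N * mv (φ N w) ≤ Fintype.card (X N) := by
      intro h2
      apply hw
      rw [hK]
      refine squeeze_zero' (Eventually.of_forall (hrm0 w)) ?_ hinv
      filter_upwards [h2, hU (eventually_gt_atTop 0)] with N h3 h4
      have h5 : (0 : ℝ) < N := by exact_mod_cast h4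
      change (mv (φ N w) : ℝ) / _ ≤ _
      rw [div_le_div_iff₀ (hcd N) h5, one_mul, mul_comm]
      exact_mod_cast h3
    rw [← Ultrafilter.eventually_not] at h1
    refine squeeze_zero' (Eventually.of_forall (hrf0 _)) ?_ hinv
    filter_upwards [h1, hU (eventually_gt_atTop 0), hU (eventually_ge_atTop (max w.norm j))]
      with N h3 h4 h6
    have h5 : (0 : ℝ) < N := by exact_mod_cast h4
    have h7 := (hσ N w ((le_max_left _ _).trans h6)).resolve_left h3 j hj
      ((le_max_right _ _).trans h6)
    change (fx (φ N (w ^ j)) : ℝ) / _ ≤ _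
    rw [div_le_div_iff₀ (hcd N) h5, one_mul, mul_comm]
    exact_mod_cast h7
  have hrfK : ∀ w, w ∈ K → Tendsto (rf w) U (𝓝 1) := by
    intro w hw
    have h1 : Tendsto (fun N => 1 - rm w N) U (𝓝 (1 - 0)) := Tendsto.const_sub 1 ((hK w).1 hw)
    rw [sub_zero] at h1
    exact h1.congr fun N => (hsum w N).symm
  let G := FreeGroup (Fin k) ⧸ K
  let π : FreeGroup (Fin k) →* G := QuotientGroup.mk' K
  have hπ : ∀ w, π w = 1 ↔ w ∈ K := fun w => QuotientGroup.eq_one_iff w
  have hπs : Function.Surjective π := QuotientGroup.mk'_surjective K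
  have htf : ∀ g : G, ∀ j : ℕ, 0 < j → g ^ j = 1 → g = 1 := by
    intro g j hj h
    obtain ⟨w, rfl⟩ := hπs g
    rw [← map_pow, hπ] at h
    rw [hπ]
    by_contra hw
    have h1 := hdich w hw j hj
    have h2 := hrfK _ h
    exact zero_ne_one (tendsto_nhds_unique h1 h2)
  have hsof : IsSofic G := by
    intro A hA1 δ hδ
    let r : G → FreeGroup (Fin k) := fun x => if x = 1 then 1 else Quotient.out x
    have hr1 : r 1 = 1 := if_pos rfl
    have hr : ∀ x, π (r x) = x := by
      intro x
      by_cases h : x = 1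
      · rw [h, hr1, map_one]
      · simp only [r, if_neg h]
        exact QuotientGroup.out_eq' x
    have e1 : ∀ᶠ N in (U : Filter ℕ), ∀ a ∈ A, ∀ b ∈ A,
        rm ((r (a * b))⁻¹ * (r a * r b)) N < δ := by
      rw [Filter.eventually_all_finset]
      intro a _
      rw [Filter.eventually_all_finset]
      intro b _
      have h1 : (r (a * b))⁻¹ * (r a * r b) ∈ K := by
        rw [← hπ, map_mul, map_inv, map_mul, hr, hr, hr, inv_mul_cancel]
      exact ((hK _).1 h1).eventually (gt_mem_nhds hδ)
    have e2 : ∀ᶠ N in (U : Filter ℕ), ∀ a ∈ A, a ≠ 1 → rf (r a) N < δ := by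
      rw [Filter.eventually_all_finset]
      intro a _
      by_cases h : a = 1
      · exact Eventually.of_forall fun N h2 => absurd h h2
      · have h1 : r a ∉ K := by
          rw [← hπ, hr]
          exact h
        have h2 := hdich _ h1 1 le_rfl
        rw [pow_one] at h2
        filter_upwards [h2.eventually (gt_mem_nhds hδ)] with N h3 _
        exact h3
    obtain ⟨N, h1, h2⟩ := (e1.and e2).exists
    refine ⟨Fintype.card (X N), Fintype.card_pos, fun a => (Fintype.equivFin (X N)).permCongr
      (φ N (r a)), ?_, ?_, ?_⟩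
    · simp only [hr1, map_one]
      ext i
      simp
    · intro a ha b hb _
      have h3 := h1 a ha b hb
      have h4 : (Fintype.equivFin (X N)).permCongr (φ N (r a)) *
          (Fintype.equivFin (X N)).permCongr (φ N (r b)) =
          (Fintype.equivFin (X N)).permCongr (φ N (r a * r b)) := by
        rw [map_mul]
        ext i
        simp
      simp only [h4]
      rw [hamm_congr, ← map_inv, ← map_mul]
      exact h3
    · intro a ha hne
      have h3 := h2 a ha hne
      have h4 : (1 : Equiv.Perm (Fin (Fintype.card (X N)))) =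
          (Fintype.equivFin (X N)).permCongr 1 := by
        ext i
        simp
      rw [h4, hamm_congr, mul_one, mv_inv]
      have h5 := hsum (r a) N
      change 1 - δ ≤ rm (r a) N
      linarith
  have hlim := lim (U : Filter ℕ) X φ π (by
    intro w
    by_cases h : π w = 1
    · rw [if_pos h]
      exact hrfK w ((hπ w).1 h)
    · rw [if_neg h]
      have h1 := hdich w (fun h2 => h ((hπ w).2 h2)) 1 le_rfl
      rw [pow_one] at h1
      exact h1) (Yc c) (itg_Yc c)
  refine ⟨G, inferInstance, htf, hsof, fun l => π (FreeGroup.of l), ?_⟩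
  have e : FreeGroup.lift (fun l => π (FreeGroup.of l)) = π := by
    ext l
    rw [FreeGroup.lift_apply_of]
  rw [e]
  exact tendsto_nhds_unique hlim (hr.mono_left hU)


/-- kernel dimensions of the matrices of one pattern over torsion-free sofic groups are limits of
nullities for the same pattern -/
theorem approx (G : Type) [Group G] (htf : ∀ g : G, ∀ j : ℕ, 0 < j → g ^ j = 1 → g = 1)
    (hG : IsSofic G) {m n k : ℕ} (c : Fin m → Fin n → Fin k → ℤ) (g : Fin k → G)
    (ε : ℝ) (hε : 0 < ε) (N0 : ℕ) :
      ∃ (X : Type) (_ : Fintype X) (_ : DecidableEq X) (_ : Nonempty X)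
        (σ : Fin k → Equiv.Perm X), Appr N0 σ ∧
          |nu (FreeGroup.lift σ) (Yc c) - vdim (kr (mop (im (FreeGroup.lift g) (Yc c))))| < ε := by
  classical
  choose d hd σ hσ using fun N => words hG g N
  have hne : ∀ N, Nonempty (Fin (d N)) := fun N => ⟨⟨0, hd N⟩⟩
  have hlim := lim (atTop : Filter ℕ) (fun N => Fin (d N)) (fun N => FreeGroup.lift (σ N))
    (FreeGroup.lift g) (by
      intro w
      by_cases h : FreeGroup.lift g w = 1
      · rw [if_pos h]
        rw [Metric.tendsto_nhds]
        intro ε hε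
        obtain ⟨N0, hN0⟩ := exists_nat_gt (1 / ε)
        filter_upwards [eventually_ge_atTop (max N0 w.norm)] with N hN
        have h1 := (hσ N w ((le_max_right _ _).trans hN)).1 h
        have h2 := fx_add_mv (FreeGroup.lift (σ N) w)
        have hdN : (0 : ℝ) < Fintype.card (Fin (d N)) := by
          rw [Fintype.card_fin]; exact_mod_cast hd N
        have h3 : (fx (FreeGroup.lift (σ N) w) : ℝ) / Fintype.card (Fin (d N)) - 1 =
            -((mv (FreeGroup.lift (σ N) w) : ℝ) / Fintype.card (Fin (d N))) := by
          have h4 : (fx (FreeGroup.lift (σ N) w) : ℝ) + mv (FreeGroup.lift (σ N) w) =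
              Fintype.card (Fin (d N)) := by exact_mod_cast h2
          rw [← h4] at hdN ⊢
          field_simp
          ring
        rw [Real.dist_eq, h3, abs_neg, abs_of_nonneg (by positivity), div_lt_iff₀ hdN]
        have h5 : ((N : ℝ) + 1) * mv (FreeGroup.lift (σ N) w) ≤ Fintype.card (Fin (d N)) := by
          rw [Fintype.card_fin]
          exact_mod_cast h1
        have h6 : (1 : ℝ) < ε * (N + 1) := by
          rw [div_lt_iff₀ hε] at hN0
          have : (N0 : ℝ) ≤ N := by exact_mod_cast (le_max_left _ _).trans hN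
          nlinarith
        have h7 : (0 : ℝ) ≤ mv (FreeGroup.lift (σ N) w) := Nat.cast_nonneg _
        have h8 : (0 : ℝ) < (N : ℝ) + 1 := by positivity
        by_contra hcon
        push Not at hcon
        have h9 := mul_le_mul_of_nonneg_right hcon h8.le
        nlinarith
      · rw [if_neg h]
        rw [Metric.tendsto_nhds]
        intro ε hε
        obtain ⟨N0, hN0⟩ := exists_nat_gt (1 / ε)
        filter_upwards [eventually_ge_atTop (max N0 w.norm)] with N hN
        have h1 := (hσ N w ((le_max_right _ _).trans hN)).2 h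
        have hdN : (0 : ℝ) < Fintype.card (Fin (d N)) := by
          rw [Fintype.card_fin]; exact_mod_cast hd N
        rw [Real.dist_eq, sub_zero, abs_of_nonneg (by positivity), div_lt_iff₀ hdN]
        have h5 : ((N : ℝ) + 1) * fx (FreeGroup.lift (σ N) w) ≤ Fintype.card (Fin (d N)) := by
          rw [Fintype.card_fin]
          exact_mod_cast h1
        have h6 : (1 : ℝ) < ε * (N + 1) := by
          rw [div_lt_iff₀ hε] at hN0
          have : (N0 : ℝ) ≤ N := by exact_mod_cast (le_max_left _ _).trans hN
          nlinarith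
        have h8 : (0 : ℝ) < (N : ℝ) + 1 := by positivity
        by_contra hcon
        push Not at hcon
        have h9 := mul_le_mul_of_nonneg_right hcon h8.le
        nlinarith) (Yc c) (itg_Yc c)
  have h1 := hlim.eventually (Metric.ball_mem_nhds _ hε)
  obtain ⟨N, h2, h3⟩ := (h1.and (eventually_ge_atTop (N0 * N0 + N0))).exists
  have h4 : Appr N0 (σ N) := by
    intro w hw
    by_cases h : FreeGroup.lift g w = 1
    · left
      have h5 := (hσ N w (by nlinarith)).1 h
      rw [Fintype.card_fin]
      refine le_trans (Nat.mul_le_mul_right _ ?_) h5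
      nlinarith
    · right
      intro j hj1 hj2
      have h6 : FreeGroup.lift g (w ^ j) ≠ 1 := by
        intro h7
        rw [map_pow] at h7
        exact h (htf _ j (by omega) h7)
      have h7 : (w ^ j).norm ≤ N := by
        refine (norm_pow_le' w j).trans ?_
        have : j * w.norm ≤ N0 * N0 := Nat.mul_le_mul hj2 hw
        omega
      have h5 := (hσ N (w ^ j) h7).2 h6
      rw [Fintype.card_fin]
      refine le_trans (Nat.mul_le_mul_right _ ?_) h5
      nlinarith
  refine ⟨Fin (d N), inferInstance, inferInstance, hne N, σ N, h4, ?_⟩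
  rw [← Real.dist_eq]
  exact h2

end Pool.Agent.U700.NI
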