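import Pool.Agent.R378.Halo
import Pool.Agent.H21R2.Labelled
import Pool.Agent.Helper867.PF.FreeRes

/-!
The class of sofic groups: products, semidirect products with the integers, free products with
free groups.
-/

set_option autoImplicit false
set_option linter.unusedSectionVars false

namespace Pool.Agent.U700.NI

open Pool.Agent.H21R2 Pool.Agent.R654.Halo

/-- residually sofic groups are sofic -/
theorem sofic_of_maps {G : Type} [Group G] (h : ∀ g : G, g ≠ 1 →
    ∃ (L : Type) (_ : Group L) (p : G →* L), IsSofic L ∧ p g ≠ 1) : IsSofic G := by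
  classical
  apply isSofic_of_weighted.{0, 0}
  intro A h1 g hg hg1 ε hε
  obtain ⟨L, iL, p, hL, hp⟩ := h g hg1
  obtain ⟨Y, φ, f, h2, h3, h4, h5⟩ := weighted_of_isSofic hL (A.image p)
    (Finset.mem_image.2 ⟨1, h1, map_one p⟩) (p g) (Finset.mem_image_of_mem _ hg) hp ε hε
  refine ⟨Y, fun a => φ (p a), f, by simp only [map_one, h2], h3, fun a ha => h4 _
    (Finset.mem_image_of_mem _ ha), fun a ha b hb hab => ?_⟩
  simp only [map_mul]
  refine h5 _ (Finset.mem_image_of_mem _ ha) _ (Finset.mem_image_of_mem _ hb) ?_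
  rw [← map_mul]
  exact Finset.mem_image_of_mem _ hab

theorem sofic_inj {G H : Type} [Group G] [Group H] (f : G →* H) (hf : Function.Injective f)
    (hH : IsSofic H) : IsSofic G :=
  sofic_of_maps fun g hg => ⟨H, inferInstance, f, hH, fun h => hg (hf (by rw [h, map_one]))⟩

theorem sofic_pi (I : Type) (G : I → Type) [∀ i, Group (G i)] (h : ∀ i, IsSofic (G i)) :
    IsSofic (∀ i, G i) := by
  apply sofic_of_maps
  intro g hg
  obtain ⟨i, hi⟩ := Function.ne_iff.1 hg
  exact ⟨G i, inferInstance, Pi.evalMonoidHom G i, h i, hi⟩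

theorem sofic_free (X : Type) : IsSofic (FreeGroup X) := by
  apply sofic_of_maps
  intro g hg
  obtain ⟨Q, iQ, fQ, f, _, hf⟩ := Pool.Agent.Helper867.PF.free_res g hg
  exact ⟨Q, iQ, f, Pool.Agent.R378.Halo.isSofic_of_finite Q, hf⟩

/-! ### semidirect products with the integers -/

/-- the indicator function of an interval -/
noncomputable def ivl (M : ℕ) : Multiplicative ℤ →₀ ℝ :=
  Finsupp.onFinset (Finset.image Multiplicative.ofAdd (Finset.Ico (0 : ℤ) M))
    (fun y => if 0 ≤ Multiplicative.toAdd y ∧ Multiplicative.toAdd y < M then 1 else 0) (by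
      intro y hy
      rw [Finset.mem_image]
      refine ⟨Multiplicative.toAdd y, ?_, rfl⟩
      rw [Finset.mem_Ico]
      by_contra hcon
      exact hy (if_neg hcon))

theorem ivl_apply (M : ℕ) (y : Multiplicative ℤ) : ivl M y =
    if 0 ≤ Multiplicative.toAdd y ∧ Multiplicative.toAdd y < M then 1 else 0 := rfl

theorem ivl_mass (M : ℕ) (P : Multiplicative ℤ → Prop) (hP : ∀ y, P y) :
    mass (ivl M) P = M := by
  classical
  rw [mass_eq_sum (ivl M) P (Finset.image Multiplicative.ofAdd (Finset.Ico (0 : ℤ) M))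
    Finsupp.support_onFinset_subset]
  rw [Finset.filter_true_of_mem (fun y _ => hP y), Finset.sum_image (fun _ _ _ _ h =>
    Multiplicative.ofAdd.injective h)]
  have h1 : ∀ y ∈ Finset.Ico (0 : ℤ) M, ivl M (Multiplicative.ofAdd y) ^ 2 = 1 := by
    intro y hy
    rw [Finset.mem_Ico] at hy
    rw [ivl_apply, toAdd_ofAdd, if_pos hy, one_pow]
  rw [Finset.sum_congr rfl h1]
  simp

theorem ivl_energy (M : ℕ) (σ : Equiv.Perm (Multiplicative ℤ)) (t : ℤ)
    (hσ : ∀ y, Multiplicative.toAdd (σ y) = t + Multiplicative.toAdd y) :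
    energy (ivl M) σ ≤ 4 * |t| := by
  classical
  let D : Finset (Multiplicative ℤ) := Finset.image Multiplicative.ofAdd
    (Finset.Ico (-|t|) (|t|) ∪ Finset.Ico ((M : ℤ) - |t|) (M + |t|))
  have hD : ∀ y, y ∉ D → (ivl M (σ y) - ivl M y) ^ 2 = 0 := by
    intro y hy
    have h0 : ¬ (Multiplicative.toAdd y ∈ Finset.Ico (-|t|) (|t|) ∪
        Finset.Ico ((M : ℤ) - |t|) (M + |t|)) := by
      intro h
      exact hy (Finset.mem_image.2 ⟨_, h, rfl⟩)
    rw [Finset.mem_union, Finset.mem_Ico, Finset.mem_Ico] at h0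
    have h1 : ivl M (σ y) = ivl M y := by
      rw [ivl_apply, ivl_apply, hσ]
      have h2 := le_abs_self t
      have h3 := neg_abs_le t
      congr 1
      apply propext
      constructor
      · rintro ⟨h4, h5⟩
        constructor
        · by_contra h6
          apply h0
          left
          constructor <;> omega
        · by_contra h6
          apply h0
          right
          constructor <;> omega
      · rintro ⟨h4, h5⟩
        constructor
        · by_contra h6
          apply h0
          left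
          constructor <;> omega
        · by_contra h6
          apply h0
          right
          constructor <;> omega
    rw [h1, sub_self]
    norm_num
  have h1 : energy (ivl M) σ = ∑ y ∈ D, (ivl M (σ y) - ivl M y) ^ 2 := by
    rw [energy, tsum_eq_sum (s := D)]
    intro y hy
    exact hD y hy
  rw [h1]
  have h2 : ∀ y ∈ D, (ivl M (σ y) - ivl M y) ^ 2 ≤ 1 := by
    intro y _
    rw [ivl_apply, ivl_apply]
    split_ifs <;> norm_num
  have h3 := Finset.sum_le_sum h2
  refine h3.trans ?_
  rw [Finset.sum_const, nsmul_eq_mul, mul_one]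
  have h4 : D.card ≤ (Finset.Ico (-|t|) (|t|)).card + (Finset.Ico ((M : ℤ) - |t|) (M + |t|)).card :=
    (Finset.card_image_le).trans (Finset.card_union_le _ _)
  rw [Int.card_Ico, Int.card_Ico] at h4
  have h5 : (D.card : ℤ) ≤ 4 * |t| := by
    have := abs_nonneg t
    omega
  exact_mod_cast h5

theorem sofic_semi (G : Type) [Group G] (s : MulAut G) (hG : IsSofic G) :
    IsSofic (G ⋊[zpowersHom (MulAut G) s] Multiplicative ℤ) := by
  classical
  let Γ := G ⋊[zpowersHom (MulAut G) s] Multiplicative ℤ
  let φ : Multiplicative ℤ →* MulAut G := zpowersHom (MulAut G) s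
  letI : MulAction Γ (Multiplicative ℤ) :=
    MulAction.compHom (Multiplicative ℤ) (SemidirectProduct.rightHom (N := G) (φ := φ))
  have hact : ∀ (a : Γ) (y : Multiplicative ℤ), a • y = a.right * y := fun a y => rfl
  refine isSofic_of_labelled (G := Γ) (Y := Multiplicative ℤ) hG
    (fun a y => (φ (a.right * y))⁻¹ a.left) ?_ ?_
  · intro a b y
    change (φ (a.right * b.right * y))⁻¹ (a.left * φ a.right b.left) =
      (φ (a.right * (b.right * y)))⁻¹ a.left * (φ (b.right * y))⁻¹ b.left
    rw [map_mul]
    congr 1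
    · rw [mul_assoc]
    · change ((φ (a.right * b.right * y))⁻¹ * (φ a.right)) b.left = _
      rw [mul_assoc, map_mul φ a.right, mul_inv_rev, mul_assoc, inv_mul_cancel, mul_one]
  · intro A g hg ε hε
    have hall : ∀ y : Multiplicative ℤ, g • y ≠ y ∨ (φ (g.right * y))⁻¹ g.left ≠ 1 := by
      intro y
      by_cases h : g.right = 1
      · right
        intro h2
        apply hg
        have h3 : g.left = 1 := by
          have h4 := congrArg (φ (g.right * y)) h2
          rw [map_one, MulAut.apply_inv_self] at h4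
          exact h4
        exact SemidirectProduct.ext h3 h
      · left
        rw [hact]
        intro h2
        exact h (mul_eq_right.1 h2)
    obtain ⟨B, hB⟩ : ∃ B : ℕ, ∀ a ∈ A, |Multiplicative.toAdd a.right| ≤ B := by
      refine ⟨A.sup fun a => (Multiplicative.toAdd a.right).natAbs, fun a ha => ?_⟩
      have := Finset.le_sup (f := fun a : Γ => (Multiplicative.toAdd a.right).natAbs) ha
      rw [Int.abs_eq_natAbs]
      exact_mod_cast this
    obtain ⟨M, hM⟩ := exists_nat_gt (4 * (B : ℝ) / ε)
    have hM0 : (0 : ℝ) < M := lt_of_le_of_lt (by positivity) hM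
    refine ⟨ivl M, ?_, ?_⟩
    · rw [ivl_mass M _ hall]
      exact hM0
    · intro a ha
      rw [ivl_mass M _ hall]
      refine (ivl_energy M _ (Multiplicative.toAdd a.right) fun y => rfl).trans ?_
      have h1 : ((|Multiplicative.toAdd a.right| : ℤ) : ℝ) ≤ B := by
        have := hB a ha
        exact_mod_cast this
      rw [div_lt_iff₀ hε] at hM
      linarith

/-! ### free products with free groups -/

/-- the free group on `m` letters for every vertex -/
def fH (m : ℕ) : GraphHalo.{0} where
  obj := fun {V} _ => FreeGroup (V × Fin m)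
  grp := fun {V} _ => inferInstance
  map := fun {V W} _ _ e => FreeGroup.map (fun p : V × Fin m => ((e p.1, p.2) : W × Fin m))
  map_id := by
    intro V Γ a
    change FreeGroup.map (fun p : V × Fin m => (p.1, p.2)) a = a
    exact FreeGroup.map.id a
  map_comp := by
    intro V W X Γ Δ Θ e f a
    exact (FreeGroup.map.comp (fun p : V × Fin m => ((e p.1, p.2) : W × Fin m))
      (fun p : W × Fin m => ((f p.1, p.2) : X × Fin m)) a).symm
  map_injective := by
    intro V W Γ Δ e
    apply FreeGroup.map_injective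
    rintro ⟨x, i⟩ ⟨y, j⟩ h
    rw [Prod.mk.injEq] at h
    exact Prod.ext (e.injective h.1) h.2
  finite_support := by
    intro V Γ a
    classical
    induction a using FreeGroup.induction_on with
    | C1 => exact ⟨∅, 1, map_one _⟩
    | of x => 
      refine ⟨{x.1}, FreeGroup.of (⟨x.1, by simp⟩, x.2), ?_⟩
      exact FreeGroup.map.of
    | inv_of x _ =>
      refine ⟨{x.1}, (FreeGroup.of (⟨x.1, by simp⟩, x.2))⁻¹, ?_⟩
      rw [map_inv]
      congr 1
    | mul x y hx hy =>
      obtain ⟨F1, b1, h1⟩ := hx
      obtain ⟨F2, b2, h2⟩ := hy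
      have e1 : ∀ v : ((F1 : Set V) : Type), (v : V) ∈ ((F1 ∪ F2 : Finset V) : Set V) := fun v => by
        rw [Finset.mem_coe, Finset.mem_union]
        exact Or.inl v.2
      have e2 : ∀ v : ((F2 : Set V) : Type), (v : V) ∈ ((F1 ∪ F2 : Finset V) : Set V) := fun v => by
        rw [Finset.mem_coe, Finset.mem_union]
        exact Or.inr v.2
      refine ⟨F1 ∪ F2, FreeGroup.map (fun p => (⟨p.1, e1 p.1⟩, p.2)) b1 *
        FreeGroup.map (fun p => (⟨p.1, e2 p.1⟩, p.2)) b2, ?_⟩
      rw [map_mul, ← h1, ← h2]
      congr 1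
      · exact FreeGroup.map.comp _ _ b1
      · exact FreeGroup.map.comp _ _ b2

theorem sofic_coprod (G : Type) [Group G] (m : ℕ) (hG : IsSofic G) :
    IsSofic (Monoid.Coprod G (FreeGroup (Fin m))) := by
  have h1 : IsSofic (HaloProduct (fH m) (∅ : Set G)) :=
    Pool.Agent.R378.Halo.sofic_halo (fH m) ∅ (fun n Δ => sofic_free _) hG
  let j : FreeGroup (Fin m) →* (fH m).obj (cayley (∅ : Set G)) :=
    (FreeGroup.map (fun l : Fin m => ((1 : G), l)) : FreeGroup (Fin m) →* FreeGroup (G × Fin m))
  let up : Monoid.Coprod G (FreeGroup (Fin m)) →* HaloProduct (fH m) (∅ : Set G) :=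
    Monoid.Coprod.lift SemidirectProduct.inr (SemidirectProduct.inl.comp j)
  let fn : FreeGroup (G × Fin m) →* Monoid.Coprod G (FreeGroup (Fin m)) :=
    FreeGroup.lift fun p => Monoid.Coprod.inl p.1 * Monoid.Coprod.inr (FreeGroup.of p.2) *
      (Monoid.Coprod.inl p.1)⁻¹
  have hfn : ∀ p, fn (FreeGroup.of p) = Monoid.Coprod.inl p.1 *
      Monoid.Coprod.inr (FreeGroup.of p.2) * (Monoid.Coprod.inl p.1)⁻¹ := fun p =>
    FreeGroup.lift_apply_of
  let fn' : (fH m).obj (cayley (∅ : Set G)) →* Monoid.Coprod G (FreeGroup (Fin m)) := fn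
  let dn : HaloProduct (fH m) (∅ : Set G) →* Monoid.Coprod G (FreeGroup (Fin m)) :=
    SemidirectProduct.lift fn' Monoid.Coprod.inl (by
      intro g
      have key : fn.comp (FreeGroup.map (fun p : G × Fin m => (g * p.1, p.2))) =
          (MulAut.conj (Monoid.Coprod.inl g : Monoid.Coprod G (FreeGroup (Fin m)))).toMonoidHom.comp
            fn := by
        ext p
        change fn (FreeGroup.map (fun p : G × Fin m => (g * p.1, p.2)) (FreeGroup.of p)) =
          Monoid.Coprod.inl g * fn (FreeGroup.of p) * (Monoid.Coprod.inl g)⁻¹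
        rw [FreeGroup.map.of, hfn, hfn]
        simp only [map_mul, mul_inv_rev, mul_assoc]
      exact key)
  have hup1 : ∀ x : G, up (Monoid.Coprod.inl x) = SemidirectProduct.inr x := fun x =>
    Monoid.Coprod.lift_apply_inl _ _ x
  have hup2 : ∀ x : FreeGroup (Fin m), up (Monoid.Coprod.inr x) = SemidirectProduct.inl (j x) :=
    fun x => Monoid.Coprod.lift_apply_inr _ _ x
  have h2 : dn.comp up = MonoidHom.id _ := by
    apply Monoid.Coprod.hom_ext
    · ext x
      change dn (up (Monoid.Coprod.inl x)) = Monoid.Coprod.inl x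
      rw [hup1]
      exact SemidirectProduct.lift_inr _ _ _ x
    · ext l
      change dn (up (Monoid.Coprod.inr (FreeGroup.of l))) = Monoid.Coprod.inr (FreeGroup.of l)
      rw [hup2]
      refine (SemidirectProduct.lift_inl _ _ _ _).trans ?_
      change fn (FreeGroup.map (fun l : Fin m => ((1 : G), l)) (FreeGroup.of l)) = _
      rw [FreeGroup.map.of, hfn, map_one, one_mul, inv_one, mul_one]
  exact sofic_inj up (fun x y h => by
    have h3 := congrArg dn h
    have h4 : ∀ z, dn (up z) = z := fun z => DFunLike.congr_fun h2 z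
    rwa [h4, h4] at h3) h1

end Pool.Agent.U700.NI
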