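import Pool.Agent.U700.NI6
import Pool.Agent.U700.NI7
import Pool.Agent.Results.MP_95030e_al.AllOrNothing

/-!
The zero-one law for nullities of permutation matrices.
-/

set_option autoImplicit false
set_option linter.unusedSectionVars false

namespace Pool.Agent.U700.NI

open Pool.Agent
open Pool.Agent.TH107.AT
open Pool.Agent.H80R2.BC (L2 GMat vdim kerA Coef)
open Pool.Agent.W656.VA
open Pool.Agent.H21R2 (IsSofic)
open Pool.Agent.Results.MP_95030e_al.AllOrNothing (TorsionFree ClosedClass closedClass_torsionFree)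

/-- torsion-free sofic groups form a closed class -/
theorem closed_sofic : ClosedClass (fun (G : Type) [Group G] => TorsionFree G ∧ IsSofic G) := by
  refine ⟨fun G _ h => h.1, ?_, ?_, ?_, ?_⟩
  · intro G H _ _ f hf hH
    exact ⟨closedClass_torsionFree.subgroup G H f hf hH.1, sofic_inj f hf hH.2⟩
  · intro I G _ h
    exact ⟨closedClass_torsionFree.product I G fun i => (h i).1, sofic_pi I G fun i => (h i).2⟩
  · intro G _ s hG
    exact ⟨closedClass_torsionFree.semidirect G s hG.1, sofic_semi G s hG.2⟩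
  · intro G _ m hG
    exact ⟨closedClass_torsionFree.freeProduct G m hG.1, sofic_coprod G m hG.2⟩

/-- the matrix over the group algebra -/
def toM {G : Type} [Group G] {m n : ℕ} (A : GMat (Fin n) (Fin m) G) :
    Matrix (Fin n) (Fin m) (MonoidAlgebra ℂ G) := Matrix.of fun k i => ⟨A k i⟩

theorem toM_coeff {G : Type} [Group G] {m n : ℕ} (A : GMat (Fin n) (Fin m) G) (k : Fin n)
    (i : Fin m) : (toM A k i).coeff = A k i := rfl

theorem val_itg {G : Type} [Group G] {v : ℝ} (h : Val (⊥ : Subring ℂ) G v) :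
    ∃ (m n : ℕ) (Y : Matrix (Fin n) (Fin m) (MonoidAlgebra ℂ G)), Itg Y ∧
      vdim (kr (mop Y)) = v := by
  obtain ⟨m, n, A, hA, hv⟩ := h
  refine ⟨m, n, toM A, ?_, ?_⟩
  · intro k i g
    obtain ⟨z, hz⟩ := Subring.mem_bot.1 (hA k i g)
    exact ⟨z, hz.symm⟩
  · rw [kr_mop]
    exact hv

theorem itg_val {G : Type} [Group G] {m n : ℕ} (Y : Matrix (Fin m) (Fin n) (MonoidAlgebra ℂ G))
    (hY : Itg Y) : Val (⊥ : Subring ℂ) G (vdim (kr (mop Y))) := by
  rw [kr_mop]
  refine ⟨n, m, fun k i => (Y k i).coeff, ?_, rfl⟩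
  intro k i g
  obtain ⟨z, hz⟩ := hY k i g
  rw [hz]
  exact Subring.mem_bot.2 ⟨z, rfl⟩

end Pool.Agent.U700.NI
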