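import Pool.Agent.U700.IA1
import Pool.Agent.U700.NI8

/-!
The set of the kernel dimensions of one pattern of integers over torsion-free sofic groups is
closed; if one value is not an integer, one pattern takes all values in the unit interval.
-/

set_option autoImplicit false
set_option linter.unusedSectionVars false

open scoped Pointwise
open Filter Topology Matrix

namespace Pool.Agent.U700.NI

open Pool.Agent
open Pool.Agent.TH107.AT
open Pool.Agent.H80R2
open Pool.Agent.H80R2.BC (L2 GMat vdim IsTr LInv Equi act kerA pt vals Coef Generic)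
open Pool.Agent.H812R3
open Pool.Agent.W656.VA
open Pool.Agent.H21R2 (IsSofic hamm)
open Pool.Agent.Results.MP_95030e_al.AllOrNothing (TorsionFree ClosedClass)

variable {κ ι Λ : Type}

/-- the matrix of a pattern -/
noncomputable def PM [Fintype Λ] (c : κ → ι → Λ → ℤ) {G : Type} (g : Λ → G) : GMat κ ι G :=
  fun i j => ∑ l, Finsupp.single (g l) (c i j l : ℂ)

/-- the kernel dimensions of the matrices of a pattern over the groups of a class -/
def dimsC (C : (G : Type) → [Group G] → Prop) [Fintype Λ] [Fintype ι] (c : κ → ι → Λ → ℤ) :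
    Set ℝ :=
  {v | ∃ (G : Type) (_ : Group G), C G ∧ ∃ g : Λ → G, vdim (kerA (PM c g)) = v}

theorem coeff_im_Yc {G : Type} [Group G] {m n k : ℕ} (c : Fin m → Fin n → Fin k → ℤ)
    (g : Fin k → G) : (fun i j => (im (FreeGroup.lift g) (Yc c) i j).coeff) = PM c g := by
  funext i j
  change (hm (FreeGroup.lift g) (Yc c i j)).coeff = _
  rw [Yc_apply, map_sum, MonoidAlgebra.coeff_sum]
  unfold PM
  refine Finset.sum_congr rfl fun l _ => ?_
  rw [hm_single, MonoidAlgebra.coeff_single, FreeGroup.lift_apply_of]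

theorem kr_im_Yc {G : Type} [Group G] {m n k : ℕ} (c : Fin m → Fin n → Fin k → ℤ)
    (g : Fin k → G) : vdim (kr (mop (im (FreeGroup.lift g) (Yc c)))) = vdim (kerA (PM c g)) := by
  rw [kr_mop, coeff_im_Yc]

theorem mem_dimsT_iff {m n k : ℕ} (c : Fin m → Fin n → Fin k → ℤ) (r : ℝ) :
    r ∈ dimsC (fun (G : Type) [Group G] => TorsionFree G ∧ IsSofic G) c ↔ ∀ ε : ℝ, 0 < ε → ∀ N : ℕ,
      ∃ (X : Type) (_ : Fintype X) (_ : DecidableEq X) (_ : Nonempty X)
        (σ : Fin k → Equiv.Perm X), Appr N σ ∧ |nu (FreeGroup.lift σ) (Yc c) - r| < ε := by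
  constructor
  · rintro ⟨G, _, ⟨h1, h2⟩, g, rfl⟩ ε hε N
    rw [← kr_im_Yc]
    exact approx G h1 h2 c g ε hε N
  · intro h
    choose X i1 i2 i3 σ hσ hr using fun N : ℕ => h (1 / ((N : ℝ) + 1)) (by positivity) N
    have hlim : Tendsto (fun N => nu (FreeGroup.lift (σ N)) (Yc c)) atTop (𝓝 r) := by
      rw [tendsto_iff_norm_sub_tendsto_zero]
      refine squeeze_zero (fun N => norm_nonneg _) (fun N => ?_)
        (tendsto_one_div_add_atTop_nhds_zero_nat (𝕜 := ℝ))
      rw [Real.norm_eq_abs]
      exact (hr N).le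
    obtain ⟨G, iG, h1, h2, g, hg⟩ := exists_limit m n k c X σ hσ r hlim
    exact ⟨G, iG, ⟨h1, h2⟩, g, by rw [← kr_im_Yc]; exact hg⟩

/-- finite index types can be replaced by initial segments of the natural numbers -/
theorem to_fin [Fintype κ] [Fintype ι] [Fintype Λ] (c : κ → ι → Λ → ℤ) :
    ∃ c' : Fin (Fintype.card κ) → Fin (Fintype.card ι) → Fin (Fintype.card Λ) → ℤ,
      ∀ (G : Type) [Group G] (g : Λ → G), ∃ g' : Fin (Fintype.card Λ) → G,
        vdim (kerA (PM c' g')) = vdim (kerA (PM c g)) := by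
  refine ⟨fun a b l => c ((Fintype.equivFin κ).symm a) ((Fintype.equivFin ι).symm b)
    ((Fintype.equivFin Λ).symm l), fun G _ g => ⟨fun l => g ((Fintype.equivFin Λ).symm l), ?_⟩⟩
  rw [← vdim_ri (Fintype.equivFin κ).symm (Fintype.equivFin ι).symm (PM c g)]
  congr 2
  funext a b
  unfold PM ri
  exact Equiv.sum_comp (Fintype.equivFin Λ).symm (fun l => Finsupp.single (g l)
    (c ((Fintype.equivFin κ).symm a) ((Fintype.equivFin ι).symm b) l : ℂ))

/-- multiples -/
theorem multiple {m n k : ℕ} (c : Fin m → Fin n → Fin k → ℤ) (M : ℕ) :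
    ∃ (m' n' : ℕ) (c' : Fin m' → Fin n' → Fin k → ℤ), ∀ (G : Type) [Group G] (g : Fin k → G),
      vdim (kerA (PM c' g)) = M * vdim (kerA (PM c g)) := by
  induction M with
  | zero =>
    refine ⟨0, 0, fun _ _ _ => 0, fun G _ g => ?_⟩
    unfold vdim
    simp
  | succ M ih =>
    obtain ⟨m', n', c', h⟩ := ih
    refine ⟨m' + m, n' + n, fun a b => Sum.elim (fun a => Sum.elim (c' a) (fun _ _ => 0))
      (fun a => Sum.elim (fun _ _ => 0) (c a)) (finSumFinEquiv.symm a) (finSumFinEquiv.symm b),
      fun G _ g => ?_⟩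
    have e : PM (fun a b => Sum.elim (fun a => Sum.elim (c' a) (fun _ _ => 0))
        (fun a => Sum.elim (fun _ _ => 0) (c a)) (finSumFinEquiv.symm a) (finSumFinEquiv.symm b))
          g = ri (finSumFinEquiv (m := m') (n := m)).symm
            (finSumFinEquiv (m := n') (n := n)).symm (bd (PM c' g) (PM c g)) := by
      funext a b
      simp only [PM, ri, bd]
      generalize finSumFinEquiv.symm a = a'
      generalize finSumFinEquiv.symm b = b'
      rcases a' with a | a <;> rcases b' with b | b <;> simp [PM]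
    rw [e, vdim_ri, vdim_bd, h]
    push_cast
    ring

/-- the pattern of the cut system -/
def cutc {m n k : ℕ} (c : Fin m → Fin n → Fin k → ℤ) (j : ℕ) :
    (Fin m ⊕ (Fin j × Unit)) → (Fin n × Unit) → (Fin k ⊕ (Fin n × Fin j)) → ℤ :=
  fun a p => Sum.elim (fun a => Sum.elim (fun l => c a p.1 l) (fun _ => 0))
    (fun q => Sum.elim (fun _ => 0) (fun x => if x.1 = p.1 ∧ x.2 = q.1 then 1 else 0)) a

/-- **cutting by integers**, for patterns -/
theorem cut_pattern {m n k : ℕ} (c : Fin m → Fin n → Fin k → ℤ) (j : ℕ) {G : Type} [Group G]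
    (g : Fin k → G) (hj : (j : ℝ) < vdim (kerA (PM c g))) :
    ∃ g' : Fin k ⊕ (Fin n × Fin j) → Monoid.Coprod G (FreeGroup (Fin (n * j))),
      vdim (kerA (PM (cutc c j) g')) = vdim (kerA (PM c g)) - j := by
  classical
  set A' : GMat (Fin m) (Fin n × Unit) G := ri (Equiv.refl _) (Equiv.prodPUnit (Fin n)) (PM c g)
    with hA'
  have hAv : vdim (kerA A') = vdim (kerA (PM c g)) := vdim_ri _ _ _
  set e : Fin n × Fin j ≃ Fin (n * j) := finProdFinEquiv with he
  have hgen := BC.generic_coprod G (n * j) e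
  set inc : G →* Monoid.Coprod G (FreeGroup (Fin (n * j))) := Monoid.Coprod.inl with hinc
  set u : Fin n → Fin j → Monoid.Coprod G (FreeGroup (Fin (n * j))) := fun p q =>
    (Monoid.Coprod.inr : FreeGroup (Fin (n * j)) →* Monoid.Coprod G (FreeGroup (Fin (n * j))))
        (FreeGroup.of (e (p, q))) with hu
  have hinj : Function.Injective inc := Monoid.Coprod.inl_injective
  refine ⟨Sum.elim (fun l => inc (g l)) (fun x => u x.1 x.2), ?_⟩
  have hPM : PM (cutc c j) (Sum.elim (fun l => inc (g l)) (fun x => u x.1 x.2)) =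
      BC.Cut inc u A' := by
    funext a p
    rcases a with a | a
    · change ∑ x : Fin k ⊕ (Fin n × Fin j), Finsupp.single (Sum.elim (fun l => inc (g l))
          (fun x => u x.1 x.2) x) ((cutc c j (Sum.inl a) p x : ℤ) : ℂ) = (A' a p).mapDomain inc
      rw [Fintype.sum_sum_type]
      have h0 : ∑ x : Fin n × Fin j, Finsupp.single (Sum.elim (fun l => inc (g l))
          (fun x => u x.1 x.2) (Sum.inr x)) ((cutc c j (Sum.inl a) p (Sum.inr x) : ℤ) : ℂ) = 0 := by
        apply Finset.sum_eq_zero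
        intro x _
        change Finsupp.single _ (((0 : ℤ)) : ℂ) = 0
        rw [Int.cast_zero, Finsupp.single_zero]
      rw [h0, add_zero]
      change _ = (∑ l, Finsupp.single (g l) (c a p.1 l : ℂ)).mapDomain inc
      rw [Finsupp.mapDomain_finsetSum]
      refine Finset.sum_congr rfl fun l _ => ?_
      rw [Finsupp.mapDomain_single]
      rfl
    · change ∑ x : Fin k ⊕ (Fin n × Fin j), Finsupp.single (Sum.elim (fun l => inc (g l))
          (fun x => u x.1 x.2) x) ((cutc c j (Sum.inr a) p x : ℤ) : ℂ) = BC.Th u a p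
      unfold BC.Th
      rw [if_pos (Subsingleton.elim _ _), Fintype.sum_sum_type]
      have h0 : ∑ x : Fin k, Finsupp.single (Sum.elim (fun l => inc (g l))
          (fun x : Fin n × Fin j => u x.1 x.2) (Sum.inl x))
            ((cutc c j (Sum.inr a) p (Sum.inl x) : ℤ) : ℂ) = 0 := by
        apply Finset.sum_eq_zero
        intro x _
        change Finsupp.single _ (((0 : ℤ)) : ℂ) = 0
        rw [Int.cast_zero, Finsupp.single_zero]
      rw [h0, zero_add, Finset.sum_eq_single (p.1, a.1)]
      · change Finsupp.single (u p.1 a.1) (((if p.1 = p.1 ∧ a.1 = a.1 then 1 else 0 : ℤ)) : ℂ) = _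
        rw [if_pos ⟨rfl, rfl⟩, Int.cast_one]
      · intro x _ hx
        change Finsupp.single (u x.1 x.2) (((if x.1 = p.1 ∧ x.2 = a.1 then 1 else 0 : ℤ)) : ℂ) = 0
        rw [if_neg (fun h => hx (Prod.ext h.1 h.2)), Int.cast_zero, Finsupp.single_zero]
      · intro h
        exact absurd (Finset.mem_univ _) h
  rw [hPM]
  have h1 := cut_eq inc hinj u hgen A'
  have h2 := cut_ge inc hinj u A' ⊤
  set Z := kerA (BC.Cut inc u A') with hZdef
  set Φ := vals Z with hΦ
  have ftop : fd A' ⊤ = vdim (kerA (PM c g)) := by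
    unfold fd
    rw [← hAv]
    congr 1
    exact inf_eq_left.2 (fun x _ p g => trivial)
  have h3 : vdim (Z ⊓ pt ⊤) ≤ vdim Z := vdim_mono inf_le_left
  rw [ftop, finrank_top, Module.finrank_fintype_fun_eq_card] at h2
  simp only [Fintype.card_fin, Fintype.card_unit, Nat.cast_one, mul_one] at h2 h1
  have h4 : Module.finrank ℂ Φ ≤ 1 := by
    have := Submodule.finrank_le Φ
    rwa [Module.finrank_fintype_fun_eq_card, Fintype.card_unit] at this
  have h5 : fd A' Φ ≤ vdim (kerA (PM c g)) := by
    rw [← hAv]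
    exact vdim_mono inf_le_left
  rcases Nat.le_one_iff_eq_zero_or_eq_one.1 h4 with h6 | h6
  · exfalso
    have h7 : Φ = ⊥ := Submodule.finrank_eq_zero.1 h6
    have h8 : fd A' Φ = 0 := by
      unfold fd
      rw [h7]
      have : kerA A' ⊓ pt ⊥ = ⊥ := by
        rw [eq_bot_iff]
        rintro x ⟨_, hx⟩
        rw [Submodule.mem_bot]
        ext ⟨⟨p, i⟩, g⟩
        exact congrFun ((Submodule.mem_bot ℂ).1 (hx p g)) i
      rw [this, vdim_bot]
    rw [h8, h6] at h1
    simp only [Nat.cast_zero, mul_zero, sub_zero] at h1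
    linarith
  · rw [h6] at h1
    simp only [Nat.cast_one, mul_one] at h1
    linarith

/-- an integral matrix is the matrix of a pattern -/
theorem exists_pattern {G : Type} [Group G] {m n : ℕ}
    (Y0 : Matrix (Fin n) (Fin m) (MonoidAlgebra ℂ G)) (hY0 : Itg Y0) :
    ∃ (k : ℕ) (c : Fin n → Fin m → Fin k → ℤ) (g : Fin k → G),
      vdim (kerA (PM c g)) = vdim (kr (mop Y0)) := by
  classical
  choose z hz using hY0
  let S : Finset G := Finset.univ.biUnion fun i => Finset.univ.biUnion fun j =>
    (Y0 i j).coeff.support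
  let e : Fin S.card ≃ S := S.equivFin.symm
  let g : Fin S.card → G := fun l => (e l : G)
  let c : Fin n → Fin m → Fin S.card → ℤ := fun i j l => z i j (g l)
  refine ⟨S.card, c, g, ?_⟩
  rw [kr_mop]
  congr 2
  funext i j
  ext x
  unfold PM
  rw [Finsupp.finsetSum_apply]
  have h1 : ∀ l, (Finsupp.single (g l) (c i j l : ℂ)) x =
      if g l = x then (Y0 i j).coeff x else 0 := by
    intro l
    rw [Finsupp.single_apply]
    by_cases h : g l = x
    · rw [if_pos h, if_pos h, hz i j x]
      simp only [c]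
      rw [h]
    · rw [if_neg h, if_neg h]
  simp only [h1]
  by_cases hx : x ∈ S
  · rw [Finset.sum_eq_single (e.symm ⟨x, hx⟩)]
    · rw [if_pos]
      simp [g]
    · intro l _ hl
      rw [if_neg]
      intro h
      apply hl
      rw [Equiv.eq_symm_apply]
      exact Subtype.ext h
    · intro h; exact absurd (Finset.mem_univ _) h
  · have h2 : (Y0 i j).coeff x = 0 := by
      by_contra h3
      apply hx
      simp only [S, Finset.mem_biUnion]
      exact ⟨i, Finset.mem_univ _, j, Finset.mem_univ _, Finsupp.mem_support_iff.2 h3⟩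
    rw [h2]
    simp

end Pool.Agent.U700.NI
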