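import Pool.Agent.U700.IA2

/-!
Classes of torsion-free sofic groups closed under ultraproducts: kernel dimensions of the matrices
of one pattern form a closed set; one pattern takes all values in the unit interval, unless all
values are integers.
-/

set_option autoImplicit false
set_option linter.unusedSectionVars false

open scoped Pointwise
open Filter Topology Matrix

namespace Pool.Agent.U700.NI

open Pool.Agent
open Pool.Agent.TH107.AT
open Pool.Agent.H80R2
open Pool.Agent.H80R2.BC (L2 GMat vdim IsTr LInv Equi act kerA pt vals Coef Generic)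
open Pool.Agent.H812R3
open Pool.Agent.W656.VA
open Pool.Agent.H21R2 (IsSofic hamm)
open Pool.Agent.Results.MP_95030e_al.AllOrNothing (TorsionFree ClosedClass)

/-- permutation models of a sofic group -/
theorem approx_words (G : Type) [Group G] (hG : IsSofic G) {m n k : ℕ}
    (c : Fin m → Fin n → Fin k → ℤ) (g : Fin k → G) (ε : ℝ) (hε : 0 < ε) (N0 : ℕ) :
      ∃ (X : Type) (_ : Fintype X) (_ : DecidableEq X) (_ : Nonempty X)
        (σ : Fin k → Equiv.Perm X), (∀ w : FreeGroup (Fin k), w.norm ≤ N0 →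
          (FreeGroup.lift g w = 1 → (N0 + 1) * mv (FreeGroup.lift σ w) ≤ Fintype.card X) ∧
          (FreeGroup.lift g w ≠ 1 → (N0 + 1) * fx (FreeGroup.lift σ w) ≤ Fintype.card X)) ∧
          |nu (FreeGroup.lift σ) (Yc c) - vdim (kerA (PM c g))| < ε := by
  classical
  rw [← kr_im_Yc]
  choose d hd σ hσ using fun N => words hG g N
  have hne : ∀ N, Nonempty (Fin (d N)) := fun N => ⟨⟨0, hd N⟩⟩
  have hlim := lim (atTop : Filter ℕ) (fun N => Fin (d N)) (fun N => FreeGroup.lift (σ N))
    (FreeGroup.lift g) (by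
      intro w
      by_cases h : FreeGroup.lift g w = 1
      · rw [if_pos h]
        rw [Metric.tendsto_nhds]
        intro ε hε
        obtain ⟨N0, hN0⟩ := exists_nat_gt (1 / ε)
        filter_upwards [eventually_ge_atTop (max N0 w.norm)] with N hN
        have h1 := (hσ N w ((le_max_right _ _).trans hN)).1 h
        have h2 := fx_add_mv (FreeGroup.lift (σ N) w)
        have hdN : (0 : ℝ) < Fintype.card (Fin (d N)) := by
          rw [Fintype.card_fin]; exact_mod_cast hd N
        have h3 : (fx (FreeGroup.lift (σ N) w) : ℝ) / Fintype.card (Fin (d N)) - 1 =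
            -((mv (FreeGroup.lift (σ N) w) : ℝ) / Fintype.card (Fin (d N))) := by
          have h4 : (fx (FreeGroup.lift (σ N) w) : ℝ) + mv (FreeGroup.lift (σ N) w) =
              Fintype.card (Fin (d N)) := by exact_mod_cast h2
          rw [← h4] at hdN ⊢
          field_simp
          ring
        rw [Real.dist_eq, h3, abs_neg, abs_of_nonneg (by positivity), div_lt_iff₀ hdN]
        have h5 : ((N : ℝ) + 1) * mv (FreeGroup.lift (σ N) w) ≤ Fintype.card (Fin (d N)) := by
          rw [Fintype.card_fin]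
          exact_mod_cast h1
        have h6 : (1 : ℝ) < ε * (N + 1) := by
          rw [div_lt_iff₀ hε] at hN0
          have : (N0 : ℝ) ≤ N := by exact_mod_cast (le_max_left _ _).trans hN
          nlinarith
        have h7 : (0 : ℝ) ≤ mv (FreeGroup.lift (σ N) w) := Nat.cast_nonneg _
        have h8 : (0 : ℝ) < (N : ℝ) + 1 := by positivity
        by_contra hcon
        push Not at hcon
        have h9 := mul_le_mul_of_nonneg_right hcon h8.le
        nlinarith
      · rw [if_neg h]
        rw [Metric.tendsto_nhds]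
        intro ε hε
        obtain ⟨N0, hN0⟩ := exists_nat_gt (1 / ε)
        filter_upwards [eventually_ge_atTop (max N0 w.norm)] with N hN
        have h1 := (hσ N w ((le_max_right _ _).trans hN)).2 h
        have hdN : (0 : ℝ) < Fintype.card (Fin (d N)) := by
          rw [Fintype.card_fin]; exact_mod_cast hd N
        rw [Real.dist_eq, sub_zero, abs_of_nonneg (by positivity), div_lt_iff₀ hdN]
        have h5 : ((N : ℝ) + 1) * fx (FreeGroup.lift (σ N) w) ≤ Fintype.card (Fin (d N)) := by
          rw [Fintype.card_fin]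
          exact_mod_cast h1
        have h6 : (1 : ℝ) < ε * (N + 1) := by
          rw [div_lt_iff₀ hε] at hN0
          have : (N0 : ℝ) ≤ N := by exact_mod_cast (le_max_left _ _).trans hN
          nlinarith
        have h8 : (0 : ℝ) < (N : ℝ) + 1 := by positivity
        by_contra hcon
        push Not at hcon
        have h9 := mul_le_mul_of_nonneg_right hcon h8.le
        nlinarith) (Yc c) (itg_Yc c)
  have h1 := hlim.eventually (Metric.ball_mem_nhds _ hε)
  obtain ⟨N, h2, h3⟩ := (h1.and (eventually_ge_atTop N0)).exists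
  refine ⟨Fin (d N), inferInstance, inferInstance, hne N, σ N, fun w hw => ⟨fun h => ?_,
    fun h => ?_⟩, ?_⟩
  · rw [Fintype.card_fin]
    exact le_trans (Nat.mul_le_mul_right _ (by omega)) ((hσ N w (by omega)).1 h)
  · rw [Fintype.card_fin]
    exact le_trans (Nat.mul_le_mul_right _ (by omega)) ((hσ N w (by omega)).2 h)
  · rw [← Real.dist_eq]
    exact h2

/-- the kernel dimension over an ultraproduct of sofic groups -/
theorem ultra_limit (U : Ultrafilter ℕ) (hU : (U : Filter ℕ) ≤ atTop) (G : ℕ → Type)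
    [∀ i, Group (G i)] (hG : ∀ i, IsSofic (G i)) {H : Type} [Group H] (f : (∀ i, G i) →* H)
    (hf : ∀ x, f x = 1 ↔ ∀ᶠ i in (U : Filter ℕ), x i = 1) {m n k : ℕ}
    (c : Fin m → Fin n → Fin k → ℤ) (g : ∀ i, Fin k → G i) (r : ℝ)
    (hr : Tendsto (fun i => vdim (kerA (PM c (g i)))) U (𝓝 r)) :
    vdim (kerA (PM c (fun l => f (fun i => g i l)))) = r := by
  classical
  choose X i1 i2 i3 σ hσ hν using fun N : ℕ =>
    approx_words (G N) (hG N) c (g N) (1 / ((N : ℝ) + 1)) (by positivity) N
  have hlift : ∀ w : FreeGroup (Fin k), FreeGroup.lift (fun l => f (fun i => g i l)) w =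
      f (fun i => FreeGroup.lift (g i) w) := by
    intro w
    let p : FreeGroup (Fin k) →* (∀ i, G i) := MonoidHom.pi fun i => FreeGroup.lift (g i)
    have e : FreeGroup.lift (fun l => f (fun i => g i l)) = f.comp p := by
      ext l
      rw [MonoidHom.comp_apply, FreeGroup.lift_apply_of]
      congr 1
      funext i
      change g i l = FreeGroup.lift (g i) (FreeGroup.of l)
      rw [FreeGroup.lift_apply_of]
    rw [e]
    rfl
  have hinv : Tendsto (fun N : ℕ => 1 / ((N : ℝ) + 1)) U (𝓝 0) :=
    (tendsto_one_div_add_atTop_nhds_zero_nat (𝕜 := ℝ)).mono_left hU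
  have hcd : ∀ N, (0 : ℝ) < Fintype.card (X N) := fun N => by exact_mod_cast Fintype.card_pos
  have hlim := lim (U : Filter ℕ) X (fun N => FreeGroup.lift (σ N))
    (FreeGroup.lift (fun l => f (fun i => g i l))) (by
      intro w
      by_cases h : FreeGroup.lift (fun l => f (fun i => g i l)) w = 1
      · rw [if_pos h]
        rw [hlift, hf] at h
        have h0 : Tendsto (fun N => (mv (FreeGroup.lift (σ N) w) : ℝ) / Fintype.card (X N)) U
            (𝓝 0) := by
          refine squeeze_zero' (Eventually.of_forall fun N => by positivity) ?_ hinv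
          filter_upwards [h, hU (eventually_ge_atTop w.norm)] with N h1 h2
          have h3 := (hσ N w h2).1 h1
          rw [div_le_div_iff₀ (hcd N) (by positivity), one_mul, mul_comm]
          exact_mod_cast h3
        have h1 : Tendsto (fun N => 1 - (mv (FreeGroup.lift (σ N) w) : ℝ) / Fintype.card (X N)) U
            (𝓝 (1 - 0)) := Tendsto.const_sub 1 h0
        rw [sub_zero] at h1
        refine h1.congr fun N => ?_
        have h2 : (fx (FreeGroup.lift (σ N) w) : ℝ) + mv (FreeGroup.lift (σ N) w) =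
            Fintype.card (X N) := by
          exact_mod_cast fx_add_mv (FreeGroup.lift (σ N) w)
        have h3 := (hcd N).ne'
        rw [eq_comm, eq_sub_iff_add_eq, ← add_div, h2, div_self h3]
      · rw [if_neg h]
        rw [hlift, hf, ← Ultrafilter.eventually_not] at h
        refine squeeze_zero' (Eventually.of_forall fun N => by positivity) ?_ hinv
        filter_upwards [h, hU (eventually_ge_atTop w.norm)] with N h1 h2
        have h3 := (hσ N w h2).2 h1
        rw [div_le_div_iff₀ (hcd N) (by positivity), one_mul, mul_comm]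
        exact_mod_cast h3) (Yc c) (itg_Yc c)
  rw [kr_im_Yc] at hlim
  have h1 : Tendsto (fun N => (nu (FreeGroup.lift (σ N)) (Yc c) - vdim (kerA (PM c (g N)))) +
      vdim (kerA (PM c (g N)))) U (𝓝 (0 + r)) := by
    refine Tendsto.add ?_ hr
    rw [tendsto_zero_iff_abs_tendsto_zero]
    exact squeeze_zero (fun N => abs_nonneg _) (fun N => (hν N).le) hinv
  rw [zero_add] at h1
  simp only [sub_add_cancel] at h1
  exact tendsto_nhds_unique hlim h1

/-- classes of torsion-free sofic groups closed under some operations -/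
structure Cl (C : (G : Type) → [Group G] → Prop) : Prop extends ClosedClass C where
  sofic : ∀ (G : Type) [Group G], C G → IsSofic G
  ultra : ∀ (U : Ultrafilter ℕ) (G : ℕ → Type) [∀ i, Group (G i)] (H : Type) [Group H]
    (f : (∀ i, G i) →* H), Function.Surjective f →
      (∀ x, f x = 1 ↔ ∀ᶠ i in (U : Filter ℕ), x i = 1) → (∀ i, C (G i)) → C H

theorem isClosed_dimsC {C : (G : Type) → [Group G] → Prop} (hC : Cl C) {m n k : ℕ}
    (c : Fin m → Fin n → Fin k → ℤ) : IsClosed (dimsC C c) := by
  classical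
  apply isClosed_of_closure_subset
  intro r hr
  obtain ⟨v, hv, hvr⟩ := mem_closure_iff_seq_limit.1 hr
  choose G iG hG g hg using hv
  let U : Ultrafilter ℕ := hyperfilter ℕ
  have hU : (U : Filter ℕ) ≤ atTop := Nat.hyperfilter_le_atTop
  let K : Subgroup (∀ i, G i) :=
    { carrier := {x | ∀ᶠ i in (U : Filter ℕ), x i = 1}
      mul_mem' := by
        intro x y hx hy
        filter_upwards [hx, hy] with i h1 h2
        rw [Pi.mul_apply, h1, h2, one_mul]
      one_mem' := Eventually.of_forall fun i => rfl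
      inv_mem' := by
        intro x hx
        filter_upwards [hx] with i h1
        rw [Pi.inv_apply, h1, inv_one] }
  have hKn : K.Normal := by
    constructor
    intro x hx y
    change ∀ᶠ i in (U : Filter ℕ), (y * x * y⁻¹) i = 1
    have hx' : ∀ᶠ i in (U : Filter ℕ), x i = 1 := hx
    filter_upwards [hx'] with i h1
    rw [Pi.mul_apply, Pi.mul_apply, h1, mul_one, Pi.inv_apply, mul_inv_cancel]
  have hf : ∀ x, QuotientGroup.mk' K x = 1 ↔ ∀ᶠ i in (U : Filter ℕ), x i = 1 := fun x =>
    QuotientGroup.eq_one_iff x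
  refine ⟨(∀ i, G i) ⧸ K, inferInstance, hC.ultra U G _ (QuotientGroup.mk' K)
    (QuotientGroup.mk'_surjective K) hf hG, fun l => QuotientGroup.mk' K (fun i => g i l), ?_⟩
  apply ultra_limit U hU G (fun i => hC.sofic _ (hG i)) (QuotientGroup.mk' K) hf c g r
  simp only [hg]
  exact hvr.mono_left hU

/-- one group for all values of a pattern -/
theorem one_group {C : (G : Type) → [Group G] → Prop} (hC : Cl C) {m n k : ℕ}
    (c : Fin m → Fin n → Fin k → ℤ) (S : Set ℝ) (h : S ⊆ dimsC C c) :
    ∃ (G : Type) (_ : Group G), C G ∧ ∀ r ∈ S, ∃ g : Fin k → G, vdim (kerA (PM c g)) = r := by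
  classical
  have h' : ∀ r : S, ∃ (G : Type) (_ : Group G), C G ∧ ∃ g : Fin k → G,
      vdim (kerA (PM c g)) = r := fun r => h r.2
  choose G iG hG g hg using h'
  refine ⟨∀ r, G r, inferInstance, hC.product S G hG, fun r hr => ?_⟩
  let j : G ⟨r, hr⟩ →* (∀ r, G r) := MonoidHom.mulSingle G (⟨r, hr⟩ : S)
  have hj : Function.Injective j := by
    intro a b hab
    have := congrFun hab ⟨r, hr⟩
    simpa [j] using this
  refine ⟨fun l => j (g ⟨r, hr⟩ l), ?_⟩
  have e : PM c (fun l => j (g ⟨r, hr⟩ l)) = BC.push j (PM c (g ⟨r, hr⟩)) := by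
    funext a b
    change _ = (∑ l, Finsupp.single (g ⟨r, hr⟩ l) (c a b l : ℂ)).mapDomain j
    rw [Finsupp.mapDomain_finsetSum]
    refine Finset.sum_congr rfl fun l _ => ?_
    rw [Finsupp.mapDomain_single]
  rw [e, vdim_push j hj, hg]

/-! ### ultraproducts of torsion-free sofic groups -/

theorem ultra_tf (U : Ultrafilter ℕ) (G : ℕ → Type) [∀ i, Group (G i)] {H : Type} [Group H]
    (f : (∀ i, G i) →* H) (hs : Function.Surjective f)
    (hf : ∀ x, f x = 1 ↔ ∀ᶠ i in (U : Filter ℕ), x i = 1) (hG : ∀ i, TorsionFree (G i)) :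
    TorsionFree H := by
  intro h j hj h1
  obtain ⟨x, rfl⟩ := hs h
  rw [← map_pow, hf] at h1
  rw [hf]
  filter_upwards [h1] with i h2
  exact hG i (x i) j hj h2

theorem ultra_sofic (U : Ultrafilter ℕ) (G : ℕ → Type) [∀ i, Group (G i)] {H : Type} [Group H]
    (f : (∀ i, G i) →* H) (hs : Function.Surjective f)
    (hf : ∀ x, f x = 1 ↔ ∀ᶠ i in (U : Filter ℕ), x i = 1) (hG : ∀ i, IsSofic (G i)) :
    IsSofic H := by
  classical
  intro A hA1 δ hδ
  choose s0 hs0 using hs
  let s : H → (∀ i, G i) := fun x => if x = 1 then 1 else s0 x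
  have hs1 : s 1 = 1 := if_pos rfl
  have hs2 : ∀ x, f (s x) = x := by
    intro x
    by_cases h : x = 1
    · rw [h, hs1, map_one]
    · simp only [s, if_neg h]
      exact hs0 x
  have e1 : ∀ᶠ i in (U : Filter ℕ), ∀ a ∈ A, ∀ b ∈ A, s (a * b) i = s a i * s b i := by
    rw [Filter.eventually_all_finset]
    intro a _
    rw [Filter.eventually_all_finset]
    intro b _
    have h1 : f ((s (a * b))⁻¹ * (s a * s b)) = 1 := by
      rw [map_mul, map_inv, map_mul, hs2, hs2, hs2, inv_mul_cancel]
    rw [hf] at h1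
    filter_upwards [h1] with i h2
    rw [Pi.mul_apply, Pi.inv_apply, Pi.mul_apply, inv_mul_eq_one] at h2
    exact h2
  have e2 : ∀ᶠ i in (U : Filter ℕ), ∀ a ∈ A, a ≠ 1 → s a i ≠ 1 := by
    rw [Filter.eventually_all_finset]
    intro a _
    by_cases h : a = 1
    · exact Eventually.of_forall fun N h2 => absurd h h2
    · have h1 : ¬ f (s a) = 1 := by
        rw [hs2]
        exact h
      rw [hf, ← Ultrafilter.eventually_not] at h1
      filter_upwards [h1] with i h2 _
      exact h2
  obtain ⟨i, h1, h2⟩ := (e1.and e2).exists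
  obtain ⟨d, hd, φ, p1, p2, p3⟩ := hG i (A.image fun a => s a i)
    (Finset.mem_image.2 ⟨1, hA1, by rw [hs1]; rfl⟩) δ hδ
  refine ⟨d, hd, fun a => φ (s a i), ?_, ?_, ?_⟩
  · change φ (s 1 i) = 1
    rw [hs1]
    exact p1
  · intro a ha b hb hab
    change hamm (φ (s (a * b) i)) (φ (s a i) * φ (s b i)) < δ
    rw [h1 a ha b hb]
    apply p2 _ (Finset.mem_image_of_mem _ ha) _ (Finset.mem_image_of_mem _ hb)
    rw [← h1 a ha b hb]
    exact Finset.mem_image_of_mem (fun a => s a i) hab
  · intro a ha hne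
    exact p3 _ (Finset.mem_image_of_mem _ ha) (h2 a ha hne)

theorem cl_sofic : Cl (fun (G : Type) [Group G] => TorsionFree G ∧ IsSofic G) where
  toClosedClass := closed_sofic
  sofic := fun _ _ h => h.2
  ultra := fun U G _ _ _ f hs hf h => ⟨ultra_tf U G f hs hf fun i => (h i).1,
    ultra_sofic U G f hs hf fun i => (h i).2⟩

/-- the patterns -/
abbrev Pat : Type := Σ m : ℕ, Σ n : ℕ, Σ k : ℕ, (Fin m → Fin n → Fin k → ℤ)

/-- **one pattern takes all values in the unit interval**, unless all values are integers -/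
theorem unit_interval {C : (G : Type) → [Group G] → Prop} (hC : Cl C)
    (h : ∀ r : ℝ, 0 ≤ r → ∃ p : Pat, r ∈ dimsC C p.2.2.2) :
    ∃ (m n k : ℕ) (c : Fin m → Fin n → Fin k → ℤ), Set.Icc (0 : ℝ) 1 ⊆ dimsC C c := by
  -- Baire
  obtain ⟨p, x0, hx0⟩ : ∃ p : Pat, (interior (Real.exp ⁻¹' dimsC C p.2.2.2)).Nonempty := by
    apply nonempty_interior_of_iUnion_of_closed
    · intro p
      exact (isClosed_dimsC hC p.2.2.2).preimage Real.continuous_exp
    · rw [Set.eq_univ_iff_forall]
      intro x
      obtain ⟨p, hp⟩ := h (Real.exp x) (Real.exp_pos x).le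
      exact Set.mem_iUnion.2 ⟨p, hp⟩
  obtain ⟨m, n, k, c⟩ := p
  rw [mem_interior_iff_mem_nhds, Metric.mem_nhds_iff] at hx0
  obtain ⟨δ, hδ, hball⟩ := hx0
  set a := Real.exp (x0 - δ / 2) with ha
  set b := Real.exp (x0 + δ / 2) with hb
  have ha0 : 0 < a := Real.exp_pos _
  have hab : a < b := Real.exp_lt_exp.2 (by linarith)
  have hIcc : ∀ y, a ≤ y → y ≤ b → y ∈ dimsC C c := by
    intro y h1 h2
    have hy : 0 < y := ha0.trans_le h1
    have h3 : x0 - δ / 2 ≤ Real.log y := by
      rw [Real.le_log_iff_exp_le hy]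
      exact h1
    have h4 : Real.log y ≤ x0 + δ / 2 := by
      rw [Real.log_le_iff_le_exp hy]
      exact h2
    have h5 : Real.log y ∈ Metric.ball x0 δ := by
      rw [Metric.mem_ball, Real.dist_eq, abs_lt]
      constructor <;> linarith
    have h6 := hball h5
    rw [Set.mem_preimage, Real.exp_log hy] at h6
    exact h6
  -- scaling
  obtain ⟨M, hM⟩ := exists_nat_gt (2 / (b - a))
  have hba : 0 < b - a := by linarith
  have hM2 : 2 < M * (b - a) := by
    rwa [div_lt_iff₀ hba] at hM
  have hM0 : (0 : ℝ) < M := lt_trans (by positivity) hM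
  set j : ℕ := ⌈(M : ℝ) * a⌉₊ with hj
  have hj1 : (M : ℝ) * a ≤ j := Nat.le_ceil _
  have hj2 : (j : ℝ) < M * a + 1 := Nat.ceil_lt_add_one (by positivity)
  obtain ⟨m', n', c', hc'⟩ := multiple c M
  obtain ⟨c'', hc''⟩ := to_fin (cutc c' j)
  refine ⟨_, _, _, c'', ?_⟩
  rw [← closure_Ioc (zero_ne_one' ℝ)]
  refine closure_minimal ?_ (isClosed_dimsC hC c'')
  rintro s ⟨hs0, hs1⟩
  obtain ⟨G, iG, h1, g, hg⟩ := hIcc ((j + s) / M) (by
      rw [le_div_iff₀ hM0]
      nlinarith) (by
      rw [div_le_iff₀ hM0]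
      nlinarith)
  have h3 : vdim (kerA (PM c' g)) = j + s := by
    rw [hc', hg]
    field_simp
  obtain ⟨g', hg'⟩ := cut_pattern c' j g (by rw [h3]; linarith)
  obtain ⟨g'', hg''⟩ := hc'' _ g'
  refine ⟨_, _, hC.freeProduct G (n' * j) h1, g'', ?_⟩
  rw [hg'', hg', h3]
  ring

end Pool.Agent.U700.NI
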