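import Pool.Agent.U700.IA3

/-!
Kernel dimensions of integral matrices of bounded complexity.
-/

set_option autoImplicit false
set_option linter.unusedSectionVars false

open scoped Pointwise
open Filter Topology Matrix

namespace Pool.Agent.U700.NI

open Pool.Agent
open Pool.Agent.TH107.AT
open Pool.Agent.H80R2
open Pool.Agent.H80R2.BC (L2 GMat vdim IsTr LInv Equi act kerA pt vals Coef Generic)
open Pool.Agent.H812R3
open Pool.Agent.W656.VA
open Pool.Agent.H21R2 (IsSofic hamm)
open Pool.Agent.Results.MP_95030e_al.AllOrNothing (TorsionFree ClosedClass)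

variable {κ ι G : Type}

/-- integral entries of `ℓ¹`-norm at most `N` -/
def Sm (N : ℕ) (A : GMat κ ι G) : Prop :=
  ∀ i j, (∀ g, ∃ a : ℤ, A i j g = a) ∧ (A i j).sum (fun _ a => ‖a‖) ≤ N

theorem sm_PM {Λ : Type} [Fintype Λ] {N : ℕ} (c : κ → ι → Λ → ℤ)
    (hc : ∀ i j, ∑ l, |c i j l| ≤ N) (g : Λ → G) : Sm N (PM c g) := by
  classical
  intro i j
  constructor
  · intro x
    refine ⟨∑ l, if g l = x then c i j l else 0, ?_⟩
    unfold PM
    rw [Finsupp.finsetSum_apply]
    push_cast
    refine Finset.sum_congr rfl fun l _ => ?_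
    rw [Finsupp.single_apply]
  · have hT : (PM c g i j).support ⊆ Finset.univ.image g := by
      intro x hx
      rw [Finsupp.mem_support_iff] at hx
      by_contra h
      apply hx
      unfold PM
      rw [Finsupp.finsetSum_apply]
      apply Finset.sum_eq_zero
      intro l _
      rw [Finsupp.single_apply, if_neg]
      intro h2
      exact h (Finset.mem_image.2 ⟨l, Finset.mem_univ _, h2⟩)
    rw [Finsupp.sum_of_support_subset _ hT _ (fun _ _ => norm_zero)]
    calc ∑ x ∈ Finset.univ.image g, ‖PM c g i j x‖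
        ≤ ∑ x ∈ Finset.univ.image g, ∑ l, ‖(Finsupp.single (g l) (c i j l : ℂ) : G →₀ ℂ) x‖ := by
          refine Finset.sum_le_sum fun x _ => ?_
          unfold PM
          rw [Finsupp.finsetSum_apply]
          exact norm_sum_le _ _
      _ = ∑ l, ∑ x ∈ Finset.univ.image g, ‖(Finsupp.single (g l) (c i j l : ℂ) : G →₀ ℂ) x‖ :=
          Finset.sum_comm
      _ = ∑ l, |(c i j l : ℝ)| := by
          refine Finset.sum_congr rfl fun l _ => ?_
          rw [Finset.sum_eq_single (g l)]
          · rw [Finsupp.single_eq_same, Complex.norm_intCast]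
          · intro x _ hx
            rw [Finsupp.single_apply, if_neg (fun h => hx h.symm), norm_zero]
          · intro h
            exact absurd (Finset.mem_image.2 ⟨l, Finset.mem_univ _, rfl⟩) h
      _ ≤ N := by
          have := hc i j
          have h2 : ((∑ l, |c i j l| : ℤ) : ℝ) ≤ N := by exact_mod_cast this
          push_cast at h2
          exact h2

/-- a small matrix is the matrix of a small pattern -/
theorem pat_of_sm [Group G] {m n N : ℕ} (A : GMat (Fin m) (Fin n) G) (hA : Sm N A) :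
    ∃ c : Fin m → Fin n → Fin (m * (n * N)) → ℤ, (∀ i j, ∑ l, |c i j l| ≤ N) ∧
      ∃ g : Fin (m * (n * N)) → G, PM c g = A := by
  classical
  choose z hz using fun i j => (hA i j).1
  have hz' : ∀ i j g, A i j g = (z i j g : ℂ) := hz
  let S : Finset G := Finset.univ.biUnion fun i : Fin m => Finset.univ.biUnion fun j : Fin n =>
    (A i j).support
  have hsupp : ∀ i j, (A i j).support ⊆ S := by
    intro i j x hx
    simp only [S, Finset.mem_biUnion]
    exact ⟨i, Finset.mem_univ _, j, Finset.mem_univ _, hx⟩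
  have hcard1 : ∀ i j, (A i j).support.card ≤ N := by
    intro i j
    have h1 := (hA i j).2
    have h2 : ((A i j).support.card : ℝ) ≤ (A i j).sum (fun _ a => ‖a‖) := by
      rw [Finsupp.sum, Finset.card_eq_sum_ones, Nat.cast_sum]
      refine Finset.sum_le_sum fun x hx => ?_
      rw [Finsupp.mem_support_iff, hz' i j x] at hx
      have hx' : z i j x ≠ 0 := by
        intro h
        apply hx
        rw [h, Int.cast_zero]
      rw [hz' i j x, Complex.norm_intCast]
      have h3 : (1 : ℤ) ≤ |z i j x| := Int.one_le_abs hx'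
      have h4 : ((1 : ℤ) : ℝ) ≤ ((|z i j x| : ℤ) : ℝ) := by exact_mod_cast h3
      push_cast at h4 ⊢
      exact h4
    exact_mod_cast h2.trans h1
  have hcard : S.card ≤ m * (n * N) := by
    refine (Finset.card_biUnion_le_card_mul _ _ (n * N) ?_).trans (by simp)
    intro i _
    refine (Finset.card_biUnion_le_card_mul _ _ N ?_).trans (by simp)
    intro j _
    exact hcard1 i j
  obtain ⟨e⟩ : Nonempty (S ↪ Fin (m * (n * N))) := by
    apply Function.Embedding.nonempty_of_card_le
    rw [Fintype.card_coe, Fintype.card_fin]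
    exact hcard
  let g : Fin (m * (n * N)) → G := Function.extend e (fun s : S => (s : G)) (fun _ => 1)
  let c : Fin m → Fin n → Fin (m * (n * N)) → ℤ := fun i j =>
    Function.extend e (fun s : S => z i j s) (fun _ => 0)
  have hg : ∀ s : S, g (e s) = s := fun s => e.injective.extend_apply _ _ s
  have hc : ∀ i j (s : S), c i j (e s) = z i j s := fun i j s => e.injective.extend_apply _ _ s
  have hc0 : ∀ i j l, l ∉ Set.range e → c i j l = 0 := by
    intro i j l hl
    exact Function.extend_apply' _ _ l (fun ⟨s, hs⟩ => hl ⟨s, hs⟩)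
  refine ⟨c, fun i j => ?_, g, ?_⟩
  · have h1 : ∑ s : S, |z i j s| = ∑ l, |c i j l| := by
      apply Fintype.sum_of_injective e e.injective
      · intro l hl
        rw [hc0 i j l hl, abs_zero]
      · intro s
        rw [hc]
    rw [← h1]
    have h2 : (∑ s : S, |(z i j s : ℝ)|) = (A i j).sum (fun _ a => ‖a‖) := by
      rw [Finsupp.sum_of_support_subset _ (hsupp i j) _ (fun _ _ => norm_zero),
        ← Finset.sum_coe_sort S]
      refine Finset.sum_congr rfl fun s _ => ?_
      rw [hz' i j s, Complex.norm_intCast]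
    have h3 : (∑ s : S, |(z i j s : ℝ)|) ≤ N := h2.trans_le (hA i j).2
    exact_mod_cast h3
  · funext i j
    have h1 : ∑ s : S, (Finsupp.single (s : G) (A i j s) : G →₀ ℂ) =
        ∑ l, Finsupp.single (g l) (c i j l : ℂ) := by
      apply Fintype.sum_of_injective e e.injective
      · intro l hl
        rw [hc0 i j l hl, Int.cast_zero, Finsupp.single_zero]
      · intro s
        rw [hc, hg, hz' i j s]
    change ∑ l, Finsupp.single (g l) (c i j l : ℂ) = A i j
    rw [← h1, Finset.sum_coe_sort S (fun s => (Finsupp.single s (A i j s) : G →₀ ℂ))]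
    conv_rhs => rw [← Finsupp.sum_single (A i j)]
    rw [Finsupp.sum_of_support_subset _ (hsupp i j) _ (fun _ _ => Finsupp.single_zero _)]

/-- the kernel dimensions of the integral matrices with at most `N` rows and columns and entries
of `ℓ¹`-norm at most `N`, over the groups of a class -/
def D2 (C : (G : Type) → [Group G] → Prop) (N : ℕ) : Set ℝ :=
  {v | ∃ (G : Type) (_ : Group G), C G ∧ ∃ (m n : ℕ) (A : GMat (Fin m) (Fin n) G),
    m ≤ N ∧ n ≤ N ∧ Sm N A ∧ vdim (kerA A) = v}

/-- small patterns -/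
def SP (m n N : ℕ) : Set (Fin m → Fin n → Fin (m * (n * N)) → ℤ) :=
  {c | ∀ i j, ∑ l, |c i j l| ≤ N}

theorem finite_SP (m n N : ℕ) : (SP m n N).Finite := by
  refine (Set.finite_Icc (fun _ _ _ => -(N : ℤ)) (fun _ _ _ => (N : ℤ))).subset ?_
  intro c hc
  have h : ∀ i j l, |c i j l| ≤ N := fun i j l =>
    (Finset.single_le_sum (f := fun l => |c i j l|) (fun _ _ => abs_nonneg _)
      (Finset.mem_univ l)).trans (hc i j)
  exact ⟨fun i j l => (abs_le.1 (h i j l)).1, fun i j l => (abs_le.1 (h i j l)).2⟩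

theorem D2_eq (C : (G : Type) → [Group G] → Prop) (N : ℕ) : D2 C N =
    ⋃ m ∈ Finset.range (N + 1), ⋃ n ∈ Finset.range (N + 1), ⋃ c ∈ SP m n N, dimsC C c := by
  ext v
  simp only [Set.mem_iUnion, Finset.mem_range, exists_prop]
  constructor
  · rintro ⟨G, iG, hG, m, n, A, hm, hn, hA, hv⟩
    obtain ⟨c, hc, g, hg⟩ := pat_of_sm A hA
    exact ⟨m, by omega, n, by omega, c, hc, G, iG, hG, g, by rw [hg]; exact hv⟩
  · rintro ⟨m, hm, n, hn, c, hc, G, iG, hG, g, hv⟩
    exact ⟨G, iG, hG, m, n, PM c g, by omega, by omega, sm_PM c hc g, hv⟩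

/-- **the kernel dimensions of bounded complexity form a closed set** -/
theorem isClosed_D2 {C : (G : Type) → [Group G] → Prop} (hC : Cl C) (N : ℕ) :
    IsClosed (D2 C N) := by
  rw [D2_eq]
  apply isClosed_biUnion_finset
  intro m _
  apply isClosed_biUnion_finset
  intro n _
  exact (finite_SP m n N).isClosed_biUnion fun c _ => isClosed_dimsC hC c

theorem D2_Icc (C : (G : Type) → [Group G] → Prop) (N : ℕ) : D2 C N ⊆ Set.Icc 0 N := by
  rintro v ⟨G, iG, hG, m, n, A, hm, hn, hA, rfl⟩
  refine ⟨vdim_nonneg _, (vdim_le_card _).trans ?_⟩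
  rw [Fintype.card_fin]
  exact_mod_cast hn

theorem dimsC_D2 (C : (G : Type) → [Group G] → Prop) {m n k : ℕ}
    (c : Fin m → Fin n → Fin k → ℤ) : ∃ N : ℕ, dimsC C c ⊆ D2 C N := by
  refine ⟨m + n + ∑ i, ∑ j, ∑ l, (c i j l).natAbs, ?_⟩
  rintro v ⟨G, iG, hG, g, hv⟩
  refine ⟨G, iG, hG, m, n, PM c g, by omega, by omega, sm_PM c (fun i j => ?_) g, hv⟩
  have h1 : ∑ l, (c i j l).natAbs ≤ ∑ j, ∑ l, (c i j l).natAbs :=
    Finset.single_le_sum (f := fun j => ∑ l, (c i j l).natAbs) (fun _ _ => Nat.zero_le _)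
      (Finset.mem_univ j)
  have h2 : ∑ j, ∑ l, (c i j l).natAbs ≤ ∑ i, ∑ j, ∑ l, (c i j l).natAbs :=
    Finset.single_le_sum (f := fun i => ∑ j, ∑ l, (c i j l).natAbs) (fun _ _ => Nat.zero_le _)
      (Finset.mem_univ i)
  have h3 : ∑ l, |c i j l| = ((∑ l, (c i j l).natAbs : ℕ) : ℤ) := by
    push_cast
    rfl
  rw [h3]
  exact_mod_cast h1.trans (h2.trans (by omega))

/-- all or nothing with bounded complexity -/
theorem all_small {C : (G : Type) → [Group G] → Prop} (hC : Cl C)
    (h : ¬ ∀ (G : Type) [Group G], C G → ∀ (m n : ℕ) (A : Matrix (Fin m) (Fin n) (G →₀ ℂ)),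
      ∃ z : ℤ, Pool.Agent.Results.MP_95030e_al.AllOrNothing.kerDim A = z) :
    ∃ (m n k : ℕ) (c : Fin m → Fin n → Fin k → ℤ), Set.Icc (0 : ℝ) 1 ⊆ dimsC C c := by
  apply unit_interval hC
  intro r hr
  obtain ⟨H, iH, hH, hv⟩ :=
    Pool.Agent.Results.MP_95030e_al.AllOrNothing.all_values hC.toClosedClass h r hr
  obtain ⟨m, n, Y, hY, hYr⟩ := val_itg hv
  obtain ⟨k, c, g, hg⟩ := exists_pattern Y hY
  exact ⟨⟨n, m, k, c⟩, H, iH, hH, g, hg.trans hYr⟩

end Pool.Agent.U700.NI
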