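import Pool.Agent.U700.IA4

/-!
One group with two generators whose kernel dimensions are dense in those of the whole class.
-/

set_option autoImplicit false
set_option linter.unusedSectionVars false

open scoped Pointwise
open Filter Topology Matrix

namespace Pool.Agent.U700.NI

open Pool.Agent
open Pool.Agent.TH107.AT
open Pool.Agent.H80R2
open Pool.Agent.H80R2.BC (L2 GMat vdim IsTr LInv Equi act kerA pt vals Coef Generic)
open Pool.Agent.H812R3
open Pool.Agent.W656.VA
open Pool.Agent.H21R2 (IsSofic hamm)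
open Pool.Agent.TH25.AD (Wr)
open Pool.Agent.Results.MP_95030e_al.AllOrNothing (TorsionFree ClosedClass cls)

/-- the kernel dimensions of the matrices of a pattern over one group -/
def dimsG (G : Type) [Group G] {m n k : ℕ} (c : Fin m → Fin n → Fin k → ℤ) : Set ℝ :=
  {v | ∃ g : Fin k → G, vdim (kerA (PM c g)) = v}

theorem vdim_PM_map {G G' : Type} [Group G] [Group G'] (f : G →* G')
    (hf : Function.Injective f) {m n k : ℕ} (c : Fin m → Fin n → Fin k → ℤ) (g : Fin k → G) :
    vdim (kerA (PM c (fun l => f (g l)))) = vdim (kerA (PM c g)) := by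
  have e : PM c (fun l => f (g l)) = BC.push f (PM c g) := by
    funext a b
    change _ = (∑ l, Finsupp.single (g l) (c a b l : ℂ)).mapDomain f
    rw [Finsupp.mapDomain_finsetSum]
    refine Finset.sum_congr rfl fun l _ => ?_
    rw [Finsupp.mapDomain_single]
  rw [e, vdim_push f hf]

theorem dimsG_mono {G G' : Type} [Group G] [Group G'] (f : G →* G')
    (hf : Function.Injective f) {m n k : ℕ} (c : Fin m → Fin n → Fin k → ℤ) :
    dimsG G c ⊆ dimsG G' c := by
  rintro v ⟨g, hg⟩
  exact ⟨fun l => f (g l), by rw [vdim_PM_map f hf]; exact hg⟩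

/-- a countable group with dense values -/
theorem dense_group {C : (G : Type) → [Group G] → Prop} (hC : Cl C) :
    ∃ (H : Type) (_ : Group H), C H ∧ Countable H ∧
      ∀ (m n k : ℕ) (c : Fin m → Fin n → Fin k → ℤ), dimsC C c ⊆ closure (dimsG H c) := by
  classical
  have hT : ∀ p : Pat, ∃ t : Set ℝ, t ⊆ dimsC C p.2.2.2 ∧ t.Countable ∧
      dimsC C p.2.2.2 ⊆ closure t := fun p =>
    (TopologicalSpace.IsSeparable.of_separableSpace (dimsC C p.2.2.2)).exists_countable_dense_subset
  choose T hT1 hT2 hT3 using hT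
  have : ∀ p, Countable (T p) := fun p => (hT2 p).to_subtype
  let I : Type := Σ p : Pat, T p
  have hI : ∀ i : I, ∃ (G : Type) (_ : Group G), C G ∧ ∃ g : Fin i.1.2.2.1 → G,
      vdim (kerA (PM i.1.2.2.2 g)) = i.2.1 := fun i => hT1 i.1 i.2.2
  choose G iG hG g hg using hI
  let J : Type := Σ i : I, Fin i.1.2.2.1
  let φ : FreeGroup J →* (∀ i, G i) := FreeGroup.lift fun j => MonoidHom.mulSingle G j.1 (g j.1 j.2)
  have hφ : ∀ (i : I) (l : Fin i.1.2.2.1), MonoidHom.mulSingle G i (g i l) ∈ φ.range := by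
    intro i l
    refine ⟨FreeGroup.of ⟨i, l⟩, ?_⟩
    simp only [φ, FreeGroup.lift_apply_of]
  refine ⟨φ.range, inferInstance, ?_, ?_, ?_⟩
  · exact hC.subgroup _ _ φ.range.subtype φ.range.subtype_injective (hC.product I G hG)
  · exact φ.rangeRestrict_surjective.countable
  · intro m n k c
    refine (hT3 ⟨m, n, k, c⟩).trans (closure_mono ?_)
    intro v hv
    let i : I := ⟨⟨m, n, k, c⟩, ⟨v, hv⟩⟩
    have hj : Function.Injective (MonoidHom.mulSingle G i) := by
      intro a b hab
      have := congrFun hab i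
      simpa using this
    refine ⟨fun l => ⟨MonoidHom.mulSingle G i (g i l), hφ i l⟩, ?_⟩
    rw [← vdim_PM_map φ.range.subtype φ.range.subtype_injective]
    change vdim (kerA (PM c (fun l => MonoidHom.mulSingle G i (g i l)))) = v
    rw [vdim_PM_map (MonoidHom.mulSingle G i) hj]
    exact hg i

/-! ### countable groups embed into groups with two generators -/

/-- the inclusion at the coordinate `0` -/
def inc0 (L : Type) [Group L] : L →* Wr L where
  toFun x := ⟨fun i => if i = 0 then x else 1, 0⟩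
  map_one' := by
    apply Wr.ext
    · funext i
      change (if i = 0 then (1 : L) else 1) = 1
      split_ifs <;> rfl
    · rfl
  map_mul' x y := by
    apply Wr.ext
    · funext i
      rw [Wr.mul_k]
      simp only [sub_zero]
      split_ifs
      · rfl
      · rw [one_mul]
    · rfl

theorem inc0_k {L : Type} [Group L] (x : L) (i : ℤ) :
    (inc0 L x).k i = if i = 0 then x else 1 := rfl

theorem inc0_n {L : Type} [Group L] (x : L) : (inc0 L x).n = 0 := rfl

theorem inc0_inj (L : Type) [Group L] : Function.Injective (inc0 L) := by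
  intro x y h
  have h1 := congrArg (fun a : Wr L => a.k 0) h
  simpa [inc0_k] using h1

/-- the function which is `x` from `0` on -/
def half {L : Type} [Group L] (x : L) : Wr L := ⟨fun i => if 0 ≤ i then x else 1, 0⟩

theorem half_k {L : Type} [Group L] (x : L) (i : ℤ) : (half x).k i = if 0 ≤ i then x else 1 := rfl

theorem comm_half {L : Type} [Group L] (x : L) :
    (Wr.t : Wr L) * half x * (Wr.t : Wr L)⁻¹ * (half x)⁻¹ = inc0 L x⁻¹ := by
  apply Wr.ext
  · funext i
    have h1 := Wr.conj_k (L := L) 1 (half x) i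
    have h2 := Wr.conj_n (L := L) 1 (half x)
    rw [zpow_one] at h1 h2
    rw [Wr.mul_k, h1, h2, Wr.inv_k, half_k, inc0_k]
    change _ * ((half x).k (i - 0 + 0))⁻¹ = _
    rw [half_k]
    rcases lt_trichotomy i 0 with h | h | h
    · rw [if_neg (by omega), if_neg (by omega), if_neg (by omega), one_mul, inv_one]
    · rw [if_neg (by omega), if_pos (by omega), if_pos h, one_mul]
    · rw [if_pos (by omega), if_pos (by omega), if_neg (by omega), mul_inv_cancel]
  · have h2 := Wr.conj_n (L := L) 1 (half x)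
    rw [zpow_one] at h2
    rw [Wr.mul_n, h2, Wr.inv_n, inc0_n]
    rfl

theorem comm_k {L : Type} [Group L] (a b : Wr L) (ha : a.n = 0) (hb : b.n = 0) (i : ℤ) :
    (a * b * a⁻¹ * b⁻¹).k i = a.k i * b.k i * (a.k i)⁻¹ * (b.k i)⁻¹ := by
  rw [Wr.mul_k, Wr.mul_k, Wr.mul_k, Wr.inv_k, Wr.inv_k, Wr.mul_n, Wr.mul_n, Wr.inv_n, ha, hb]
  simp [Wr.mul_n, ha, hb]

theorem comm_n {L : Type} [Group L] (a b : Wr L) (ha : a.n = 0) (hb : b.n = 0) :
    (a * b * a⁻¹ * b⁻¹).n = 0 := by
  rw [Wr.mul_n, Wr.mul_n, Wr.mul_n, Wr.inv_n, Wr.inv_n, ha, hb]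
  rfl

/-- the second generator -/
def bb {L : Type} [Group L] (h : ℕ → L) : Wr (Wr L) :=
  ⟨fun i => if i = 0 then Wr.t else if 0 < i ∧ i % 2 = 1 then half (h (i / 2).toNat) else 1, 0⟩

theorem bb_k {L : Type} [Group L] (h : ℕ → L) (i : ℤ) : (bb h).k i =
    if i = 0 then Wr.t else if 0 < i ∧ i % 2 = 1 then half (h (i / 2).toNat) else 1 := rfl

theorem bb_n {L : Type} [Group L] (h : ℕ → L) : (bb h).n = 0 := rfl

theorem bb_comm {L : Type} [Group L] (h : ℕ → L) (j : ℕ) :
    bb h * ((Wr.t : Wr (Wr L)) ^ (-(2 * j + 1) : ℤ) * bb h *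
      ((Wr.t : Wr (Wr L)) ^ (-(2 * j + 1) : ℤ))⁻¹) * (bb h)⁻¹ *
        ((Wr.t : Wr (Wr L)) ^ (-(2 * j + 1) : ℤ) * bb h *
          ((Wr.t : Wr (Wr L)) ^ (-(2 * j + 1) : ℤ))⁻¹)⁻¹ =
      inc0 (Wr L) (inc0 L (h j)⁻¹) := by
  set b' := (Wr.t : Wr (Wr L)) ^ (-(2 * j + 1) : ℤ) * bb h *
      ((Wr.t : Wr (Wr L)) ^ (-(2 * j + 1) : ℤ))⁻¹ with hb'
  have hk : ∀ i, b'.k i = (bb h).k (i + (2 * j + 1)) := by
    intro i
    rw [hb', Wr.conj_k]
    rw [sub_neg_eq_add]
  have hn : b'.n = 0 := by
    rw [hb', Wr.conj_n, bb_n]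
  have hn' : (bb h).n = 0 := rfl
  apply Wr.ext
  · funext i
    rw [comm_k _ _ hn' hn, inc0_k, hk]
    rcases lt_trichotomy i 0 with h0 | h0 | h0
    · have e : (bb h).k i = 1 := by
        rw [bb_k, if_neg (by omega), if_neg (by omega)]
      rw [e, if_neg (by omega)]
      simp
    · subst h0
      have e1 : ((0 + (2 * (j : ℤ) + 1)) / 2).toNat = j := by omega
      rw [bb_k, if_pos rfl, bb_k, if_neg (by omega), if_pos (by omega), e1, if_pos rfl]
      exact comm_half (h j)
    · rw [if_neg (by omega)]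
      by_cases h1 : i % 2 = 1
      · have e : (bb h).k (i + (2 * j + 1)) = 1 := by
          rw [bb_k, if_neg (by omega), if_neg (by omega)]
        rw [e]
        simp
      · have e : (bb h).k i = 1 := by
          rw [bb_k, if_neg (by omega), if_neg (by omega)]
        rw [e]
        simp
  · rw [comm_n _ _ hn' hn, inc0_n]

/-- **a countable group of the class embeds into a group of the class with two generators** -/
theorem two_gen {C : (G : Type) → [Group G] → Prop} (hC : ClosedClass C) (H : Type) [Group H]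
    [Countable H] (hH : C H) : ∃ (V : Type) (_ : Group V), C V ∧
      (∃ a b : V, Subgroup.closure {a, b} = ⊤) ∧ ∃ f : H →* V, Function.Injective f := by
  classical
  obtain ⟨h, hh⟩ := exists_surjective_nat H
  let K : Set (Wr (Wr H)) := {Wr.t, bb h}
  have hW : C (Wr (Wr H)) := (cls hC).wr ((cls hC).wr hH)
  have ht : (Wr.t : Wr (Wr H)) ∈ Subgroup.closure K := Subgroup.subset_closure (Or.inl rfl)
  have hb : bb h ∈ Subgroup.closure K := Subgroup.subset_closure (Or.inr rfl)
  have hmem : ∀ x : H, inc0 (Wr H) (inc0 H x) ∈ Subgroup.closure K := by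
    intro x
    obtain ⟨j, hj⟩ := hh x⁻¹
    have h1 := bb_comm h j
    rw [hj, inv_inv] at h1
    rw [← h1]
    have h2 : (Wr.t : Wr (Wr H)) ^ (-(2 * j + 1) : ℤ) * bb h *
        ((Wr.t : Wr (Wr H)) ^ (-(2 * j + 1) : ℤ))⁻¹ ∈ Subgroup.closure K :=
      mul_mem (mul_mem (zpow_mem ht _) hb) (inv_mem (zpow_mem ht _))
    exact mul_mem (mul_mem (mul_mem hb h2) (inv_mem hb)) (inv_mem h2)
  refine ⟨Subgroup.closure K, inferInstance, ?_, ⟨⟨Wr.t, ht⟩, ⟨bb h, hb⟩, ?_⟩,
    ((inc0 (Wr H)).comp (inc0 H)).codRestrict (Subgroup.closure K) hmem, ?_⟩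
  · exact hC.subgroup _ _ (Subgroup.closure K).subtype (Subgroup.closure K).subtype_injective hW
  · rw [← Subgroup.closure_closure_coe_preimage (k := K)]
    congr 1
    ext x
    simp only [K, Set.mem_insert_iff, Set.mem_singleton_iff, Set.mem_preimage, Subtype.ext_iff]
  · intro x y hxy
    have h1 := congrArg Subtype.val hxy
    exact inc0_inj H (inc0_inj (Wr H) h1)

/-- **the universal group** -/
theorem universal {C : (G : Type) → [Group G] → Prop} (hC : Cl C) :
    ∃ (V : Type) (_ : Group V), C V ∧ (∃ a b : V, Subgroup.closure {a, b} = ⊤) ∧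
      ∀ (m n k : ℕ) (c : Fin m → Fin n → Fin k → ℤ), dimsC C c = closure (dimsG V c) := by
  obtain ⟨H, iH, hH, hcount, hd⟩ := dense_group hC
  obtain ⟨V, iV, hV, hab, f, hf⟩ := two_gen hC.toClosedClass H hH
  refine ⟨V, iV, hV, hab, fun m n k c => Set.Subset.antisymm ?_ ?_⟩
  · exact (hd m n k c).trans (closure_mono (dimsG_mono f hf c))
  · refine closure_minimal ?_ (isClosed_dimsC hC c)
    rintro v ⟨g, hg⟩
    exact ⟨V, iV, hV, g, hg⟩

/-- the kernel dimensions of bounded complexity of one group -/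
def D1 (G : Type) [Group G] (N : ℕ) : Set ℝ :=
  {v | ∃ (m n : ℕ) (A : GMat (Fin m) (Fin n) G), m ≤ N ∧ n ≤ N ∧ Sm N A ∧ vdim (kerA A) = v}

theorem D2_closure {C : (G : Type) → [Group G] → Prop} (hC : Cl C) {V : Type} [Group V]
    (hV : C V) (h : ∀ (m n k : ℕ) (c : Fin m → Fin n → Fin k → ℤ),
      dimsC C c = closure (dimsG V c)) (N : ℕ) : D2 C N = closure (D1 V N) := by
  apply Set.Subset.antisymm
  · rintro v ⟨G, iG, hG, m, n, A, hm, hn, hA, hv⟩
    obtain ⟨c, hc, g, hg⟩ := pat_of_sm A hA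
    have h1 : v ∈ dimsC C c := ⟨G, iG, hG, g, by rw [hg]; exact hv⟩
    rw [h] at h1
    refine closure_mono ?_ h1
    rintro w ⟨g', hg'⟩
    exact ⟨m, n, PM c g', hm, hn, sm_PM c hc g', hg'⟩
  · refine closure_minimal ?_ (isClosed_D2 hC N)
    rintro v ⟨m, n, A, h1⟩
    exact ⟨V, inferInstance, hV, m, n, A, h1⟩

end Pool.Agent.U700.NI
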