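import Pool.Agent.TH25.AD.A8

/-!
Bounded families of matrices over a group ring, and the machine for bounded families.
-/

set_option autoImplicit false
set_option linter.unusedSectionVars false

open scoped InnerProductSpace ENNReal ComplexConjugate
open Filter Topology

namespace Pool.Agent.U700.IB

open Pool.Agent.W656.VA
open Pool.Agent.H80R2
open Pool.Agent.H80R2.BC (L2 GMat vdim IsTr LInv Equi act kerA Coef pt vals)
open Pool.Agent.H812R3
open Pool.Agent.TH25.AD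

section norms

variable {G G' : Type}

/-- the `ℓ¹`-norm -/
noncomputable def l1 (a : G →₀ ℂ) : ℝ := a.sum fun _ c => ‖c‖

theorem l1_eq (a : G →₀ ℂ) (T : Finset G) (h : a.support ⊆ T) : l1 a = ∑ x ∈ T, ‖a x‖ :=
  Finsupp.sum_of_support_subset _ h _ (fun _ _ => norm_zero)

theorem l1_nonneg (a : G →₀ ℂ) : 0 ≤ l1 a := Finset.sum_nonneg fun _ _ => norm_nonneg _

theorem l1_zero : l1 (0 : G →₀ ℂ) = 0 := Finsupp.sum_zero_index

theorem l1_single (x : G) (c : ℂ) : l1 (Finsupp.single x c) = ‖c‖ :=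
  Finsupp.sum_single_index norm_zero

theorem l1_add (a b : G →₀ ℂ) : l1 (a + b) ≤ l1 a + l1 b := by
  classical
  rw [l1_eq (a + b) (a.support ∪ b.support) Finsupp.support_add,
    l1_eq a _ Finset.subset_union_left, l1_eq b _ Finset.subset_union_right,
    ← Finset.sum_add_distrib]
  refine Finset.sum_le_sum fun x _ => ?_
  rw [Finsupp.add_apply]
  exact norm_add_le _ _

theorem l1_neg (a : G →₀ ℂ) : l1 (-a) = l1 a := by
  classical
  rw [l1_eq (-a) a.support (by rw [Finsupp.support_neg]), l1_eq a _ (Finset.Subset.refl _)]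
  refine Finset.sum_congr rfl fun x _ => ?_
  rw [Finsupp.neg_apply, norm_neg]

theorem l1_smul (c : ℂ) (a : G →₀ ℂ) : l1 (c • a) = ‖c‖ * l1 a := by
  classical
  rw [l1_eq (c • a) a.support Finsupp.support_smul, l1_eq a _ (Finset.Subset.refl _),
    Finset.mul_sum]
  refine Finset.sum_congr rfl fun x _ => ?_
  rw [Finsupp.smul_apply, smul_eq_mul, norm_mul]

theorem l1_sum {α : Type} (s : Finset α) (f : α → G →₀ ℂ) :
    l1 (∑ i ∈ s, f i) ≤ ∑ i ∈ s, l1 (f i) := by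
  classical
  induction s using Finset.induction_on with
  | empty => simp [l1_zero]
  | insert a s ha ih =>
    rw [Finset.sum_insert ha, Finset.sum_insert ha]
    exact (l1_add _ _).trans (by linarith)

theorem l1_mapDomain (f : G → G') (a : G →₀ ℂ) : l1 (a.mapDomain f) ≤ l1 a := by
  classical
  unfold Finsupp.mapDomain
  rw [Finsupp.sum]
  refine (l1_sum _ _).trans ?_
  rw [l1, Finsupp.sum]
  refine Finset.sum_le_sum fun x _ => ?_
  rw [l1_single]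

theorem l1_conv [Group G] (a b : G →₀ ℂ) : l1 (conv a b) ≤ l1 a * l1 b := by
  classical
  unfold conv
  rw [Finsupp.sum]
  refine (l1_sum _ _).trans ?_
  conv_rhs => rw [l1, Finsupp.sum, Finset.sum_mul]
  refine Finset.sum_le_sum fun x _ => ?_
  rw [l1_smul]
  exact mul_le_mul_of_nonneg_left (l1_mapDomain _ _) (norm_nonneg _)

end norms

variable {ι κ ν ι' κ' ν' H : Type} [Group H] [Fintype ι] [Fintype κ] [Fintype ν] [Fintype ι']
  [Fintype κ'] [Fintype ν']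

/-- integral entries of `ℓ¹`-norm at most `N` -/
def Bd (N : ℕ) (A : GMat κ ι H) : Prop :=
  Coef (⊥ : Subring ℂ) A ∧ ∀ k i, l1 (A k i) ≤ N

theorem Bd.mono {N N' : ℕ} {A : GMat κ ι H} (h : Bd N A) (hN : N ≤ N') : Bd N' A :=
  ⟨h.1, fun k i => (h.2 k i).trans (by exact_mod_cast hN)⟩

theorem bd_exists (A : GMat κ ι H) (hA : Coef (⊥ : Subring ℂ) A) : ∃ N : ℕ, Bd N A := by
  obtain ⟨N, hN⟩ := exists_nat_ge (∑ k, ∑ i, l1 (A k i))
  refine ⟨N, hA, fun k i => le_trans ?_ hN⟩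
  have h1 : l1 (A k i) ≤ ∑ i, l1 (A k i) :=
    Finset.single_le_sum (f := fun i => l1 (A k i)) (fun _ _ => l1_nonneg _) (Finset.mem_univ i)
  have h2 : ∑ i, l1 (A k i) ≤ ∑ k, ∑ i, l1 (A k i) :=
    Finset.single_le_sum (f := fun k => ∑ i, l1 (A k i))
      (fun _ _ => Finset.sum_nonneg fun _ _ => l1_nonneg _) (Finset.mem_univ k)
  exact h1.trans h2

theorem bd_stack {N : ℕ} {A : GMat κ ι H} {B : GMat κ' ι H} (hA : Bd N A) (hB : Bd N B) :
    Bd N (BC.stack A B) := by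
  refine ⟨coef_stack hA.1 hB.1, ?_⟩
  rintro (k | k) i
  · exact hA.2 k i
  · exact hB.2 k i

theorem bd_bd {N : ℕ} {A : GMat κ ι H} {B : GMat κ' ι' H} (hA : Bd N A) (hB : Bd N B) :
    Bd N (bd A B) := by
  refine ⟨coef_bd hA.1 hB.1, ?_⟩
  rintro (k | k) (i | i)
  · exact hA.2 k i
  · exact (l1_zero (G := H)).le.trans (Nat.cast_nonneg _)
  · exact (l1_zero (G := H)).le.trans (Nat.cast_nonneg _)
  · exact hB.2 k i

theorem bd_sd {N : ℕ} {B : GMat κ ι H} {C : GMat κ ν H} (hB : Bd N B) (hC : Bd N C) :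
    Bd N (sd B C) := by
  refine ⟨coef_sd hB.1 hC.1, ?_⟩
  rintro k (i | i)
  · exact hB.2 k i
  · exact (l1_neg (C k i)).le.trans (hC.2 k i)

theorem bd_mulM {N M : ℕ} {B : GMat κ ι' H} {X : GMat ι' ι H} (hB : Bd N B) (hX : Bd M X) :
    Bd (Fintype.card ι' * (N * M)) (mulM B X) := by
  refine ⟨coef_mulM hB.1 hX.1, ?_⟩
  intro k i
  unfold mulM
  refine (l1_sum _ _).trans ?_
  refine (Finset.sum_le_card_nsmul _ _ ((N : ℝ) * M) fun j _ => ?_).trans ?_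
  · exact (l1_conv _ _).trans (mul_le_mul (hB.2 k j) (hX.2 j i) (l1_nonneg _) (Nat.cast_nonneg _))
  · rw [Finset.card_univ, nsmul_eq_mul]
    push_cast
    exact le_rfl

theorem bd_push {H' : Type} [Group H'] (f : H → H') {N : ℕ} {A : GMat κ ι H} (hA : Bd N A) :
    Bd N (BC.push f A) :=
  ⟨coef_push f A hA.1, fun k i => (l1_mapDomain f _).trans (hA.2 k i)⟩

theorem bd_ri {κ₂ ι₂ : Type} (e : κ₂ → κ) (f : ι₂ ≃ ι) {N : ℕ} {A : GMat κ ι H} (hA : Bd N A) :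
    Bd N (ri e f A) := ⟨fun _ _ _ => hA.1 _ _ _, fun _ _ => hA.2 _ _⟩

theorem bd_Th {η μ : Type} [Fintype η] [Fintype μ] {H' : Type} [Group H'] (u : ι → η → H') {N : ℕ} (hN : 1 ≤ N) :
    Bd N (BC.Th u : GMat (η × μ) (ι × μ) H') := by
  classical
  refine ⟨coef_Th u, ?_⟩
  intro k i
  have h1 : (1 : ℝ) ≤ N := by exact_mod_cast hN
  unfold BC.Th
  split_ifs
  · rw [l1_single, norm_one]
    exact h1
  · rw [l1_zero]
    linarith

theorem bd_Cut {η μ : Type} [Fintype η] [Fintype μ] {H' : Type} [Group H'] (inc : H →* H') (u : ι → η → H')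
    {N : ℕ} (hN : 1 ≤ N) {A : GMat κ (ι × μ) H} (hA : Bd N A) : Bd N (BC.Cut inc u A) :=
  bd_stack (bd_push inc hA) (bd_Th u hN)

theorem bd_rw2 (i j : Fin 4) (a b : H) : Bd 2 (rw2 i j a b) := by
  refine ⟨coef_rw2 i j a b, ?_⟩
  intro u k
  have h : ∀ (i : Fin 4) (a : H), l1 (rw1 i a u k) ≤ 1 := by
    intro i a
    unfold rw1
    split_ifs
    · rw [l1_single, norm_one]
    · rw [l1_zero]
      exact zero_le_one
  unfold rw2
  rw [sub_eq_add_neg]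
  refine (l1_add _ _).trans ?_
  rw [l1_neg]
  have h1 := h i a
  have h2 := h j b
  push_cast
  linarith

/-! ### bounded families -/

variable {T : Type}

/-- the subspaces `E s` are defined by bounded integral matrices, with defect `d` -/
def BDfn (E : T → Submodule ℂ (L2 (ι × H))) (d : ℝ) : Prop :=
  ∃ (κ ν : Type) (_ : Fintype κ) (_ : Fintype ν) (N : ℕ) (B : T → GMat κ ι H)
    (C : T → GMat κ ν H), (∀ s, Bd N (B s)) ∧ (∀ s, Bd N (C s)) ∧
      (∀ s, vdim (kerA (C s)) = d) ∧ ∀ s x, x ∈ E s ↔ op (B s) x ∈ clo (op (C s))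

theorem BDfn.const {E : Submodule ℂ (L2 (ι × H))} {d : ℝ} (h : Dfn (⊥ : Subring ℂ) E d) :
    BDfn (fun _ : T => E) d := by
  obtain ⟨κ, ν, _, _, B, C, hB, hC, hd, hE⟩ := h
  obtain ⟨N, hN⟩ := bd_exists B hB
  obtain ⟨M, hM⟩ := bd_exists C hC
  exact ⟨κ, ν, inferInstance, inferInstance, N + M, fun _ => B, fun _ => C,
    fun _ => hN.mono (by omega), fun _ => hM.mono (by omega), fun _ => hd, fun _ => hE⟩

theorem BDfn.val {E : T → Submodule ℂ (L2 (ι × H))} {d : ℝ} (h : BDfn E d) :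
    ∃ m n N : ℕ, ∀ s, ∃ A : GMat (Fin m) (Fin n) H, Bd N A ∧ vdim (kerA A) = vdim (E s) + d := by
  obtain ⟨κ, ν, _, _, N, B, C, hB, hC, hd, hE⟩ := h
  refine ⟨Fintype.card κ, Fintype.card (ι ⊕ ν), N, fun s =>
    ⟨ri (Fintype.equivFin κ).symm (Fintype.equivFin (ι ⊕ ν)).symm (sd (B s) (C s)),
      bd_ri _ _ (bd_sd (hB s) (hC s)), ?_⟩⟩
  have e : E s = pre (B s) (C s) := by
    ext x
    rw [hE, mem_pre]
  rw [vdim_ri, vdim_sd, e, hd]

theorem BDfn.inf {E E' : T → Submodule ℂ (L2 (ι × H))} {d d' : ℝ} (h : BDfn E d)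
    (h' : BDfn E' d') : BDfn (fun s => E s ⊓ E' s) (d + d') := by
  obtain ⟨κ, ν, _, _, N, B, C, hB, hC, hd, hE⟩ := h
  obtain ⟨κ', ν', _, _, N', B', C', hB', hC', hd', hE'⟩ := h'
  refine ⟨κ ⊕ κ', ν ⊕ ν', inferInstance, inferInstance, N + N',
    fun s => BC.stack (B s) (B' s), fun s => bd (C s) (C' s),
    fun s => bd_stack ((hB s).mono (by omega)) ((hB' s).mono (by omega)),
    fun s => bd_bd ((hC s).mono (by omega)) ((hC' s).mono (by omega)), fun s => ?_, ?_⟩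
  · rw [vdim_bd, hd, hd']
  · intro s x
    rw [Submodule.mem_inf, hE, hE', mem_clo_bd, pl1_stack, pl2_stack]

theorem BDfn.comap {E : T → Submodule ℂ (L2 (ι' × H))} {d : ℝ} (h : BDfn E d)
    {X : T → GMat ι' ι H} {M : ℕ} (hX : ∀ s, Bd M (X s)) :
    BDfn (fun s => (E s).comap (op (X s) : L2 (ι × H) →ₗ[ℂ] L2 (ι' × H))) d := by
  obtain ⟨κ, ν, _, _, N, B, C, hB, hC, hd, hE⟩ := h
  refine ⟨κ, ν, inferInstance, inferInstance, N + Fintype.card ι' * (N * M),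
    fun s => mulM (B s) (X s), C, fun s => (bd_mulM (hB s) (hX s)).mono (by omega),
    fun s => (hC s).mono (by omega), hd, ?_⟩
  intro s x
  rw [op_mulM]
  exact hE s (op (X s) x)

theorem dfn_Sol (M : T → Mach H) {d : ℝ} (hP : BDfn (fun s => (M s).P) 0)
    (hN : BDfn (fun s => (M s).Pᗮ) d) : BDfn (fun s => (M s).Sol) (4 * d) := by
  have hZ : ∀ i : Fin 4, BDfn (fun s => ((M s).Pᗮ).comap
      (op (rw2 i i 1 (M s).f) : L2 (Fin 4 × H) →ₗ[ℂ] L2 (Unit × H))) d :=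
    fun i => hN.comap (fun s => bd_rw2 _ _ _ _)
  have h1 : BDfn (fun s => ((M s).P).comap
      (op (rw2 2 0 1 (M s).g) : L2 (Fin 4 × H) →ₗ[ℂ] L2 (Unit × H))) 0 :=
    hP.comap (fun s => bd_rw2 _ _ _ _)
  have h2 : BDfn (fun s => ((M s).P).comap
      (op (rw2 3 1 1 (M s).g) : L2 (Fin 4 × H) →ₗ[ℂ] L2 (Unit × H))) 0 :=
    hP.comap (fun s => bd_rw2 _ _ _ _)
  have h3 : BDfn (fun s => ((M s).P).comap
      (op (rw2 1 0 (M s).f ((M s).f * (M s).h)) : L2 (Fin 4 × H) →ₗ[ℂ] L2 (Unit × H))) 0 :=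
    hP.comap (fun s => bd_rw2 _ _ _ _)
  have h4 : BDfn (fun s => ((M s).P).comap
      (op (rw2 3 2 (M s).f ((M s).f * (M s).h)) : L2 (Fin 4 × H) →ₗ[ℂ] L2 (Unit × H))) 0 :=
    hP.comap (fun s => bd_rw2 _ _ _ _)
  have h5 := ((((hZ 0).inf (hZ 1)).inf (hZ 2)).inf (hZ 3)).inf ((h1.inf h2).inf (h3.inf h4))
  have e1 : d + d + d + d + (0 + 0 + (0 + 0)) = 4 * d := by ring
  rw [e1] at h5
  have e2 : (fun s => (M s).Sol) = fun s => (((((M s).Pᗮ).comap
      (op (rw2 0 0 1 (M s).f) : L2 (Fin 4 × H) →ₗ[ℂ] L2 (Unit × H)) ⊓ ((M s).Pᗮ).comap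
      (op (rw2 1 1 1 (M s).f) : L2 (Fin 4 × H) →ₗ[ℂ] L2 (Unit × H))) ⊓ ((M s).Pᗮ).comap
      (op (rw2 2 2 1 (M s).f) : L2 (Fin 4 × H) →ₗ[ℂ] L2 (Unit × H))) ⊓ ((M s).Pᗮ).comap
      (op (rw2 3 3 1 (M s).f) : L2 (Fin 4 × H) →ₗ[ℂ] L2 (Unit × H))) ⊓ ((((M s).P).comap
      (op (rw2 2 0 1 (M s).g) : L2 (Fin 4 × H) →ₗ[ℂ] L2 (Unit × H)) ⊓ ((M s).P).comap
      (op (rw2 3 1 1 (M s).g) : L2 (Fin 4 × H) →ₗ[ℂ] L2 (Unit × H))) ⊓ (((M s).P).comap
      (op (rw2 1 0 (M s).f ((M s).f * (M s).h)) : L2 (Fin 4 × H) →ₗ[ℂ] L2 (Unit × H)) ⊓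
      ((M s).P).comap
      (op (rw2 3 2 (M s).f ((M s).f * (M s).h)) : L2 (Fin 4 × H) →ₗ[ℂ] L2 (Unit × H)))) := by
    funext s
    ext x
    simp only [Submodule.mem_inf, Submodule.mem_comap, ContinuousLinearMap.coe_coe, op_rw2,
      U_one, U_mul, ← map_sub]
    rw [(M s).mem_Sol]
    have hz : ∀ i, (cj i x ∈ (M s).Z ↔ cj i x - U (M s).f (cj i x) ∈ (M s).Pᗮ) := fun i => Iff.rfl
    constructor
    · rintro ⟨k1, ⟨k2, k3⟩, k4, k5⟩
      exact ⟨⟨⟨⟨k1 0, k1 1⟩, k1 2⟩, k1 3⟩, ⟨k2, k3⟩, k4, k5⟩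
    · rintro ⟨⟨⟨⟨a0, a1⟩, a2⟩, a3⟩, ⟨k2, k3⟩, k4, k5⟩
      refine ⟨?_, ⟨k2, k3⟩, k4, k5⟩
      intro i
      fin_cases i
      · exact a0
      · exact a1
      · exact a2
      · exact a3
  rw [e2]
  exact h5

/-- **The values of the machine**, with bounded matrices. -/
theorem value {G : Type} [Group G] (hG : TF G)
    {ι κ : Type} [Fintype ι] [Fintype κ] (A : GMat κ ι G) (T : GMat Unit ι G)
    (hA : Coef (⊥ : Subring ℂ) A)
    (hT : Coef (⊥ : Subring ℂ) T) (h : kerA A ⊓ kerA T = ⊥) (h1 : vdim (kerA A) < 1) :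
    ∃ m n N : ℕ, ∀ (S : Set ℕ) [DecidablePred (· ∈ S)],
      ∃ w : ℝ, HasSum (fun n : ℕ => if n ∈ S then (1 - vdim (kerA A)) ^ 2 * vdim (kerA A) ^ n
        else 0) w ∧ ∃ B : GMat (Fin m) (Fin n) (Hg G), Bd N B ∧
          vdim (kerA B) = w + 4 * (Fintype.card κ - Fintype.card ι + vdim (kerA A)) := by
  set A2 := BC.push (inc G) A with hA2
  set T2 := BC.push (inc G) T with hT2
  have hv : vdim (kerA A2) = vdim (kerA A) := vdim_push (inc G) inc_inj A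
  have hbot : kerA A2 ⊓ kerA T2 = ⊥ := by
    rw [hA2, hT2, ← kerA_stack, ← push_stack]
    apply eq_bot_of_vdim (isClosed_kerA _) (linv_kerA _)
    rw [vdim_push (inc G) inc_inj, kerA_stack, h, vdim_bot]
  have hsupp : ∀ (a : G →₀ ℂ), ∀ x ∈ (a.mapDomain (inc G)).support, x ∈ DIg G {0} := by
    classical
    intro a x hx
    have := Finsupp.mapDomain_support hx
    rw [Finset.mem_image] at this
    obtain ⟨y, _, rfl⟩ := this
    exact inc_mem y
  have hloc : Loc (DIg G {0}) (lampP A2 T2) :=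
    loc_lampP _ (fun k i x hx => hsupp _ x hx) (fun k i x hx => hsupp _ x hx)
  let M : Set ℕ → Mach (Hg G) := fun S => mach G S (lampP A2 T2) (closed_lampP A2 T2) hloc
  have hα : ∀ S, (M S).α = vdim (kerA A) := by
    intro S
    rw [← hv]
    exact vdim_lampP A2 T2 hbot
  have hc1 := coef_push (inc G) A hA
  have hc2 := coef_push (inc G) T hT
  have hR : ∀ c ∈ (⊥ : Subring ℂ), (starRingEnd ℂ) c ∈ (⊥ : Subring ℂ) := by
    intro c hc
    obtain ⟨k, rfl⟩ := Subring.mem_bot.1 hc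
    rw [map_intCast]
    exact Subring.mem_bot.2 ⟨k, rfl⟩
  have d1 : Dfn (⊥ : Subring ℂ) (lampP A2 T2) 0 := dfn_lampP hc1 hc2 hbot
  have d2 : Dfn (⊥ : Subring ℂ) (lampP A2 T2)ᗮ
      (Fintype.card κ - Fintype.card ι + vdim (kerA A2)) := dfn_lampP_orth hR hc1 hc2
  have d3 : BDfn (fun S => (M S).Sol) (4 * (Fintype.card κ - Fintype.card ι + vdim (kerA A2))) :=
    dfn_Sol M (BDfn.const d1) (BDfn.const d2)
  obtain ⟨m, n, N, hval⟩ := d3.val
  refine ⟨m, n, N, fun S _ => ?_⟩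
  obtain ⟨B, hB, hBv⟩ := hval S
  have h3 := (M S).vdim_Sol (by rw [hα]; exact h1) S
    (fun n hn => mach_good S _ (closed_lampP A2 T2) hloc n hn) (by
      intro n hn k hk hc
      refine mach_bad S _ (closed_lampP A2 T2) hloc n hn ?_
      have h4 := tf_Hg hG _ k hk hc
      have h5 := inv_mul_eq_one.1 h4
      exact h5.symm)
  rw [hα] at h3
  rw [hv] at hBv
  exact ⟨vdim (M S).Sol, h3, B, hB, hBv⟩

end Pool.Agent.U700.IB
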