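import Pool.Agent.U700.IB1
import Pool.Agent.U700.IA5

/-!
All numbers in the unit interval as kernel dimensions of integral matrices of bounded complexity
over one group.
-/

set_option autoImplicit false
set_option linter.unusedSectionVars false

open scoped InnerProductSpace ENNReal ComplexConjugate
open Filter Topology

namespace Pool.Agent.U700.IB

open Pool.Agent.W656.VA
open Pool.Agent.H80R2
open Pool.Agent.H80R2.BC (L2 GMat vdim IsTr LInv Equi act kerA Coef pt vals)
open Pool.Agent.H812R3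
open Pool.Agent.TH25.AD
open Pool.Agent.Results.MP_95030e_al.AllOrNothing (TorsionFree ClosedClass cls all_values)

variable {C : (G : Type) → [Group G] → Prop}

theorem interval (hC : Cls C) {α : ℝ} (h : VV C (⊥ : Subring ℂ) α)
    (h1 : 1 / 2 ≤ α) (h2 : α < 1) : ∃ (V : Type) (_ : Group V), C V ∧ ∃ (m n N : ℕ) (d : ℝ),
      0 ≤ d ∧ ∀ r : ℝ, 0 ≤ r → r ≤ 1 - α →
        ∃ B : GMat (Fin m) (Fin n) V, Bd N B ∧ vdim (kerA B) = r + d := by
  classical
  obtain ⟨G, _, hG, hv⟩ := h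
  obtain ⟨m, ι, κ, _, _, A, T, hA, hT, hAT, hvA⟩ := lamp_exists hv h2
  have hG' := hC.free G m hG
  have htf : TF (Monoid.Coprod G (FreeGroup (Fin m))) := hC.tf _ hG'
  obtain ⟨m', n', N, hval⟩ := value htf A T hA hT hAT (by rw [hvA]; exact h2)
  have key : ∀ r : ℝ, 0 ≤ r → r ≤ 1 - α → ∃ B : GMat (Fin m') (Fin n')
      (Hg (Monoid.Coprod G (FreeGroup (Fin m)))), Bd N B ∧
        vdim (kerA B) = r + 4 * (Fintype.card κ - Fintype.card ι + vdim (kerA A)) := by
    intro r hr0 hr1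
    have h3 : 0 < 1 - α := by linarith
    have h4 : (1 - α) ^ 2 ≠ 0 := by positivity
    have h5 := greedy h1 h2 (t := r / (1 - α) ^ 2) (by positivity) (by
      rw [div_le_div_iff₀ (by positivity) h3]
      nlinarith)
    set S : Set ℕ := {n | 1 ≤ rem α (r / (1 - α) ^ 2) n} with hS
    obtain ⟨w, hw, B, hB, hBv⟩ := hval S
    have h6 : HasSum (fun n : ℕ => if n ∈ S then (1 - vdim (kerA A)) ^ 2 * vdim (kerA A) ^ n
        else 0) r := by
      have h7 := h5.mul_left ((1 - α) ^ 2)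
      have e1 : (1 - α) ^ 2 * (r / (1 - α) ^ 2) = r := by field_simp
      rw [e1] at h7
      have e3 : (fun n : ℕ => if n ∈ S then (1 - α) ^ 2 * α ^ n else 0)
          = fun n : ℕ => (1 - α) ^ 2 * (if 1 ≤ rem α (r / (1 - α) ^ 2) n then α ^ n else 0) := by
        funext n
        by_cases hn : 1 ≤ rem α (r / (1 - α) ^ 2) n
        · rw [if_pos hn, if_pos (show n ∈ S from hn)]
        · rw [if_neg hn, if_neg (show n ∉ S from hn), mul_zero]
      rw [hvA, e3]
      exact h7
    rw [hw.unique h6] at hBv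
    exact ⟨B, hB, hBv⟩
  refine ⟨Hg (Monoid.Coprod G (FreeGroup (Fin m))), inferInstance, hC.hg hG', m', n', N, _, ?_, key⟩
  obtain ⟨B, _, hB⟩ := key 0 le_rfl (by linarith)
  have := vdim_nonneg (kerA B)
  linarith

/-- multiples -/
theorem mult {V : Type} [Group V] (m n N M : ℕ) : ∃ m' n' : ℕ, ∀ A : GMat (Fin m) (Fin n) V,
    Bd N A → ∃ B : GMat (Fin m') (Fin n') V, Bd N B ∧ vdim (kerA B) = M * vdim (kerA A) := by
  induction M with
  | zero =>
    refine ⟨0, 0, fun A _ => ⟨fun _ _ => 0, ⟨fun k => k.elim0, fun k => k.elim0⟩, ?_⟩⟩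
    unfold vdim
    simp
  | succ M ih =>
    obtain ⟨m', n', h⟩ := ih
    refine ⟨m' + m, n' + n, fun A hA => ?_⟩
    obtain ⟨B, hB, hBv⟩ := h A hA
    refine ⟨ri (finSumFinEquiv (m := m') (n := m)).symm (finSumFinEquiv (m := n') (n := n)).symm
      (bd B A), bd_ri _ _ (bd_bd hB hA), ?_⟩
    rw [vdim_ri, vdim_bd, hBv]
    push_cast
    ring

/-- **cutting by integers** -/
theorem cut {m n : ℕ} {G : Type} [Group G] (j N : ℕ) (A : GMat (Fin m) (Fin n) G)
    (hA : Bd N A) (hj : (j : ℝ) < vdim (kerA A)) :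
    ∃ B : GMat (Fin (Fintype.card (Fin m ⊕ (Fin j × Unit)))) (Fin (Fintype.card (Fin n × Unit)))
      (Monoid.Coprod G (FreeGroup (Fin (n * j)))), Bd (N + 1) B ∧
        vdim (kerA B) = vdim (kerA A) - j := by
  classical
  set A' : GMat (Fin m) (Fin n × Unit) G := ri (Equiv.refl _) (Equiv.prodPUnit (Fin n)) A
    with hA'
  have hAv : vdim (kerA A') = vdim (kerA A) := vdim_ri _ _ _
  have hAB : Bd (N + 1) A' := (bd_ri _ _ hA).mono (by omega)
  set e : Fin n × Fin j ≃ Fin (n * j) := finProdFinEquiv with he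
  have hgen := BC.generic_coprod G (n * j) e
  set inc : G →* Monoid.Coprod G (FreeGroup (Fin (n * j))) := Monoid.Coprod.inl with hinc
  set u : Fin n → Fin j → Monoid.Coprod G (FreeGroup (Fin (n * j))) := fun p q =>
    (Monoid.Coprod.inr : FreeGroup (Fin (n * j)) →* Monoid.Coprod G (FreeGroup (Fin (n * j))))
        (FreeGroup.of (e (p, q))) with hu
  have hinj : Function.Injective inc := Monoid.Coprod.inl_injective
  refine ⟨ri (Fintype.equivFin _).symm (Fintype.equivFin _).symm (BC.Cut inc u A'),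
    bd_ri _ _ (bd_Cut inc u (by omega) hAB), ?_⟩
  rw [vdim_ri]
  have h1 := cut_eq inc hinj u hgen A'
  have h2 := cut_ge inc hinj u A' ⊤
  set Z := kerA (BC.Cut inc u A') with hZdef
  set Φ := vals Z with hΦ
  have ftop : fd A' ⊤ = vdim (kerA A) := by
    unfold fd
    rw [← hAv]
    congr 1
    exact inf_eq_left.2 (fun x _ p g => trivial)
  have h3 : vdim (Z ⊓ pt ⊤) ≤ vdim Z := vdim_mono inf_le_left
  rw [ftop, finrank_top, Module.finrank_fintype_fun_eq_card] at h2
  simp only [Fintype.card_fin, Fintype.card_unit, Nat.cast_one, mul_one] at h2 h1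
  have h4 : Module.finrank ℂ Φ ≤ 1 := by
    have := Submodule.finrank_le Φ
    rwa [Module.finrank_fintype_fun_eq_card, Fintype.card_unit] at this
  have h5 : fd A' Φ ≤ vdim (kerA A) := by
    rw [← hAv]
    exact vdim_mono inf_le_left
  rcases Nat.le_one_iff_eq_zero_or_eq_one.1 h4 with h6 | h6
  · exfalso
    have h7 : Φ = ⊥ := Submodule.finrank_eq_zero.1 h6
    have h8 : fd A' Φ = 0 := by
      unfold fd
      rw [h7]
      have : kerA A' ⊓ pt ⊥ = ⊥ := by
        rw [eq_bot_iff]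
        rintro x ⟨_, hx⟩
        rw [Submodule.mem_bot]
        ext ⟨⟨p, i⟩, g⟩
        exact congrFun ((Submodule.mem_bot ℂ).1 (hx p g)) i
      rw [this, vdim_bot]
    rw [h8, h6] at h1
    simp only [Nat.cast_zero, mul_zero, sub_zero] at h1
    linarith
  · rw [h6] at h1
    simp only [Nat.cast_one, mul_one] at h1
    linarith

/-- **All or nothing with bounded complexity, over one group.** -/
theorem all_bounded (hC : ClosedClass C)
    (h : ¬ ∀ (G : Type) [Group G], C G → ∀ (m n : ℕ) (A : Matrix (Fin m) (Fin n) (G →₀ ℂ)),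
      ∃ z : ℤ, Pool.Agent.Results.MP_95030e_al.AllOrNothing.kerDim A = z) :
    ∃ (V : Type) (_ : Group V), C V ∧ ∃ (m n N : ℕ), ∀ r : ℝ, 0 < r → r ≤ 1 →
      ∃ B : GMat (Fin m) (Fin n) V, Bd N B ∧ vdim (kerA B) = r := by
  have h0 := all_values hC h (1 / 2) (by norm_num)
  obtain ⟨V, _, hV, m, n, N, d, hd, hint⟩ := interval (cls hC) h0 le_rfl (by norm_num)
  obtain ⟨m', n', hmul⟩ := mult (V := V) m n N 4
  set j : ℕ := ⌈4 * d⌉₊ with hj
  have hj1 : 4 * d ≤ j := Nat.le_ceil _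
  have hj2 : (j : ℝ) < 4 * d + 1 := Nat.ceil_lt_add_one (by positivity)
  refine ⟨Monoid.Coprod V (FreeGroup (Fin (n' * j))), inferInstance,
    (cls hC).free V (n' * j) hV, Fintype.card (Fin m' ⊕ (Fin j × Unit)),
    Fintype.card (Fin n' × Unit), N + 1, fun r hr0 hr1 => ?_⟩
  obtain ⟨A, hA, hAv⟩ := hint ((j + r) / 4 - d) (by linarith) (by linarith)
  obtain ⟨B, hB, hBv⟩ := hmul A hA
  have h3 : vdim (kerA B) = j + r := by
    rw [hBv, hAv]
    push_cast
    ring
  obtain ⟨D, hD, hDv⟩ := cut j N B hB (by rw [h3]; linarith)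
  refine ⟨D, hD, ?_⟩
  rw [hDv, h3]
  ring

end Pool.Agent.U700.IB
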