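import Pool.Agent.U700.IB2

/-!
The machine for families of matrices `X + Y g`, where `g` runs over the elements of one group.
-/

set_option autoImplicit false
set_option linter.unusedSectionVars false

open scoped InnerProductSpace ENNReal ComplexConjugate
open Filter Topology

namespace Pool.Agent.U700.IB

open Pool.Agent.W656.VA
open Pool.Agent.H80R2
open Pool.Agent.H80R2.BC (L2 GMat vdim IsTr LInv Equi act kerA Coef pt vals)
open Pool.Agent.H812R3
open Pool.Agent.TH25.AD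
open Pool.Agent.Results.MP_95030e_al.AllOrNothing (TorsionFree ClosedClass cls all_values)

variable {ι κ ν ι' κ' ν' H : Type} [Group H] [Fintype ι] [Fintype κ] [Fintype ν] [Fintype ι']
  [Fintype κ'] [Fintype ν']

/-- right multiplication by a group element -/
noncomputable def rm (a : H →₀ ℂ) (g : H) : H →₀ ℂ := a.mapDomain (fun h => h * g)

theorem rm_zero (g : H) : rm 0 g = 0 := Finsupp.mapDomain_zero

theorem rm_add (a b : H →₀ ℂ) (g : H) : rm (a + b) g = rm a g + rm b g := Finsupp.mapDomain_add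

theorem rm_sum {α : Type} (s : Finset α) (f : α → H →₀ ℂ) (g : H) :
    rm (∑ i ∈ s, f i) g = ∑ i ∈ s, rm (f i) g := Finsupp.mapDomain_finsetSum

theorem rm_neg (a : H →₀ ℂ) (g : H) : rm (-a) g = -rm a g := by
  have h := rm_add a (-a) g
  rw [add_neg_cancel, rm_zero] at h
  exact (neg_eq_of_add_eq_zero_right h.symm).symm

theorem rm_single (x g : H) (c : ℂ) : rm (Finsupp.single x c) g = Finsupp.single (x * g) c :=
  Finsupp.mapDomain_single

theorem conv_add (a b c : H →₀ ℂ) : conv a (b + c) = conv a b + conv a c := by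
  unfold conv
  rw [← Finsupp.sum_add]
  refine Finsupp.sum_congr fun h _ => ?_
  rw [Finsupp.mapDomain_add, smul_add]

theorem conv_rm (a b : H →₀ ℂ) (g : H) : conv a (rm b g) = rm (conv a b) g := by
  unfold conv
  rw [Finsupp.sum, Finsupp.sum, rm_sum]
  refine Finset.sum_congr rfl fun h _ => ?_
  unfold rm
  rw [Finsupp.mapDomain_smul, ← Finsupp.mapDomain_comp, ← Finsupp.mapDomain_comp]
  congr 2
  funext x
  exact (mul_assoc h x g).symm

/-- the matrix `X + Y g` -/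
noncomputable def aff (X Y : GMat κ ι H) (g : H) : GMat κ ι H := fun k i => X k i + rm (Y k i) g

theorem aff_zero (X : GMat κ ι H) (g : H) : aff X (fun _ _ => 0) g = X := by
  funext k i
  unfold aff
  rw [rm_zero, add_zero]

variable {T : Type}

/-- families of matrices `X + Y g` -/
def Aff (γ : T → H) (A : T → GMat κ ι H) : Prop :=
  ∃ X Y : GMat κ ι H, Coef (⊥ : Subring ℂ) X ∧ Coef (⊥ : Subring ℂ) Y ∧ ∀ s, A s = aff X Y (γ s)

theorem coef_zero : Coef (⊥ : Subring ℂ) (fun _ _ => 0 : GMat κ ι H) := fun _ _ _ =>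
  Subring.zero_mem _

theorem Aff.const (γ : T → H) {A : GMat κ ι H} (hA : Coef (⊥ : Subring ℂ) A) :
    Aff γ (fun _ => A) :=
  ⟨A, fun _ _ => 0, hA, coef_zero, fun s => (aff_zero A (γ s)).symm⟩

theorem Aff.stack {γ : T → H} {A : T → GMat κ ι H} {B : T → GMat κ' ι H} (hA : Aff γ A)
    (hB : Aff γ B) : Aff γ (fun s => BC.stack (A s) (B s)) := by
  obtain ⟨X, Y, h1, h2, h3⟩ := hA
  obtain ⟨X', Y', k1, k2, k3⟩ := hB
  refine ⟨BC.stack X X', BC.stack Y Y', coef_stack h1 k1, coef_stack h2 k2, fun s => ?_⟩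
  beta_reduce
  rw [h3, k3]
  funext k i
  rcases k with k | k <;> rfl

theorem aff_bd (X Y : GMat κ ι H) (X' Y' : GMat κ' ι' H) (g : H) :
    bd (aff X Y g) (aff X' Y' g) = aff (bd X X') (bd Y Y') g := by
  funext k i
  rcases k with k | k <;> rcases i with i | i
  · rfl
  · change (0 : H →₀ ℂ) = 0 + rm 0 g
    rw [rm_zero, add_zero]
  · change (0 : H →₀ ℂ) = 0 + rm 0 g
    rw [rm_zero, add_zero]
  · rfl

theorem Aff.sd {γ : T → H} {B : T → GMat κ ι H} {C : GMat κ ν H} (hB : Aff γ B)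
    (hC : Coef (⊥ : Subring ℂ) C) : Aff γ (fun s => sd (B s) C) := by
  obtain ⟨X, Y, h1, h2, h3⟩ := hB
  refine ⟨TH25.AD.sd X C, fun k => Sum.elim (Y k) (fun _ => 0), coef_sd h1 hC, ?_, fun s => ?_⟩
  · rintro k (i | i) g
    · exact h2 k i g
    · exact Subring.zero_mem _
  · beta_reduce
    rw [h3]
    funext k i
    rcases i with i | i
    · rfl
    · change -(C k i) = -(C k i) + rm 0 (γ s)
      rw [rm_zero, add_zero]

theorem mulM_aff (B : GMat κ ι' H) (X Y : GMat ι' ι H) (g : H) :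
    mulM B (aff X Y g) = aff (mulM B X) (mulM B Y) g := by
  funext k i
  unfold mulM aff
  rw [rm_sum, ← Finset.sum_add_distrib]
  refine Finset.sum_congr rfl fun j _ => ?_
  rw [conv_add, conv_rm]

theorem Aff.mulM {γ : T → H} {B : GMat κ ι' H} {X : T → GMat ι' ι H}
    (hB : Coef (⊥ : Subring ℂ) B) (hX : Aff γ X) : Aff γ (fun s => mulM B (X s)) := by
  obtain ⟨X', Y', h1, h2, h3⟩ := hX
  exact ⟨TH25.AD.mulM B X', TH25.AD.mulM B Y', coef_mulM hB h1, coef_mulM hB h2, fun s => by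
    beta_reduce
    rw [h3, mulM_aff]⟩

theorem Aff.rw2 (γ : T → H) (i j : Fin 4) : Aff γ (fun s => rw2 i j 1 (γ s)) := by
  refine ⟨rw1 i 1, fun u k => -rw1 j 1 u k, ?_, ?_, fun s => ?_⟩
  · intro u k h
    unfold rw1
    split_ifs
    · exact coef_single _ _ (Subring.one_mem _) _
    · exact Subring.zero_mem _
  · intro u k h
    rw [Finsupp.neg_apply]
    apply Subring.neg_mem
    unfold rw1
    split_ifs
    · exact coef_single _ _ (Subring.one_mem _) _
    · exact Subring.zero_mem _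
  · funext u k
    unfold TH25.AD.rw2 aff
    beta_reduce
    rw [rm_neg, sub_eq_add_neg]
    congr 2
    unfold rw1
    split_ifs
    · rw [rm_single, one_mul]
    · rw [rm_zero]

/-- the subspaces `E s` are defined by matrices `X + Y g` over the integers, with defect `d` -/
def ADfn (γ : T → H) (E : T → Submodule ℂ (L2 (ι × H))) (d : ℝ) : Prop :=
  ∃ (κ ν : Type) (_ : Fintype κ) (_ : Fintype ν) (B : T → GMat κ ι H) (C : GMat κ ν H),
    Aff γ B ∧ Coef (⊥ : Subring ℂ) C ∧ vdim (kerA C) = d ∧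
      ∀ s x, x ∈ E s ↔ op (B s) x ∈ clo (op C)

theorem ADfn.val {γ : T → H} {E : T → Submodule ℂ (L2 (ι × H))} {d : ℝ} (h : ADfn γ E d) :
    ∃ (m n : ℕ) (X Y : GMat (Fin m) (Fin n) H), Coef (⊥ : Subring ℂ) X ∧
      Coef (⊥ : Subring ℂ) Y ∧ ∀ s, vdim (kerA (aff X Y (γ s))) = vdim (E s) + d := by
  obtain ⟨κ, ν, _, _, B, C, hB, hC, hd, hE⟩ := h
  obtain ⟨X, Y, h1, h2, h3⟩ := hB.sd hC
  refine ⟨Fintype.card κ, Fintype.card (ι ⊕ ν),
    ri (Fintype.equivFin κ).symm (Fintype.equivFin (ι ⊕ ν)).symm X,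
    ri (Fintype.equivFin κ).symm (Fintype.equivFin (ι ⊕ ν)).symm Y,
    fun _ _ _ => h1 _ _ _, fun _ _ _ => h2 _ _ _, fun s => ?_⟩
  have e : E s = pre (B s) C := by
    ext x
    rw [hE, mem_pre]
  have e2 : aff (ri (Fintype.equivFin κ).symm (Fintype.equivFin (ι ⊕ ν)).symm X)
      (ri (Fintype.equivFin κ).symm (Fintype.equivFin (ι ⊕ ν)).symm Y) (γ s) =
      ri (Fintype.equivFin κ).symm (Fintype.equivFin (ι ⊕ ν)).symm (aff X Y (γ s)) := rfl
  rw [e2, vdim_ri, ← h3, vdim_sd, e, hd]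

theorem ADfn.inf {γ : T → H} {E E' : T → Submodule ℂ (L2 (ι × H))} {d d' : ℝ} (h : ADfn γ E d)
    (h' : ADfn γ E' d') : ADfn γ (fun s => E s ⊓ E' s) (d + d') := by
  obtain ⟨κ, ν, _, _, B, C, hB, hC, hd, hE⟩ := h
  obtain ⟨κ', ν', _, _, B', C', hB', hC', hd', hE'⟩ := h'
  refine ⟨κ ⊕ κ', ν ⊕ ν', inferInstance, inferInstance,
    fun s => BC.stack (B s) (B' s), bd C C', hB.stack hB', coef_bd hC hC', ?_, ?_⟩
  · rw [vdim_bd, hd, hd']
  · intro s x
    rw [Submodule.mem_inf, hE, hE', mem_clo_bd, pl1_stack, pl2_stack]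

theorem ADfn.comap {γ : T → H} {E : Submodule ℂ (L2 (ι' × H))} {d : ℝ}
    (h : Dfn (⊥ : Subring ℂ) E d) {X : T → GMat ι' ι H} (hX : Aff γ X) :
    ADfn γ (fun s => E.comap (op (X s) : L2 (ι × H) →ₗ[ℂ] L2 (ι' × H))) d := by
  obtain ⟨κ, ν, _, _, B, C, hB, hC, hd, hE⟩ := h
  refine ⟨κ, ν, inferInstance, inferInstance, fun s => mulM B (X s), C, Aff.mulM hB hX, hC, hd, ?_⟩
  intro s x
  rw [op_mulM]
  exact hE (op (X s) x)

theorem adfn_Sol {G : Type} [Group G] (P : Submodule ℂ (L2 (Unit × Hg G)))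
    (hP : IsClosed (P : Set (L2 (Unit × Hg G)))) (hloc : Loc (DIg G {0}) P) {d : ℝ}
    (h0 : Dfn (⊥ : Subring ℂ) P 0) (hN : Dfn (⊥ : Subring ℂ) Pᗮ d) :
    ADfn (fun S : Set ℕ => gg G S) (fun S => (mach G S P hP hloc).Sol) (4 * d) := by
  set γ : Set ℕ → Hg G := fun S => gg G S with hγ
  have hZ : ∀ i : Fin 4, ADfn γ (fun _ => (Pᗮ).comap
      (op (rw2 i i 1 (Wr.t : Hg G)) : L2 (Fin 4 × Hg G) →ₗ[ℂ] L2 (Unit × Hg G))) d :=
    fun i => ADfn.comap hN (Aff.const γ (coef_rw2 _ _ _ _))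
  have h1 : ADfn γ (fun S => P.comap
      (op (rw2 2 0 1 (γ S)) : L2 (Fin 4 × Hg G) →ₗ[ℂ] L2 (Unit × Hg G))) 0 :=
    ADfn.comap h0 (Aff.rw2 γ _ _)
  have h2 : ADfn γ (fun S => P.comap
      (op (rw2 3 1 1 (γ S)) : L2 (Fin 4 × Hg G) →ₗ[ℂ] L2 (Unit × Hg G))) 0 :=
    ADfn.comap h0 (Aff.rw2 γ _ _)
  have h3 : ADfn γ (fun _ => P.comap
      (op (rw2 1 0 (Wr.t : Hg G) (Wr.t * hh G)) :
        L2 (Fin 4 × Hg G) →ₗ[ℂ] L2 (Unit × Hg G))) 0 :=
    ADfn.comap h0 (Aff.const γ (coef_rw2 _ _ _ _))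
  have h4 : ADfn γ (fun _ => P.comap
      (op (rw2 3 2 (Wr.t : Hg G) (Wr.t * hh G)) :
        L2 (Fin 4 × Hg G) →ₗ[ℂ] L2 (Unit × Hg G))) 0 :=
    ADfn.comap h0 (Aff.const γ (coef_rw2 _ _ _ _))
  have h5 := ((((hZ 0).inf (hZ 1)).inf (hZ 2)).inf (hZ 3)).inf ((h1.inf h2).inf (h3.inf h4))
  have e1 : d + d + d + d + (0 + 0 + (0 + 0)) = 4 * d := by ring
  rw [e1] at h5
  have e2 : (fun S => (mach G S P hP hloc).Sol) = fun S => ((((Pᗮ).comap
      (op (rw2 0 0 1 (Wr.t : Hg G)) : L2 (Fin 4 × Hg G) →ₗ[ℂ] L2 (Unit × Hg G)) ⊓ (Pᗮ).comap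
      (op (rw2 1 1 1 (Wr.t : Hg G)) : L2 (Fin 4 × Hg G) →ₗ[ℂ] L2 (Unit × Hg G))) ⊓ (Pᗮ).comap
      (op (rw2 2 2 1 (Wr.t : Hg G)) : L2 (Fin 4 × Hg G) →ₗ[ℂ] L2 (Unit × Hg G))) ⊓ (Pᗮ).comap
      (op (rw2 3 3 1 (Wr.t : Hg G)) : L2 (Fin 4 × Hg G) →ₗ[ℂ] L2 (Unit × Hg G))) ⊓ ((P.comap
      (op (rw2 2 0 1 (γ S)) : L2 (Fin 4 × Hg G) →ₗ[ℂ] L2 (Unit × Hg G)) ⊓ P.comap
      (op (rw2 3 1 1 (γ S)) : L2 (Fin 4 × Hg G) →ₗ[ℂ] L2 (Unit × Hg G))) ⊓ (P.comap
      (op (rw2 1 0 (Wr.t : Hg G) (Wr.t * hh G)) :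
        L2 (Fin 4 × Hg G) →ₗ[ℂ] L2 (Unit × Hg G)) ⊓ P.comap
      (op (rw2 3 2 (Wr.t : Hg G) (Wr.t * hh G)) :
        L2 (Fin 4 × Hg G) →ₗ[ℂ] L2 (Unit × Hg G)))) := by
    funext S
    ext x
    simp only [Submodule.mem_inf, Submodule.mem_comap, ContinuousLinearMap.coe_coe, op_rw2,
      U_one, U_mul, ← map_sub]
    rw [(mach G S P hP hloc).mem_Sol]
    constructor
    · rintro ⟨k1, ⟨k2, k3⟩, k4, k5⟩
      exact ⟨⟨⟨⟨k1 0, k1 1⟩, k1 2⟩, k1 3⟩, ⟨k2, k3⟩, k4, k5⟩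
    · rintro ⟨⟨⟨⟨a0, a1⟩, a2⟩, a3⟩, ⟨k2, k3⟩, k4, k5⟩
      refine ⟨?_, ⟨k2, k3⟩, k4, k5⟩
      intro i
      fin_cases i
      · exact a0
      · exact a1
      · exact a2
      · exact a3
  rw [e2]
  exact h5

/-- **The values of the machine**, for one family `X + Y g`. -/
theorem value' {G : Type} [Group G] (hG : TF G)
    {ι κ : Type} [Fintype ι] [Fintype κ] (A : GMat κ ι G) (T : GMat Unit ι G)
    (hA : Coef (⊥ : Subring ℂ) A)
    (hT : Coef (⊥ : Subring ℂ) T) (h : kerA A ⊓ kerA T = ⊥) (h1 : vdim (kerA A) < 1) :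
    ∃ (m n : ℕ) (X Y : GMat (Fin m) (Fin n) (Hg G)), Coef (⊥ : Subring ℂ) X ∧
      Coef (⊥ : Subring ℂ) Y ∧ ∀ (S : Set ℕ) [DecidablePred (· ∈ S)],
      ∃ w : ℝ, HasSum (fun n : ℕ => if n ∈ S then (1 - vdim (kerA A)) ^ 2 * vdim (kerA A) ^ n
        else 0) w ∧ vdim (kerA (aff X Y (gg G S))) =
          w + 4 * (Fintype.card κ - Fintype.card ι + vdim (kerA A)) := by
  set A2 := BC.push (inc G) A with hA2
  set T2 := BC.push (inc G) T with hT2
  have hv : vdim (kerA A2) = vdim (kerA A) := vdim_push (inc G) inc_inj A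
  have hbot : kerA A2 ⊓ kerA T2 = ⊥ := by
    rw [hA2, hT2, ← kerA_stack, ← push_stack]
    apply eq_bot_of_vdim (isClosed_kerA _) (linv_kerA _)
    rw [vdim_push (inc G) inc_inj, kerA_stack, h, vdim_bot]
  have hsupp : ∀ (a : G →₀ ℂ), ∀ x ∈ (a.mapDomain (inc G)).support, x ∈ DIg G {0} := by
    classical
    intro a x hx
    have := Finsupp.mapDomain_support hx
    rw [Finset.mem_image] at this
    obtain ⟨y, _, rfl⟩ := this
    exact inc_mem y
  have hloc : Loc (DIg G {0}) (lampP A2 T2) :=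
    loc_lampP _ (fun k i x hx => hsupp _ x hx) (fun k i x hx => hsupp _ x hx)
  let M : Set ℕ → Mach (Hg G) := fun S => mach G S (lampP A2 T2) (closed_lampP A2 T2) hloc
  have hα : ∀ S, (M S).α = vdim (kerA A) := by
    intro S
    rw [← hv]
    exact vdim_lampP A2 T2 hbot
  have hc1 := coef_push (inc G) A hA
  have hc2 := coef_push (inc G) T hT
  have hR : ∀ c ∈ (⊥ : Subring ℂ), (starRingEnd ℂ) c ∈ (⊥ : Subring ℂ) := by
    intro c hc
    obtain ⟨k, rfl⟩ := Subring.mem_bot.1 hc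
    rw [map_intCast]
    exact Subring.mem_bot.2 ⟨k, rfl⟩
  have d1 : Dfn (⊥ : Subring ℂ) (lampP A2 T2) 0 := dfn_lampP hc1 hc2 hbot
  have d2 : Dfn (⊥ : Subring ℂ) (lampP A2 T2)ᗮ
      (Fintype.card κ - Fintype.card ι + vdim (kerA A2)) := dfn_lampP_orth hR hc1 hc2
  obtain ⟨m, n, X, Y, hX, hY, hval⟩ := (adfn_Sol _ (closed_lampP A2 T2) hloc d1 d2).val
  refine ⟨m, n, X, Y, hX, hY, fun S _ => ?_⟩
  have hBv := hval S
  have h3 := (M S).vdim_Sol (by rw [hα]; exact h1) S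
    (fun n hn => mach_good S _ (closed_lampP A2 T2) hloc n hn) (by
      intro n hn k hk hc
      refine mach_bad S _ (closed_lampP A2 T2) hloc n hn ?_
      have h4 := tf_Hg hG _ k hk hc
      have h5 := inv_mul_eq_one.1 h4
      exact h5.symm)
  rw [hα] at h3
  rw [hv] at hBv
  exact ⟨vdim (M S).Sol, h3, hBv⟩

variable {C : (G : Type) → [Group G] → Prop}

theorem interval' (hC : Cls C) {α : ℝ} (h : VV C (⊥ : Subring ℂ) α)
    (h1 : 1 / 2 ≤ α) (h2 : α < 1) : ∃ (V : Type) (_ : Group V), C V ∧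
      ∃ (m n : ℕ) (X Y : GMat (Fin m) (Fin n) V), Coef (⊥ : Subring ℂ) X ∧
        Coef (⊥ : Subring ℂ) Y ∧ ∃ d : ℝ, 0 ≤ d ∧ ∀ r : ℝ, 0 ≤ r → r ≤ 1 - α →
          ∃ g : V, vdim (kerA (aff X Y g)) = r + d := by
  classical
  obtain ⟨G, _, hG, hv⟩ := h
  obtain ⟨m, ι, κ, _, _, A, T, hA, hT, hAT, hvA⟩ := lamp_exists hv h2
  have hG' := hC.free G m hG
  have htf : TF (Monoid.Coprod G (FreeGroup (Fin m))) := hC.tf _ hG'
  obtain ⟨m', n', X, Y, hX, hY, hval⟩ := value' htf A T hA hT hAT (by rw [hvA]; exact h2)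
  have key : ∀ r : ℝ, 0 ≤ r → r ≤ 1 - α → ∃ g, vdim (kerA (aff X Y g)) =
      r + 4 * (Fintype.card κ - Fintype.card ι + vdim (kerA A)) := by
    intro r hr0 hr1
    have h3 : 0 < 1 - α := by linarith
    have h4 : (1 - α) ^ 2 ≠ 0 := by positivity
    have h5 := greedy h1 h2 (t := r / (1 - α) ^ 2) (by positivity) (by
      rw [div_le_div_iff₀ (by positivity) h3]
      nlinarith)
    set S : Set ℕ := {n | 1 ≤ rem α (r / (1 - α) ^ 2) n} with hS
    obtain ⟨w, hw, hBv⟩ := hval S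
    have h6 : HasSum (fun n : ℕ => if n ∈ S then (1 - vdim (kerA A)) ^ 2 * vdim (kerA A) ^ n
        else 0) r := by
      have h7 := h5.mul_left ((1 - α) ^ 2)
      have e1 : (1 - α) ^ 2 * (r / (1 - α) ^ 2) = r := by field_simp
      rw [e1] at h7
      have e3 : (fun n : ℕ => if n ∈ S then (1 - α) ^ 2 * α ^ n else 0)
          = fun n : ℕ => (1 - α) ^ 2 * (if 1 ≤ rem α (r / (1 - α) ^ 2) n then α ^ n else 0) := by
        funext n
        by_cases hn : 1 ≤ rem α (r / (1 - α) ^ 2) n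
        · rw [if_pos hn, if_pos (show n ∈ S from hn)]
        · rw [if_neg hn, if_neg (show n ∉ S from hn), mul_zero]
      rw [hvA, e3]
      exact h7
    rw [hw.unique h6] at hBv
    exact ⟨_, hBv⟩
  refine ⟨Hg (Monoid.Coprod G (FreeGroup (Fin m))), inferInstance, hC.hg hG', m', n', X, Y,
    hX, hY, _, ?_, key⟩
  obtain ⟨g, hg⟩ := key 0 le_rfl (by linarith)
  have := vdim_nonneg (kerA (aff X Y g))
  linarith

/-- multiples -/
theorem mult' {V : Type} [Group V] {m n : ℕ} (X Y : GMat (Fin m) (Fin n) V)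
    (hX : Coef (⊥ : Subring ℂ) X) (hY : Coef (⊥ : Subring ℂ) Y) (M : ℕ) :
    ∃ (m' n' : ℕ) (X' Y' : GMat (Fin m') (Fin n') V), Coef (⊥ : Subring ℂ) X' ∧
      Coef (⊥ : Subring ℂ) Y' ∧ ∀ g, vdim (kerA (aff X' Y' g)) = M * vdim (kerA (aff X Y g)) := by
  induction M with
  | zero =>
    refine ⟨0, 0, fun _ _ => 0, fun _ _ => 0, coef_zero, coef_zero, fun g => ?_⟩
    unfold vdim
    simp
  | succ M ih =>
    obtain ⟨m', n', X', Y', hX', hY', h⟩ := ih
    refine ⟨m' + m, n' + n,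
      ri (finSumFinEquiv (m := m') (n := m)).symm (finSumFinEquiv (m := n') (n := n)).symm
        (bd X' X),
      ri (finSumFinEquiv (m := m') (n := m)).symm (finSumFinEquiv (m := n') (n := n)).symm
        (bd Y' Y), fun _ _ _ => coef_bd hX' hX _ _ _, fun _ _ _ => coef_bd hY' hY _ _ _,
      fun g => ?_⟩
    have e : aff (ri (finSumFinEquiv (m := m') (n := m)).symm
        (finSumFinEquiv (m := n') (n := n)).symm (bd X' X))
        (ri (finSumFinEquiv (m := m') (n := m)).symm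
          (finSumFinEquiv (m := n') (n := n)).symm (bd Y' Y)) g =
        ri (finSumFinEquiv (m := m') (n := m)).symm (finSumFinEquiv (m := n') (n := n)).symm
          (bd (aff X' Y' g) (aff X Y g)) := by
      rw [aff_bd]
      rfl
    rw [e, vdim_ri, vdim_bd, h]
    push_cast
    ring

theorem rm_push {G G' : Type} [Group G] [Group G'] (f : G →* G') (a : G →₀ ℂ) (g : G) :
    (rm a g).mapDomain f = rm (a.mapDomain f) (f g) := by
  unfold rm
  rw [← Finsupp.mapDomain_comp, ← Finsupp.mapDomain_comp]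
  congr 1
  funext x
  exact map_mul f x g

/-- **cutting by integers**, for families -/
theorem cut' {m n : ℕ} {G : Type} [Group G] (j : ℕ) (X Y : GMat (Fin m) (Fin n) G)
    (hX : Coef (⊥ : Subring ℂ) X) (hY : Coef (⊥ : Subring ℂ) Y) :
    ∃ (m' n' : ℕ) (X' Y' : GMat (Fin m') (Fin n') (Monoid.Coprod G (FreeGroup (Fin (n * j))))),
      Coef (⊥ : Subring ℂ) X' ∧ Coef (⊥ : Subring ℂ) Y' ∧
        ∀ g : G, (j : ℝ) ≤ vdim (kerA (aff X Y g)) → ∃ g' : Monoid.Coprod G (FreeGroup (Fin (n * j))),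
          vdim (kerA (aff X' Y' g')) = vdim (kerA (aff X Y g)) - j := by
  classical
  set e : Fin n × Fin j ≃ Fin (n * j) := finProdFinEquiv with he
  have hgen := BC.generic_coprod G (n * j) e
  set inc : G →* Monoid.Coprod G (FreeGroup (Fin (n * j))) := Monoid.Coprod.inl with hinc
  set u : Fin n → Fin j → Monoid.Coprod G (FreeGroup (Fin (n * j))) := fun p q =>
    (Monoid.Coprod.inr : FreeGroup (Fin (n * j)) →* Monoid.Coprod G (FreeGroup (Fin (n * j))))
        (FreeGroup.of (e (p, q))) with hu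
  have hinj : Function.Injective inc := Monoid.Coprod.inl_injective
  set R : GMat (Fin m) (Fin n) G → GMat (Fin m) (Fin n × Unit) G := fun A =>
    ri (Equiv.refl _) (Equiv.prodPUnit (Fin n)) A with hR
  refine ⟨Fintype.card (Fin m ⊕ (Fin j × Unit)), Fintype.card (Fin n × Unit),
    ri (Fintype.equivFin _).symm (Fintype.equivFin _).symm (BC.Cut inc u (R X)),
    ri (Fintype.equivFin _).symm (Fintype.equivFin _).symm (BC.stack (BC.push inc (R Y))
      (fun _ _ => 0)), fun _ _ _ => coef_Cut inc u (fun _ _ _ => hX _ _ _) _ _ _,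
    fun _ _ _ => coef_stack (coef_push inc (R Y) (fun _ _ _ => hY _ _ _)) coef_zero _ _ _,
    fun g hj => ⟨inc g, ?_⟩⟩
  set A : GMat (Fin m) (Fin n) G := aff X Y g with hA
  set A' : GMat (Fin m) (Fin n × Unit) G := R A with hA'
  have hAv : vdim (kerA A') = vdim (kerA A) := vdim_ri _ _ _
  have e1 : aff (ri (Fintype.equivFin _).symm (Fintype.equivFin _).symm (BC.Cut inc u (R X)))
      (ri (Fintype.equivFin (Fin m ⊕ (Fin j × Unit))).symm (Fintype.equivFin (Fin n × Unit)).symm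
        (BC.stack (BC.push inc (R Y)) (fun _ _ => 0))) (inc g) =
      ri (Fintype.equivFin _).symm (Fintype.equivFin _).symm (BC.Cut inc u A') := by
    funext a b
    unfold aff ri
    generalize (Fintype.equivFin (Fin m ⊕ (Fin j × Unit))).symm a = a'
    generalize (Fintype.equivFin (Fin n × Unit)).symm b = b'
    rcases a' with a | a
    · change (R X a b').mapDomain inc + rm ((R Y a b').mapDomain inc) (inc g) =
        (A' a b').mapDomain inc
      rw [← rm_push, ← Finsupp.mapDomain_add]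
      rfl
    · change BC.Th u a b' + rm 0 (inc g) = BC.Th u a b'
      rw [rm_zero, add_zero]
  rw [e1, vdim_ri]
  have h1 := cut_eq inc hinj u hgen A'
  have h2 := cut_ge inc hinj u A' ⊤
  set Z := kerA (BC.Cut inc u A') with hZdef
  set Φ := vals Z with hΦ
  have ftop : fd A' ⊤ = vdim (kerA A) := by
    unfold fd
    rw [← hAv]
    congr 1
    exact inf_eq_left.2 (fun x _ p g => trivial)
  have h3 : vdim (Z ⊓ pt ⊤) ≤ vdim Z := vdim_mono inf_le_left
  rw [ftop, finrank_top, Module.finrank_fintype_fun_eq_card] at h2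
  simp only [Fintype.card_fin, Fintype.card_unit, Nat.cast_one, mul_one] at h2 h1
  have h4 : Module.finrank ℂ Φ ≤ 1 := by
    have := Submodule.finrank_le Φ
    rwa [Module.finrank_fintype_fun_eq_card, Fintype.card_unit] at this
  have h5 : fd A' Φ ≤ vdim (kerA A) := by
    rw [← hAv]
    exact vdim_mono inf_le_left
  rcases Nat.le_one_iff_eq_zero_or_eq_one.1 h4 with h6 | h6
  · have h7 : Φ = ⊥ := Submodule.finrank_eq_zero.1 h6
    have h8 : fd A' Φ = 0 := by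
      unfold fd
      rw [h7]
      have : kerA A' ⊓ pt ⊥ = ⊥ := by
        rw [eq_bot_iff]
        rintro x ⟨_, hx⟩
        rw [Submodule.mem_bot]
        ext ⟨⟨p, i⟩, g⟩
        exact congrFun ((Submodule.mem_bot ℂ).1 (hx p g)) i
      rw [this, vdim_bot]
    rw [h8, h6] at h1
    simp only [Nat.cast_zero, mul_zero, sub_zero] at h1
    linarith
  · rw [h6] at h1
    simp only [Nat.cast_one, mul_one] at h1
    linarith

/-- **All or nothing for one family `X + Y g` over one group.** -/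
theorem all_family (hC : ClosedClass C)
    (h : ¬ ∀ (G : Type) [Group G], C G → ∀ (m n : ℕ) (A : Matrix (Fin m) (Fin n) (G →₀ ℂ)),
      ∃ z : ℤ, Pool.Agent.Results.MP_95030e_al.AllOrNothing.kerDim A = z) :
    ∃ (V : Type) (_ : Group V), C V ∧ ∃ (m n : ℕ) (X Y : GMat (Fin m) (Fin n) V),
      Coef (⊥ : Subring ℂ) X ∧ Coef (⊥ : Subring ℂ) Y ∧
        ∀ r : ℝ, 0 ≤ r → r ≤ 1 → ∃ g : V, vdim (kerA (aff X Y g)) = r := by
  have h0 := all_values hC h (1 / 2) (by norm_num)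
  obtain ⟨V, _, hV, m, n, X, Y, hX, hY, d, hd, hint⟩ := interval' (cls hC) h0 le_rfl (by norm_num)
  obtain ⟨m', n', X', Y', hX', hY', hmul⟩ := mult' X Y hX hY 4
  set j : ℕ := ⌈4 * d⌉₊ with hj
  have hj1 : 4 * d ≤ j := Nat.le_ceil _
  have hj2 : (j : ℝ) < 4 * d + 1 := Nat.ceil_lt_add_one (by positivity)
  obtain ⟨m'', n'', X'', Y'', hX'', hY'', hcut⟩ := cut' j X' Y' hX' hY'
  refine ⟨Monoid.Coprod V (FreeGroup (Fin (n' * j))), inferInstance,
    (cls hC).free V (n' * j) hV, m'', n'', X'', Y'', hX'', hY'', fun r hr0 hr1 => ?_⟩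
  obtain ⟨g, hg⟩ := hint ((j + r) / 4 - d) (by linarith) (by linarith)
  have h3 : vdim (kerA (aff X' Y' g)) = j + r := by
    rw [hmul, hg]
    push_cast
    ring
  obtain ⟨g', hg'⟩ := hcut g (by rw [h3]; linarith)
  refine ⟨g', ?_⟩
  rw [hg', h3]
  ring

end Pool.Agent.U700.IB
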