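import Pool.Agent.U700.IB4
import Pool.Agent.Results.MP_0f25e6_al.AllOrNothingForElements

/-!
Elements of integral group rings of bounded norm: intervals of kernel dimensions.
-/

set_option autoImplicit false
set_option linter.unusedSectionVars false

open scoped InnerProductSpace ENNReal ComplexConjugate
open Filter Topology

namespace Pool.Agent.U700.IE

open Pool.Agent
open Pool.Agent.W656.VA
open Pool.Agent.H80R2
open Pool.Agent.H80R2.BC (L2 GMat vdim IsTr LInv Equi act kerA Coef pt vals)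
open Pool.Agent.H812R3
open Pool.Agent.TH25.AD
open Pool.Agent.R941.AE
open Pool.Agent.U700.IB
open Pool.Agent.Results.MP_0f25e6_al (AllOrNothingForElements.ClosedClass
  AllOrNothingForElements.Regular)

section norms

variable {ι κ ν ι' κ' ν' H : Type} [Group H] [Fintype ι] [Fintype κ] [Fintype ν] [Fintype ι']
  [Fintype κ'] [Fintype ν']

theorem conj_bot : ∀ c ∈ (⊥ : Subring ℂ), conj c ∈ (⊥ : Subring ℂ) := by
  intro c hc
  obtain ⟨k, rfl⟩ := Subring.mem_bot.1 hc
  rw [map_intCast]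
  exact Subring.mem_bot.2 ⟨k, rfl⟩

theorem l1_star (a : H →₀ ℂ) : l1 (a.sum fun h c => Finsupp.single h⁻¹ (conj c)) ≤ l1 a := by
  rw [Finsupp.sum]
  refine (l1_sum _ _).trans ?_
  rw [l1, Finsupp.sum]
  refine Finset.sum_le_sum fun x _ => ?_
  rw [l1_single, RCLike.norm_conj]

theorem bd_st {N : ℕ} {A : GMat κ ι H} (hA : Bd N A) : Bd N (st A) :=
  ⟨coef_st conj_bot hA.1, fun i k => (l1_star (A k i)).trans (hA.2 k i)⟩

theorem bd_row (u : ι → H) : Bd 1 (row u) := by
  refine ⟨coef_row u, fun k i => ?_⟩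
  unfold row
  rw [l1_single, norm_one, Nat.cast_one]

theorem bd_lf {G' : Type} [Group G'] {N : ℕ} {A : GMat κ ι H} (hA : Bd N A) : Bd N (lf G' A) :=
  ⟨coef_lf hA.1, fun k i => (l1_mapDomain _ _).trans (hA.2 k.1 i.1)⟩

theorem bd_rt {G' : Type} [Group G'] {M : ℕ} {a : G' →₀ ℂ} (ha : ∀ g, a g ∈ (⊥ : Subring ℂ))
    (ha1 : l1 a ≤ M) : Bd M (rt ι H a) := by
  classical
  refine ⟨coef_rt ha, fun p q => ?_⟩
  unfold rt
  split_ifs
  · exact (l1_mapDomain _ _).trans ha1
  · rw [l1_zero]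
    exact Nat.cast_nonneg _

theorem bd_pr {G' : Type} [Group G'] {N M : ℕ} {A : GMat κ ι H} (hA : Bd N A) {a : G' →₀ ℂ}
    (ha : ∀ g, a g ∈ (⊥ : Subring ℂ)) (ha1 : l1 a ≤ M) :
    Bd (Fintype.card (ι × Unit) * (N * M)) (pr A a) :=
  bd_mulM (bd_lf hA) (bd_rt ha ha1)

theorem rk_ri {κ₂ ι₂ : Type} [Fintype κ₂] [Fintype ι₂] (e : κ₂ ≃ κ) (f : ι₂ ≃ ι)
    (A : GMat κ ι H) : rk (ri e f A) = rk A := by
  unfold rk
  rw [vdim_ri, Fintype.card_congr f]

theorem exists_element_bd {m n N : ℕ} (A : GMat (Fin n) (Fin m) H) (hA : Bd N A)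
    (h : rk A < 1) :
    ∃ e : GMat Unit Unit (Monoid.Coprod (Monoid.Coprod H (FreeGroup (Fin m)))
        (FreeGroup (Fin n))), Bd (n * (1 * (m * (1 * N)))) e ∧ rk e = rk A := by
  obtain ⟨B, hBc, h1⟩ : ∃ B : GMat Unit (Fin n) (Monoid.Coprod H (FreeGroup (Fin m))),
      Bd (m * (1 * N)) B ∧ rk B = rk A := by
    refine ⟨_, ?_, rk_row Monoid.Coprod.inl_injective (gen_coprod H m) A h⟩
    have h2 := bd_mulM (bd_row (fun p : Fin m => (Monoid.Coprod.inr : FreeGroup (Fin m) →*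
      Monoid.Coprod H (FreeGroup (Fin m))) (FreeGroup.of p)))
      (bd_st (bd_push (Monoid.Coprod.inl : H →* Monoid.Coprod H (FreeGroup (Fin m))) hA))
    rw [Fintype.card_fin] at h2
    exact h2
  refine ⟨_, ?_, (rk_row Monoid.Coprod.inl_injective (gen_coprod _ n) B (by
    rw [h1]; exact h)).trans h1⟩
  have h2 := bd_mulM (bd_row (fun p : Fin n => (Monoid.Coprod.inr : FreeGroup (Fin n) →*
    Monoid.Coprod (Monoid.Coprod H (FreeGroup (Fin m))) (FreeGroup (Fin n))) (FreeGroup.of p)))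
    (bd_st (bd_push (Monoid.Coprod.inl : Monoid.Coprod H (FreeGroup (Fin m)) →*
      Monoid.Coprod (Monoid.Coprod H (FreeGroup (Fin m))) (FreeGroup (Fin n))) hBc))
  rw [Fintype.card_fin] at h2
  exact h2

end norms

open Pool.Agent.Results.MP_0f25e6_al.AllOrNothingForElements in
/-- **an interval of kernel dimensions of elements of bounded norm over one group** -/
theorem el_interval {C : (G : Type) → [Group G] → Prop} (hC : ClosedClass C)
    (h : ¬ ∀ (G : Type) [Group G], C G → ∀ α : G →₀ ℂ, α ≠ 0 → Regular α) :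
    ∃ (W : Type) (_ : Group W), C W ∧ ∃ (N : ℕ) (u v : ℝ), 0 < u ∧ u < v ∧ v < 1 ∧
      ∀ r, u ≤ r → r ≤ v → ∃ α : W →₀ ℂ, (∀ g, α g ∈ (⊥ : Subring ℂ)) ∧ l1 α ≤ N ∧
        kdim α = r := by
  have hC' : Pool.Agent.Results.MP_95030e_al.AllOrNothing.ClosedClass C :=
    ⟨hC.torsionFree, hC.subgroup, hC.product, hC.semidirect, hC.freeProduct⟩
  have hnot : ¬ ∀ (G : Type) [Group G], C G → ∀ (m n : ℕ)
      (A : Matrix (Fin m) (Fin n) (G →₀ ℂ)), ∃ z : ℤ,
        Pool.Agent.Results.MP_95030e_al.AllOrNothing.kerDim A = z := by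
    intro hall
    obtain ⟨G, iG, hG, a, ha, ha0, ha1⟩ := exists_small hC h
    obtain ⟨m, n, A, _, hA⟩ := exists_kerDim (val_of (el1 a) (fun _ _ g => ha g))
    obtain ⟨z, hz⟩ := hall G hG m n A
    have h1 : (z : ℝ) = vdim (kerA (el1 a)) := by
      rw [← hz]
      exact hA
    have h2 : rk (el1 a) = 1 - vdim (kerA (el1 a)) := by
      unfold rk
      simp
    rw [h2, ← h1] at ha0 ha1
    have h3 : (z : ℝ) < 1 := by linarith
    have h4 : (0 : ℝ) < z := by linarith
    have h5 : z < 1 := by exact_mod_cast h3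
    have h6 : 0 < z := by exact_mod_cast h4
    omega
  obtain ⟨V, iV, hV, m, n, N, hN⟩ := all_bounded hC' hnot
  have hn : (1 : ℝ) ≤ n := by
    obtain ⟨B, _, hB⟩ := hN 1 one_pos le_rfl
    have h1 := vdim_le_card (kerA B)
    rw [hB, Fintype.card_fin] at h1
    exact h1
  have hn0 : (0 : ℝ) < n := by linarith
  obtain ⟨G, iG, hG, b, hb, hbr⟩ := all_values hC h (1 - 1 / (2 * n)) (by
      have : 1 / (2 * (n : ℝ)) < 1 := by
        rw [div_lt_one (by positivity)]
        linarith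
      linarith) (by
      have : 0 < 1 / (2 * (n : ℝ)) := by positivity
      linarith)
  have hbk : rk (el1 b) = 1 / (2 * n) := by
    have h1 := Pool.Agent.Results.MP_0f25e6_al.AllOrNothingForElements.kerDim_eq b
    linarith
  obtain ⟨M, hM⟩ := exists_nat_ge (l1 b)
  refine ⟨Monoid.Coprod (Monoid.Coprod (V × G) (FreeGroup (Fin (Fintype.card (Fin n × Unit)))))
    (FreeGroup (Fin (Fintype.card (Fin m × Unit)))), inferInstance,
    (cls hC).free _ _ ((cls hC).free _ _ ((cls hC).prod V G hV hG)),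
    Fintype.card (Fin m × Unit) * (1 * (Fintype.card (Fin n × Unit) *
      (1 * (Fintype.card (Fin n × Unit) * (N * M))))),
    1 / 2 + 1 / (8 * n), 1 / 2 + 1 / (4 * n), by positivity, ?_, ?_, ?_⟩
  · have : 1 / (8 * (n : ℝ)) < 1 / (4 * n) :=
      one_div_lt_one_div_of_lt (by positivity) (by linarith)
    linarith
  · have : 1 / (4 * (n : ℝ)) ≤ 1 / 4 := by
      rw [div_le_div_iff₀ (by positivity) (by norm_num)]
      linarith
    linarith
  · intro r0 hr0 hr1
    have e1 : (2 * (n : ℝ)) * (1 / (8 * n)) = 1 / 4 := by field_simp; norm_num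
    have e2 : (2 * (n : ℝ)) * (1 / (4 * n)) = 1 / 2 := by field_simp; norm_num
    obtain ⟨B, hB, hBv⟩ := hN (2 * n * (r0 - 1 / 2)) (by nlinarith) (by nlinarith)
    have hrB : rk (pr B b) = 1 - r0 := by
      rw [rk_pr]
      change rk B * rk (el1 b) = _
      rw [hbk]
      unfold rk
      rw [hBv, Fintype.card_fin]
      field_simp
      ring
    obtain ⟨e, he, her⟩ := exists_element_bd (ri (Fintype.equivFin (Fin m × Unit)).symm
      (Fintype.equivFin (Fin n × Unit)).symm (pr B b)) (bd_ri _ _ (bd_pr hB hb hM)) (by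
        rw [rk_ri, hrB]
        have : 0 < 1 / (8 * (n : ℝ)) := by positivity
        linarith)
    refine ⟨e () (), fun g => he.1 () () g, he.2 () (), ?_⟩
    rw [kdim_eq]
    change 1 - rk e = r0
    rw [her, rk_ri, hrB]
    ring

theorem l1_inj {G G' : Type} (f : G → G') (hf : Function.Injective f) (a : G →₀ ℂ) :
    l1 (a.mapDomain f) = l1 a := by
  unfold l1
  rw [Finsupp.sum_mapDomain_index_inj hf]

open Pool.Agent.Results.MP_0f25e6_al.AllOrNothingForElements in
/-- all rational numbers of an interval over a group with two generators -/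
theorem el_rational {C : (G : Type) → [Group G] → Prop} (hC : ClosedClass C)
    (h : ¬ ∀ (G : Type) [Group G], C G → ∀ α : G →₀ ℂ, α ≠ 0 → Regular α) :
    ∃ (W : Type) (_ : Group W), C W ∧ (∃ a b : W, Subgroup.closure {a, b} = ⊤) ∧
      ∃ (N : ℕ) (u v : ℝ), 0 < u ∧ u < v ∧ v < 1 ∧
        ∀ r : ℚ, u ≤ r → (r : ℝ) ≤ v → ∃ α : W →₀ ℂ, (∀ g, α g ∈ (⊥ : Subring ℂ)) ∧ l1 α ≤ N ∧
          kdim α = r := by
  classical
  obtain ⟨W, iW, hW, N, u, v, hu, huv, hv, hall⟩ := el_interval hC h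
  have hall' : ∀ q : {q : ℚ // u ≤ q ∧ (q : ℝ) ≤ v}, ∃ α : W →₀ ℂ,
      (∀ g, α g ∈ (⊥ : Subring ℂ)) ∧ l1 α ≤ N ∧ kdim α = (q : ℚ) := fun q => hall q q.2.1 q.2.2
  choose α h1 h2 h3 using hall'
  let J : Type := Σ q : {q : ℚ // u ≤ q ∧ (q : ℝ) ≤ v}, (α q).support
  let φ : FreeGroup J →* W := FreeGroup.lift fun j => (j.2 : W)
  have hmem : ∀ q, ∀ x ∈ (α q).support, x ∈ φ.range := by
    intro q x hx
    exact ⟨FreeGroup.of ⟨q, ⟨x, hx⟩⟩, by simp only [φ, FreeGroup.lift_apply_of]⟩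
  have hCK : C φ.range := hC.subgroup _ _ φ.range.subtype φ.range.subtype_injective hW
  have : Countable φ.range := φ.rangeRestrict_surjective.countable
  obtain ⟨V, iV, hV, hab, f, hf⟩ := NI.two_gen
    (⟨hC.torsionFree, hC.subgroup, hC.product, hC.semidirect, hC.freeProduct⟩ :
      Pool.Agent.Results.MP_95030e_al.AllOrNothing.ClosedClass C) φ.range hCK
  refine ⟨V, iV, hV, hab, N, u, v, hu, huv, hv, fun r hr0 hr1 => ?_⟩
  let q : {q : ℚ // u ≤ q ∧ (q : ℝ) ≤ v} := ⟨r, hr0, hr1⟩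
  let β : φ.range →₀ ℂ := (α q).comapDomain (Subtype.val : φ.range → W)
    Subtype.val_injective.injOn
  have hp : β.mapDomain (φ.range.subtype : φ.range → W) = α q := by
    change Finsupp.mapDomain (Subtype.val : φ.range → W)
      ((α q).comapDomain (Subtype.val : φ.range → W) Subtype.val_injective.injOn) = α q
    apply Finsupp.mapDomain_comapDomain _ Subtype.val_injective
    intro x hx
    exact ⟨⟨x, hmem q x hx⟩, rfl⟩
  refine ⟨β.mapDomain f, ?_, ?_, ?_⟩
  · exact coef_mapDomain f β (fun x => h1 q x)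
  · refine (l1_mapDomain f β).trans ?_
    rw [← l1_inj (φ.range.subtype : φ.range → W) φ.range.subtype_injective β, hp]
    exact h2 q
  · rw [kdim_push f hf, ← kdim_push φ.range.subtype φ.range.subtype_injective, hp]
    exact h3 q

end Pool.Agent.U700.IE
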