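import Pool.Agent.U700.NI3
import Pool.Agent.U700.NI7
import Pool.Agent.H21R2.Labelled

/-!
Amenable groups are sofic; groups with a finite series with torsion-free abelian factors are
amenable and locally indicable.
-/

set_option autoImplicit false
set_option linter.unusedSectionVars false

open scoped Pointwise

namespace Pool.Agent.U700.LR

open Pool.Agent.H21R2
open Pool.Agent.TH107.RF (LI)
open Pool.Agent.U700.NI

theorem sofic_of_fol {G : Type} [Group G] (h : Pool.Agent.TH714.PF.Fol G) : IsSofic G := by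
  classical
  have hU : IsSofic PUnit.{1} := sofic_of_maps fun g hg => absurd (Subsingleton.elim _ _) hg
  refine isSofic_of_labelled (Y := G) hU (fun _ _ => 1) (fun _ _ _ => (one_mul _).symm) ?_
  intro A g hg ε hε
  let S : Finset G := insert 1 (A ∪ A.image (fun a => a⁻¹))
  obtain ⟨Φ, hne, hΦ⟩ := h.ex S (ε / 2) (by positivity)
  let Ψ : Finset G := Φ.image (fun a => a⁻¹)
  have hΨm : ∀ y, y ∈ Ψ ↔ y⁻¹ ∈ Φ := by
    intro y
    constructor
    · intro hy
      obtain ⟨x, hx, rfl⟩ := Finset.mem_image.1 hy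
      rwa [inv_inv]
    · intro hy
      exact Finset.mem_image.2 ⟨y⁻¹, hy, inv_inv y⟩
  have hΨc : Ψ.card = Φ.card := Finset.card_image_of_injective _ inv_injective
  let f : G →₀ ℝ := Finsupp.indicator Ψ (fun _ _ => (1 : ℝ))
  have hf : ∀ y, f y = if y ∈ Ψ then 1 else 0 := by
    intro y
    change Finsupp.indicator Ψ (fun _ _ => (1 : ℝ)) y = _
    rw [Finsupp.indicator_apply]
    split_ifs <;> rfl
  have hfs : f.support = Ψ := by
    ext y
    rw [Finsupp.mem_support_iff, hf]
    by_cases hy : y ∈ Ψ <;> simp [hy]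
  have hmass : mass f (fun y => g • y ≠ y ∨ (1 : PUnit.{1}) ≠ 1) = Φ.card := by
    unfold mass
    have e : @Finset.filter G (fun y => g • y ≠ y ∨ (1 : PUnit.{1}) ≠ 1)
        (fun a => Classical.propDecidable _) f.support = Ψ := by
      rw [hfs]
      ext y
      simp only [Finset.mem_filter, and_iff_left_iff_imp]
      intro _
      left
      intro h1
      exact hg (mul_eq_right.1 h1)
    rw [e, ← hΨc, Finset.sum_congr rfl (fun y hy => by rw [hf, if_pos hy, one_pow])]
    simp
  have hpos : (0 : ℝ) < Φ.card := by exact_mod_cast hne.card_pos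
  refine ⟨f, ?_, ?_⟩
  · rw [hmass]; exact hpos
  · intro a ha
    rw [hmass]
    have haS : a ∈ S := Finset.mem_insert_of_mem (Finset.mem_union_left _ ha)
    have haS' : a⁻¹ ∈ S := Finset.mem_insert_of_mem
      (Finset.mem_union_right _ (Finset.mem_image_of_mem _ ha))
    have h1S : (1 : G) ∈ S := Finset.mem_insert_self _ _
    have hsub : Φ ⊆ Φ * S := by
      intro x hx
      rw [← mul_one x]
      exact Finset.mul_mem_mul hx h1S
    let E : Finset G := (Φ * S) \ Φ
    have hE : (E.card : ℝ) ≤ ε / 2 * Φ.card := by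
      have h1 : E.card = (Φ * S).card - Φ.card := Finset.card_sdiff_of_subset hsub
      have h2 : Φ.card ≤ (Φ * S).card := Finset.card_le_card hsub
      rw [h1, Nat.cast_sub h2]
      linarith
    let B1 : Finset G := Ψ.filter (fun y => a * y ∉ Ψ)
    let B2 : Finset G := (Ψ.filter (fun z => a⁻¹ * z ∉ Ψ)).image (fun z => a⁻¹ * z)
    have hB1 : B1.card ≤ E.card := by
      refine Finset.card_le_card_of_injOn (fun y => (a * y)⁻¹) ?_ ?_
      · intro y hy
        rw [Finset.mem_coe, Finset.mem_filter] at hy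
        rw [Finset.mem_coe, Finset.mem_sdiff]
        refine ⟨?_, fun h1 => hy.2 ((hΨm _).2 h1)⟩
        change (a * y)⁻¹ ∈ _
        rw [mul_inv_rev]
        exact Finset.mul_mem_mul ((hΨm _).1 hy.1) haS'
      · intro x _ y _ hxy
        exact mul_left_cancel (inv_injective hxy)
    have hB2 : B2.card ≤ E.card := by
      refine Finset.card_le_card_of_injOn (fun y => y⁻¹) ?_ ?_
      · intro y hy
        rw [Finset.mem_coe, Finset.mem_image] at hy
        obtain ⟨z, hz, rfl⟩ := hy
        rw [Finset.mem_filter] at hz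
        rw [Finset.mem_coe, Finset.mem_sdiff]
        refine ⟨?_, fun h1 => hz.2 ((hΨm _).2 h1)⟩
        change (a⁻¹ * z)⁻¹ ∈ _
        rw [mul_inv_rev, inv_inv]
        exact Finset.mul_mem_mul ((hΨm _).1 hz.1) haS
      · intro x _ y _ hxy
        exact inv_injective hxy
    unfold energy
    rw [tsum_eq_sum (s := B1 ∪ B2)]
    · have h1 : ∀ y ∈ B1 ∪ B2, (f (MulAction.toPerm a y) - f y) ^ 2 ≤ 1 := by
        intro y _
        rw [hf, hf]
        split_ifs <;> norm_num
      refine (Finset.sum_le_sum h1).trans ?_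
      rw [Finset.sum_const, nsmul_eq_mul, mul_one]
      have h2 : ((B1 ∪ B2).card : ℝ) ≤ B1.card + B2.card := by
        exact_mod_cast Finset.card_union_le _ _
      have h3 : (B1.card : ℝ) ≤ E.card := by exact_mod_cast hB1
      have h4 : (B2.card : ℝ) ≤ E.card := by exact_mod_cast hB2
      linarith
    · intro y hy
      rw [Finset.mem_union, not_or] at hy
      rw [hf, hf]
      change ((if a * y ∈ Ψ then (1 : ℝ) else 0) - _) ^ 2 = 0
      by_cases h1 : y ∈ Ψ
      · by_cases h2 : a * y ∈ Ψ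
        · rw [if_pos h1, if_pos h2]; norm_num
        · exact absurd (Finset.mem_filter.2 ⟨h1, h2⟩) hy.1
      · by_cases h2 : a * y ∈ Ψ
        · refine absurd (Finset.mem_image.2 ⟨a * y, Finset.mem_filter.2 ⟨h2, ?_⟩, ?_⟩) hy.2
          · rwa [inv_mul_cancel_left]
          · exact inv_mul_cancel_left a y
        · rw [if_neg h1, if_neg h2]; norm_num

theorem tower_good {G : Type} [Group G] (D : ℕ → Subgroup G) (k : ℕ) (h0 : D 0 = ⊤) (hk : D k = ⊥)
    (hc : ∀ i, ∀ x ∈ D i, ∀ y ∈ D i, x * y * x⁻¹ * y⁻¹ ∈ D (i + 1))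
    (ht : ∀ i, ∀ x ∈ D i, ∀ n : ℕ, n ≠ 0 → x ^ n ∈ D (i + 1) → x ∈ D (i + 1)) :
    LI G ∧ Pool.Agent.TH714.PF.Fol G := by
  refine ⟨Pool.Agent.TH107.AT.li_of_tower D k h0 hk hc ht, ?_⟩
  have h1 : ∀ i, derivedSeries G i ≤ D i := by
    intro i
    induction i with
    | zero => rw [h0]; exact le_top
    | succ i ih =>
      rw [derivedSeries_succ, Subgroup.commutator_le]
      intro x hx y hy
      rw [commutatorElement_def]
      exact hc i x (ih hx) y (ih hy)
  apply fol_conv
  apply Pool.Agent.U700.Fol.fol_derived k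
  rw [eq_bot_iff, ← hk]
  exact h1 k

end Pool.Agent.U700.LR
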