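import Pool.Agent.U700.LR1

/-!
Congruence subgroups of general linear groups over commutative algebras over the rational numbers.
-/

set_option autoImplicit false
set_option linter.unusedSectionVars false

namespace Pool.Agent.U700.LR

open Pool.Agent.H21R2
open Pool.Agent.TH107.RF (LI)
open Pool.Agent.U700.NI

/-- invertible matrices -/
abbrev GL' (n : ℕ) (A : Type) [CommRing A] : Type := (Matrix (Fin n) (Fin n) A)ˣ

variable {n : ℕ} {A : Type} [CommRing A]

/-- reduction modulo an ideal -/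
def red (n : ℕ) (I : Ideal A) : Matrix (Fin n) (Fin n) A →+* Matrix (Fin n) (Fin n) (A ⧸ I) :=
  (Ideal.Quotient.mk I).mapMatrix

theorem red_eq_zero (I : Ideal A) (X : Matrix (Fin n) (Fin n) A) :
    red n I X = 0 ↔ ∀ a b, X a b ∈ I := by
  constructor
  · intro h a b
    rw [← Ideal.Quotient.eq_zero_iff_mem]
    exact congrFun (congrFun h a) b
  · intro h
    ext a b
    change Ideal.Quotient.mk I (X a b) = 0
    rw [Ideal.Quotient.eq_zero_iff_mem]
    exact h a b

/-- congruence subgroups -/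
def cg (n : ℕ) (I : Ideal A) : Subgroup (GL' n A) := (Units.map (red n I).toMonoidHom).ker

theorem mem_cg {I : Ideal A} {u : GL' n A} :
    u ∈ cg n I ↔ ∀ a b, ((u : Matrix (Fin n) (Fin n) A) - 1) a b ∈ I := by
  rw [← red_eq_zero, map_sub, map_one, sub_eq_zero]
  unfold cg
  rw [MonoidHom.mem_ker, Units.ext_iff]
  rfl

theorem cg_mono {I J : Ideal A} (h : I ≤ J) : cg n I ≤ cg n J :=
  fun _ hu => mem_cg.2 fun a b => h (mem_cg.1 hu a b)

theorem cg_bot : cg n (⊥ : Ideal A) = ⊥ := by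
  rw [eq_bot_iff]
  intro u hu
  rw [Subgroup.mem_bot]
  apply Units.ext
  rw [← sub_eq_zero]
  ext a b
  exact Ideal.mem_bot.1 (mem_cg.1 hu a b)

theorem mul_mem' {I J : Ideal A} {X Y : Matrix (Fin n) (Fin n) A} (hX : ∀ a b, X a b ∈ I)
    (hY : ∀ a b, Y a b ∈ J) (a b : Fin n) : (X * Y) a b ∈ I * J := by
  rw [Matrix.mul_apply]
  exact Ideal.sum_mem _ fun c _ => Ideal.mul_mem_mul (hX a c) (hY c b)

theorem pow_le' (J : Ideal A) (i : ℕ) : J ^ (i + 1) * J ^ (i + 1) ≤ J ^ (i + 2) := by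
  rw [← pow_add]
  exact Ideal.pow_le_pow_right (by omega)

theorem cg_comm (J : Ideal A) (i : ℕ) (x y : GL' n A) (hx : x ∈ cg n (J ^ (i + 1)))
    (hy : y ∈ cg n (J ^ (i + 1))) : x * y * x⁻¹ * y⁻¹ ∈ cg n (J ^ (i + 2)) := by
  have h1 : (Units.map (red n (J ^ (i + 2))).toMonoidHom) x *
      (Units.map (red n (J ^ (i + 2))).toMonoidHom) y =
      (Units.map (red n (J ^ (i + 2))).toMonoidHom) y *
      (Units.map (red n (J ^ (i + 2))).toMonoidHom) x := by
    apply Units.ext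
    change red n _ (x : Matrix (Fin n) (Fin n) A) * red n _ (y : Matrix (Fin n) (Fin n) A) =
      red n _ (y : Matrix (Fin n) (Fin n) A) * red n _ (x : Matrix (Fin n) (Fin n) A)
    rw [← map_mul, ← map_mul, ← sub_eq_zero, ← map_sub, red_eq_zero]
    intro a b
    have e : (x : Matrix (Fin n) (Fin n) A) * y - y * x =
        (x - 1) * (y - 1) - (y - 1) * (x - 1) := by noncomm_ring
    rw [e, Matrix.sub_apply]
    exact sub_mem (pow_le' J i (mul_mem' (mem_cg.1 hx) (mem_cg.1 hy) a b))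
      (pow_le' J i (mul_mem' (mem_cg.1 hy) (mem_cg.1 hx) a b))
  unfold cg
  rw [MonoidHom.mem_ker, map_mul, map_mul, map_mul, h1, map_inv, map_inv]
  group

theorem one_add_pow' {R : Type} [Ring R] (X : R) (hX : X * X = 0) (r : ℕ) :
    (1 + X) ^ r = 1 + (r : R) * X := by
  induction r with
  | zero => simp
  | succ r ih =>
    rw [pow_succ, ih]
    have h1 : (1 + (r : R) * X) * (1 + X) = 1 + (r : R) * X + X + r * (X * X) := by noncomm_ring
    rw [h1, hX]
    push_cast
    noncomm_ring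

theorem cg_root [Algebra ℚ A] (J : Ideal A) (i : ℕ) (x : GL' n A) (hx : x ∈ cg n (J ^ (i + 1)))
    (r : ℕ) (hr : r ≠ 0) (h : x ^ r ∈ cg n (J ^ (i + 2))) : x ∈ cg n (J ^ (i + 2)) := by
  set φ := red n (J ^ (i + 2)) with hφ
  set X : Matrix (Fin n) (Fin n) A := x - 1 with hX
  have h1 : φ X * φ X = 0 := by
    rw [← map_mul, red_eq_zero]
    exact fun a b => pow_le' J i (mul_mem' (mem_cg.1 hx) (mem_cg.1 hx) a b)
  have h2 : φ x = 1 + φ X := by
    rw [hX, map_sub, map_one]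
    abel
  have h3 : φ x ^ r = 1 := by
    rw [← map_pow]
    have h4 := (red_eq_zero _ _).2 (mem_cg.1 h)
    rw [map_sub, map_one, sub_eq_zero] at h4
    rw [Units.val_pow_eq_pow_val] at h4
    exact h4
  rw [h2, one_add_pow' _ h1] at h3
  have h4 : (r : Matrix (Fin n) (Fin n) (A ⧸ J ^ (i + 2))) * φ X = 0 := by
    have := congrArg (fun z => z - 1) h3
    simpa using this
  rw [mem_cg, ← red_eq_zero]
  change φ X = 0
  have h5 : (r : ℚ) • φ X = 0 := by
    rw [← h4]
    ext a b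
    rw [Matrix.smul_apply, ← nsmul_eq_mul, Matrix.smul_apply, Nat.cast_smul_eq_nsmul]
  rw [smul_eq_zero_iff_right (by exact_mod_cast hr)] at h5
  exact h5

/-- congruence subgroups modulo nilpotent ideals -/
theorem cg_good [Algebra ℚ A] (J : Ideal A) (k : ℕ) (hk : J ^ k = ⊥) :
    LI (cg n J) ∧ Pool.Agent.TH714.PF.Fol (cg n J) := by
  apply tower_good (fun i => (cg n (J ^ (i + 1))).subgroupOf (cg n J)) k
  · rw [zero_add, pow_one, Subgroup.subgroupOf_self]
  · have h1 : J ^ (k + 1) = ⊥ := by rw [pow_succ, hk, Ideal.bot_mul]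
    change (cg n (J ^ (k + 1))).subgroupOf (cg n J) = ⊥
    rw [h1, cg_bot, Subgroup.bot_subgroupOf]
  · intro i x hx y hy
    rw [Subgroup.mem_subgroupOf] at hx hy ⊢
    rw [Subgroup.coe_mul, Subgroup.coe_mul, Subgroup.coe_mul, Subgroup.coe_inv, Subgroup.coe_inv]
    have h1 := cg_comm J i (x : GL' n A) (y : GL' n A) hx hy
    exact h1
  · intro i x hx r hr h
    rw [Subgroup.mem_subgroupOf] at hx h ⊢
    rw [Subgroup.coe_pow] at h
    have h1 := cg_root J i (x : GL' n A) hx r hr h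
    exact h1

/-- Krull's intersection theorem -/
theorem krull [IsNoetherianRing A] (I : Ideal A) (hI : ∀ r ∈ I, ∀ x : A, r * x = x → x = 0)
    (x : A) (hx : x ≠ 0) : ∃ j : ℕ, ∀ i, j ≤ i → x ∉ I ^ i := by
  by_contra hcon
  push Not at hcon
  apply hx
  have h1 : ∀ i, x ∈ I ^ i := by
    intro i
    obtain ⟨i', h1, h2⟩ := hcon i
    exact Ideal.pow_le_pow_right h1 h2
  have h2 : x ∈ (⨅ i : ℕ, I ^ i • ⊤ : Submodule A A) := by
    rw [Submodule.mem_iInf]
    intro i
    rw [smul_eq_mul, Ideal.mul_top]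
    exact h1 i
  obtain ⟨r, hr⟩ := (Ideal.mem_iInf_smul_pow_eq_bot_iff I x).1 h2
  exact hI r r.2 x hr

end Pool.Agent.U700.LR
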