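import Pool.Agent.U700.LR2
import Pool.Agent.U700.IA3

/-!
Kernel dimensions over congruence subgroups of local algebras over the rational numbers.
-/

set_option autoImplicit false
set_option linter.unusedSectionVars false

open scoped Pointwise
open Filter Topology Matrix

namespace Pool.Agent.U700.LR

open Pool.Agent
open Pool.Agent.TH107.AT
open Pool.Agent.H80R2
open Pool.Agent.H80R2.BC (L2 GMat vdim IsTr LInv Equi act kerA pt vals Coef Generic)
open Pool.Agent.H812R3
open Pool.Agent.W656.VA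
open Pool.Agent.H21R2 (IsSofic hamm)
open Pool.Agent.U700.NI
open Pool.Agent.TH107.RF (LI)

/-- kernel dimensions over limits of marked sofic groups -/
theorem marked_limit (l : Filter ℕ) (hl : l ≤ atTop) (G : ℕ → Type)
    [∀ i, Group (G i)] (hG : ∀ i, IsSofic (G i)) {H : Type} [Group H] {m n k : ℕ}
    (c : Fin m → Fin n → Fin k → ℤ) (g : ∀ i, Fin k → G i) (h : Fin k → H)
    (h1 : ∀ w, FreeGroup.lift h w = 1 → ∀ᶠ i in l, FreeGroup.lift (g i) w = 1)
    (h2 : ∀ w, FreeGroup.lift h w ≠ 1 → ∀ᶠ i in l, FreeGroup.lift (g i) w ≠ 1) :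
    Tendsto (fun i => vdim (kerA (PM c (g i)))) l (𝓝 (vdim (kerA (PM c h)))) := by
  classical
  choose X i1 i2 i3 σ hσ hν using fun N : ℕ =>
    approx_words (G N) (hG N) c (g N) (1 / ((N : ℝ) + 1)) (by positivity) N
  have hinv : Tendsto (fun N : ℕ => 1 / ((N : ℝ) + 1)) l (𝓝 0) :=
    (tendsto_one_div_add_atTop_nhds_zero_nat (𝕜 := ℝ)).mono_left hl
  have hcd : ∀ N, (0 : ℝ) < Fintype.card (X N) := fun N => by exact_mod_cast Fintype.card_pos
  have hlim := lim l X (fun N => FreeGroup.lift (σ N)) (FreeGroup.lift h) (by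
      intro w
      by_cases hw : FreeGroup.lift h w = 1
      · rw [if_pos hw]
        have h0 : Tendsto (fun N => (mv (FreeGroup.lift (σ N) w) : ℝ) / Fintype.card (X N)) l
            (𝓝 0) := by
          refine squeeze_zero' (Eventually.of_forall fun N => by positivity) ?_ hinv
          filter_upwards [h1 w hw, hl (eventually_ge_atTop w.norm)] with N h1 h2
          have h3 := (hσ N w h2).1 h1
          rw [div_le_div_iff₀ (hcd N) (by positivity), one_mul, mul_comm]
          exact_mod_cast h3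
        have h1 : Tendsto (fun N => 1 - (mv (FreeGroup.lift (σ N) w) : ℝ) / Fintype.card (X N)) l
            (𝓝 (1 - 0)) := Tendsto.const_sub 1 h0
        rw [sub_zero] at h1
        refine h1.congr fun N => ?_
        have h2 : (fx (FreeGroup.lift (σ N) w) : ℝ) + mv (FreeGroup.lift (σ N) w) =
            Fintype.card (X N) := by
          exact_mod_cast fx_add_mv (FreeGroup.lift (σ N) w)
        have h3 := (hcd N).ne'
        rw [eq_comm, eq_sub_iff_add_eq, ← add_div, h2, div_self h3]
      · rw [if_neg hw]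
        refine squeeze_zero' (Eventually.of_forall fun N => by positivity) ?_ hinv
        filter_upwards [h2 w hw, hl (eventually_ge_atTop w.norm)] with N h1 h2
        have h3 := (hσ N w h2).2 h1
        rw [div_le_div_iff₀ (hcd N) (by positivity), one_mul, mul_comm]
        exact_mod_cast h3) (Yc c) (itg_Yc c)
  rw [kr_im_Yc] at hlim
  have h3 : Tendsto (fun N => nu (FreeGroup.lift (σ N)) (Yc c) -
      (nu (FreeGroup.lift (σ N)) (Yc c) - vdim (kerA (PM c (g N))))) l
        (𝓝 (vdim (kerA (PM c h)) - 0)) := by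
    refine Tendsto.sub hlim ?_
    rw [tendsto_zero_iff_abs_tendsto_zero]
    exact squeeze_zero (fun N => abs_nonneg _) (fun N => (hν N).le) hinv
  simpa using h3

theorem int_of_tendsto {l : Filter ℕ} [l.NeBot] {f : ℕ → ℝ} {v : ℝ} (h : Tendsto f l (𝓝 v))
    (hf : ∀ i, ∃ z : ℤ, f i = z) : ∃ z : ℤ, v = z := by
  have h1 : v ∈ Set.range ((↑) : ℤ → ℝ) :=
    Int.isClosedEmbedding_coe_real.isClosed_range.mem_of_tendsto h
      (Eventually.of_forall fun i => by
        obtain ⟨z, hz⟩ := hf i
        exact ⟨z, hz.symm⟩)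
  obtain ⟨z, hz⟩ := h1
  exact ⟨z, hz.symm⟩

theorem integral_pm {G : Type} [Group G] (h1 : LI G) (h2 : Pool.Agent.TH714.PF.Fol G) {m n k : ℕ}
    (c : Fin m → Fin n → Fin k → ℤ) (g : Fin k → G) : ∃ z : ℤ, vdim (kerA (PM c g)) = z := by
  obtain ⟨z, hz⟩ := integral_ore h1 h2 n (Fin m) (im (FreeGroup.lift g) (Yc c))
  rw [kr_im_Yc] at hz
  exact ⟨z, hz⟩

theorem red_mem_cg {s : ℕ} {A : Type} [CommRing A] {I : Ideal A} (K : Ideal A) {u : GL' s A}
    (hu : u ∈ cg s I) :
    Units.map (red s K).toMonoidHom u ∈ cg s (I.map (Ideal.Quotient.mk K)) := by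
  rw [mem_cg] at hu ⊢
  intro a b
  have h2 : ((Units.map (red s K).toMonoidHom u : GL' s (A ⧸ K)) :
      Matrix (Fin s) (Fin s) (A ⧸ K)) - 1 =
      red s K ((u : Matrix (Fin s) (Fin s) A) - 1) := by
    rw [map_sub, map_one]
    rfl
  rw [h2]
  exact Ideal.mem_map_of_mem _ (hu a b)

section
variable {s : ℕ} {R : Type} [CommRing R] [Algebra ℚ R] [IsLocalRing R]

set_option maxHeartbeats 1000000 in
theorem integral_local {m n k : ℕ} (c : Fin m → Fin n → Fin k → ℤ) (g : Fin k → GL' s R)
    (hg : ∀ l, g l ∈ cg s (IsLocalRing.maximalIdeal R)) {H : Type} [Group H] (h : Fin k → H)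
    (hh : ∀ w, FreeGroup.lift h w = 1 ↔ FreeGroup.lift g w = 1) :
    ∃ z : ℤ, vdim (kerA (PM c h)) = z := by
  classical
  let T : Finset R := Finset.univ.biUnion fun l : Fin k => Finset.univ.biUnion fun a : Fin s =>
    Finset.univ.biUnion fun b : Fin s => {(g l : Matrix (Fin s) (Fin s) R) a b,
      ((g l)⁻¹ : GL' s R).val a b}
  let S : Subalgebra ℚ R := Algebra.adjoin ℚ (T : Set R)
  have hS : S.FG := Subalgebra.fg_adjoin_finset T
  have hft : Algebra.FiniteType ℚ S := S.fg_iff_finiteType.1 hS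
  have hNoeth : IsNoetherianRing S := Algebra.FiniteType.isNoetherianRing ℚ S
  have hm1 : ∀ l a b, (g l : Matrix (Fin s) (Fin s) R) a b ∈ S := by
    intro l a b
    apply Algebra.subset_adjoin
    rw [Finset.mem_coe]
    simp only [T, Finset.mem_biUnion, Finset.mem_univ, true_and, Finset.mem_insert,
      Finset.mem_singleton]
    exact ⟨l, a, b, Or.inl rfl⟩
  have hm2 : ∀ l a b, ((g l)⁻¹ : GL' s R).val a b ∈ S := by
    intro l a b
    apply Algebra.subset_adjoin
    rw [Finset.mem_coe]
    simp only [T, Finset.mem_biUnion, Finset.mem_univ, true_and, Finset.mem_insert,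
      Finset.mem_singleton]
    exact ⟨l, a, b, Or.inr rfl⟩
  let ι0 : Matrix (Fin s) (Fin s) S →+* Matrix (Fin s) (Fin s) R := (S.val : S →+* R).mapMatrix
  have hι0 : Function.Injective ι0 := by
    intro X Y hXY
    ext a b
    exact congrFun (congrFun hXY a) b
  let A1 : ∀ l, Matrix (Fin s) (Fin s) S := fun l => Matrix.of fun a b => ⟨_, hm1 l a b⟩
  let A2 : ∀ l, Matrix (Fin s) (Fin s) S := fun l => Matrix.of fun a b => ⟨_, hm2 l a b⟩
  have hA1 : ∀ l, ι0 (A1 l) = (g l : Matrix (Fin s) (Fin s) R) := fun l => rfl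
  have hA2 : ∀ l, ι0 (A2 l) = ((g l)⁻¹ : GL' s R).val := fun l => rfl
  let g' : Fin k → GL' s S := fun l => ⟨A1 l, A2 l, by
      apply hι0
      rw [map_mul, map_one, hA1, hA2, ← Units.val_mul, mul_inv_cancel, Units.val_one], by
      apply hι0
      rw [map_mul, map_one, hA1, hA2, ← Units.val_mul, inv_mul_cancel, Units.val_one]⟩
  let ι : GL' s S →* GL' s R := Units.map ι0.toMonoidHom
  have hι : Function.Injective ι := by
    intro x y hxy
    apply Units.ext
    apply hι0
    exact congrArg Units.val hxy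
  have hιg : ∀ l, ι (g' l) = g l := fun l => Units.ext rfl
  have hw1 : ∀ w, FreeGroup.lift g w = 1 ↔ FreeGroup.lift g' w = 1 := by
    intro w
    have e : FreeGroup.lift g = ι.comp (FreeGroup.lift g') := by
      ext1 l
      rw [MonoidHom.comp_apply, FreeGroup.lift_apply_of, FreeGroup.lift_apply_of, hιg]
    rw [e, MonoidHom.comp_apply, map_eq_one_iff ι hι]
  let I : Ideal S := (IsLocalRing.maximalIdeal R).comap (S.val : S →+* R)
  have hI : ∀ r ∈ I, ∀ x : S, r * x = x → x = 0 := by
    intro r hr x hx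
    have h1 : (r : R) ∈ IsLocalRing.maximalIdeal R := hr
    have h2 : IsUnit (1 - (r : R)) := by
      rcases IsLocalRing.isUnit_or_isUnit_one_sub_self (r : R) with h3 | h3
      · exact absurd h3 ((IsLocalRing.mem_maximalIdeal _).1 h1)
      · exact h3
    have h3 : (1 - (r : R)) * (x : R) = 0 := by
      have h4 : (r : R) * (x : R) = (x : R) := congrArg Subtype.val hx
      rw [sub_mul, one_mul, h4, sub_self]
    exact Subtype.ext ((h2.mul_right_eq_zero).1 h3)
  have hg' : ∀ l, g' l ∈ cg s I := by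
    intro l
    rw [mem_cg]
    intro a b
    have h1 := mem_cg.1 (hg l) a b
    change ((S.val : S →+* R) (((g' l : Matrix (Fin s) (Fin s) S) - 1) a b)) ∈
      IsLocalRing.maximalIdeal R
    have e : (S.val : S →+* R) (((g' l : Matrix (Fin s) (Fin s) S) - 1) a b) =
        ((g l : Matrix (Fin s) (Fin s) R) - 1) a b := by
      have h2 : ι0 ((g' l : Matrix (Fin s) (Fin s) S) - 1) =
          (g l : Matrix (Fin s) (Fin s) R) - 1 := by
        rw [map_sub, map_one]
        rfl
      rw [← h2]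
      rfl
    rw [e]
    exact h1
  -- the quotients
  let q : ∀ j : ℕ, GL' s S →* GL' s (S ⧸ I ^ j) := fun j => Units.map (red s (I ^ j)).toMonoidHom
  let J : ∀ j : ℕ, Ideal (S ⧸ I ^ j) := fun j => I.map (Ideal.Quotient.mk (I ^ j))
  have hJ : ∀ j, J j ^ j = ⊥ := by
    intro j
    change (I.map (Ideal.Quotient.mk (I ^ j))) ^ j = ⊥
    rw [← Ideal.map_pow, Ideal.map_quotient_self]
  have hq : ∀ j l, q j (g' l) ∈ cg s (J j) := fun j l => red_mem_cg (I ^ j) (hg' l)
  let Q : ℕ → Type := fun j => cg s (J j)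
  let gQ : ∀ j, Fin k → Q j := fun j l => (⟨q j (g' l), hq j l⟩ : cg s (J j))
  let _ : ∀ j, Group (Q j) := fun j => (inferInstance : Group (cg s (J j)))
  have hQ : ∀ j, LI (Q j) ∧ Pool.Agent.TH714.PF.Fol (Q j) := fun j => cg_good (J j) j (hJ j)
  have hQw : ∀ j w, FreeGroup.lift (gQ j) w = 1 ↔ q j (FreeGroup.lift g' w) = 1 := by
    intro j w
    have e : (q j).comp (FreeGroup.lift g') = (cg s (J j)).subtype.comp (FreeGroup.lift (gQ j)) := by
      ext1 l
      rw [MonoidHom.comp_apply, MonoidHom.comp_apply, FreeGroup.lift_apply_of,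
        FreeGroup.lift_apply_of]
      rfl
    have e2 : q j (FreeGroup.lift g' w) = (cg s (J j)).subtype (FreeGroup.lift (gQ j) w) :=
      DFunLike.congr_fun e w
    rw [e2, map_eq_one_iff _ (cg s (J j)).subtype_injective]
  refine int_of_tendsto (marked_limit atTop le_rfl Q (fun j => sofic_of_fol (hQ j).2) c gQ h
    ?_ ?_) (fun j => integral_pm (hQ j).1 (hQ j).2 c (gQ j))
  · intro w hw
    rw [hh, hw1] at hw
    refine Eventually.of_forall fun j => ?_
    rw [hQw, hw, map_one]
  · intro w hw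
    rw [ne_eq, hh, hw1] at hw
    have h1 : ∃ a b, ((FreeGroup.lift g' w : GL' s S) - 1 : Matrix (Fin s) (Fin s) S) a b ≠ 0 := by
      by_contra hcon
      push Not at hcon
      apply hw
      apply Units.ext
      rw [← sub_eq_zero]
      ext a b
      exact congrArg Subtype.val (hcon a b)
    obtain ⟨a, b, hab⟩ := h1
    obtain ⟨j0, hj0⟩ := krull I hI _ hab
    filter_upwards [eventually_ge_atTop j0] with j hj
    rw [ne_eq, hQw]
    intro h2
    exact hj0 j hj (mem_cg.1 (MonoidHom.mem_ker.2 h2) a b)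
end

end Pool.Agent.U700.LR
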