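import Pool.Agent.U700.LR3

/-!
Ultraproducts of local rings; nearly integral kernel dimensions, uniformly in the local ring.
-/

set_option autoImplicit false
set_option linter.unusedSectionVars false

open scoped Pointwise
open Filter Topology Matrix

namespace Pool.Agent.U700.LR

open Pool.Agent
open Pool.Agent.H80R2.BC (vdim kerA)
open Pool.Agent.H21R2 (IsSofic hamm)
open Pool.Agent.U700.NI

section
variable (U : Ultrafilter ℕ) (R : ℕ → Type) [∀ N, CommRing (R N)]

/-- sequences which vanish almost everywhere -/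
def IU : Ideal (∀ N, R N) where
  carrier := {x | ∀ᶠ N in (U : Filter ℕ), x N = 0}
  add_mem' := by
    intro a b ha hb
    filter_upwards [ha, hb] with N h1 h2
    rw [Pi.add_apply, h1, h2, add_zero]
  zero_mem' := Eventually.of_forall fun _ => rfl
  smul_mem' := by
    intro c x hx
    filter_upwards [hx] with N h1
    rw [smul_eq_mul, Pi.mul_apply, h1, mul_zero]

/-- the ultraproduct -/
abbrev RU : Type := (∀ N, R N) ⧸ IU U R

/-- the class of a sequence -/
def cl : (∀ N, R N) →+* RU U R := Ideal.Quotient.mk (IU U R)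

variable {U R}

theorem cl_eq_zero {x : ∀ N, R N} : cl U R x = 0 ↔ ∀ᶠ N in (U : Filter ℕ), x N = 0 :=
  Ideal.Quotient.eq_zero_iff_mem

theorem cl_eq {x y : ∀ N, R N} : cl U R x = cl U R y ↔ ∀ᶠ N in (U : Filter ℕ), x N = y N := by
  rw [← sub_eq_zero, ← map_sub, cl_eq_zero]
  simp only [Pi.sub_apply, sub_eq_zero]

theorem cl_surj (b : RU U R) : ∃ x, cl U R x = b := Ideal.Quotient.mk_surjective b

theorem isUnit_cl {x : ∀ N, R N} : IsUnit (cl U R x) ↔ ∀ᶠ N in (U : Filter ℕ), IsUnit (x N) := by
  classical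
  constructor
  · intro h
    obtain ⟨b, hb⟩ := h.exists_right_inv
    obtain ⟨y, rfl⟩ := cl_surj b
    rw [← map_mul, ← map_one (cl U R), cl_eq] at hb
    filter_upwards [hb] with N h1
    exact IsUnit.of_mul_eq_one (y N) h1
  · intro h
    let y : ∀ N, R N := fun N => if h : IsUnit (x N) then ((h.unit⁻¹ : (R N)ˣ) : R N) else 0
    apply IsUnit.of_mul_eq_one (cl U R y)
    rw [← map_mul, ← map_one (cl U R), cl_eq]
    filter_upwards [h] with N h1
    change x N * y N = 1
    have e : y N = ((h1.unit⁻¹ : (R N)ˣ) : R N) := dif_pos h1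
    rw [e]
    exact h1.mul_val_inv

theorem nontrivial_RU [∀ N, IsLocalRing (R N)] : Nontrivial (RU U R) := by
  refine ⟨⟨cl U R 1, cl U R 0, fun h => ?_⟩⟩
  rw [cl_eq] at h
  obtain ⟨N, hN⟩ := h.exists
  exact one_ne_zero hN

theorem isLocalRing_RU [∀ N, IsLocalRing (R N)] : IsLocalRing (RU U R) := by
  have := nontrivial_RU (U := U) (R := R)
  apply IsLocalRing.of_isUnit_or_isUnit_one_sub_self
  intro a
  obtain ⟨x, rfl⟩ := cl_surj a
  rw [← map_one (cl U R), ← map_sub, isUnit_cl, isUnit_cl, ← Ultrafilter.eventually_or]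
  exact Eventually.of_forall fun N => IsLocalRing.isUnit_or_isUnit_one_sub_self (x N)

theorem unit_nat {A : Type} [CommRing A] (N : ℕ) (h : ∀ p : ℕ, p.Prime → p ≤ N → IsUnit (p : A))
    (r : ℕ) : r ≠ 0 → r ≤ N → IsUnit (r : A) := by
  induction r using Nat.strong_induction_on with
  | _ r ih =>
    intro h0 hN
    by_cases h1 : r = 1
    · rw [h1, Nat.cast_one]; exact isUnit_one
    · have hp := Nat.minFac_prime h1
      obtain ⟨t, ht⟩ := Nat.minFac_dvd r
      have ht0 : t ≠ 0 := by
        rintro rfl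
        exact h0 (by rw [ht, mul_zero])
      have hlt : t < r := by
        have h2 := hp.two_le
        have h3 : 0 < t := Nat.pos_of_ne_zero ht0
        nlinarith
      have h4 := ih t hlt ht0 (by omega)
      have h5 := h _ hp ((Nat.minFac_le (Nat.pos_of_ne_zero h0)).trans hN)
      rw [ht, Nat.cast_mul]
      exact h5.mul h4

/-- a ring in which the positive integers are invertible -/
@[instance_reducible] noncomputable def algQ {A : Type} [CommRing A] (h : ∀ r : ℕ, r ≠ 0 → IsUnit (r : A)) :
    Algebra ℚ A :=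
  (IsLocalization.lift (M := nonZeroDivisors ℤ) (S := ℚ) (g := Int.castRingHom A) (by
    intro y
    have h0 : (y : ℤ) ≠ 0 := nonZeroDivisors.ne_zero y.2
    have h1 := h (y : ℤ).natAbs (Int.natAbs_ne_zero.2 h0)
    rcases Int.natAbs_eq (y : ℤ) with h2 | h2
    · rw [h2]
      simpa using h1
    · rw [h2]
      simpa using h1)).toAlgebra

/-- entrywise classes -/
def th (U : Ultrafilter ℕ) (R : ℕ → Type) [∀ N, CommRing (R N)] (s : ℕ) :
    (∀ N, Matrix (Fin s) (Fin s) (R N)) →* Matrix (Fin s) (Fin s) (RU U R) where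
  toFun X := Matrix.of fun a b => cl U R (fun N => X N a b)
  map_one' := by
    ext a b
    rw [Matrix.of_apply]
    by_cases h : a = b
    · subst h
      rw [Matrix.one_apply_eq, ← map_one (cl U R)]
      congr 1
      funext N
      exact Matrix.one_apply_eq a
    · rw [Matrix.one_apply_ne h, ← map_zero (cl U R)]
      congr 1
      funext N
      exact Matrix.one_apply_ne h
  map_mul' := by
    intro X Y
    ext a b
    rw [Matrix.mul_apply, Matrix.of_apply]
    simp only [Matrix.of_apply]
    simp only [← map_mul, ← map_sum]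
    congr 1
    funext N
    rw [Finset.sum_apply]
    exact Matrix.mul_apply

theorem th_apply {s : ℕ} (X : ∀ N, Matrix (Fin s) (Fin s) (R N)) (a b : Fin s) :
    th U R s X a b = cl U R (fun N => X N a b) := rfl

theorem th_eq {s : ℕ} (X Y : ∀ N, Matrix (Fin s) (Fin s) (R N)) :
    th U R s X = th U R s Y ↔ ∀ᶠ N in (U : Filter ℕ), X N = Y N := by
  constructor
  · intro h
    have h1 : ∀ a b, ∀ᶠ N in (U : Filter ℕ), X N a b = Y N a b := by
      intro a b
      exact cl_eq.1 (congrFun (congrFun h a) b)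
    have h2 : ∀ᶠ N in (U : Filter ℕ), ∀ a b, X N a b = Y N a b := by
      rw [eventually_all]
      intro a
      rw [eventually_all]
      exact h1 a
    filter_upwards [h2] with N h3
    ext a b
    exact h3 a b
  · intro h
    ext a b
    rw [th_apply, th_apply, cl_eq]
    filter_upwards [h] with N h1
    rw [h1]

theorem th_one_sub {s : ℕ} (X : ∀ N, Matrix (Fin s) (Fin s) (R N)) (a b : Fin s) :
    (th U R s X - 1) a b = cl U R (fun N => (X N - 1) a b) := by
  rw [← map_one (th U R s), Matrix.sub_apply, th_apply, th_apply, ← map_sub]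
  rfl

/-- the homomorphism of the general linear groups -/
def Ps (U : Ultrafilter ℕ) (R : ℕ → Type) [∀ N, CommRing (R N)] (s : ℕ) :
    (∀ N, GL' s (R N)) →* GL' s (RU U R) :=
  (Units.map (th U R s)).comp (MulEquiv.piUnits (M := fun N => Matrix (Fin s) (Fin s) (R N))).symm.toMonoidHom

theorem Ps_val {s : ℕ} (u : ∀ N, GL' s (R N)) :
    (Ps U R s u : Matrix (Fin s) (Fin s) (RU U R)) =
      th U R s (fun N => (u N : Matrix (Fin s) (Fin s) (R N))) := rfl

theorem Ps_eq_one {s : ℕ} (u : ∀ N, GL' s (R N)) :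
    Ps U R s u = 1 ↔ ∀ᶠ N in (U : Filter ℕ), u N = 1 := by
  rw [Units.ext_iff, Ps_val, Units.val_one, ← map_one (th U R s), th_eq]
  constructor
  · intro h
    filter_upwards [h] with N h1
    exact Units.ext h1
  · intro h
    filter_upwards [h] with N h1
    rw [h1]
    rfl
end

theorem near_integral (s : ℕ) {m n k : ℕ} (c : Fin m → Fin n → Fin k → ℤ) (ε : ℝ) (hε : 0 < ε) :
    ∃ P : ℕ, ∀ (R : Type) [CommRing R] [IsLocalRing R],
      (∀ p : ℕ, p.Prime → p ≤ P → IsUnit (p : R)) → ∀ (G : Type) [Group G], IsSofic G →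
      ∀ ρ : G →* GL' s R, Function.Injective ρ →
      (∀ g, ρ g ∈ cg s (IsLocalRing.maximalIdeal R)) → ∀ g : Fin k → G,
        ∃ z : ℤ, |vdim (kerA (PM c g)) - z| < ε := by
  classical
  by_contra hcon
  push Not at hcon
  choose R i1 i2 hp G i3 hG ρ hρ hcg g hg using hcon
  let U : Ultrafilter ℕ := hyperfilter ℕ
  have hU : (U : Filter ℕ) ≤ atTop := Nat.hyperfilter_le_atTop
  have hloc : IsLocalRing (RU U R) := isLocalRing_RU
  let _ : Algebra ℚ (RU U R) := algQ (by
    intro r hr
    rw [← map_natCast (cl U R), isUnit_cl]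
    filter_upwards [hU (eventually_ge_atTop r)] with N hN
    exact unit_nat N (hp N) r hr hN)
  let u : Fin k → ∀ N, GL' s (R N) := fun l N => ρ N (g N l)
  let h : Fin k → GL' s (RU U R) := fun l => Ps U R s (u l)
  have hlift : ∀ w, FreeGroup.lift h w = 1 ↔
      ∀ᶠ N in (U : Filter ℕ), FreeGroup.lift (g N) w = 1 := by
    intro w
    let p : FreeGroup (Fin k) →* (∀ N, GL' s (R N)) :=
      MonoidHom.pi fun N => (ρ N).comp (FreeGroup.lift (g N))
    have e : FreeGroup.lift h = (Ps U R s).comp p := by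
      ext1 l
      rw [MonoidHom.comp_apply, FreeGroup.lift_apply_of]
      change Ps U R s (u l) = _
      congr 1
      funext N
      change ρ N (g N l) = ρ N (FreeGroup.lift (g N) (FreeGroup.of l))
      rw [FreeGroup.lift_apply_of]
    rw [e, MonoidHom.comp_apply, Ps_eq_one]
    apply eventually_congr
    refine Eventually.of_forall fun N => ?_
    change ρ N (FreeGroup.lift (g N) w) = 1 ↔ _
    rw [map_eq_one_iff _ (hρ N)]
  have hlim := marked_limit (U : Filter ℕ) hU G hG c g h (fun w hw => (hlift w).1 hw)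
    (fun w hw => by
      rw [ne_eq, hlift, ← Ultrafilter.eventually_not] at hw
      exact hw)
  obtain ⟨z, hz⟩ := integral_local c h (by
    intro l
    rw [mem_cg]
    intro a b
    rw [IsLocalRing.mem_maximalIdeal, mem_nonunits_iff]
    intro h1
    have e : ((h l : Matrix (Fin s) (Fin s) (RU U R)) - 1) a b =
        cl U R (fun N => ((u l N : Matrix (Fin s) (Fin s) (R N)) - 1) a b) := by
      rw [← th_one_sub]
      rfl
    rw [e, isUnit_cl] at h1
    obtain ⟨N, hN⟩ := h1.exists
    exact (IsLocalRing.mem_maximalIdeal _).1 (mem_cg.1 (hcg N (g N l)) a b) hN) h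
    (fun w => Iff.rfl)
  rw [hz] at hlim
  obtain ⟨N, hN⟩ := (hlim.eventually (Metric.ball_mem_nhds _ hε)).exists
  have h1 := hg N z
  rw [← Real.dist_eq] at h1
  exact absurd hN (not_lt.2 h1)

end Pool.Agent.U700.LR
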