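import Pool.Agent.U700.LR4
import Pool.Agent.H23R2.Lin
import Pool.Agent.TH107.RF.Sofic

/-!
Groups of invertible matrices over commutative rings are sofic.
-/

set_option autoImplicit false
set_option linter.unusedSectionVars false

namespace Pool.Agent.U700.LR

open Pool.Agent
open Pool.Agent.H21R2
open Pool.Agent.U700.NI

theorem sofic_local {G : Type} [Group G]
    (h : ∀ A : Finset G, ∃ K : Subgroup G, (∀ a ∈ A, a ∈ K) ∧ IsSofic K) : IsSofic G := by
  classical
  intro A h1 ε hε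
  obtain ⟨K, hAK, hK⟩ := h A
  obtain ⟨A', hA'⟩ : ∃ A' : Finset K, ∀ a (ha : a ∈ A), (⟨a, hAK a ha⟩ : K) ∈ A' :=
    ⟨Finset.univ.image (fun a : A => (⟨a, hAK a a.2⟩ : K)), fun a ha =>
      Finset.mem_image.2 ⟨⟨a, ha⟩, Finset.mem_univ _, rfl⟩⟩
  have h1' : (1 : K) ∈ A' := hA' 1 h1
  obtain ⟨n, hn, φ, h2, h3, h4⟩ := hK A' h1' ε hε
  obtain ⟨φ', hφ'⟩ : ∃ φ' : G → Equiv.Perm (Fin n), ∀ g (hg : g ∈ K), φ' g = φ ⟨g, hg⟩ :=
    ⟨fun g => if hg : g ∈ K then φ ⟨g, hg⟩ else 1, fun g hg => dif_pos hg⟩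
  refine ⟨n, hn, φ', ?_, ?_, ?_⟩
  · rw [hφ' 1 K.one_mem]
    exact h2
  · intro a ha b hb hab
    have e : (⟨a * b, hAK _ hab⟩ : K) = ⟨a, hAK a ha⟩ * ⟨b, hAK b hb⟩ := Subtype.ext rfl
    have h5 := hA' _ hab
    rw [e] at h5
    have h6 := h3 _ (hA' a ha) _ (hA' b hb) h5
    rw [hφ' _ (hAK _ hab), hφ' _ (hAK _ ha), hφ' _ (hAK _ hb), e]
    exact h6
  · intro a ha hne
    rw [hφ' _ (hAK _ ha)]
    exact h4 _ (hA' a ha) fun h => hne (congrArg Subtype.val h)

/-- finitely generated commutative rings are residually finite -/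
theorem exists_finite_quot {R : Type} [CommRing R] [Algebra.FiniteType ℤ R] (x : R) (hx : x ≠ 0) :
    ∃ I : Ideal R, Finite (R ⧸ I) ∧ x ∉ I := by
  have hNo : IsNoetherianRing R := Algebra.FiniteType.isNoetherianRing ℤ R
  let J : Ideal R := Submodule.annihilator (Submodule.span R {x})
  have hJ : J ≠ ⊤ := by
    intro h
    have h1 : (1 : R) ∈ J := by rw [h]; trivial
    rw [Submodule.mem_annihilator] at h1
    have := h1 x (Submodule.mem_span_singleton_self x)
    rw [one_smul] at this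
    exact hx this
  obtain ⟨m, hm, hJm⟩ := Ideal.exists_le_maximal J hJ
  obtain ⟨q, _, _, hfin⟩ := H23R2.residue_finite R m
  have hex : ∃ k : ℕ, x ∉ m ^ k := by
    by_contra hall
    push Not at hall
    have hmem : x ∈ (⨅ i : ℕ, m ^ i • ⊤ : Submodule R R) := by
      rw [Submodule.mem_iInf]
      intro i
      have : m ^ i • (⊤ : Submodule R R) = m ^ i := by
        rw [smul_eq_mul, Ideal.mul_top]
      rw [this]
      exact hall i
    rw [Ideal.mem_iInf_smul_pow_eq_bot_iff] at hmem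
    obtain ⟨r, hr⟩ := hmem
    have h1 : (1 - (r : R)) ∈ J := by
      rw [Submodule.mem_annihilator_span_singleton]
      rw [sub_smul, one_smul, hr, sub_self]
    have h2 := m.add_mem (hJm h1) r.2
    rw [sub_add_cancel] at h2
    exact hm.ne_top ((Ideal.eq_top_iff_one m).mpr h2)
  obtain ⟨k, hk⟩ := hex
  exact ⟨m ^ k, Ideal.finite_quotient_pow (IsNoetherian.noetherian m) k, hk⟩

theorem sofic_gl_fg (s : ℕ) (R : Type) [CommRing R] [Algebra.FiniteType ℤ R] :
    IsSofic (GL' s R) := by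
  apply TH107.RF.sofic_of_res
  intro u hu
  have h1 : ∃ a b, ((u : Matrix (Fin s) (Fin s) R) - 1) a b ≠ 0 := by
    by_contra hcon
    push Not at hcon
    apply hu
    apply Units.ext
    rw [← sub_eq_zero]
    ext a b
    exact hcon a b
  obtain ⟨a, b, hab⟩ := h1
  obtain ⟨I, hfin, hI⟩ := exists_finite_quot _ hab
  refine ⟨GL' s (R ⧸ I), inferInstance, inferInstance, Units.map (red s I).toMonoidHom, ?_⟩
  intro h2
  exact hI (mem_cg.1 (MonoidHom.mem_ker.2 h2) a b)

/-- all groups of invertible matrices over commutative rings are sofic -/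
theorem sofic_gl (s : ℕ) (R : Type) [CommRing R] : IsSofic (GL' s R) := by
  classical
  apply sofic_local
  intro A
  let T : Finset R := A.biUnion fun u => Finset.univ.biUnion fun a : Fin s =>
    Finset.univ.biUnion fun b : Fin s => {(u : Matrix (Fin s) (Fin s) R) a b,
      (u⁻¹ : GL' s R).val a b}
  let S : Subalgebra ℤ R := Algebra.adjoin ℤ (T : Set R)
  have hS : S.FG := Subalgebra.fg_adjoin_finset T
  have hft : Algebra.FiniteType ℤ S := S.fg_iff_finiteType.1 hS
  have hm1 : ∀ u ∈ A, ∀ a b, (u : Matrix (Fin s) (Fin s) R) a b ∈ S := by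
    intro u hu a b
    apply Algebra.subset_adjoin
    rw [Finset.mem_coe]
    simp only [T, Finset.mem_biUnion, Finset.mem_univ, true_and, Finset.mem_insert,
      Finset.mem_singleton]
    exact ⟨u, hu, a, b, Or.inl rfl⟩
  have hm2 : ∀ u ∈ A, ∀ a b, (u⁻¹ : GL' s R).val a b ∈ S := by
    intro u hu a b
    apply Algebra.subset_adjoin
    rw [Finset.mem_coe]
    simp only [T, Finset.mem_biUnion, Finset.mem_univ, true_and, Finset.mem_insert,
      Finset.mem_singleton]
    exact ⟨u, hu, a, b, Or.inr rfl⟩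
  let ι0 : Matrix (Fin s) (Fin s) S →+* Matrix (Fin s) (Fin s) R := (S.val : S →+* R).mapMatrix
  have hι0 : Function.Injective ι0 := by
    intro X Y hXY
    ext a b
    exact congrFun (congrFun hXY a) b
  let ι : GL' s S →* GL' s R := Units.map ι0.toMonoidHom
  have hι : Function.Injective ι := by
    intro x y hxy
    apply Units.ext
    apply hι0
    exact congrArg Units.val hxy
  refine ⟨ι.range, ?_, ?_⟩
  · intro u hu
    let A1 : Matrix (Fin s) (Fin s) S := Matrix.of fun a b => ⟨_, hm1 u hu a b⟩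
    let A2 : Matrix (Fin s) (Fin s) S := Matrix.of fun a b => ⟨_, hm2 u hu a b⟩
    have hA1 : ι0 A1 = (u : Matrix (Fin s) (Fin s) R) := rfl
    have hA2 : ι0 A2 = (u⁻¹ : GL' s R).val := rfl
    refine ⟨⟨A1, A2, ?_, ?_⟩, Units.ext rfl⟩
    · apply hι0
      rw [map_mul, map_one, hA1, hA2, ← Units.val_mul, mul_inv_cancel, Units.val_one]
    · apply hι0
      rw [map_mul, map_one, hA1, hA2, ← Units.val_mul, inv_mul_cancel, Units.val_one]
  · let e := MonoidHom.ofInjective hι
    exact sofic_inj e.symm.toMonoidHom e.symm.injective (sofic_gl_fg s S)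

end Pool.Agent.U700.LR
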