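import Pool.Agent.U700.LR5
import Pool.Agent.U700.IA5
import Pool.Agent.TH107.AT.Fi

/-!
Matrices of bounded complexity; subgroups of finite index.
-/

set_option autoImplicit false
set_option linter.unusedSectionVars false

namespace Pool.Agent.U700.LR

open Pool.Agent
open Pool.Agent.TH107.AT
open Pool.Agent.H80R2.BC (L2 GMat vdim kerA)
open Pool.Agent.H812R3
open Pool.Agent.W656.VA
open Pool.Agent.H21R2
open Pool.Agent.U700.NI

theorem near_bounded (s N : ℕ) (ε : ℝ) (hε : 0 < ε) :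
    ∃ P : ℕ, ∀ (R : Type) [CommRing R] [IsLocalRing R],
      (∀ p : ℕ, p.Prime → p ≤ P → IsUnit (p : R)) → ∀ (G : Type) [Group G],
      ∀ ρ : G →* GL' s R, Function.Injective ρ →
      (∀ g, ρ g ∈ cg s (IsLocalRing.maximalIdeal R)) → ∀ v ∈ D1 G N,
        ∃ z : ℤ, |v - z| < ε := by
  classical
  have h := fun (m n k : ℕ) (c : Fin m → Fin n → Fin k → ℤ) => near_integral s c ε hε
  choose P hP using h
  let Q : ℕ := ∑ m ∈ Finset.range (N + 1), ∑ n ∈ Finset.range (N + 1),
    ∑ c ∈ (finite_SP m n N).toFinset, P m n _ c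
  refine ⟨Q, ?_⟩
  intro R _ _ hp G _ ρ hρ hcg v hv
  obtain ⟨m, n, A, hm, hn, hA, rfl⟩ := hv
  obtain ⟨c, hc, g, hg⟩ := pat_of_sm A hA
  have hle : P m n _ c ≤ Q := by
    have h1 : P m n _ c ≤ ∑ c ∈ (finite_SP m n N).toFinset, P m n _ c :=
      Finset.single_le_sum (f := fun c => P m n _ c) (fun _ _ => Nat.zero_le _)
        ((finite_SP m n N).mem_toFinset.2 hc)
    have h2 : (∑ c ∈ (finite_SP m n N).toFinset, P m n _ c) ≤
        ∑ n ∈ Finset.range (N + 1), ∑ c ∈ (finite_SP m n N).toFinset, P m n _ c :=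
      Finset.single_le_sum (f := fun n => ∑ c ∈ (finite_SP m n N).toFinset, P m n _ c)
        (fun _ _ => Nat.zero_le _) (Finset.mem_range.2 (by omega))
    have h3 : (∑ n ∈ Finset.range (N + 1), ∑ c ∈ (finite_SP m n N).toFinset, P m n _ c) ≤ Q :=
      Finset.single_le_sum (f := fun m => ∑ n ∈ Finset.range (N + 1),
        ∑ c ∈ (finite_SP m n N).toFinset, P m n _ c)
        (fun _ _ => Nat.zero_le _) (Finset.mem_range.2 (by omega))
    exact h1.trans (h2.trans h3)
  have h1 := hP m n _ c R (fun p hpp hpP => hp p hpp (hpP.trans hle)) G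
    (sofic_inj ρ hρ (sofic_gl s R)) ρ hρ hcg g
  rw [hg] at h1
  exact h1

theorem sm_res {G : Type} [Group G] {κ ι : Type} [Fintype κ] [Fintype ι] (H : Subgroup G) {N : ℕ}
    (A : GMat κ ι G) (hA : Sm N A) : Sm N (res H A) := by
  classical
  intro p q
  constructor
  · intro g
    exact (hA p.1 q.1).1 _
  · refine le_trans ?_ (hA p.1 q.1).2
    change ∑ a ∈ (res H A p q).support, ‖res H A p q a‖ ≤ _
    have e : ∀ a : H, res H A p q a = A p.1 q.1 ((rp H p.2)⁻¹ * (a : G) * rp H q.2) :=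
      fun a => rfl
    simp only [e]
    rw [← Finset.sum_image (s := (res H A p q).support) (f := fun b => ‖A p.1 q.1 b‖)
      (g := fun a : H => (rp H p.2)⁻¹ * (a : G) * rp H q.2)
      (fun a _ b _ h => inj_res H p.2 q.2 h)]
    apply Finset.sum_le_sum_of_subset_of_nonneg
    · intro b hb
      obtain ⟨a, ha, rfl⟩ := Finset.mem_image.1 hb
      rw [Finsupp.mem_support_iff] at ha ⊢
      exact ha
    · intro _ _ _
      exact norm_nonneg _

theorem sm_mono {G : Type} {κ ι : Type} {N N' : ℕ} (h : N ≤ N') {A : GMat κ ι G}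
    (hA : Sm N A) : Sm N' A :=
  fun i j => ⟨(hA i j).1, (hA i j).2.trans (by exact_mod_cast h)⟩

theorem res_D1 {G : Type} [Group G] (H : Subgroup G) (q N : ℕ) (hq : H.index = q) (hq0 : q ≠ 0)
    (v : ℝ) (hv : v ∈ D1 G N) : q * v ∈ D1 H (N * q) := by
  classical
  obtain ⟨m, n, A, hm, hn, hA, rfl⟩ := hv
  have hfin : Finite (G ⧸ H) := by
    apply Nat.finite_of_card_ne_zero
    change H.index ≠ 0
    rw [hq]
    exact hq0
  have : Fintype (G ⧸ H) := Fintype.ofFinite _
  have hcard : Fintype.card (G ⧸ H) = q := by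
    rw [← hq, Subgroup.index, Nat.card_eq_fintype_card]
  have h1 := vdim_res H A
  rw [hcard] at h1
  rw [← h1, ← vdim_ri (Fintype.equivFin _).symm (Fintype.equivFin _).symm (res H A)]
  refine ⟨_, _, _, ?_, ?_, ?_, rfl⟩
  · rw [Fintype.card_prod, Fintype.card_fin, hcard]
    exact Nat.mul_le_mul_right _ hm
  · rw [Fintype.card_prod, Fintype.card_fin, hcard]
    exact Nat.mul_le_mul_right _ hn
  · have h2 : Sm (N * q) (res H A) :=
      sm_mono (Nat.le_mul_of_pos_right N (Nat.pos_of_ne_zero hq0)) (sm_res H A hA)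
    intro i j
    exact h2 _ _

theorem near_index (s q N : ℕ) (hq0 : q ≠ 0) (ε : ℝ) (hε : 0 < ε) :
    ∃ P : ℕ, ∀ (R : Type) [CommRing R] [IsLocalRing R],
      (∀ p : ℕ, p.Prime → p ≤ P → IsUnit (p : R)) → ∀ (G : Type) [Group G],
      ∀ ρ : G →* GL' s R, Function.Injective ρ → ∀ H : Subgroup G, H.index = q →
      (∀ g ∈ H, ρ g ∈ cg s (IsLocalRing.maximalIdeal R)) → ∀ v ∈ D1 G N,
        ∃ z : ℤ, |v - z / q| < ε := by
  have hqp : (0 : ℝ) < q := by exact_mod_cast Nat.pos_of_ne_zero hq0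
  obtain ⟨P, hP⟩ := near_bounded s (N * q) (ε * q) (by positivity)
  refine ⟨P, ?_⟩
  intro R _ _ hp G _ ρ hρ H hH hcg v hv
  obtain ⟨z, hz⟩ := hP R hp H (ρ.comp H.subtype) (hρ.comp H.subtype_injective)
    (fun g => hcg g g.2) _ (res_D1 H q N hH hq0 v hv)
  refine ⟨z, ?_⟩
  have e : v - z / q = (q * v - z) / q := by
    field_simp
  rw [e, abs_div, abs_of_pos hqp, div_lt_iff₀ hqp]
  exact hz

/-- in residue characteristic zero congruence subgroups are torsion-free -/
theorem cg_tf {s : ℕ} {R : Type} [CommRing R] [IsLocalRing R]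
    (h : ∀ p : ℕ, p.Prime → IsUnit (p : R)) (x : GL' s R)
    (hx : x ∈ cg s (IsLocalRing.maximalIdeal R)) (r : ℕ) (hr : r ≠ 0) (hxr : x ^ r = 1) :
    x = 1 := by
  classical
  set X : Matrix (Fin s) (Fin s) R := (x : Matrix (Fin s) (Fin s) R) with hX
  have h1 : (∑ i ∈ Finset.range r, X ^ i) * (X - 1) = 0 := by
    rw [geom_sum_mul, hX, ← Units.val_pow_eq_pow_val, hxr, Units.val_one, sub_self]
  have h2 : red s (IsLocalRing.maximalIdeal R) X = 1 := by
    have h3 := (red_eq_zero _ _).2 (mem_cg.1 hx)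
    rw [map_sub, map_one, sub_eq_zero] at h3
    exact h3
  have h3 : IsUnit (∑ i ∈ Finset.range r, X ^ i) := by
    rw [Matrix.isUnit_iff_isUnit_det]
    by_contra hcon
    have h4 : (∑ i ∈ Finset.range r, X ^ i).det ∈ IsLocalRing.maximalIdeal R := hcon
    rw [← Ideal.Quotient.eq_zero_iff_mem, RingHom.map_det] at h4
    have h5 : (Ideal.Quotient.mk (IsLocalRing.maximalIdeal R)).mapMatrix
        (∑ i ∈ Finset.range r, X ^ i) = (r : Matrix (Fin s) (Fin s)
          (R ⧸ IsLocalRing.maximalIdeal R)) := by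
      change red s (IsLocalRing.maximalIdeal R) (∑ i ∈ Finset.range r, X ^ i) = _
      rw [map_sum]
      simp only [map_pow, h2, one_pow, Finset.sum_const, Finset.card_range, nsmul_eq_mul, mul_one]
    rw [h5] at h4
    have h6 : (r : Matrix (Fin s) (Fin s) (R ⧸ IsLocalRing.maximalIdeal R)) =
        Matrix.diagonal (fun _ => (r : R ⧸ IsLocalRing.maximalIdeal R)) := by
      exact (Matrix.diagonal_natCast r).symm
    rw [h6, Matrix.det_diagonal, Finset.prod_const] at h4
    have h7 : IsUnit (r : R) := unit_nat r (fun p hp _ => h p hp) r hr le_rfl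
    have h8 : IsUnit ((r : R ⧸ IsLocalRing.maximalIdeal R)) := by
      have := h7.map (Ideal.Quotient.mk (IsLocalRing.maximalIdeal R))
      simpa using this
    exact (h8.pow _).ne_zero h4
  have h4 : X - 1 = 0 := (h3.mul_right_eq_zero).1 h1
  exact Units.ext (sub_eq_zero.1 h4)

end Pool.Agent.U700.LR
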