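import Pool.Agent.TH107.AT.Luck

/-!
Integer matrices over a group ring in a permutation representation: the averages of the moments are
close to the nullity.
-/

set_option autoImplicit false
set_option linter.unusedSectionVars false

open Filter Topology Matrix
open scoped ComplexOrder

namespace Pool.Agent.U700.NI

open Pool.Agent.TH107.AT

section eig

variable {m n : Type} [Fintype m] [Fintype n] [DecidableEq n]

theorem eig_le (Z : Matrix m n ℂ) (hH : (Z.conjTranspose * Z).IsHermitian) (R C : ℝ)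
    (hR : ∀ p, ∑ q, ‖Z p q‖ ≤ R) (hC : ∀ q, ∑ p, ‖Z p q‖ ≤ C) (hR0 : 0 ≤ R) (j : n) :
    hH.eigenvalues j ≤ C * R := by
  classical
  have h1 := hH.mulVec_eigenvectorBasis j
  set v : n → ℂ := ⇑(hH.eigenvectorBasis j) with hv
  have hv0 : v ≠ 0 := by
    intro h0
    have h2 := hH.eigenvectorBasis.orthonormal.ne_zero j
    apply h2
    ext i
    exact congrFun h0 i
  obtain ⟨i1, hi1⟩ := Function.ne_iff.1 hv0
  obtain ⟨i0, _, hi0⟩ := Finset.exists_max_image (Finset.univ : Finset n) (fun i => ‖v i‖)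
    ⟨i1, Finset.mem_univ _⟩
  have hpos : 0 < ‖v i0‖ := lt_of_lt_of_le (norm_pos_iff.2 hi1) (hi0 i1 (Finset.mem_univ _))
  have h2 : ∀ p, ‖(Z *ᵥ v) p‖ ≤ R * ‖v i0‖ := by
    intro p
    have e : (Z *ᵥ v) p = ∑ q, Z p q * v q := rfl
    rw [e]
    refine (norm_sum_le _ _).trans ?_
    calc ∑ q, ‖Z p q * v q‖ ≤ ∑ q, ‖Z p q‖ * ‖v i0‖ := by
          refine Finset.sum_le_sum fun q _ => ?_
          rw [norm_mul]
          exact mul_le_mul_of_nonneg_left (hi0 q (Finset.mem_univ _)) (norm_nonneg _)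
      _ = (∑ q, ‖Z p q‖) * ‖v i0‖ := by rw [Finset.sum_mul]
      _ ≤ R * ‖v i0‖ := mul_le_mul_of_nonneg_right (hR p) (norm_nonneg _)
  have h3 : ‖((Z.conjTranspose * Z) *ᵥ v) i0‖ ≤ C * (R * ‖v i0‖) := by
    rw [← Matrix.mulVec_mulVec]
    have e : (Z.conjTranspose *ᵥ (Z *ᵥ v)) i0 = ∑ p, star (Z p i0) * (Z *ᵥ v) p := rfl
    rw [e]
    refine (norm_sum_le _ _).trans ?_
    calc ∑ p, ‖star (Z p i0) * (Z *ᵥ v) p‖ ≤ ∑ p, ‖Z p i0‖ * (R * ‖v i0‖) := by
          refine Finset.sum_le_sum fun p _ => ?_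
          rw [norm_mul, norm_star]
          exact mul_le_mul_of_nonneg_left (h2 p) (norm_nonneg _)
      _ = (∑ p, ‖Z p i0‖) * (R * ‖v i0‖) := by rw [Finset.sum_mul]
      _ ≤ C * (R * ‖v i0‖) := mul_le_mul_of_nonneg_right (hC i0) (by positivity)
  have h4 : ((Z.conjTranspose * Z) *ᵥ v) i0 = (hH.eigenvalues j : ℂ) * v i0 := by
    rw [h1]
    simp [v]
  rw [h4, norm_mul, Complex.norm_real] at h3
  have h5 : |hH.eigenvalues j| * ‖v i0‖ ≤ (C * R) * ‖v i0‖ := by
    rw [Real.norm_eq_abs] at h3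
    linarith
  exact (le_abs_self _).trans (le_of_mul_le_mul_right h5 hpos)

/-- the averages of the moments are close to the nullity -/
theorem mat_bound' (B : Matrix n n ℤ) (hH : (B.map (Int.castRingHom ℂ)).IsHermitian)
    (hpos : ∀ j, 0 ≤ hH.eigenvalues j) (c : ℝ) (hc : 0 < c) (hc1 : c ≤ 1)
    (hbd : ∀ j, c * hH.eigenvalues j ≤ 2) (N L : ℕ) (hN : 0 < N) (hL : 0 < L) :
    ‖(N : ℂ)⁻¹ * ∑ k ∈ Finset.range N, trace ((1 - (c : ℂ) • (B.map (Int.castRingHom ℂ))) ^ k)
        - (((Fintype.card n : ℝ) - (B.map (Int.castRingHom ℂ)).rank : ℝ) : ℂ)‖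
      ≤ Fintype.card n * (1 / L + 2 * (2 / c) ^ L / (c * N)) := by
  classical
  set e := hH.eigenvalues with he
  have htr : ∀ k : ℕ, trace ((1 - (c : ℂ) • (B.map (Int.castRingHom ℂ))) ^ k) =
      ((∑ j, (1 - c * e j) ^ k : ℝ) : ℂ) := by
    intro k
    rw [trace_pow_eq hH]
    push_cast
    rfl
  have hK : (2 : ℝ) ≤ 2 / c := by
    rw [le_div_iff₀ hc]; linarith
  have hle : ∀ j, e j ≤ 2 / c := fun j => by
    rw [le_div_iff₀ hc, mul_comm]; exact hbd j
  have hrank : ((Fintype.card n : ℝ) - (B.map (Int.castRingHom ℂ)).rank : ℝ) =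
      ((Finset.univ.filter (fun j => ¬ e j ≠ 0)).card : ℝ) := by
    rw [hH.rank_eq_card_non_zero_eigs, Fintype.card_subtype]
    have h := Finset.card_filter_add_card_filter_not (s := (Finset.univ : Finset n))
      (fun j => e j ≠ 0)
    rw [Finset.card_univ] at h
    have h' : (((Finset.univ.filter (fun j => e j ≠ 0)).card : ℕ) : ℝ) +
        ((Finset.univ.filter (fun j => ¬ e j ≠ 0)).card : ℕ) = (Fintype.card n : ℝ) := by
      exact_mod_cast h
    rw [← h']
    ring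
  rw [hrank]
  have hN' : (0 : ℝ) < N := by exact_mod_cast hN
  have hL' : (0 : ℝ) < L := by exact_mod_cast hL
  set f : n → ℝ := fun j => (N : ℝ)⁻¹ * ∑ k ∈ Finset.range N, (1 - c * e j) ^ k with hf
  have h1 : (N : ℂ)⁻¹ * ∑ k ∈ Finset.range N, trace ((1 - (c : ℂ) •
      (B.map (Int.castRingHom ℂ))) ^ k) = ((∑ j, f j : ℝ) : ℂ) := by
    simp only [htr, hf]
    rw [← Finset.mul_sum, Finset.sum_comm]
    push_cast
    rfl
  have h2 : ∑ j, f j = ∑ j ∈ Finset.univ.filter (fun j => e j ≠ 0), f j +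
      (Finset.univ.filter (fun j => ¬ e j ≠ 0)).card := by
    rw [← Finset.sum_filter_add_sum_filter_not Finset.univ (fun j => e j ≠ 0)]
    congr 1
    rw [Finset.card_eq_sum_ones, Nat.cast_sum]
    refine Finset.sum_congr rfl fun j hj => ?_
    have : e j = 0 := by
      have := (Finset.mem_filter.1 hj).2
      push Not at this
      exact this
    rw [hf]
    simp only [this, mul_zero, sub_zero, one_pow, Finset.sum_const, Finset.card_range,
      nsmul_eq_mul, mul_one]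
    rw [inv_mul_cancel₀ hN'.ne']
    simp
  rw [h1, h2]
  push_cast
  rw [add_sub_cancel_right, ← Complex.ofReal_sum, Complex.norm_real]
  refine (Finset.abs_sum_le_sum_abs _ _).trans ?_
  have h3 : ∀ j, e j ≠ 0 → |f j| ≤ min 1 (2 / (c * e j * N)) := by
    intro j hj
    have hej : 0 < e j := lt_of_le_of_ne (hpos j) (Ne.symm hj)
    have h4 := avg_le (1 - c * e j) N hN (by
      rw [abs_le]
      constructor
      · linarith [hbd j]
      · have := mul_pos hc hej
        linarith) (by have := mul_pos hc hej; linarith)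
    have h5 : 1 - (1 - c * e j) = c * e j := by ring
    rwa [h5] at h4
  rw [← Finset.sum_filter_add_sum_filter_not (Finset.univ.filter (fun j => e j ≠ 0))
    (fun j => e j < ((2 / c) ^ L)⁻¹), mul_add]
  apply add_le_add
  · rw [Finset.filter_filter]
    have h4 : ∑ j ∈ Finset.univ.filter (fun j => e j ≠ 0 ∧ e j < ((2 / c) ^ L)⁻¹), |f j| ≤
        ((Finset.univ.filter (fun j => e j ≠ 0 ∧ e j < ((2 / c) ^ L)⁻¹)).card : ℝ) := by
      rw [Finset.card_eq_sum_ones, Nat.cast_sum]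
      refine Finset.sum_le_sum fun j hj => ?_
      rw [Nat.cast_one]
      exact (h3 j (Finset.mem_filter.1 hj).2.1).trans (min_le_left _ _)
    refine h4.trans ?_
    have h5 := count_small e hpos (2 / c) hK hle (one_le_prod B hH hpos) L
    have h6 : (L : ℝ) * ((Finset.univ.filter
        (fun j => e j ≠ 0 ∧ e j < ((2 / c) ^ L)⁻¹)).card : ℝ) ≤ Fintype.card n := by
      exact_mod_cast h5
    rw [mul_one_div, le_div_iff₀ hL', mul_comm]
    exact h6
  · have h4 : ∀ j ∈ (Finset.univ.filter (fun j => e j ≠ 0)).filter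
        (fun j => ¬ e j < ((2 / c) ^ L)⁻¹), |f j| ≤ 2 * (2 / c) ^ L / (c * N) := by
      intro j hj
      have hj1 := (Finset.mem_filter.1 (Finset.mem_filter.1 hj).1).2
      have hj2 := (Finset.mem_filter.1 hj).2
      push Not at hj2
      have hej : 0 < e j := lt_of_le_of_ne (hpos j) (Ne.symm hj1)
      refine (h3 j hj1).trans ((min_le_right _ _).trans ?_)
      rw [div_le_div_iff₀ (by positivity) (by positivity)]
      have h7 : 1 ≤ (2 / c) ^ L * e j := by
        rw [inv_le_iff_one_le_mul₀ (by positivity)] at hj2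
        rw [mul_comm]; exact hj2
      have h8 : 0 < c * N := by positivity
      nlinarith
    refine (Finset.sum_le_sum h4).trans ?_
    rw [Finset.sum_const, nsmul_eq_mul]
    apply mul_le_mul_of_nonneg_right _ (by positivity)
    exact_mod_cast (Finset.card_filter_le _ _).trans (Finset.card_filter_le _ _)

end eig

/-! ### permutation representations -/

variable {ι κ μ Γ X : Type} [Group Γ] [Fintype ι] [Fintype κ] [Fintype μ] [Fintype X]
  [DecidableEq X]

/-- permutation matrices -/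
def pm (φ : Γ →* Equiv.Perm X) : Γ →* Matrix X X ℂ where
  toFun g := Matrix.of fun x y => if x = φ g y then 1 else 0
  map_one' := by
    ext x y
    rw [Matrix.of_apply, map_one, Matrix.one_apply]
    rfl
  map_mul' g h := by
    ext x y
    rw [Matrix.of_apply, Matrix.mul_apply, map_mul]
    rw [Finset.sum_eq_single (φ h y)]
    · rw [Matrix.of_apply, Matrix.of_apply, if_pos rfl, mul_one]
      rfl
    · intro z _ hz
      rw [Matrix.of_apply, Matrix.of_apply, if_neg hz, mul_zero]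
    · intro h; exact absurd (Finset.mem_univ _) h

theorem pm_apply (φ : Γ →* Equiv.Perm X) (g : Γ) (x y : X) :
    pm φ g x y = if x = φ g y then 1 else 0 := rfl

/-- the group algebra -/
noncomputable def rh (φ : Γ →* Equiv.Perm X) : MonoidAlgebra ℂ Γ →ₐ[ℂ] Matrix X X ℂ :=
  MonoidAlgebra.lift ℂ (Matrix X X ℂ) Γ (pm φ)

theorem rh_single (φ : Γ →* Equiv.Perm X) (g : Γ) (c : ℂ) :
    rh φ (MonoidAlgebra.single g c) = c • pm φ g := by
  rw [rh, MonoidAlgebra.lift_single]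

theorem rh_apply (φ : Γ →* Equiv.Perm X) (a : MonoidAlgebra ℂ Γ) (x y : X) :
    rh φ a x y = ∑ g ∈ a.coeff.support, a.coeff g * if x = φ g y then 1 else 0 := by
  rw [rh, MonoidAlgebra.lift_apply, Finsupp.sum, Matrix.sum_apply]
  rfl

theorem rh_st (φ : Γ →* Equiv.Perm X) (a : MonoidAlgebra ℂ Γ) :
    rh φ (st a) = (rh φ a).conjTranspose := by
  induction a using MonoidAlgebra.induction_linear with
  | zero => rw [map_zero, st_zero, map_zero, Matrix.conjTranspose_zero]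
  | add a b ha hb => rw [map_add, st_add, map_add, ha, hb, Matrix.conjTranspose_add]
  | single g c =>
    rw [st_single, rh_single, rh_single, Matrix.conjTranspose_smul]
    congr 1
    ext x y
    rw [Matrix.conjTranspose_apply, pm_apply, pm_apply, map_inv]
    by_cases h : x = (φ g)⁻¹ y
    · rw [if_pos h, if_pos, star_one]
      rw [h]
      simp
    · rw [if_neg h, if_neg, star_zero]
      intro h2
      apply h
      rw [h2]
      simp

/-- the matrix of a matrix over the group algebra -/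
noncomputable def Mx (φ : Γ →* Equiv.Perm X) (Y : Matrix κ ι (MonoidAlgebra ℂ Γ)) :
    Matrix (κ × X) (ι × X) ℂ :=
  Matrix.of fun p q => rh φ (Y p.1 q.1) p.2 q.2

theorem Mx_apply (φ : Γ →* Equiv.Perm X) (Y : Matrix κ ι (MonoidAlgebra ℂ Γ)) (k : κ) (x : X)
    (i : ι) (y : X) : Mx φ Y (k, x) (i, y) = rh φ (Y k i) x y := rfl

theorem Mx_mul (φ : Γ →* Equiv.Perm X) (W : Matrix μ κ (MonoidAlgebra ℂ Γ))
    (Y : Matrix κ ι (MonoidAlgebra ℂ Γ)) : Mx φ (W * Y) = Mx φ W * Mx φ Y := by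
  ext ⟨m, x⟩ ⟨i, y⟩
  rw [Mx_apply, Matrix.mul_apply, map_sum, Matrix.sum_apply, Matrix.mul_apply,
    Fintype.sum_prod_type]
  refine Finset.sum_congr rfl fun k _ => ?_
  rw [map_mul, Matrix.mul_apply]
  rfl

theorem Mx_one [DecidableEq ι] (φ : Γ →* Equiv.Perm X) :
    Mx φ (1 : Matrix ι ι (MonoidAlgebra ℂ Γ)) = 1 := by
  ext ⟨m, x⟩ ⟨i, y⟩
  rw [Mx_apply]
  by_cases hmi : m = i
  · subst hmi
    rw [Matrix.one_apply_eq, map_one, Matrix.one_apply, Matrix.one_apply]
    by_cases hxy : x = y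
    · rw [if_pos hxy, if_pos (by rw [hxy])]
    · rw [if_neg hxy, if_neg]
      intro e; exact hxy (congrArg Prod.snd e)
  · rw [Matrix.one_apply_ne hmi, Matrix.one_apply_ne (fun e => hmi (congrArg Prod.fst e)), map_zero]
    rfl

theorem Mx_sub (φ : Γ →* Equiv.Perm X) (W Y : Matrix κ ι (MonoidAlgebra ℂ Γ)) :
    Mx φ (W - Y) = Mx φ W - Mx φ Y := by
  ext ⟨k, x⟩ ⟨i, y⟩
  rw [Matrix.sub_apply, Mx_apply, Mx_apply, Mx_apply, Matrix.sub_apply, map_sub, Matrix.sub_apply]

theorem Mx_smul (φ : Γ →* Equiv.Perm X) (c : ℂ) (Y : Matrix κ ι (MonoidAlgebra ℂ Γ)) :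
    Mx φ (c • Y) = c • Mx φ Y := by
  ext ⟨k, x⟩ ⟨i, y⟩
  rw [Matrix.smul_apply, Mx_apply, Mx_apply, Matrix.smul_apply, map_smul, Matrix.smul_apply]

theorem Mx_pow [DecidableEq ι] (φ : Γ →* Equiv.Perm X) (Y : Matrix ι ι (MonoidAlgebra ℂ Γ))
    (n : ℕ) : Mx φ (Y ^ n) = Mx φ Y ^ n := by
  induction n with
  | zero => rw [pow_zero, pow_zero, Mx_one]
  | succ n ih => rw [pow_succ, pow_succ, Mx_mul, ih]

theorem Mx_adjM (φ : Γ →* Equiv.Perm X) (Y : Matrix κ ι (MonoidAlgebra ℂ Γ)) :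
    Mx φ (adjM Y) = (Mx φ Y).conjTranspose := by
  ext ⟨i, x⟩ ⟨k, y⟩
  rw [Mx_apply, Matrix.conjTranspose_apply, Mx_apply]
  change rh φ (st (Y k i)) x y = _
  rw [rh_st, Matrix.conjTranspose_apply]

/-- the number of fixed points -/
def fx (σ : Equiv.Perm X) : ℕ := (Finset.univ.filter fun x => σ x = x).card

theorem trace_rh (φ : Γ →* Equiv.Perm X) (a : MonoidAlgebra ℂ Γ) :
    trace (rh φ a) = ∑ g ∈ a.coeff.support, a.coeff g * (fx (φ g) : ℂ) := by
  rw [Matrix.trace]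
  simp only [Matrix.diag_apply, rh_apply]
  rw [Finset.sum_comm]
  refine Finset.sum_congr rfl fun g _ => ?_
  rw [← Finset.mul_sum]
  congr 1
  rw [fx, Finset.card_filter]
  push_cast
  refine Finset.sum_congr rfl fun x _ => ?_
  by_cases h : x = φ g x
  · rw [if_pos h, if_pos h.symm]
  · rw [if_neg h, if_neg (fun e => h e.symm)]

theorem trace_Mx (φ : Γ →* Equiv.Perm X) (Y : Matrix ι ι (MonoidAlgebra ℂ Γ)) :
    trace (Mx φ Y) = ∑ i, ∑ g ∈ (Y i i).coeff.support, (Y i i).coeff g * (fx (φ g) : ℂ) := by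
  rw [Matrix.trace, Fintype.sum_prod_type]
  refine Finset.sum_congr rfl fun i _ => ?_
  rw [← trace_rh]
  rfl

theorem row_le (φ : Γ →* Equiv.Perm X) (Y : Matrix κ ι (MonoidAlgebra ℂ Γ)) (p : κ × X) :
    ∑ q, ‖Mx φ Y p q‖ ≤ n1 Y := by
  obtain ⟨k, x⟩ := p
  rw [Fintype.sum_prod_type]
  have h1 : ∀ i, ∑ y, ‖Mx φ Y (k, x) (i, y)‖ ≤ (Y k i).coeff.sum fun _ c => ‖c‖ := by
    intro i
    have h2 : ∀ y, ‖Mx φ Y (k, x) (i, y)‖ ≤
        ∑ g ∈ (Y k i).coeff.support, if x = φ g y then ‖(Y k i).coeff g‖ else 0 := by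
      intro y
      rw [Mx_apply, rh_apply]
      refine (norm_sum_le _ _).trans (Finset.sum_le_sum fun g _ => ?_)
      split_ifs <;> simp
    refine (Finset.sum_le_sum fun y _ => h2 y).trans ?_
    rw [Finset.sum_comm, Finsupp.sum]
    refine Finset.sum_le_sum fun g _ => ?_
    rw [Finset.sum_eq_single ((φ g).symm x)]
    · split_ifs
      · exact le_rfl
      · exact norm_nonneg _
    · intro y _ hy
      rw [if_neg]
      intro h
      apply hy
      rw [h]
      simp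
    · intro h; exact absurd (Finset.mem_univ _) h
  refine (Finset.sum_le_sum fun i _ => h1 i).trans ?_
  unfold n1
  exact Finset.single_le_sum (f := fun k => ∑ i, (Y k i).coeff.sum fun _ c => ‖c‖)
    (fun k _ => Finset.sum_nonneg fun _ _ => Finset.sum_nonneg fun _ _ => norm_nonneg _)
    (Finset.mem_univ k)

theorem col_le (φ : Γ →* Equiv.Perm X) (Y : Matrix κ ι (MonoidAlgebra ℂ Γ)) (q : ι × X) :
    ∑ p, ‖Mx φ Y p q‖ ≤ n1 Y := by
  obtain ⟨i, y⟩ := q
  rw [Fintype.sum_prod_type]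
  have h1 : ∀ k, ∑ x, ‖Mx φ Y (k, x) (i, y)‖ ≤ (Y k i).coeff.sum fun _ c => ‖c‖ := by
    intro k
    have h2 : ∀ x, ‖Mx φ Y (k, x) (i, y)‖ ≤
        ∑ g ∈ (Y k i).coeff.support, if x = φ g y then ‖(Y k i).coeff g‖ else 0 := by
      intro x
      rw [Mx_apply, rh_apply]
      refine (norm_sum_le _ _).trans (Finset.sum_le_sum fun g _ => ?_)
      split_ifs <;> simp
    refine (Finset.sum_le_sum fun x _ => h2 x).trans ?_
    rw [Finset.sum_comm, Finsupp.sum]
    refine Finset.sum_le_sum fun g _ => ?_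
    rw [Finset.sum_eq_single (φ g y)]
    · rw [if_pos rfl]
    · intro x _ hx
      rw [if_neg hx]
    · intro h; exact absurd (Finset.mem_univ _) h
  refine (Finset.sum_le_sum fun k _ => h1 k).trans ?_
  unfold n1
  refine Finset.sum_le_sum fun k _ => ?_
  exact Finset.single_le_sum (f := fun i => (Y k i).coeff.sum fun _ c => ‖c‖)
    (fun i _ => Finset.sum_nonneg fun _ _ => norm_nonneg _) (Finset.mem_univ i)

/-- the normalised nullity -/
noncomputable def nu (φ : Γ →* Equiv.Perm X) (Y : Matrix κ ι (MonoidAlgebra ℂ Γ)) : ℝ :=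
  ((Fintype.card ι : ℝ) * Fintype.card X - (Mx φ Y).rank) / Fintype.card X

/-- the bound for permutation representations -/
theorem perm_bound [DecidableEq ι] [Nonempty X] (φ : Γ →* Equiv.Perm X)
    (Y : Matrix κ ι (MonoidAlgebra ℂ Γ)) (hY : Itg Y) (c : ℝ)
    (hc : 0 < c) (hc1 : c ≤ 1) (hc2 : c * n1 Y ^ 2 ≤ 1) (N L : ℕ) (hN : 0 < N) (hL : 0 < L) :
    ‖(N : ℂ)⁻¹ * ∑ k ∈ Finset.range N, (trace (Mx φ (CC Y c ^ k)) / Fintype.card X)
        - (nu φ Y : ℂ)‖ ≤ Fintype.card ι * (1 / L + 2 * (2 / c) ^ L / (c * N)) := by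
  classical
  have hint : ∀ k i x y, ∃ z : ℤ, Mx φ Y (k, x) (i, y) = (z : ℂ) := by
    intro k i x y
    choose z hz using hY k i
    refine ⟨∑ g ∈ (Y k i).coeff.support, z g * if x = φ g y then 1 else 0, ?_⟩
    rw [Mx_apply, rh_apply]
    push_cast
    refine Finset.sum_congr rfl fun g _ => ?_
    rw [hz]
  choose z hz using hint
  let Z : Matrix (κ × X) (ι × X) ℤ := Matrix.of fun p q => z p.1 q.1 p.2 q.2
  have hZ : Mx φ Y = Z.map (Int.castRingHom ℂ) := by
    ext ⟨k, x⟩ ⟨i, y⟩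
    rw [hz]
    rfl
  have hB : (Z.transpose * Z).map (Int.castRingHom ℂ) = (Mx φ Y).conjTranspose * Mx φ Y := by
    rw [Matrix.map_mul, hZ]
    congr 1
    ext p q
    simp [Matrix.conjTranspose_apply]
  have hps : ((Z.transpose * Z).map (Int.castRingHom ℂ)).PosSemidef := by
    rw [hB]
    exact Matrix.posSemidef_conjTranspose_mul_self _
  have hH := hps.isHermitian
  have hCC : ∀ k : ℕ, (1 - (c : ℂ) • ((Z.transpose * Z).map (Int.castRingHom ℂ))) ^ k =
      Mx φ (CC Y c ^ k) := by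
    intro k
    rw [Mx_pow, CC, Mx_sub, Mx_one, Mx_smul, Mx_mul, Mx_adjM, hB]
  have hcard' : (0 : ℝ) < Fintype.card X := by
    exact_mod_cast Fintype.card_pos
  have hcard : (Fintype.card X : ℂ) ≠ 0 := by
    exact_mod_cast Fintype.card_ne_zero
  have hH' : ((Mx φ Y).conjTranspose * Mx φ Y).IsHermitian := by rw [← hB]; exact hH
  have heig : ∀ j, hH.eigenvalues j ≤ n1 Y * n1 Y := by
    have key : ∀ (A : Matrix (ι × X) (ι × X) ℂ) (h1 : A = (Mx φ Y).conjTranspose * Mx φ Y)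
        (h2 : A.IsHermitian) (j), h2.eigenvalues j ≤ n1 Y * n1 Y := by
      intro A h1 h2 j
      subst h1
      exact eig_le (Mx φ Y) h2 (n1 Y) (n1 Y) (row_le φ Y) (col_le φ Y) (n1_nonneg Y) j
    exact key _ hB hH
  have h1 := mat_bound' (Z.transpose * Z) hH (fun j => hps.eigenvalues_nonneg j) c hc hc1 (by
    intro j
    have h2 := mul_le_mul_of_nonneg_left (heig j) hc.le
    have h3 : c * (n1 Y * n1 Y) ≤ 1 := by rw [← pow_two]; exact hc2
    linarith) N L hN hL
  have hrank : ((Z.transpose * Z).map (Int.castRingHom ℂ)).rank = (Mx φ Y).rank := by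
    rw [hB, Matrix.rank_conjTranspose_mul_self]
  rw [hrank, Fintype.card_prod] at h1
  simp only [hCC] at h1
  have h2 : (N : ℂ)⁻¹ * ∑ k ∈ Finset.range N, trace (Mx φ (CC Y c ^ k)) = Fintype.card X *
      ((N : ℂ)⁻¹ * ∑ k ∈ Finset.range N, (trace (Mx φ (CC Y c ^ k)) / Fintype.card X)) := by
    rw [← Finset.sum_div]
    field_simp
  have h3 : (((((Fintype.card ι * Fintype.card X : ℕ) : ℝ)) - ((Mx φ Y).rank : ℝ) : ℝ) : ℂ) =
      Fintype.card X * (nu φ Y : ℂ) := by
    rw [nu]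
    push_cast
    rw [mul_div_cancel₀ _ hcard]
  rw [h2, h3, ← mul_sub, norm_mul, Complex.norm_natCast] at h1
  push_cast at h1
  have h4 : (Fintype.card X : ℝ) * ‖(N : ℂ)⁻¹ * ∑ k ∈ Finset.range N,
      (trace (Mx φ (CC Y c ^ k)) / Fintype.card X) - (nu φ Y : ℂ)‖ ≤
      Fintype.card X * (Fintype.card ι * (1 / L + 2 * (2 / c) ^ L / (c * N))) := by
    refine h1.trans (le_of_eq ?_)
    ring
  exact le_of_mul_le_mul_left h4 hcard'

end Pool.Agent.U700.NI
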