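import Pool.Agent.U700.NI1

/-!
The limit of the normalised nullities along permutation representations with few fixed points.
-/

set_option autoImplicit false
set_option linter.unusedSectionVars false

open Filter Topology Matrix

namespace Pool.Agent.U700.NI

open Pool.Agent.TH107.AT
open Pool.Agent.H80R2
open Pool.Agent.H80R2.BC (L2 GMat vdim IsTr LInv Equi act kerA)
open Pool.Agent.H812R3
open Pool.Agent.W656.VA

variable {ι κ Γ G : Type} [Group Γ] [Group G] [Fintype ι] [Fintype κ]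

theorem coeff_one [DecidableEq G] (π : Γ →* G) (a : MonoidAlgebra ℂ Γ) :
    (hm π a).coeff 1 = ∑ g ∈ a.coeff.support, a.coeff g * if π g = 1 then 1 else 0 := by
  rw [hm_coeff, Finsupp.mapDomain, Finsupp.sum_apply, Finsupp.sum]
  refine Finset.sum_congr rfl fun g _ => ?_
  rw [Finsupp.single_apply]
  split_ifs <;> simp

theorem lim {α : Type} (l : Filter α) (X : α → Type) [∀ a, Fintype (X a)]
    [∀ a, DecidableEq (X a)] [∀ a, Nonempty (X a)] [DecidableEq G] [DecidableEq ι]
    (φ : ∀ a, Γ →* Equiv.Perm (X a)) (π : Γ →* G)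
    (h : ∀ w, Tendsto (fun a => (fx (φ a w) : ℝ) / Fintype.card (X a)) l
      (𝓝 (if π w = 1 then 1 else 0)))
    (Y : Matrix κ ι (MonoidAlgebra ℂ Γ)) (hY : Itg Y) :
    Tendsto (fun a => nu (φ a) Y) l (𝓝 (vdim (kr (mop (im π Y))))) := by
  classical
  set c : ℝ := 1 / (n1 Y ^ 2 + 1) with hcdef
  have hpos : 0 < n1 Y ^ 2 + 1 := by positivity
  have hc : 0 < c := by positivity
  have hc1 : c ≤ 1 := by
    rw [hcdef, div_le_one hpos]
    have := sq_nonneg (n1 Y)
    linarith
  have hc2 : c * n1 Y ^ 2 ≤ 1 := by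
    rw [hcdef, one_div, inv_mul_le_iff₀ hpos]
    linarith
  have hc3 : c * n1 (im π Y) ^ 2 ≤ 1 := by
    refine le_trans ?_ hc2
    apply mul_le_mul_of_nonneg_left _ hc.le
    exact pow_le_pow_left₀ (n1_nonneg _) (n1_im_le π Y) 2
  have hcC : ∀ w, Tendsto (fun a => (fx (φ a w) : ℂ) / Fintype.card (X a)) l
      (𝓝 (if π w = 1 then 1 else 0)) := by
    intro w
    have h1 := (Complex.continuous_ofReal.tendsto _).comp (h w)
    have e : (((if π w = 1 then 1 else 0 : ℝ)) : ℂ) = if π w = 1 then 1 else 0 := by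
      split_ifs <;> simp
    rw [e] at h1
    refine h1.congr fun a => ?_
    simp
  set av : α → ℕ → ℂ := fun a N => (N : ℂ)⁻¹ * ∑ k ∈ Finset.range N,
    (trace (Mx (φ a) (CC Y c ^ k)) / Fintype.card (X a)) with hav
  have hlim : ∀ N, Tendsto (fun a => av a N) l (𝓝 (mN (im π Y) c N)) := by
    intro N
    rw [hav, mN]
    apply Tendsto.const_mul
    refine tendsto_finsetSum _ fun k _ => ?_
    have e1 : ∀ a, trace (Mx (φ a) (CC Y c ^ k)) / Fintype.card (X a) =
        ∑ i, ∑ g ∈ ((CC Y c ^ k) i i).coeff.support, ((CC Y c ^ k) i i).coeff g *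
          ((fx (φ a g) : ℂ) / Fintype.card (X a)) := by
      intro a
      rw [trace_Mx, Finset.sum_div]
      refine Finset.sum_congr rfl fun i _ => ?_
      rw [Finset.sum_div]
      refine Finset.sum_congr rfl fun g _ => ?_
      rw [mul_div_assoc]
    have e2 : ∑ i, ((CC (im π Y) c ^ k) i i).coeff 1 =
        ∑ i, ∑ g ∈ ((CC Y c ^ k) i i).coeff.support, ((CC Y c ^ k) i i).coeff g *
          (if π g = 1 then 1 else 0) := by
      refine Finset.sum_congr rfl fun i _ => ?_
      rw [← im_CC, ← im_pow, ← coeff_one]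
      rfl
    rw [e2]
    refine Tendsto.congr (fun a => (e1 a).symm) ?_
    refine tendsto_finsetSum _ fun i _ => tendsto_finsetSum _ fun g _ => ?_
    exact (hcC g).const_mul _
  rw [Metric.tendsto_nhds]
  intro ε hε
  obtain ⟨L, hL0, hL⟩ : ∃ L : ℕ, 0 < L ∧ (Fintype.card ι : ℝ) * (1 / L) < ε / 4 := by
    obtain ⟨L, hL⟩ := exists_nat_gt ((Fintype.card ι : ℝ) / (ε / 4))
    have hL' : (0 : ℝ) < L := lt_of_le_of_lt (by positivity) hL
    refine ⟨L, by exact_mod_cast hL', ?_⟩
    rw [mul_one_div, div_lt_iff₀ hL']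
    rw [div_lt_iff₀ (by positivity)] at hL
    linarith
  have h1 := (tendsto_err c hc L (Fintype.card ι)).eventually (gt_mem_nhds hL)
  have h2 := (mN_tendsto (im π Y) c hc hc3).eventually
    (Metric.ball_mem_nhds _ (show 0 < ε / 4 by positivity))
  obtain ⟨N, hN1, hN2, hN0⟩ := (h1.and (h2.and (eventually_gt_atTop 0))).exists
  have h3 := (hlim N).eventually (Metric.ball_mem_nhds _ (show 0 < ε / 4 by positivity))
  filter_upwards [h3] with a ha
  have h4 := perm_bound (φ a) Y hY c hc hc1 hc2 N L hN0 hL0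
  have ha' : ‖av a N - mN (im π Y) c N‖ < ε / 4 := by rwa [← dist_eq_norm]
  have hN2' : ‖mN (im π Y) c N - (vdim (kr (mop (im π Y))) : ℂ)‖ < ε / 4 := by
    rwa [← dist_eq_norm]
  have h5 : ‖((nu (φ a) Y - vdim (kr (mop (im π Y))) : ℝ) : ℂ)‖ < ε := by
    have e : ((nu (φ a) Y - vdim (kr (mop (im π Y))) : ℝ) : ℂ) =
        (mN (im π Y) c N - (vdim (kr (mop (im π Y))) : ℂ)) + (av a N - mN (im π Y) c N) -
          (av a N - (nu (φ a) Y : ℂ)) := by
      push_cast; ring
    rw [e]
    refine lt_of_le_of_lt (norm_sub_le _ _) ?_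
    refine lt_of_le_of_lt (add_le_add (norm_add_le _ _) h4) ?_
    linarith
  rw [Complex.norm_real] at h5
  rw [Real.dist_eq]
  exact h5

end Pool.Agent.U700.NI
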