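import Pool.Agent.U700.NI2
import Pool.Agent.U700.CP
import Pool.Agent.TH107.AT.Tower
import Pool.Agent.U700.Fol

/-!
Ultraproducts of finite solvable groups of bounded derived length whose orders have only large prime
factors are amenable and locally indicable.
-/

set_option autoImplicit false
set_option linter.unusedSectionVars false

open scoped Pointwise
open Filter Topology Matrix

namespace Pool.Agent.U700.NI

open Pool.Agent.TH107.AT
open Pool.Agent.H80R2
open Pool.Agent.H80R2.BC (L2 GMat vdim IsTr LInv Equi act kerA)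
open Pool.Agent.H812R3
open Pool.Agent.W656.VA
open Pool.Agent.U700.CP (UP mk mk_eq mk_mul mk_inv mk_one rp mk_rp rp_mk nul)
open Pool.Agent.TH107.RF (LI)

theorem fol_conv {G : Type} [Group G] (h : Pool.Agent.TH109.Q.Fol G) :
    Pool.Agent.TH714.PF.Fol G := by
  classical
  intro S ε hε
  obtain ⟨n, hn⟩ := exists_nat_gt (1 / ε)
  have hn0 : (0 : ℝ) < n := lt_trans (by positivity) hn
  obtain ⟨Φ, h1, h2⟩ := h S n
  refine ⟨Φ, h1, ?_⟩
  have h3 : (n : ℝ) * ((Finset.image₂ (· * ·) Φ S).card : ℝ) ≤ (n + 1) * Φ.card := by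
    have : n * (Finset.image₂ (· * ·) Φ S).card ≤ (n + 1) * Φ.card := by convert h2
    exact_mod_cast this
  have h4 : ((Φ * S).card : ℝ) = ((Finset.image₂ (· * ·) Φ S).card : ℝ) := by
    congr 1
  have h5 : (1 : ℝ) < n * ε := by
    rw [div_lt_iff₀ hε] at hn
    exact hn
  have h6 : (0 : ℝ) ≤ Φ.card := Nat.cast_nonneg _
  have h7 : (n : ℝ) * ((Φ * S).card : ℝ) ≤ n * ((1 + ε) * Φ.card) := by
    rw [h4]
    refine h3.trans ?_
    nlinarith
  have h8 := le_of_mul_le_mul_left h7 hn0
  convert h8

variable {F : ℕ → Type} [∀ n, Group (F n)] {U : Ultrafilter ℕ}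

theorem up_derived (d : ℕ) (h : ∀ n, derivedSeries (F n) d = ⊥) :
    derivedSeries (UP F U) d = ⊥ := by
  have h1 : derivedSeries (∀ n, F n) d = ⊥ := by
    rw [eq_bot_iff]
    intro x hx
    rw [Subgroup.mem_bot]
    funext n
    have h2 := map_derivedSeries_le_derivedSeries (Pi.evalMonoidHom F n) d
    have h3 : Pi.evalMonoidHom F n x ∈ derivedSeries (F n) d := h2 ⟨x, hx, rfl⟩
    rw [h, Subgroup.mem_bot] at h3
    exact h3
  have h2 := map_derivedSeries_eq (f := QuotientGroup.mk' (nul F U))
    (QuotientGroup.mk'_surjective _) d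
  rw [← h2, h1, Subgroup.map_bot]

theorem fol_up (d : ℕ) (h : ∀ n, derivedSeries (F n) d = ⊥) :
    Pool.Agent.TH714.PF.Fol (UP F U) :=
  fol_conv (Pool.Agent.U700.Fol.fol_derived d _ (up_derived d h))

theorem solvable_of (d : ℕ) {H : Type} [Group H] (h : derivedSeries H d = ⊥) :
    Group.IsSolvable H := ⟨⟨d, h⟩⟩

/-- a nontrivial solvable group generated by a set has a generator outside of the commutator
subgroup -/
theorem exists_gen {H : Type} [Group H] [Group.IsSolvable H] (T : Set H)
    (hT : Subgroup.closure T = ⊤) (hne : ∃ x : H, x ≠ 1) : ∃ t ∈ T, Abelianization.of t ≠ 1 := by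
  by_contra hcon
  push Not at hcon
  obtain ⟨x, hx⟩ := hne
  have : Nontrivial H := ⟨⟨x, 1, hx⟩⟩
  have h1 := Group.IsSolvable.commutator_lt_top_of_nontrivial H
  have h2 : (⊤ : Subgroup H) ≤ commutator H := by
    rw [← hT, Subgroup.closure_le]
    intro t ht
    have h3 := hcon t ht
    have h4 : t ∈ (Abelianization.of (G := H)).ker := h3
    rwa [Abelianization.ker_of] at h4
  exact absurd h2 (not_le_of_gt h1)

theorem torsion_free_up {V : ℕ → Type} [∀ n, CommGroup (V n)] [∀ n, Finite (V n)]
    (hU : (U : Filter ℕ) ≤ atTop)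
    (hp : ∀ n p, p.Prime → p ∣ Nat.card (V n) → n < p) (k : ℕ) (hk : k ≠ 0) (v : UP V U)
    (hv : v ^ k = 1) : v = 1 := by
  have h1 : (mk (rp v ^ k) : UP V U) = CP.mk (U := U) (1 : ∀ n, V n) := by
    have e : (mk (rp v ^ k) : UP V U) = (mk (rp v)) ^ k := rfl
    rw [e, mk_rp, hv]
    rfl
  rw [← mk_rp v]
  have h2 := mk_eq.1 h1
  have h3 : ∀ᶠ n in (U : Filter ℕ), k ≤ n := hU (eventually_ge_atTop k)
  refine mk_eq.2 ?_
  filter_upwards [h2, h3] with n h4 h5
  have h6 : rp v n ^ k = 1 := h4
  have h7 : Nat.Coprime k (Nat.card (V n)) := by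
    rw [Nat.coprime_iff_gcd_eq_one]
    by_contra hg
    obtain ⟨p, hpp, hpd⟩ := Nat.exists_prime_and_dvd hg
    have h8 := hp n p hpp (hpd.trans (Nat.gcd_dvd_right _ _))
    have h9 := Nat.le_of_dvd (Nat.pos_of_ne_zero hk) (hpd.trans (Nat.gcd_dvd_left _ _))
    omega
  have h8 : orderOf (rp v n) ∣ 1 := by
    rw [← h7]
    exact Nat.dvd_gcd (orderOf_dvd_of_pow_eq_one h6) (orderOf_dvd_natCard _)
  have h9 : orderOf (rp v n) = 1 := Nat.dvd_one.1 h8
  exact orderOf_eq_one_iff.1 h9

theorem li_up [∀ n, Finite (F n)] (hU : (U : Filter ℕ) ≤ atTop) (d : ℕ)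
    (h : ∀ n, derivedSeries (F n) d = ⊥)
    (hp : ∀ n p, p.Prime → p ∣ Nat.card (F n) → n < p) : LI (UP F U) := by
  classical
  intro H hH hne
  obtain ⟨S, hS⟩ := hH
  let Hn : ∀ n, Subgroup (F n) := fun n => Subgroup.closure ((fun s : UP F U => rp s n) '' S)
  have hmem : ∀ x ∈ H, ∀ᶠ n in (U : Filter ℕ), rp x n ∈ Hn n := by
    let T : Subgroup (UP F U) :=
      { carrier := {x | ∀ᶠ n in (U : Filter ℕ), rp x n ∈ Hn n}
        mul_mem' := by
          intro a b ha hb
          have h1 := rp_mk (U := U) (rp a * rp b)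
          rw [mk_mul, mk_rp, mk_rp] at h1
          filter_upwards [ha, hb, h1] with n h2 h3 h4
          rw [h4]
          exact (Hn n).mul_mem h2 h3
        one_mem' := by
          have h1 := rp_mk (U := U) (1 : ∀ n, F n)
          rw [mk_one] at h1
          filter_upwards [h1] with n h2
          rw [h2]
          exact (Hn n).one_mem
        inv_mem' := by
          intro a ha
          have h1 := rp_mk (U := U) (rp a)⁻¹
          rw [mk_inv, mk_rp] at h1
          filter_upwards [ha, h1] with n h2 h4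
          rw [h4]
          exact (Hn n).inv_mem h2 }
    have h1 : H ≤ T := by
      rw [← hS, Subgroup.closure_le]
      intro s hs
      exact Eventually.of_forall fun n => Subgroup.subset_closure ⟨s, hs, rfl⟩
    exact fun x hx => h1 hx
  have hFG : Group.FG H := (Group.fg_iff_subgroup_fg H).2 ⟨S, hS⟩
  let V : ℕ → Type := fun n => Abelianization (Hn n)
  let sq : UP F U → ∀ n, Hn n := fun x n => if hx : rp x n ∈ Hn n then ⟨rp x n, hx⟩ else 1
  have hsq : ∀ x ∈ H, ∀ᶠ n in (U : Filter ℕ), ((sq x n : Hn n) : F n) = rp x n := by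
    intro x hx
    filter_upwards [hmem x hx] with n hn
    simp only [sq, dif_pos hn]
  let _ : CommGroup (UP V U) := { (inferInstance : Group (UP V U)) with
    mul_comm := by
      intro a b
      rw [← mk_rp a, ← mk_rp b, ← mk_mul, ← mk_mul]
      congr 1
      funext n
      exact mul_comm _ _ }
  let f : H →* Multiplicative (Additive (UP V U)) := MonoidHom.mk'
    (fun x => Multiplicative.ofAdd (Additive.ofMul
      (mk (fun n => Abelianization.of (sq x n)) : UP V U))) (by
      intro a b
      change Multiplicative.ofAdd (Additive.ofMul _) = Multiplicative.ofAdd (Additive.ofMul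
        ((mk (fun n => Abelianization.of (sq a n)) : UP V U) *
          mk (fun n => Abelianization.of (sq b n))))
      rw [← mk_mul]
      congr 2
      rw [mk_eq]
      have h1 := rp_mk (U := U) (rp (a : UP F U) * rp (b : UP F U))
      rw [mk_mul, mk_rp, mk_rp] at h1
      filter_upwards [h1, hsq a a.2, hsq b b.2, hsq ((a * b : H) : UP F U) (a * b).2]
        with n h2 h3 h4 h5
      rw [Pi.mul_apply, ← map_mul]
      congr 1
      apply Subtype.ext
      change ((sq ((a * b : H) : UP F U) n : Hn n) : F n) =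
        ((sq (a : UP F U) n : Hn n) : F n) * ((sq (b : UP F U) n : Hn n) : F n)
      rw [h3, h4, h5]
      exact h2)
  have hcardV : ∀ n p, p.Prime → p ∣ Nat.card (V n) → n < p := by
    intro n p hpp hpd
    apply hp n p hpp
    refine hpd.trans ((Subgroup.card_quotient_dvd_card _).trans ?_)
    exact Subgroup.card_subgroup_dvd_card (Hn n)
  have hfin : ∀ n, Finite (V n) := fun n => inferInstanceAs (Finite (Hn n ⧸ commutator (Hn n)))
  refine Pool.Agent.TH107.RF.to_int (V := Additive (UP V U)) ?_ f ?_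
  · intro k v hk hv
    exact torsion_free_up (V := V) hU hcardV k hk (Additive.toMul v) hv
  · -- a nontrivial generator
    have hex : ∃ s ∈ S, s ≠ 1 := by
      by_contra hcon
      push Not at hcon
      apply hne
      rw [← hS, Subgroup.closure_eq_bot_iff]
      intro s hs
      exact hcon s hs
    obtain ⟨s, hs, hs1⟩ := hex
    have h1 : ∀ᶠ n in (U : Filter ℕ), rp s n ≠ 1 := by
      rw [Ultrafilter.eventually_not]
      intro h2
      apply hs1
      rw [← mk_rp s]
      exact mk_eq.2 h2
    have h2 : ∀ᶠ n in (U : Filter ℕ), ∃ t : S,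
        Abelianization.of (sq (t : UP F U) n) ≠ 1 := by
      filter_upwards [h1] with n hn
      have hsolv : Group.IsSolvable (F n) := solvable_of d (h n)
      have hsolv2 : Group.IsSolvable (Hn n) := inferInstance
      have hmS : ∀ t ∈ S, rp t n ∈ Hn n := fun t ht => Subgroup.subset_closure ⟨t, ht, rfl⟩
      obtain ⟨t, ⟨t', ht', rfl⟩, ht⟩ := exists_gen (H := Hn n)
        (Set.range fun t : S => (⟨rp (t : UP F U) n, hmS t t.2⟩ : Hn n)) (by
          apply Subgroup.map_injective (Hn n).subtype_injective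
          rw [MonoidHom.map_closure, ← Set.range_comp]
          have e : Set.range ((Hn n).subtype ∘ fun t : S =>
              (⟨rp (t : UP F U) n, hmS t t.2⟩ : Hn n)) = (fun s : UP F U => rp s n) '' S := by
            ext y
            constructor
            · rintro ⟨t, rfl⟩
              exact ⟨t, t.2, rfl⟩
            · rintro ⟨t, ht, rfl⟩
              exact ⟨⟨t, ht⟩, rfl⟩
          rw [e]
          change Hn n = _
          rw [← MonoidHom.range_eq_map, Subgroup.range_subtype])
          ⟨⟨rp s n, hmS s hs⟩, fun h3 => hn (congrArg Subtype.val h3)⟩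
      refine ⟨t', ?_⟩
      have e : sq (t' : UP F U) n = ⟨rp (t' : UP F U) n, hmS t' t'.2⟩ := by
        simp only [sq, dif_pos (hmS t' t'.2)]
      rw [e]
      exact ht
    rw [Ultrafilter.eventually_exists_iff] at h2
    obtain ⟨t, ht⟩ := h2
    have htH : (t : UP F U) ∈ H := by
      rw [← hS]
      exact Subgroup.subset_closure t.2
    refine ⟨⟨t, htH⟩, ?_⟩
    intro h3
    have h4 : (mk (fun n => Abelianization.of (sq (t : UP F U) n)) : UP V U) =
        CP.mk (U := U) (1 : ∀ n, V n) := h3
    have h5 := mk_eq.1 h4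
    obtain ⟨n, h6, h7⟩ := (ht.and h5).exists
    exact h6 h7

end Pool.Agent.U700.NI
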