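import Pool.Agent.U700.NI3

/-!
Sparse integer matrices over finite solvable groups of bounded derived length and large prime
factors have nearly integral normalised nullities.
-/

set_option autoImplicit false
set_option linter.unusedSectionVars false

open scoped Pointwise
open Filter Topology Matrix

namespace Pool.Agent.U700.NI

open Pool.Agent.TH107.AT
open Pool.Agent.H80R2
open Pool.Agent.H80R2.BC (L2 GMat vdim IsTr LInv Equi act kerA)
open Pool.Agent.H812R3
open Pool.Agent.W656.VA
open Pool.Agent.U700.CP (UP mk_eq mk_mul mk_inv mk_one rp mk_rp rp_mk nul)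

variable {m n k : ℕ}

/-- the matrix over the group algebra of the free group -/
noncomputable def Yc (c : Fin m → Fin n → Fin k → ℤ) :
    Matrix (Fin m) (Fin n) (MonoidAlgebra ℂ (FreeGroup (Fin k))) :=
  Matrix.of fun i j => ∑ l, MonoidAlgebra.single (FreeGroup.of l) (c i j l : ℂ)

theorem Yc_apply (c : Fin m → Fin n → Fin k → ℤ) (i : Fin m) (j : Fin n) :
    Yc c i j = ∑ l, MonoidAlgebra.single (FreeGroup.of l) (c i j l : ℂ) := rfl

theorem itg_Yc (c : Fin m → Fin n → Fin k → ℤ) : Itg (Yc c) := by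
  classical
  intro i j g
  refine ⟨∑ l, if FreeGroup.of l = g then c i j l else 0, ?_⟩
  rw [Yc_apply, MonoidAlgebra.coeff_sum, Finsupp.finsetSum_apply]
  push_cast
  refine Finset.sum_congr rfl fun l _ => ?_
  rw [MonoidAlgebra.coeff_single, Finsupp.single_apply]

variable {X : Type} [Fintype X] [DecidableEq X]

theorem Mx_Yc (c : Fin m → Fin n → Fin k → ℤ) (φ : FreeGroup (Fin k) →* Equiv.Perm X) :
    Mx φ (Yc c) = Matrix.of fun p q => ∑ l, (c p.1 q.1 l : ℂ) *
      if p.2 = φ (FreeGroup.of l) q.2 then 1 else 0 := by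
  ext ⟨i, x⟩ ⟨j, y⟩
  rw [Mx_apply, Yc_apply, map_sum, Matrix.sum_apply]
  refine Finset.sum_congr rfl fun l _ => ?_
  rw [rh_single, Matrix.smul_apply, pm_apply]
  rfl

/-- the number of moved points -/
def mv (σ : Equiv.Perm X) : ℕ := (Finset.univ.filter fun x => σ x ≠ x).card

theorem fx_add_mv (σ : Equiv.Perm X) : fx σ + mv σ = Fintype.card X := by
  unfold fx mv
  rw [← Finset.card_univ]
  exact Finset.card_filter_add_card_filter_not _

theorem solv (d : ℕ) (c : Fin m → Fin n → Fin k → ℤ) (ε : ℝ) (hε : 0 < ε) :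
    ∃ N : ℕ, ∀ (F : Type) [Group F] [Fintype F] [DecidableEq F], derivedSeries F d = ⊥ →
      (∀ p : ℕ, p.Prime → p ∣ Fintype.card F → N < p) → ∀ g : Fin k → F,
      ∃ z : ℤ, |nu (FreeGroup.lift fun l => Equiv.mulLeft (g l)) (Yc c) - z| < ε := by
  classical
  by_contra hcon
  have hcon' : ∀ N : ℕ, ∃ (F : Type) (_ : Group F) (_ : Fintype F) (_ : DecidableEq F),
      derivedSeries F d = ⊥ ∧ (∀ p : ℕ, p.Prime → p ∣ Fintype.card F → N < p) ∧
      ∃ g : Fin k → F, ∀ z : ℤ,
        ε ≤ |nu (FreeGroup.lift fun l => Equiv.mulLeft (g l)) (Yc c) - z| := by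
    intro N
    by_contra h1
    apply hcon
    refine ⟨N, fun F i1 i2 i3 h2 h3 g => ?_⟩
    by_contra h4
    apply h1
    refine ⟨F, i1, i2, i3, h2, h3, g, fun z => ?_⟩
    by_contra h5
    exact h4 ⟨z, not_le.1 h5⟩
  choose F i1 i2 i3 hd hp g hg using hcon'
  let U : Ultrafilter ℕ := hyperfilter ℕ
  have hU : (U : Filter ℕ) ≤ atTop := Nat.hyperfilter_le_atTop
  let ψ : ∀ N, FreeGroup (Fin k) →* F N := fun N => FreeGroup.lift (g N)
  let π : FreeGroup (Fin k) →* UP F U := (QuotientGroup.mk' (nul F U)).comp (MonoidHom.pi ψ)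
  have hπ : ∀ w, π w = CP.mk (U := U) (fun N => ψ N w) := fun w => rfl
  have hπ1 : ∀ w, π w = 1 ↔ ∀ᶠ N in (U : Filter ℕ), ψ N w = 1 := by
    intro w
    rw [hπ, ← mk_one, mk_eq]
    rfl
  let φ : ∀ N, FreeGroup (Fin k) →* Equiv.Perm (F N) := fun N =>
    FreeGroup.lift fun l => Equiv.mulLeft (g N l)
  have hφ : ∀ N w x, φ N w x = ψ N w * x := by
    intro N w x
    have e : φ N = (MulAction.toPermHom (F N) (F N)).comp (ψ N) := by
      ext l y
      simp [φ, ψ]
    rw [e]
    rfl
  have hfx : ∀ N w, (fx (φ N w) : ℝ) / Fintype.card (F N) = if ψ N w = 1 then 1 else 0 := by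
    intro N w
    have hc : (Fintype.card (F N) : ℝ) ≠ 0 := by
      exact_mod_cast Fintype.card_ne_zero
    by_cases h : ψ N w = 1
    · rw [if_pos h]
      have e : fx (φ N w) = Fintype.card (F N) := by
        unfold fx
        rw [Finset.filter_true_of_mem, Finset.card_univ]
        intro x _
        rw [hφ, h, one_mul]
      rw [e, div_self hc]
    · rw [if_neg h]
      have e : fx (φ N w) = 0 := by
        unfold fx
        rw [Finset.card_eq_zero, Finset.filter_eq_empty_iff]
        intro x _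
        rw [hφ]
        intro h2
        exact h (mul_eq_right.1 h2)
      rw [e, Nat.cast_zero, zero_div]
  have hlim := lim (U : Filter ℕ) F φ π (by
    intro w
    by_cases h : π w = 1
    · rw [if_pos h]
      refine tendsto_const_nhds.congr' ?_
      filter_upwards [(hπ1 w).1 h] with N hN
      rw [hfx, if_pos hN]
    · rw [if_neg h]
      refine tendsto_const_nhds.congr' ?_
      have h2 : ∀ᶠ N in (U : Filter ℕ), ψ N w ≠ 1 := by
        rw [Ultrafilter.eventually_not]
        exact fun h3 => h ((hπ1 w).2 h3)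
      filter_upwards [h2] with N hN
      rw [hfx, if_neg hN]) (Yc c) (itg_Yc c)
  have hfin : ∀ N, Finite (F N) := fun N => inferInstance
  obtain ⟨z, hz⟩ := integral_ore (G := UP F U) (li_up hU d hd (by
    intro N p hpp hpd
    apply hp N p hpp
    rwa [Nat.card_eq_fintype_card] at hpd)) (fol_up d hd) n (Fin m) (im π (Yc c))
  rw [hz] at hlim
  obtain ⟨N, hN⟩ := (hlim.eventually (Metric.ball_mem_nhds _ hε)).exists
  have h1 : |nu (φ N) (Yc c) - z| < ε := by
    rw [← Real.dist_eq]
    exact hN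
  exact absurd h1 (not_lt.2 (hg N z))

end Pool.Agent.U700.NI
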