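import Pool.Agent.U700.NI4
import Pool.Agent.N303.KT.ORD

/-!
The Atiyah conjecture for torsion-free sofic groups and permutation matrices.
-/

set_option autoImplicit false
set_option linter.unusedSectionVars false

open scoped Pointwise
open Filter Topology Matrix

namespace Pool.Agent.U700.NI

open Pool.Agent.TH107.AT
open Pool.Agent.H80R2
open Pool.Agent.H80R2.BC (L2 GMat vdim IsTr LInv Equi act kerA)
open Pool.Agent.H812R3
open Pool.Agent.W656.VA
open Pool.Agent.H21R2 (IsSofic hamm)
open Pool.Agent.N303.KS (ct cn)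

variable {m n k : ℕ}

theorem ball_finite (k N : ℕ) : {w : FreeGroup (Fin k) | w.norm ≤ N}.Finite := by
  have h1 : {l : List (Fin k × Bool) | l.length ≤ N}.Finite := List.finite_length_le _ _
  refine (h1.image (fun l => (FreeGroup.mk l : FreeGroup (Fin k)))).subset ?_
  intro w hw
  exact ⟨w.toWord, hw, FreeGroup.mk_toWord⟩

theorem norm_pow_le' {k : ℕ} (w : FreeGroup (Fin k)) (j : ℕ) : (w ^ j).norm ≤ j * w.norm := by
  induction j with
  | zero => simp
  | succ j ih =>
    rw [pow_succ, Nat.succ_mul]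
    exact (FreeGroup.norm_mul_le _ _).trans (Nat.add_le_add_right ih _)

/-- each short word is almost trivial, or its powers are almost free -/
def Appr {X : Type} [Fintype X] [DecidableEq X] (N : ℕ) (σ : Fin k → Equiv.Perm X) : Prop :=
  ∀ w : FreeGroup (Fin k), w.norm ≤ N → N * mv (FreeGroup.lift σ w) ≤ Fintype.card X ∨
    ∀ j, 1 ≤ j → j ≤ N → N * fx (FreeGroup.lift σ (w ^ j)) ≤ Fintype.card X

/-! ### from integral to rational matrices -/

theorem exists_rat {G : Type} [Group G] (Y : Matrix (Fin n) (Fin m) (MonoidAlgebra ℂ G))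
    (hY : Itg Y) : ∃ A : Matrix (Fin m) (Fin n) (G →₀ ℚ), kdim A = vdim (kr (mop Y)) := by
  classical
  choose z hz using hY
  have hfs : ∀ i j, (Function.support fun g : G => (z j i g⁻¹ : ℚ)).Finite := by
    intro i j
    refine (((Y j i).coeff.support.finite_toSet).image (fun g => g⁻¹)).subset ?_
    intro g hg
    refine ⟨g⁻¹, ?_, inv_inv g⟩
    rw [Finset.mem_coe, Finsupp.mem_support_iff, hz]
    intro h0
    apply hg
    have h1 : z j i g⁻¹ = 0 := by exact_mod_cast h0
    change ((z j i g⁻¹ : ℤ) : ℚ) = 0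
    rw [h1]
    rfl
  let A : Matrix (Fin m) (Fin n) (G →₀ ℚ) := Matrix.of fun i j =>
    Finsupp.ofSupportFinite (fun g : G => (z j i g⁻¹ : ℚ)) (hfs i j)
  have hA : ∀ i j g, A i j g = (z j i g⁻¹ : ℚ) := fun i j g => rfl
  let B : Matrix (Fin m) (Fin n) (G →₀ ℂ) := Matrix.of fun i j =>
    (A i j).mapRange (fun q : ℚ => (q : ℂ)) (by simp)
  have hB : ∀ i j h, B i j h = (A i j h : ℂ) := by
    intro i j h
    simp only [B, Matrix.of_apply, Finsupp.mapRange_apply]
  refine ⟨A, ?_⟩
  have hset : kernelSet B = kset A := by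
    ext x
    refine forall_congr' fun j => forall_congr' fun g => ?_
    have h1 : ∑ i' : Fin m, (B i' j).sum (fun h c => x (i', g * h⁻¹) * c) =
        ∑ k : Fin m, ∑ h ∈ (A k j).support, x (k, g * h⁻¹) * ((A k j h : ℚ) : ℂ) := by
      refine Finset.sum_congr rfl fun i _ => ?_
      have hs : (B i j).support ⊆ (A i j).support := by
        intro h hh
        rw [Finsupp.mem_support_iff] at hh ⊢
        intro h0
        apply hh
        rw [hB, h0]
        simp
      rw [Finsupp.sum_of_support_subset _ hs _ (fun _ _ => mul_zero _)]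
      refine Finset.sum_congr rfl fun h _ => ?_
      rw [hB]
    rw [h1]
  have h2 : kdim A = kerDim B := by
    unfold kdim kerDim
    rw [hset]
  rw [h2, kerDim_eq, kr_mop]
  congr 2
  funext j i
  ext g
  change (B i j).mapDomain (fun g => g⁻¹) g = (Y j i).coeff g
  have h3 := Finsupp.mapDomain_apply (f := fun g : G => g⁻¹) inv_injective (B i j) g⁻¹
  rw [inv_inv] at h3
  rw [h3, hB, hA, inv_inv, hz]
  push_cast
  rfl

/-! ### sofic groups -/

theorem words {G : Type} [Group G] (hG : IsSofic G) (g : Fin k → G) (N : ℕ) :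
    ∃ (d : ℕ) (_ : 0 < d) (σ : Fin k → Equiv.Perm (Fin d)), ∀ w : FreeGroup (Fin k), w.norm ≤ N →
      (FreeGroup.lift g w = 1 → (N + 1) * mv (FreeGroup.lift σ w) ≤ d) ∧
      (FreeGroup.lift g w ≠ 1 → (N + 1) * fx (FreeGroup.lift σ w) ≤ d) := by
  classical
  let j : FreeGroup (Fin k) →* FreeGroup G := FreeGroup.map g
  have hj : ∀ w, cn G (j w) = FreeGroup.lift g w := by
    intro w
    have e : (cn G).comp j = FreeGroup.lift g := by
      ext l
      simp [j]
    rw [← e]
    rfl
  let B : Finset (FreeGroup (Fin k)) := (ball_finite k N).toFinset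
  have hB : ∀ w, w ∈ B ↔ w.norm ≤ N := fun w => by simp [B]
  obtain ⟨d, hd, Ψ, hΨ⟩ := Pool.Agent.N303.KT.sofic_words' hG
    ((B.filter fun w => FreeGroup.lift g w = 1).image j)
    ((B.filter fun w => FreeGroup.lift g w ≠ 1).image j) (by
      intro r hr
      obtain ⟨w, hw, rfl⟩ := Finset.mem_image.1 hr
      rw [hj]
      exact (Finset.mem_filter.1 hw).2) (by
      intro r hr
      obtain ⟨w, hw, rfl⟩ := Finset.mem_image.1 hr
      rw [hj]
      exact (Finset.mem_filter.1 hw).2) (ε := 1 / ((N : ℝ) + 1)) (by positivity)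
  let σ : Fin k → Equiv.Perm (Fin d) := fun l => Ψ (FreeGroup.of (g l))
  have hσ : ∀ w, FreeGroup.lift σ w = Ψ (j w) := by
    intro w
    have e : FreeGroup.lift σ = Ψ.comp j := by
      ext l y
      simp [j, σ]
    rw [e]
    rfl
  have hN : (0 : ℝ) < (N : ℝ) + 1 := by positivity
  have hct : ∀ p : Fin d → Prop, (∀ y, p y → ((∃ r ∈ ((B.filter fun w => FreeGroup.lift g w = 1).image j),
      Ψ r y ≠ y) ∨ ∃ v ∈ ((B.filter fun w => FreeGroup.lift g w ≠ 1).image j), Ψ v y = y)) →
      ((N : ℝ) + 1) * ct p ≤ d := by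
    intro p hp
    have h1 := (Pool.Agent.N303.KS.ct_mono hp).trans hΨ
    have h2 := mul_le_mul_of_nonneg_left h1 hN.le
    have h3 : ((N : ℝ) + 1) * (1 / ((N : ℝ) + 1) * d) = d := by field_simp
    rwa [h3] at h2
  refine ⟨d, hd, σ, fun w hw => ⟨fun h1 => ?_, fun h1 => ?_⟩⟩
  · have h2 := hct (fun y => Ψ (j w) y ≠ y) (fun y hy => Or.inl ⟨j w, Finset.mem_image.2
      ⟨w, Finset.mem_filter.2 ⟨(hB w).2 hw, h1⟩, rfl⟩, hy⟩)
    have h3 : ct (fun y => Ψ (j w) y ≠ y) = (mv (FreeGroup.lift σ w) : ℝ) := by
      unfold ct mv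
      rw [hσ]
      congr 2
      ext y
      simp
    rw [h3] at h2
    exact_mod_cast h2
  · have h2 := hct (fun y => Ψ (j w) y = y) (fun y hy => Or.inr ⟨j w, Finset.mem_image.2
      ⟨w, Finset.mem_filter.2 ⟨(hB w).2 hw, h1⟩, rfl⟩, hy⟩)
    have h3 : ct (fun y => Ψ (j w) y = y) = (fx (FreeGroup.lift σ w) : ℝ) := by
      unfold ct fx
      rw [hσ]
      congr 2
      ext y
      simp
    rw [h3] at h2
    exact_mod_cast h2

/-- kernel dimensions of integral matrices over torsion-free sofic groups are limits of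
nullities -/
theorem exists_close (G : Type) [Group G] (htf : ∀ g : G, ∀ j : ℕ, 0 < j → g ^ j = 1 → g = 1)
    (hG : IsSofic G) (Y0 : Matrix (Fin n) (Fin m) (MonoidAlgebra ℂ G)) (hY0 : Itg Y0) :
    ∃ (k : ℕ) (c : Fin n → Fin m → Fin k → ℤ), ∀ ε : ℝ, 0 < ε → ∀ N0 : ℕ,
      ∃ (X : Type) (_ : Fintype X) (_ : DecidableEq X) (_ : Nonempty X)
        (σ : Fin k → Equiv.Perm X), Appr N0 σ ∧
          |nu (FreeGroup.lift σ) (Yc c) - vdim (kr (mop Y0))| < ε := by
  classical
  choose z hz using hY0
  let S : Finset G := Finset.univ.biUnion fun i => Finset.univ.biUnion fun j =>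
    (Y0 i j).coeff.support
  let e : Fin S.card ≃ S := S.equivFin.symm
  let g : Fin S.card → G := fun l => (e l : G)
  let c : Fin n → Fin m → Fin S.card → ℤ := fun i j l => z i j (g l)
  have him : im (FreeGroup.lift g) (Yc c) = Y0 := by
    ext1 i j
    change hm (FreeGroup.lift g) (Yc c i j) = Y0 i j
    rw [Yc_apply, map_sum]
    apply MonoidAlgebra.ext
    ext x
    rw [MonoidAlgebra.coeff_sum, Finsupp.finsetSum_apply]
    have h1 : ∀ l, (hm (FreeGroup.lift g) (MonoidAlgebra.single (FreeGroup.of l)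
        (c i j l : ℂ))).coeff x = if g l = x then (Y0 i j).coeff x else 0 := by
      intro l
      rw [hm_single, MonoidAlgebra.coeff_single, Finsupp.single_apply, FreeGroup.lift_apply_of]
      by_cases h : g l = x
      · rw [if_pos h, if_pos h, hz i j x]
        simp only [c]
        rw [h]
      · rw [if_neg h, if_neg h]
    simp only [h1]
    by_cases hx : x ∈ S
    · rw [Finset.sum_eq_single (e.symm ⟨x, hx⟩)]
      · rw [if_pos]
        simp [g]
      · intro l _ hl
        rw [if_neg]
        intro h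
        apply hl
        rw [Equiv.eq_symm_apply]
        exact Subtype.ext h
      · intro h; exact absurd (Finset.mem_univ _) h
    · have h2 : (Y0 i j).coeff x = 0 := by
        by_contra h3
        apply hx
        simp only [S, Finset.mem_biUnion]
        exact ⟨i, Finset.mem_univ _, j, Finset.mem_univ _, Finsupp.mem_support_iff.2 h3⟩
      rw [h2]
      simp
  choose d hd σ hσ using fun N => words hG g N
  have hne : ∀ N, Nonempty (Fin (d N)) := fun N => ⟨⟨0, hd N⟩⟩
  have hlim := lim (atTop : Filter ℕ) (fun N => Fin (d N)) (fun N => FreeGroup.lift (σ N))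
    (FreeGroup.lift g) (by
      intro w
      by_cases h : FreeGroup.lift g w = 1
      · rw [if_pos h]
        rw [Metric.tendsto_nhds]
        intro ε hε
        obtain ⟨N0, hN0⟩ := exists_nat_gt (1 / ε)
        filter_upwards [eventually_ge_atTop (max N0 w.norm)] with N hN
        have h1 := (hσ N w ((le_max_right _ _).trans hN)).1 h
        have h2 := fx_add_mv (FreeGroup.lift (σ N) w)
        have hdN : (0 : ℝ) < Fintype.card (Fin (d N)) := by
          rw [Fintype.card_fin]; exact_mod_cast hd N
        have h3 : (fx (FreeGroup.lift (σ N) w) : ℝ) / Fintype.card (Fin (d N)) - 1 =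
            -((mv (FreeGroup.lift (σ N) w) : ℝ) / Fintype.card (Fin (d N))) := by
          have h4 : (fx (FreeGroup.lift (σ N) w) : ℝ) + mv (FreeGroup.lift (σ N) w) =
              Fintype.card (Fin (d N)) := by exact_mod_cast h2
          rw [← h4] at hdN ⊢
          field_simp
          ring
        rw [Real.dist_eq, h3, abs_neg, abs_of_nonneg (by positivity), div_lt_iff₀ hdN]
        have h5 : ((N : ℝ) + 1) * mv (FreeGroup.lift (σ N) w) ≤ Fintype.card (Fin (d N)) := by
          rw [Fintype.card_fin]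
          exact_mod_cast h1
        have h6 : (1 : ℝ) < ε * (N + 1) := by
          rw [div_lt_iff₀ hε] at hN0
          have : (N0 : ℝ) ≤ N := by exact_mod_cast (le_max_left _ _).trans hN
          nlinarith
        have h7 : (0 : ℝ) ≤ mv (FreeGroup.lift (σ N) w) := Nat.cast_nonneg _
        have h8 : (0 : ℝ) < (N : ℝ) + 1 := by positivity
        by_contra hcon
        push Not at hcon
        have h9 := mul_le_mul_of_nonneg_right hcon h8.le
        nlinarith
      · rw [if_neg h]
        rw [Metric.tendsto_nhds]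
        intro ε hε
        obtain ⟨N0, hN0⟩ := exists_nat_gt (1 / ε)
        filter_upwards [eventually_ge_atTop (max N0 w.norm)] with N hN
        have h1 := (hσ N w ((le_max_right _ _).trans hN)).2 h
        have hdN : (0 : ℝ) < Fintype.card (Fin (d N)) := by
          rw [Fintype.card_fin]; exact_mod_cast hd N
        rw [Real.dist_eq, sub_zero, abs_of_nonneg (by positivity), div_lt_iff₀ hdN]
        have h5 : ((N : ℝ) + 1) * fx (FreeGroup.lift (σ N) w) ≤ Fintype.card (Fin (d N)) := by
          rw [Fintype.card_fin]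
          exact_mod_cast h1
        have h6 : (1 : ℝ) < ε * (N + 1) := by
          rw [div_lt_iff₀ hε] at hN0
          have : (N0 : ℝ) ≤ N := by exact_mod_cast (le_max_left _ _).trans hN
          nlinarith
        have h8 : (0 : ℝ) < (N : ℝ) + 1 := by positivity
        by_contra hcon
        push Not at hcon
        have h9 := mul_le_mul_of_nonneg_right hcon h8.le
        nlinarith) (Yc c) (itg_Yc c)
  rw [him] at hlim
  refine ⟨S.card, c, fun ε hε N0 => ?_⟩
  have h1 := hlim.eventually (Metric.ball_mem_nhds _ hε)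
  obtain ⟨N, h2, h3⟩ := (h1.and (eventually_ge_atTop (N0 * N0 + N0))).exists
  have h4 : Appr N0 (σ N) := by
    intro w hw
    by_cases h : FreeGroup.lift g w = 1
    · left
      have h5 := (hσ N w (by nlinarith)).1 h
      rw [Fintype.card_fin]
      refine le_trans (Nat.mul_le_mul_right _ ?_) h5
      nlinarith
    · right
      intro j hj1 hj2
      have h6 : FreeGroup.lift g (w ^ j) ≠ 1 := by
        intro h7
        rw [map_pow] at h7
        exact h (htf _ j (by omega) h7)
      have h7 : (w ^ j).norm ≤ N := by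
        refine (norm_pow_le' w j).trans ?_
        have : j * w.norm ≤ N0 * N0 := Nat.mul_le_mul hj2 hw
        omega
      have h5 := (hσ N (w ^ j) h7).2 h6
      rw [Fintype.card_fin]
      refine le_trans (Nat.mul_le_mul_right _ ?_) h5
      nlinarith
  refine ⟨Fin (d N), inferInstance, inferInstance, hne N, σ N, h4, ?_⟩
  rw [← Real.dist_eq]
  exact h2

end Pool.Agent.U700.NI
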