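import Pool.Agent.R625.AT.Pencil
import Pool.Agent.W649.ZL.Supp

/-!
Kernel dimensions of sparse elements of complex group algebras: polynomial families of operators
and twists by characters of finite order.
-/

set_option autoImplicit false
set_option linter.unusedSectionVars false

open scoped InnerProductSpace InnerProduct ENNReal

namespace Pool.Agent.U700.SE

open Pool.Agent.W649.ZL Pool.Agent.R625.AT

universe u v w x

section
variable {G : Type u} {I : Type v} {J : Type w} {J' : Type x} [Group G] [Fintype I] [Fintype J]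
  [Fintype J']

theorem upperM (C : ℕ → (EE G J' →L[ℂ] EE G J)) (hC : ∀ i, Eqv (C i))
    (Z : ℕ → Submodule ℂ (EE G J)) (K : Submodule ℂ (EE G J')) (hK : Pool.Agent.W649.ZL.Inv K)
    (hc : IsClosed (K : Set (EE G J'))) (n : ℕ)
    (h : ∀ m < n, ∀ f ∈ K, (∀ i < m, C i f = 0) → C m f ∈ Z m)
    (h0 : ∀ f ∈ K, (∀ i < n, C i f = 0) → f = 0) :
    vd K ≤ ∑ i ∈ Finset.range n, vd (Z i) := by
  have key : ∀ m : ℕ, m ≤ n → ∃ W : Submodule ℂ (EE G J'), Pool.Agent.W649.ZL.Inv W ∧
      IsClosed (W : Set (EE G J')) ∧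
      (∀ f, f ∈ W ↔ f ∈ K ∧ ∀ i < m, C i f = 0) ∧
      vd K ≤ ∑ i ∈ Finset.range m, vd (Z i) + vd W := by
    intro m
    induction m with
    | zero => intro _; exact ⟨K, hK, hc, by simp, by simp⟩
    | succ m ih =>
      intro hm
      obtain ⟨W, h1, h2, h3, h4⟩ := ih (by omega)
      refine ⟨W ⊓ LinearMap.ker (C m : EE G J' →ₗ[ℂ] EE G J), ?_, ?_, ?_, ?_⟩
      · exact inv_inf h1 (inv_ker _ (hC m))
      · rw [Submodule.coe_inf]
        exact h2.inter (ContinuousLinearMap.isClosed_ker (C m))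
      · intro f
        rw [Submodule.mem_inf, h3]
        constructor
        · rintro ⟨⟨a1, a2⟩, a3⟩
          refine ⟨a1, fun i hi => ?_⟩
          rcases Nat.lt_succ_iff_lt_or_eq.1 hi with hi | hi
          · exact a2 i hi
          · rw [hi]; exact a3
        · rintro ⟨a1, a2⟩
          exact ⟨⟨a1, fun i hi => a2 i (by omega)⟩, a2 m (Nat.lt_succ_self m)⟩
      · have h5 := rank_nullity (C m) (hC m) h1 h2
        have h6 : vd (W.map (C m : EE G J' →ₗ[ℂ] EE G J)) ≤ vd (Z m) := by
          apply vd_mono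
          rintro y ⟨x, hx, rfl⟩
          exact h m (by omega) x ((h3 x).1 hx).1 ((h3 x).1 hx).2
        rw [Finset.sum_range_succ]
        linarith
  obtain ⟨W, -, -, h3, h4⟩ := key n le_rfl
  have : W = ⊥ := by
    rw [eq_bot_iff]
    intro f hf
    exact h0 f ((h3 f).1 hf).1 ((h3 f).1 hf).2
  rw [this, vd_bot, add_zero] at h4
  exact h4

theorem sum_apply_op {ι : Type} (s : Finset ι) (B : ι → (EE G J →L[ℂ] EE G I)) (f : EE G J) :
    (∑ i ∈ s, B i) f = ∑ i ∈ s, B i f := by
  rw [sum_apply]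

theorem eqv_sum {ι : Type} (s : Finset ι) (B : ι → (EE G J →L[ℂ] EE G I)) (hB : ∀ i, Eqv (B i)) :
    Eqv (∑ i ∈ s, B i) := by
  intro k f
  rw [sum_apply_op, sum_apply_op, tr_sum]
  exact Finset.sum_congr rfl fun i _ => hB i k f

/-- **Polynomial families.** The kernel dimensions of the values of a polynomial of degree `d` with
operator coefficients, at `q ≥ d` distinct points. -/
theorem poly_pencil {q : ℕ} (d : ℕ) (hdq : d ≤ q) (B : ℕ → (EE G J →L[ℂ] EE G I))
    (hB : ∀ i, Eqv (B i)) (ζ : Fin q → ℂ) (hζ : Function.Injective ζ) :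
    ∑ b, vd (LinearMap.ker ((∑ i ∈ Finset.range (d + 1), ζ b ^ i • B i : EE G J →L[ℂ] EE G I) :
      EE G J →ₗ[ℂ] EE G I))
     ≤ d * Fintype.card J + (q - d) * vd (LinearMap.ker (B d : EE G J →ₗ[ℂ] EE G I)) := by
  classical
  set T : Fin q → (EE G J →L[ℂ] EE G I) := fun b => ∑ i ∈ Finset.range (d + 1), ζ b ^ i • B i
    with hT
  have hTe : ∀ b, Eqv (T b) := fun b => eqv_sum _ _ fun i => eqv_smul _ (hB i)
  set N : Fin q → (EE G (Fin q × J) →L[ℂ] EE G I) := fun b => (T b).comp (coord b) with hN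
  have hNe : ∀ b, Eqv (N b) := fun b => eqv_comp (hTe b) (fun k f => coord_tr b k f)
  obtain ⟨K, hK1, hK2, hK3, hK4⟩ := lowerS N hNe (Finset.univ : Finset (Fin q))
  have hlow : ∑ b, vd (LinearMap.ker (T b : EE G J →ₗ[ℂ] EE G I)) ≤ vd K := by
    refine le_trans ?_ hK4
    have h1 : ∀ b, vd (LinearMap.range (N b : EE G (Fin q × J) →ₗ[ℂ] EE G I))
        ≤ Fintype.card J - vd (LinearMap.ker (T b : EE G J →ₗ[ℂ] EE G I)) := by
      intro b
      have h2 := vd_range_comp (T b) (coord b : EE G (Fin q × J) →L[ℂ] EE G J)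
      have h3 := rank_nullity (T b) (hTe b) (U := ⊤) (fun _ _ _ => trivial) (by simp)
      rw [vd_top, top_inf_eq, Submodule.map_top] at h3
      linarith
    have h4 : (Fintype.card (Fin q × J) : ℝ) = ∑ b : Fin q, (Fintype.card J : ℝ) := by
      rw [Finset.sum_const, Finset.card_univ, Fintype.card_prod, Fintype.card_fin]
      push_cast
      rw [nsmul_eq_mul]
    rw [h4, ← Finset.sum_sub_distrib]
    exact Finset.sum_le_sum fun b _ => by linarith [h1 b]
  refine le_trans hlow ?_
  set M : ℕ → (EE G (Fin q × J) →L[ℂ] EE G J) := fun i => comb (fun b => ζ b ^ i) with hM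
  have hMa : ∀ i f, M i f = ∑ b, ζ b ^ i • coord b f := fun i f => comb_apply _ _
  have hmem : ∀ f ∈ K, ∀ b, T b (coord b f) = 0 := fun f hf b => (hK3 f).1 hf b (Finset.mem_univ b)
  have hrel : ∀ f ∈ K, ∀ s, ∑ i ∈ Finset.range (d + 1), B i (M (i + s) f) = 0 := by
    intro f hf s
    have h1 : ∀ i, B i (M (i + s) f) = ∑ b, ζ b ^ s • (ζ b ^ i • B i (coord b f)) := by
      intro i
      rw [hMa, map_sum]
      refine Finset.sum_congr rfl fun b _ => ?_
      rw [map_smul, smul_smul, pow_add, mul_comm]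
    rw [Finset.sum_congr rfl fun i _ => h1 i, Finset.sum_comm]
    refine Finset.sum_eq_zero fun b _ => ?_
    rw [← Finset.smul_sum]
    have h2 := hmem f hf b
    rw [hT] at h2
    change (∑ i ∈ Finset.range (d + 1), ζ b ^ i • B i : EE G J →L[ℂ] EE G I) (coord b f) = 0 at h2
    rw [sum_apply_op] at h2
    have h3 : ∑ i ∈ Finset.range (d + 1), ζ b ^ i • B i (coord b f) = 0 := h2
    rw [h3, smul_zero]
  have hup := upperM M (fun i => comb_eqv _)
    (fun i => if i < d then ⊤ else LinearMap.ker (B d : EE G J →ₗ[ℂ] EE G I)) K hK1 hK2 q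
    (by
      intro m _ f hf hz
      by_cases hmd : m < d
      · rw [if_pos hmd]; trivial
      · rw [if_neg hmd]
        push Not at hmd
        change B d (M m f) = 0
        have h1 := hrel f hf (m - d)
        rw [Finset.sum_range_succ, Finset.sum_eq_zero, zero_add] at h1
        · rwa [show d + (m - d) = m by omega] at h1
        · intro i hi
          rw [Finset.mem_range] at hi
          rw [hz (i + (m - d)) (by omega), map_zero])
    (by
      intro f _ hz
      apply eq_zero_of_coord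
      intro b
      ext y
      have h1 : (fun b => coord b f y) = 0 := by
        apply Matrix.eq_zero_of_forall_pow_sum_mul_pow_eq_zero hζ
        intro i
        have h2 := hz i i.2
        rw [hMa] at h2
        have h3 := congrArg (fun F : EE G J => F y) h2
        change (∑ b, ζ b ^ (i : ℕ) • coord b f : EE G J) y = 0 at h3
        rw [sum_apply_EE] at h3
        rw [← h3]
        refine Finset.sum_congr rfl fun b _ => ?_
        rw [mul_comm]
        rfl
      exact congrFun h1 b)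
  refine hup.trans (le_of_eq ?_)
  have h5 : ∀ i, vd (if i < d then (⊤ : Submodule ℂ (EE G J)) else
      LinearMap.ker (B d : EE G J →ₗ[ℂ] EE G I))
      = if i < d then (Fintype.card J : ℝ) else vd (LinearMap.ker (B d : EE G J →ₗ[ℂ] EE G I)) := by
    intro i
    split_ifs
    · exact vd_top
    · rfl
  rw [Finset.sum_congr rfl fun i _ => h5 i]
  rw [Finset.sum_ite, Finset.sum_const, Finset.sum_const, nsmul_eq_mul, nsmul_eq_mul]
  have h6 : (Finset.filter (fun i => i < d) (Finset.range q)).card = d := by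
    have : Finset.filter (fun i => i < d) (Finset.range q) = Finset.range d := by
      ext i
      simp only [Finset.mem_filter, Finset.mem_range]
      omega
    rw [this, Finset.card_range]
  have h7 : (Finset.filter (fun i => ¬ i < d) (Finset.range q)).card = q - d := by
    have h8 := Finset.card_filter_add_card_filter_not (s := Finset.range q) (fun i => i < d)
    rw [Finset.card_range, h6] at h8
    omega
  rw [h6, h7, Nat.cast_sub hdq]

end

section twist
variable {G : Type u} [Group G]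

theorem memlp_chi (χ : G → ℂ) (h1 : ∀ x, ‖χ x‖ = 1) (f : EE G Unit) :
    Memℓp (fun x : G × Unit => χ x.1 * f x) 2 := by
  rw [memlp_two_iff]
  have h := (memlp_two_iff _).1 f.2
  convert h using 1
  ext x
  rw [norm_mul, h1, one_mul]

/-- multiplication by a unimodular function -/
noncomputable def tc (χ : G → ℂ) (h1 : ∀ x, ‖χ x‖ = 1) (f : EE G Unit) : EE G Unit :=
  ⟨fun x => χ x.1 * f x, memlp_chi χ h1 f⟩

theorem tc_apply (χ : G → ℂ) (h1 : ∀ x, ‖χ x‖ = 1) (f : EE G Unit) (x : G) :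
    tc χ h1 f (x, ()) = χ x * f (x, ()) := rfl

theorem isometry_tc (χ : G → ℂ) (h1 : ∀ x, ‖χ x‖ = 1) : Isometry (tc χ h1) := by
  apply Isometry.of_dist_eq
  intro f g
  rw [dist_eq_norm, dist_eq_norm]
  have e1 : tc χ h1 f - tc χ h1 g = tc χ h1 (f - g) := by
    ext ⟨x, ⟨⟩⟩
    change χ x * f (x, ()) - χ x * g (x, ()) = χ x * (f - g) (x, ())
    rw [← mul_sub]; rfl
  rw [e1]
  have e2 : ‖tc χ h1 (f - g)‖ ^ 2 = ‖f - g‖ ^ 2 := by
    rw [norm_sq_tsum, norm_sq_tsum]
    refine tsum_congr fun x => ?_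
    change ‖χ x.1 * (f - g) x‖ ^ 2 = _
    rw [norm_mul, h1, one_mul]
  exact (sq_eq_sq₀ (norm_nonneg _) (norm_nonneg _)).1 e2

theorem tc_dl (χ : G → ℂ) (h1 : ∀ x, ‖χ x‖ = 1) (h0 : χ 1 = 1) :
    tc χ h1 (dl ((1 : G), ())) = dl ((1 : G), ()) := by
  ext ⟨x, ⟨⟩⟩
  rw [tc_apply]
  by_cases hx : x = 1
  · subst hx; rw [h0, one_mul]
  · rw [dl_apply_ne, mul_zero]
    intro h; exact hx (congrArg Prod.fst h)

theorem vd_tc (χ : G → ℂ) (h1 : ∀ x, ‖χ x‖ = 1) (h0 : χ 1 = 1)
    (T T' : EE G Unit →L[ℂ] EE G Unit) (h : ∀ f, T' (tc χ h1 f) = 0 ↔ T f = 0) :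
    vd (LinearMap.ker (T' : EE G Unit →ₗ[ℂ] EE G Unit))
      = vd (LinearMap.ker (T : EE G Unit →ₗ[ℂ] EE G Unit)) := by
  rw [vd_eq_infDist _ (ContinuousLinearMap.isClosed_ker T'),
    vd_eq_infDist _ (ContinuousLinearMap.isClosed_ker T)]
  have himg : tc χ h1 '' (LinearMap.ker (T : EE G Unit →ₗ[ℂ] EE G Unit) : Set (EE G Unit))
      = (LinearMap.ker (T' : EE G Unit →ₗ[ℂ] EE G Unit) : Set (EE G Unit)) := by
    ext F
    constructor
    · rintro ⟨f, hf, rfl⟩
      exact (h f).2 hf
    · intro hF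
      have hne : ∀ x, χ x ≠ 0 := by
        intro x hx
        have := h1 x
        rw [hx, norm_zero] at this
        exact zero_ne_one this
      have hc' : ∀ x, ‖(χ x)⁻¹‖ = 1 := by
        intro x
        rw [norm_inv, h1, inv_one]
      have hback : tc χ h1 (tc (fun x => (χ x)⁻¹) hc' F) = F := by
        ext ⟨x, ⟨⟩⟩
        rw [tc_apply, tc_apply, ← mul_assoc, mul_inv_cancel₀ (hne x), one_mul]
      refine ⟨tc (fun x => (χ x)⁻¹) hc' F, ?_, hback⟩
      exact (h _).1 (by rw [hback]; exact hF)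
  refine Finset.sum_congr rfl fun j _ => ?_
  obtain ⟨⟩ := j
  rw [← himg]
  conv_lhs => rw [← tc_dl χ h1 h0]
  rw [Metric.infDist_image (isometry_tc χ h1)]

/-- Restriction of vectors to a subgroup. -/
theorem vd_subgroup (K : Subgroup G) (α : G →₀ ℂ) (hα : ∀ x ∈ α.support, x ∈ K) :
    vd (LinearMap.ker (cop α : EE G Unit →ₗ[ℂ] EE G Unit))
      ≤ vd (LinearMap.ker (cop (α.comapDomain (Subtype.val : K → G)
        Subtype.val_injective.injOn) : EE K Unit →ₗ[ℂ] EE K Unit)) := by
  classical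
  rw [vd_eq_infDist _ (ContinuousLinearMap.isClosed_ker _),
    vd_eq_infDist _ (ContinuousLinearMap.isClosed_ker _)]
  rw [Finset.univ_unique, Finset.sum_singleton, Finset.sum_singleton]
  have hmem : ∀ F : EE G Unit, Memℓp (fun k : K × Unit => F ((k.1 : G), ())) 2 := by
    intro F
    rw [memlp_two_iff]
    have h1 := (memlp_two_iff _).1 F.2
    exact h1.comp_injective (i := fun k : K × Unit => (((k.1 : G), ()) : G × Unit)) (by
      rintro ⟨a, ⟨⟩⟩ ⟨b, ⟨⟩⟩ hab
      simp only [Prod.mk.injEq, and_true, SetLike.coe_eq_coe] at hab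
      rw [hab])
  let R : EE G Unit → EE K Unit := fun F => ⟨fun k => F ((k.1 : G), ()), hmem F⟩
  have hRn : ∀ F G', dist (R F) (R G') ≤ dist F G' := by
    intro F F'
    rw [dist_eq_norm, dist_eq_norm]
    have e1 : R F - R F' = R (F - F') := by ext ⟨x, ⟨⟩⟩; rfl
    rw [e1]
    have e : ‖R (F - F')‖ ^ 2 ≤ ‖F - F'‖ ^ 2 := by
      rw [norm_sq_tsum, norm_sq_tsum]
      have h1 := (memlp_two_iff _).1 (F - F').2
      have hinj : Function.Injective (fun k : K × Unit => (((k.1 : G), ()) : G × Unit)) := by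
        rintro ⟨a, ⟨⟩⟩ ⟨b, ⟨⟩⟩ hab
        simp only [Prod.mk.injEq, and_true, SetLike.coe_eq_coe] at hab
        rw [hab]
      exact tsum_comp_le_tsum_of_inj h1 (fun _ => by positivity) hinj
    exact (sq_le_sq₀ (norm_nonneg _) (norm_nonneg _)).1 e
  have hRd : R (dl ((1 : G), ())) = dl ((1 : K), ()) := by
    ext ⟨x, ⟨⟩⟩
    change (dl ((1 : G), ()) : EE G Unit) ((x : G), ()) = _
    by_cases hx : x = 1
    · subst hx
      rw [dl_apply_self]
      change (dl ((1 : G), ()) : EE G Unit) ((1 : G), ()) = 1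
      rw [dl_apply_self]
    · rw [dl_apply_ne, dl_apply_ne]
      · intro h; exact hx (congrArg Prod.fst h)
      · intro h; exact hx (Subtype.ext (congrArg Prod.fst h))
  have hRk : ∀ F ∈ LinearMap.ker (cop α : EE G Unit →ₗ[ℂ] EE G Unit),
      R F ∈ LinearMap.ker (cop (α.comapDomain (Subtype.val : K → G)
        Subtype.val_injective.injOn) : EE K Unit →ₗ[ℂ] EE K Unit) := by
    intro F hF
    change cop (α.comapDomain (Subtype.val : K → G) Subtype.val_injective.injOn) (R F) = 0
    have hF' : cop α F = 0 := hF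
    ext ⟨k, ⟨⟩⟩
    rw [cop_apply]
    have h2 := cop_apply α F (k : G)
    rw [hF'] at h2
    have h3 : (0 : ℂ) = ∑ t ∈ α.support, α t * F (t⁻¹ * (k : G), ()) := h2
    change _ = (0 : ℂ)
    rw [h3]
    rw [Finsupp.comapDomain_support]
    refine Finset.sum_bij (fun t _ => (t : G)) ?_ ?_ ?_ ?_
    · intro t ht
      exact (Finset.mem_preimage.1 ht)
    · intro a _ b _ hab
      exact Subtype.ext hab
    · intro b hb
      exact ⟨⟨b, hα b hb⟩, Finset.mem_preimage.2 hb, rfl⟩
    · intro t _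
      rw [Finsupp.comapDomain_apply]
      change α t * F ((((t : K)⁻¹ * k : K) : G), ()) = _
      rw [Subgroup.coe_mul, Subgroup.coe_inv]
  have hd : Metric.infDist (dl ((1 : K), ())) (LinearMap.ker (cop (α.comapDomain
      (Subtype.val : K → G) Subtype.val_injective.injOn) : EE K Unit →ₗ[ℂ] EE K Unit) :
      Set (EE K Unit)) ≤ Metric.infDist (dl ((1 : G), ()))
        (LinearMap.ker (cop α : EE G Unit →ₗ[ℂ] EE G Unit) : Set (EE G Unit)) := by
    apply le_of_forall_pos_le_add
    intro ε hε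
    obtain ⟨F, hF, hlt⟩ := (Metric.infDist_lt_iff (s := (LinearMap.ker (cop α :
      EE G Unit →ₗ[ℂ] EE G Unit) : Set (EE G Unit))) ⟨0, Submodule.zero_mem _⟩).1
      (lt_add_of_pos_right (Metric.infDist (dl ((1 : G), ()))
        (LinearMap.ker (cop α : EE G Unit →ₗ[ℂ] EE G Unit) : Set (EE G Unit))) hε)
    refine le_trans ?_ hlt.le
    refine (Metric.infDist_le_dist_of_mem (hRk F hF)).trans ?_
    rw [← hRd]
    exact hRn _ _
  have hnn : 0 ≤ Metric.infDist (dl ((1 : K), ())) (LinearMap.ker (cop (α.comapDomain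
      (Subtype.val : K → G) Subtype.val_injective.injOn) : EE K Unit →ₗ[ℂ] EE K Unit) :
      Set (EE K Unit)) := Metric.infDist_nonneg
  have := mul_self_le_mul_self hnn hd
  change 1 - _ ^ 2 ≤ 1 - _ ^ 2
  rw [sq, sq]
  linarith

end twist

end Pool.Agent.U700.SE
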