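import Pool.Agent.U700.SE1

/-!
Kernel dimensions of sparse elements of complex group algebras: the induction over the number of
terms.
-/

set_option autoImplicit false
set_option linter.unusedSectionVars false

open scoped InnerProductSpace InnerProduct ENNReal

namespace Pool.Agent.U700.SE

open Pool.Agent.W649.ZL Pool.Agent.R625.AT

universe u v w x

/-- Simultaneous approximation modulo `p`. -/
theorem dirichlet {ι : Type u} (T : Finset ι) (p Q : ℕ) (hQ : 0 < Q) (h : Q ^ T.card < p)
    (e : ι → ZMod p) :
    ∃ c : ℕ, 0 < c ∧ c < p ∧ ∃ m : ι → ℤ, ∀ t ∈ T, ((m t : ℤ) : ZMod p) = c * e t ∧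
      (Q : ℤ) * |m t| < p := by
  classical
  have hp : 0 < p := lt_of_le_of_lt (Nat.zero_le _) h
  haveI : NeZero p := ⟨hp.ne'⟩
  have hlt : ∀ (a : ZMod p), Q * a.val / p < Q := by
    intro a
    rw [Nat.div_lt_iff_lt_mul hp]
    exact Nat.mul_lt_mul_of_pos_left (ZMod.val_lt a) hQ
  let F : Fin (Q ^ T.card + 1) → (T → Fin Q) := fun c t =>
    ⟨Q * (((c : ℕ) : ZMod p) * e t).val / p, hlt _⟩
  obtain ⟨a, b, hab, hF⟩ := Fintype.exists_ne_map_eq_of_card_lt F (by
    rw [Fintype.card_fun, Fintype.card_fin, Fintype.card_fin, Fintype.card_coe]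
    omega)
  have key : ∀ a b : Fin (Q ^ T.card + 1), (a : ℕ) < b → F a = F b →
      ∃ c : ℕ, 0 < c ∧ c < p ∧ ∃ m : ι → ℤ, ∀ t ∈ T, ((m t : ℤ) : ZMod p) = c * e t ∧
      (Q : ℤ) * |m t| < p := by
    intro a b hlt' hF
    refine ⟨b - a, by omega, by have := b.2; omega,
      fun t => ((((b : ℕ) : ZMod p) * e t).val : ℤ) - ((((a : ℕ) : ZMod p) * e t).val : ℤ), ?_⟩
    intro t ht
    constructor
    · push_cast
      rw [ZMod.natCast_zmod_val, ZMod.natCast_zmod_val, Nat.cast_sub hlt'.le]
      ring
    · have h1 := congrArg Fin.val (congrFun hF ⟨t, ht⟩)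
      simp only [F] at h1
      set A := (((a : ℕ) : ZMod p) * e t).val
      set B := (((b : ℕ) : ZMod p) * e t).val
      have hA := Nat.div_add_mod (Q * A) p
      have hB := Nat.div_add_mod (Q * B) p
      have hA' := Nat.mod_lt (Q * A) hp
      have hB' := Nat.mod_lt (Q * B) hp
      rw [← h1] at hB
      set X := p * (Q * A / p)
      have e1 : (Q : ℤ) * |(B : ℤ) - A| = |(Q : ℤ) * B - Q * A| := by
        rw [← mul_sub, abs_mul, abs_of_nonneg (Int.natCast_nonneg Q)]
      rw [e1, abs_lt]
      have h2 : ((Q * A : ℕ) : ℤ) = Q * A := by push_cast; ring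
      have h3 : ((Q * B : ℕ) : ℤ) = Q * B := by push_cast; ring
      constructor <;> omega
  rcases lt_or_gt_of_ne (fun hh : (a : ℕ) = b => hab (Fin.ext hh)) with h1 | h1
  · exact key a b h1 hF
  · exact key b a h1 hF.symm

theorem zpow_congr (p : ℕ) (z : ℂ) (hz : z ^ p = 1) (a b : ℤ)
    (h : ((a : ℤ) : ZMod p) = ((b : ℤ) : ZMod p)) (hz0 : z ≠ 0) : z ^ a = z ^ b := by
  have h1 := (ZMod.intCast_eq_intCast_iff_dvd_sub a b p).1 h
  obtain ⟨k, hk⟩ := h1
  have : b = a + p * k := by linarith
  rw [this, zpow_add₀ hz0, zpow_mul, zpow_natCast, hz, one_zpow, mul_one]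

section
variable {G : Type u} [Group G]

theorem cop_filter_apply (α : G →₀ ℂ) (m : G → ℤ) (r : ℤ) (f : EE G Unit) (x : G) :
    cop (α.filter (fun t => m t = r)) f (x, ())
      = ∑ t ∈ α.support, (if m t = r then α t else 0) * f (t⁻¹ * x, ()) := by
  classical
  rw [cop_apply]
  rw [Finsupp.support_filter, Finset.sum_filter]
  refine Finset.sum_congr rfl fun t _ => ?_
  by_cases h : m t = r
  · have h2 : (α.filter (fun t => m t = r)) t = α t := Finsupp.filter_apply_pos _ _ h
    rw [if_pos h, if_pos h, h2]
  · rw [if_neg h, if_neg h, zero_mul]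

/-- One step: characters of order `p`. -/
theorem step_p (p : ℕ) (hp : 0 < p) (e : G → ZMod p) (he : ∀ x y, e (x * y) = e x + e y)
    (α : G →₀ ℂ) (m : G → ℤ) (lo : ℤ) (d : ℕ) (hd : d ≤ p)
    (hm : ∀ t ∈ α.support, ((m t : ℤ) : ZMod p) = e t ∧ lo ≤ m t ∧ m t ≤ lo + d) :
    p * vd (LinearMap.ker (cop α : EE G Unit →ₗ[ℂ] EE G Unit))
      ≤ d + (p - d) * vd (LinearMap.ker (cop (α.filter (fun t => m t = lo + d)) :
        EE G Unit →ₗ[ℂ] EE G Unit)) := by
  classical
  haveI : NeZero p := ⟨hp.ne'⟩
  have he1 : e 1 = 0 := by
    have := he 1 1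
    rw [mul_one] at this
    exact left_eq_add.1 this
  set ω : ℂ := Complex.exp (2 * Real.pi * Complex.I / p) with hω
  have hprim : IsPrimitiveRoot ω p := Complex.isPrimitiveRoot_exp p hp.ne'
  set ζ : Fin p → ℂ := fun b => ω ^ (b : ℕ) with hζ
  have hζp : ∀ b, ζ b ^ p = 1 := by
    intro b
    simp only [hζ]
    rw [← pow_mul, mul_comm, pow_mul, hprim.pow_eq_one, one_pow]
  have hζn : ∀ b, ‖ζ b‖ = 1 := fun b => Complex.norm_eq_one_of_pow_eq_one (hζp b) hp.ne'
  have hζ0 : ∀ b, ζ b ≠ 0 := by
    intro b h0
    have := hζn b
    rw [h0, norm_zero] at this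
    exact zero_ne_one this
  have hζi : Function.Injective ζ := by
    intro a b hab
    exact Fin.ext (hprim.pow_inj a.2 b.2 hab)
  let χ : Fin p → G → ℂ := fun b x => ζ b ^ (((e x).val : ℕ) : ℤ)
  have hχn : ∀ b x, ‖χ b x‖ = 1 := by
    intro b x
    simp only [χ]
    rw [norm_zpow, hζn, one_zpow]
  have hχ1 : ∀ b, χ b 1 = 1 := by
    intro b
    simp only [χ]
    rw [he1, ZMod.val_zero]
    simp
  have hχm : ∀ b, ∀ t ∈ α.support, ∀ x, χ b (t⁻¹ * x) = ζ b ^ (- m t) * χ b x := by
    intro b t ht x
    simp only [χ]
    rw [← zpow_add₀ (hζ0 b)]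
    apply zpow_congr p _ (hζp b) _ _ _ (hζ0 b)
    push_cast
    rw [ZMod.natCast_zmod_val, ZMod.natCast_zmod_val, (hm t ht).1]
    have h1 := he t (t⁻¹ * x)
    rw [mul_inv_cancel_left] at h1
    rw [h1]
    ring
  set B : ℕ → (EE G Unit →L[ℂ] EE G Unit) := fun i => cop (α.filter (fun t => m t = lo + (i : ℤ)))
    with hB
  have hBe : ∀ i, Eqv (B i) := fun i => cop_eqv _
  have hpp := poly_pencil d hd B hBe ζ hζi
  have hval : ∀ (z : ℂ) (f : EE G Unit) (x : G),
      (∑ i ∈ Finset.range (d + 1), z ^ i • B i : EE G Unit →L[ℂ] EE G Unit) f (x, ())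
        = ∑ t ∈ α.support, z ^ (m t - lo).toNat * (α t * f (t⁻¹ * x, ())) := by
    intro z f x
    rw [sum_apply_op, sum_apply_EE]
    have h1 : ∀ i, ((z ^ i • B i : EE G Unit →L[ℂ] EE G Unit) f) (x, ())
        = ∑ t ∈ α.support, z ^ i * ((if m t = lo + (i : ℤ) then α t else 0) * f (t⁻¹ * x, ())) := by
      intro i
      change z ^ i * (B i f) (x, ()) = _
      rw [hB, cop_filter_apply, Finset.mul_sum]
    rw [Finset.sum_congr rfl fun i _ => h1 i, Finset.sum_comm]
    refine Finset.sum_congr rfl fun t ht => ?_
    obtain ⟨_, h2, h3⟩ := hm t ht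
    rw [Finset.sum_eq_single (m t - lo).toNat]
    · rw [if_pos (by omega)]
    · intro i _ hi
      rw [if_neg (by intro h; apply hi; omega), zero_mul, mul_zero]
    · intro hi
      exfalso
      apply hi
      rw [Finset.mem_range]
      omega
  have heq : ∀ b, vd (LinearMap.ker ((∑ i ∈ Finset.range (d + 1), ζ b ^ i • B i :
      EE G Unit →L[ℂ] EE G Unit) : EE G Unit →ₗ[ℂ] EE G Unit))
      = vd (LinearMap.ker (cop α : EE G Unit →ₗ[ℂ] EE G Unit)) := by
    intro b
    apply vd_tc (χ b) (hχn b) (hχ1 b)
    intro f
    have key : ∀ x, (∑ i ∈ Finset.range (d + 1), ζ b ^ i • B i : EE G Unit →L[ℂ] EE G Unit)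
        (tc (χ b) (hχn b) f) (x, ()) = ζ b ^ (- lo) * χ b x * cop α f (x, ()) := by
      intro x
      rw [hval, cop_apply, Finset.mul_sum]
      refine Finset.sum_congr rfl fun t ht => ?_
      rw [tc_apply, hχm b t ht x]
      obtain ⟨_, h2, _⟩ := hm t ht
      have h4 : ζ b ^ (m t - lo).toNat * ζ b ^ (- m t) = ζ b ^ (- lo) := by
        rw [← zpow_natCast, Int.toNat_of_nonneg (by omega), ← zpow_add₀ (hζ0 b)]
        congr 1
        ring
      rw [← h4]
      ring
    have hne : ∀ x, ζ b ^ (- lo) * χ b x ≠ 0 := by
      intro x h0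
      have h5 : ‖ζ b ^ (- lo) * χ b x‖ = 1 := by
        rw [norm_mul, hχn, norm_zpow, hζn, one_zpow, one_mul]
      rw [h0, norm_zero] at h5
      exact zero_ne_one h5
    constructor
    · intro h
      ext ⟨x, ⟨⟩⟩
      have h2 := key x
      rw [h] at h2
      have h3 : (0 : ℂ) = ζ b ^ (- lo) * χ b x * cop α f (x, ()) := h2
      exact (mul_eq_zero.1 h3.symm).resolve_left (hne x)
    · intro h
      ext ⟨x, ⟨⟩⟩
      rw [key x, h]
      change ζ b ^ (- lo) * χ b x * (0 : ℂ) = 0
      rw [mul_zero]
  rw [Finset.sum_congr rfl fun b _ => heq b, Finset.sum_const, Finset.card_univ,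
    Fintype.card_fin, nsmul_eq_mul] at hpp
  simpa using hpp

/-- The part of lowest value, for homomorphisms to `ℤ`, and the part of highest value. -/
theorem lead_max (e : G → ℤ) (he : ∀ x y, e (x * y) = e x + e y) (α : G →₀ ℂ) (m : ℤ)
    (hm : ∀ t ∈ α.support, e t ≤ m) :
    vd (LinearMap.ker (cop α : EE G Unit →ₗ[ℂ] EE G Unit))
      ≤ vd (LinearMap.ker (cop (α.filter (fun t => e t = m)) : EE G Unit →ₗ[ℂ] EE G Unit)) := by
  classical
  have h := lead (fun x => - e x) (fun x y => by rw [he]; ring) α (- m)
    (fun t ht => by have := hm t ht; omega)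
  have h1 : (α.filter (fun t => - e t = - m)) = α.filter (fun t => e t = m) := by
    ext t
    rw [Finsupp.filter_apply, Finsupp.filter_apply]
    by_cases h2 : e t = m
    · rw [if_pos h2, if_pos (by rw [h2])]
    · rw [if_neg h2, if_neg (by intro h3; apply h2; omega)]
  rwa [h1] at h

end

/-- Every nontrivial finitely generated subgroup of `G` has a nontrivial homomorphism to `ℤ` or to
`ℤ/p` for a prime number `p > M`. -/
def Ind (M : ℕ) (G : Type u) [Group G] : Prop :=
  ∀ K : Subgroup G, K.FG → K ≠ ⊥ → (∃ φ : K →* Multiplicative ℤ, ∃ k, φ k ≠ 1) ∨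
    ∃ p : ℕ, p.Prime ∧ M < p ∧ ∃ φ : K →* Multiplicative (ZMod p), ∃ k, φ k ≠ 1

theorem Ind.subgroup {M : ℕ} {G : Type u} [Group G] (h : Ind M G) (K : Subgroup G) : Ind M K := by
  intro L hL hLne
  have h1 : (L.map K.subtype).FG := by
    classical
    obtain ⟨S, hS⟩ := hL
    exact ⟨S.image K.subtype, by rw [Finset.coe_image, ← MonoidHom.map_closure, hS]⟩
  have h2 : L.map K.subtype ≠ ⊥ := by
    intro h0
    apply hLne
    rw [Subgroup.map_eq_bot_iff, Subgroup.ker_subtype] at h0
    exact le_bot_iff.1 h0
  let e := L.equivMapOfInjective K.subtype K.subtype_injective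
  rcases h _ h1 h2 with ⟨φ, k, hk⟩ | ⟨p, hp, hMp, φ, k, hk⟩
  · left
    refine ⟨φ.comp e.toMonoidHom, e.symm k, ?_⟩
    have : (φ.comp e.toMonoidHom) (e.symm k) = φ k := by
      change φ (e (e.symm k)) = φ k
      rw [MulEquiv.apply_symm_apply]
    rw [this]; exact hk
  · right
    refine ⟨p, hp, hMp, φ.comp e.toMonoidHom, e.symm k, ?_⟩
    have : (φ.comp e.toMonoidHom) (e.symm k) = φ k := by
      change φ (e (e.symm k)) = φ k
      rw [MulEquiv.apply_symm_apply]
    rw [this]; exact hk

theorem two_parts {G : Type u} (α : G →₀ ℂ) (m : G → ℤ) (a b : ℤ) (hab : a < b) :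
    (α.filter (fun t => m t = a)).support.card + (α.filter (fun t => m t = b)).support.card
      ≤ α.support.card := by
  classical
  rw [Finsupp.support_filter, Finsupp.support_filter, ← Finset.card_union_of_disjoint]
  · apply Finset.card_le_card
    intro t ht
    rcases Finset.mem_union.1 ht with h | h
    · exact (Finset.mem_filter.1 h).1
    · exact (Finset.mem_filter.1 h).1
  · rw [Finset.disjoint_left]
    intro t h1 h2
    have e1 := (Finset.mem_filter.1 h1).2
    have e2 := (Finset.mem_filter.1 h2).2
    omega

/-- **The main estimate.** -/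
theorem main (Q k : ℕ) (hQ : 0 < Q) : ∀ (n : ℕ) (G : Type u) [Group G], n ≤ k →
    Ind (Q ^ (k - 1)) G → ∀ α : G →₀ ℂ, α.support.card = n → α ≠ 0 →
    vd (LinearMap.ker (cop α : EE G Unit →ₗ[ℂ] EE G Unit)) ≤ 2 * (Nat.log 2 n : ℝ) / Q := by
  intro n
  induction n using Nat.strong_induction_on with
  | _ n ih =>
    intro G _ hnk hInd α hcard hα
    classical
    obtain ⟨t0, ht0⟩ := Finsupp.support_nonempty_iff.2 hα
    have hQ' : (0 : ℝ) < Q := by exact_mod_cast hQ
    by_cases hone : α.support.card = 1
    · -- a single term
      obtain ⟨t, ht⟩ := Finset.card_eq_one.1 hone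
      have h1 : α = Finsupp.single t (α t) := by
        ext x
        by_cases hx : x = t
        · subst hx; simp
        · rw [Finsupp.single_apply, if_neg (Ne.symm hx)]
          by_contra hne
          have : x ∈ α.support := Finsupp.mem_support_iff.2 hne
          rw [ht, Finset.mem_singleton] at this
          exact hx this
      have h2 : α t ≠ 0 := by
        have : t ∈ α.support := by rw [ht]; exact Finset.mem_singleton_self t
        exact Finsupp.mem_support_iff.1 this
      have hinj : Function.Injective (cop α) := by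
        rw [h1, cop_single]
        intro f g hfg
        apply Ltr_injective t
        exact smul_right_injective _ h2 hfg
      rw [vd_ker_of_injective _ hinj]
      positivity
    · -- translate so that `1` is in the support
      have hn2 : 2 ≤ n := by
        have : 0 < α.support.card := Finset.card_pos.2 ⟨t0, ht0⟩
        omega
      let α' : G →₀ ℂ := α.mapDomain (fun x => t0⁻¹ * x)
      have hinjm : Function.Injective (fun x : G => t0⁻¹ * x) := mul_right_injective t0⁻¹
      have hsupp' : α'.support = α.support.image (fun x => t0⁻¹ * x) :=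
        Finsupp.mapDomain_support_of_injective hinjm α
      have h1mem : (1 : G) ∈ α'.support := by
        rw [hsupp', Finset.mem_image]
        exact ⟨t0, ht0, inv_mul_cancel t0⟩
      have hcard' : α'.support.card = n := by
        rw [hsupp', Finset.card_image_of_injective _ hinjm, hcard]
      have hkereq : LinearMap.ker (cop α' : EE G Unit →ₗ[ℂ] EE G Unit)
          = LinearMap.ker (cop α : EE G Unit →ₗ[ℂ] EE G Unit) := by
        ext f
        have h2 := cop_mapDomain t0⁻¹ α
        change cop α' f = 0 ↔ cop α f = 0
        rw [show cop α' = (Ltr t0⁻¹).comp (cop α) from h2, ContinuousLinearMap.comp_apply]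
        constructor
        · intro h
          exact Ltr_injective t0⁻¹ (by rw [h, map_zero])
        · intro h
          rw [h, map_zero]
      rw [← hkereq]
      let K : Subgroup G := Subgroup.closure (α'.support : Set G)
      have hKsupp : ∀ x ∈ α'.support, x ∈ K := fun x hx => Subgroup.subset_closure hx
      have hKfg : K.FG := ⟨α'.support, rfl⟩
      have hKne : K ≠ ⊥ := by
        intro hbot
        have h2 : α'.support ⊆ {1} := by
          intro x hx
          have := hKsupp x hx
          rw [hbot, Subgroup.mem_bot] at this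
          rw [this]; exact Finset.mem_singleton_self 1
        have h3 := Finset.card_le_card h2
        rw [Finset.card_singleton] at h3
        omega
      refine (vd_subgroup K α' hKsupp).trans ?_
      set β : K →₀ ℂ := α'.comapDomain (Subtype.val : K → G) Subtype.val_injective.injOn with hβ
      have hβsupp : ∀ k : K, k ∈ β.support ↔ (k : G) ∈ α'.support := by
        intro k
        rw [hβ, Finsupp.comapDomain_support, Finset.mem_preimage]
      have h1β : (1 : K) ∈ β.support := (hβsupp 1).2 h1mem
      have hβcard : β.support.card = n := by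
        rw [← hcard', hβ, Finsupp.comapDomain_support]
        rw [Finset.card_preimage]
        congr 1
        ext x
        simp only [Finset.mem_filter, and_iff_left_iff_imp]
        intro hx
        exact ⟨⟨x, hKsupp x hx⟩, rfl⟩
      -- the induction hypothesis for parts
      have hpart : ∀ γ : K →₀ ℂ, γ ≠ 0 → 2 * γ.support.card ≤ n →
          vd (LinearMap.ker (cop γ : EE K Unit →ₗ[ℂ] EE K Unit))
            ≤ 2 * (Nat.log 2 n : ℝ) / Q - 2 / Q := by
        intro γ hγ hγc
        have hpos : 0 < γ.support.card := Finset.card_pos.2 (Finsupp.support_nonempty_iff.2 hγ)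
        have h1 := ih γ.support.card (by omega) K (by omega) (hInd.subgroup K) γ rfl hγ
        refine h1.trans ?_
        have h2 : Nat.log 2 γ.support.card + 1 ≤ Nat.log 2 n := by
          have h3 : Nat.log 2 (γ.support.card * 2) = Nat.log 2 γ.support.card + 1 :=
            Nat.log_mul_base (by norm_num) hpos.ne'
          rw [← h3]
          exact Nat.log_mono_right (by omega)
        have h4 : (Nat.log 2 γ.support.card : ℝ) + 1 ≤ (Nat.log 2 n : ℝ) := by exact_mod_cast h2
        rw [← sub_div]
        apply div_le_div_of_nonneg_right _ hQ'.le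
        linarith
      have hfilt : ∀ (m : K → ℤ) (r : ℤ), (∃ t ∈ β.support, m t = r) →
          β.filter (fun t => m t = r) ≠ 0 := by
        rintro m r ⟨t, ht, hr⟩ h0
        have h2 : (β.filter (fun t => m t = r)) t = β t := Finsupp.filter_apply_pos _ _ hr
        rw [h0] at h2
        exact (Finsupp.mem_support_iff.1 ht) h2.symm
      have h2Q : (0 : ℝ) ≤ 2 / Q := by positivity
      rcases hInd K hKfg hKne with ⟨φ, k0, hk0⟩ | ⟨p, hp, hpQ, φ, k0, hk0⟩
      · -- homomorphisms to `ℤ`
        let e : K → ℤ := fun k => Multiplicative.toAdd (φ k)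
        have he : ∀ x y, e (x * y) = e x + e y := by
          intro x y
          simp only [e]
          rw [map_mul, toAdd_mul]
        have he1 : e 1 = 0 := by
          have := he 1 1
          rw [mul_one] at this
          omega
        obtain ⟨t1, ht1, hmin⟩ := Finset.exists_min_image β.support e ⟨1, h1β⟩
        obtain ⟨t2, ht2, hmax⟩ := Finset.exists_max_image β.support e ⟨1, h1β⟩
        have hlt : e t1 < e t2 := by
          by_contra hge
          push Not at hge
          have hall : ∀ k ∈ β.support, e k = 0 := by
            intro k hk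
            have a1 := hmin k hk
            have a2 := hmax k hk
            have a3 := hmin 1 h1β
            have a4 := hmax 1 h1β
            omega
          have hker : K ≤ (φ.ker).map K.subtype := by
            rw [Subgroup.closure_le]
            intro x hx
            refine ⟨⟨x, hKsupp x hx⟩, ?_, rfl⟩
            have h2 := hall ⟨x, hKsupp x hx⟩ ((hβsupp _).2 hx)
            change φ _ = 1
            exact Multiplicative.toAdd.injective h2
          obtain ⟨k1, hk1, hk2⟩ := hker k0.2
          apply hk0
          have : k1 = k0 := Subtype.ext hk2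
          rw [← this]
          exact hk1
        have hlo := lead e he β (e t1) hmin
        have hhi := lead_max e he β (e t2) hmax
        have hsum := two_parts β e _ _ hlt
        rw [hβcard] at hsum
        rcases le_total (β.filter (fun t => e t = e t1)).support.card
          (β.filter (fun t => e t = e t2)).support.card with hle | hle
        · have h5 := hpart _ (hfilt e (e t1) ⟨t1, ht1, rfl⟩) (by omega)
          linarith
        · have h5 := hpart _ (hfilt e (e t2) ⟨t2, ht2, rfl⟩) (by omega)
          linarith
      · -- homomorphisms to `ℤ/p`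
        haveI : Fact p.Prime := ⟨hp⟩
        let e : K → ZMod p := fun k => Multiplicative.toAdd (φ k)
        have he : ∀ x y, e (x * y) = e x + e y := by
          intro x y
          simp only [e]
          rw [map_mul, toAdd_mul]
        have he1 : e 1 = 0 := by
          have := he 1 1
          rw [mul_one] at this
          exact left_eq_add.1 this
        have hTc : (β.support.erase 1).card = n - 1 := by
          rw [Finset.card_erase_of_mem h1β, hβcard]
        obtain ⟨c, hc0, hcp, m', hm'⟩ := dirichlet (β.support.erase 1) p Q hQ (by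
          rw [hTc]
          refine lt_of_le_of_lt (Nat.pow_le_pow_right hQ (by omega)) hpQ) e
        let m : K → ℤ := fun t => if t = 1 then 0 else m' t
        let e' : K → ZMod p := fun x => c * e x
        have he' : ∀ x y, e' (x * y) = e' x + e' y := by
          intro x y
          simp only [e']
          rw [he, mul_add]
        have hm : ∀ t ∈ β.support, ((m t : ℤ) : ZMod p) = e' t ∧ (Q : ℤ) * |m t| < p := by
          intro t ht
          by_cases h1 : t = 1
          · subst h1
            simp only [m, e', if_true, he1]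
            constructor
            · simp
            · simp only [abs_zero, mul_zero]
              exact_mod_cast hp.pos
          · have := hm' t (Finset.mem_erase.2 ⟨h1, ht⟩)
            simp only [m, e', if_neg h1]
            exact this
        obtain ⟨t1, ht1, hmin⟩ := Finset.exists_min_image β.support m ⟨1, h1β⟩
        obtain ⟨t2, ht2, hmax⟩ := Finset.exists_max_image β.support m ⟨1, h1β⟩
        have hm1 : m 1 = 0 := if_pos rfl
        have hlt : m t1 < m t2 := by
          by_contra hge
          push Not at hge
          have hall : ∀ k ∈ β.support, e k = 0 := by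
            intro k hk
            have a1 := hmin k hk
            have a2 := hmax k hk
            have a3 := hmin 1 h1β
            have a4 := hmax 1 h1β
            have a5 : m k = 0 := by omega
            have a6 := (hm k hk).1
            rw [a5] at a6
            simp only [e', Int.cast_zero] at a6
            rcases mul_eq_zero.1 a6.symm with a7 | a7
            · exfalso
              rw [ZMod.natCast_eq_zero_iff] at a7
              exact absurd (Nat.le_of_dvd hc0 a7) (by omega)
            · exact a7
          have hker : K ≤ (φ.ker).map K.subtype := by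
            rw [Subgroup.closure_le]
            intro x hx
            refine ⟨⟨x, hKsupp x hx⟩, ?_, rfl⟩
            have h2 := hall ⟨x, hKsupp x hx⟩ ((hβsupp _).2 hx)
            change φ _ = 1
            exact Multiplicative.toAdd.injective h2
          obtain ⟨k1, hk1, hk2⟩ := hker k0.2
          apply hk0
          have : k1 = k0 := Subtype.ext hk2
          rw [← this]
          exact hk1
        set d : ℕ := (m t2 - m t1).toNat with hd
        have hdz : (d : ℤ) = m t2 - m t1 := by rw [hd]; omega
        have hQd : (Q : ℤ) * d < 2 * p := by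
          rw [hdz, mul_sub]
          have b1 := (hm t1 ht1).2
          have b2 := (hm t2 ht2).2
          have b3 : (Q : ℤ) * m t2 ≤ Q * |m t2| := by
            apply mul_le_mul_of_nonneg_left (le_abs_self _) (by positivity)
          have b4 : - ((Q : ℤ) * m t1) ≤ Q * |m t1| := by
            rw [← mul_neg]
            apply mul_le_mul_of_nonneg_left (neg_le_abs _) (by positivity)
          linarith
        have hp' : (0 : ℝ) < p := by exact_mod_cast hp.pos
        have hdp : (d : ℝ) / p ≤ 2 / Q := by
          rw [div_le_div_iff₀ hp' hQ']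
          have : ((Q : ℤ) * d : ℤ) ≤ 2 * p := hQd.le
          have h3 : (Q : ℝ) * d ≤ 2 * p := by exact_mod_cast this
          linarith
        have hgen : ∀ γ : K →₀ ℂ, (d ≤ p → p * vd (LinearMap.ker (cop β : EE K Unit →ₗ[ℂ] EE K Unit))
            ≤ d + (p - d) * vd (LinearMap.ker (cop γ : EE K Unit →ₗ[ℂ] EE K Unit))) →
            vd (LinearMap.ker (cop β : EE K Unit →ₗ[ℂ] EE K Unit))
              ≤ 2 / Q + vd (LinearMap.ker (cop γ : EE K Unit →ₗ[ℂ] EE K Unit)) := by
          intro γ hγ
          have hv0 := vd_nonneg (LinearMap.ker (cop γ : EE K Unit →ₗ[ℂ] EE K Unit))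
          by_cases hdle : d ≤ p
          · have h3 := hγ hdle
            have h4 : vd (LinearMap.ker (cop β : EE K Unit →ₗ[ℂ] EE K Unit))
                ≤ d / p + vd (LinearMap.ker (cop γ : EE K Unit →ₗ[ℂ] EE K Unit)) := by
              rw [← mul_le_mul_iff_right₀ hp', mul_add, mul_div_cancel₀ _ hp'.ne']
              refine h3.trans ?_
              have h5 : (0 : ℝ) ≤ d := Nat.cast_nonneg d
              nlinarith
            linarith
          · push Not at hdle
            have h3 := vd_le_card (LinearMap.ker (cop β : EE K Unit →ₗ[ℂ] EE K Unit))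
            have h4 : (1 : ℝ) ≤ d / p := by
              rw [le_div_iff₀ hp', one_mul]
              exact_mod_cast hdle.le
            simp only [Fintype.card_unit, Nat.cast_one] at h3
            linarith
        have hhi := hgen (β.filter (fun t => m t = m t1 + d)) (fun hdle =>
          step_p p hp.pos e' he' β m (m t1) d hdle (fun t ht =>
            ⟨(hm t ht).1, hmin t ht, by have := hmax t ht; omega⟩))
        have hlo := hgen (β.filter (fun t => - m t = - m t2 + d)) (fun hdle =>
          step_p p hp.pos (fun x => - e' x) (fun x y => by rw [he']; ring) β (fun t => - m t)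
            (- m t2) d hdle (fun t ht =>
            ⟨by push_cast; rw [(hm t ht).1], by have := hmax t ht; omega,
              by have := hmin t ht; omega⟩))
        have hf1 : β.filter (fun t => - m t = - m t2 + d) = β.filter (fun t => m t = m t1) := by
          ext t
          rw [Finsupp.filter_apply, Finsupp.filter_apply]
          by_cases h2 : m t = m t1
          · rw [if_pos h2, if_pos (by omega)]
          · rw [if_neg h2, if_neg (by intro h3; apply h2; omega)]
        have hf2 : β.filter (fun t => m t = m t1 + d) = β.filter (fun t => m t = m t2) := by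
          ext t
          rw [Finsupp.filter_apply, Finsupp.filter_apply]
          by_cases h2 : m t = m t2
          · rw [if_pos h2, if_pos (by omega)]
          · rw [if_neg h2, if_neg (by intro h3; apply h2; omega)]
        rw [hf1] at hlo
        rw [hf2] at hhi
        have hsum := two_parts β m _ _ hlt
        rw [hβcard] at hsum
        rcases le_total (β.filter (fun t => m t = m t1)).support.card
          (β.filter (fun t => m t = m t2)).support.card with hle | hle
        · have h5 := hpart _ (hfilt m (m t1) ⟨t1, ht1, rfl⟩) (by omega)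
          linarith
        · have h5 := hpart _ (hfilt m (m t2) ⟨t2, ht2, rfl⟩) (by omega)
          linarith

end Pool.Agent.U700.SE
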