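import Pool.Agent.U700.SE2

/-!
Kernel dimensions of sparse elements of complex group algebras: the class of groups, the size of the
solutions, and finite groups.
-/

set_option autoImplicit false
set_option linter.unusedSectionVars false

open scoped InnerProductSpace InnerProduct ENNReal

namespace Pool.Agent.U700.SE

open Pool.Agent.W649.ZL Pool.Agent.R625.AT

universe u v w x

theorem exists_addhom_zmod (B : Type u) [AddCommGroup B] [Finite B] (p : ℕ) [Fact p.Prime]
    (h : p ∣ Nat.card B) : ∃ f : B →+ ZMod p, ∃ a, f a ≠ 0 := by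
  classical
  set P : AddSubgroup B := (nsmulAddMonoidHom (α := B) p).range with hPdef
  have hmod : ∀ x : B ⧸ P, p • x = 0 := by
    intro x
    induction x using QuotientAddGroup.induction_on with
    | H b =>
      have : (p : ℕ) • (b : B ⧸ P) = ((p • b : B) : B ⧸ P) := rfl
      rw [this, QuotientAddGroup.eq_zero_iff]
      exact ⟨b, rfl⟩
  letI : Module (ZMod p) (B ⧸ P) := AddCommGroup.zmodModule (n := p) hmod
  have hP : P ≠ ⊤ := by
    intro htop
    have hsurj : Function.Surjective (nsmulAddMonoidHom (α := B) p) :=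
      AddMonoidHom.range_eq_top.1 htop
    have hinj : Function.Injective (nsmulAddMonoidHom (α := B) p) :=
      Finite.injective_iff_surjective.2 hsurj
    obtain ⟨a, ha⟩ := exists_prime_addOrderOf_dvd_card' (G := B) p h
    have h1 : p • a = 0 := by rw [← ha]; exact addOrderOf_nsmul_eq_zero a
    have h2 : a ≠ 0 := by
      intro h0
      rw [h0, addOrderOf_zero] at ha
      exact (Fact.out : p.Prime).one_lt.ne ha
    apply h2
    have h3 : (nsmulAddMonoidHom (α := B) p) a = (nsmulAddMonoidHom (α := B) p) 0 := by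
      rw [map_zero]
      exact h1
    exact hinj h3
  obtain ⟨b, hb⟩ : ∃ b : B, b ∉ P := by
    by_contra hcon
    push Not at hcon
    exact hP (eq_top_iff.2 fun x _ => hcon x)
  have hb' : (QuotientAddGroup.mk b : B ⧸ P) ≠ 0 := by
    rw [Ne, QuotientAddGroup.eq_zero_iff]
    exact hb
  have hex : ¬ ∀ φ : Module.Dual (ZMod p) (B ⧸ P), φ (QuotientAddGroup.mk b : B ⧸ P) = 0 := by
    intro hcon
    exact hb' ((Module.forall_dual_apply_eq_zero_iff (ZMod p) _).1 hcon)
  push Not at hex
  obtain ⟨φ, hφ⟩ := hex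
  exact ⟨(φ.toAddMonoidHom).comp (QuotientAddGroup.mk' P), b, hφ⟩

/-- A nontrivial homomorphism from a finite abelian group to `ℤ/p`. -/
theorem exists_hom_zmod (A : Type u) [CommGroup A] [Finite A] (p : ℕ) [Fact p.Prime]
    (h : p ∣ Nat.card A) : ∃ f : A →* Multiplicative (ZMod p), ∃ a, f a ≠ 1 := by
  obtain ⟨f, a, ha⟩ := exists_addhom_zmod (Additive A) p h
  refine ⟨{ toFun := fun x => Multiplicative.ofAdd (f (Additive.ofMul x))
            map_one' := ?_, map_mul' := ?_ }, Additive.toMul a, ?_⟩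
  · rw [ofMul_one, map_zero]
    rfl
  · intro x y
    rw [ofMul_mul, map_add]
    rfl
  · intro h0
    apply ha
    exact Multiplicative.ofAdd.injective h0

/-- Finite solvable groups without small prime factors. -/
theorem ind_of_finite (M : ℕ) (G : Type u) [Group G] [Finite G] [Group.IsSolvable G]
    (h : ∀ p : ℕ, p.Prime → p ∣ Nat.card G → M < p) : Ind M G := by
  intro K _ hK
  right
  haveI : Nontrivial K := (Subgroup.nontrivial_iff_ne_bot K).2 hK
  have hlt : commutator K < ⊤ := Group.IsSolvable.commutator_lt_top_of_nontrivial K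
  haveI : Nontrivial (Abelianization K) := QuotientGroup.nontrivial_iff.2 hlt.ne
  have hcard : Nat.card (Abelianization K) ≠ 1 := (Finite.one_lt_card).ne'
  obtain ⟨p, hp, hdvd⟩ := Nat.exists_prime_and_dvd hcard
  haveI : Fact p.Prime := ⟨hp⟩
  obtain ⟨f, a, ha⟩ := exists_hom_zmod (Abelianization K) p hdvd
  have hd1 : Nat.card (Abelianization K) ∣ Nat.card K :=
    Subgroup.card_quotient_dvd_card (commutator K)
  have hd2 : Nat.card K ∣ Nat.card G := Subgroup.card_subgroup_dvd_card K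
  obtain ⟨k, rfl⟩ := QuotientGroup.mk_surjective a
  exact ⟨p, hp, h p hp (hdvd.trans (hd1.trans hd2)), f.comp Abelianization.of, k, ha⟩

/-- Residual properties. -/
theorem ind_of_residual (M : ℕ) (G : Type u) [Group G]
    (h : ∀ g : G, g ≠ 1 → ∃ (H : Type v) (_ : Group H) (ψ : G →* H), Ind M H ∧ ψ g ≠ 1) :
    Ind M G := by
  classical
  intro K hKfg hK
  obtain ⟨g, hgK, hg⟩ : ∃ g ∈ K, g ≠ 1 := by
    by_contra hcon
    push Not at hcon
    exact hK ((Subgroup.eq_bot_iff_forall K).2 hcon)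
  obtain ⟨H, _, ψ, hH, hψ⟩ := h g hg
  have h1 : (K.map ψ).FG := by
    obtain ⟨S, hS⟩ := hKfg
    exact ⟨S.image ψ, by rw [Finset.coe_image, ← MonoidHom.map_closure, hS]⟩
  have h2 : K.map ψ ≠ ⊥ := by
    intro h0
    apply hψ
    have : ψ g ∈ K.map ψ := Subgroup.mem_map_of_mem ψ hgK
    rwa [h0, Subgroup.mem_bot] at this
  have hsurj := ψ.subgroupMap_surjective K
  rcases hH _ h1 h2 with ⟨φ, k, hk⟩ | ⟨p, hp, hMp, φ, k, hk⟩
  · left
    obtain ⟨k', rfl⟩ := hsurj k
    exact ⟨φ.comp (ψ.subgroupMap K), k', hk⟩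
  · right
    obtain ⟨k', rfl⟩ := hsurj k
    exact ⟨p, hp, hMp, φ.comp (ψ.subgroupMap K), k', hk⟩

/-- Extensions. -/
theorem ind_of_extension (M : ℕ) (G : Type u) [Group G] (N : Subgroup G) [N.Normal]
    (hN : Ind M N) (hQ : Ind M (G ⧸ N)) : Ind M G := by
  classical
  intro K hKfg hK
  by_cases h2 : K.map (QuotientGroup.mk' N) = ⊥
  · have hKN : K ≤ N := by
      rw [Subgroup.map_eq_bot_iff, QuotientGroup.ker_mk'] at h2
      exact h2
    have e := Subgroup.subgroupOfEquivOfLe hKN
    have h3 : (K.subgroupOf N).FG := by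
      rw [← Group.fg_iff_subgroup_fg] at hKfg ⊢
      exact Group.fg_of_surjective (f := e.symm.toMonoidHom) e.symm.surjective
    have h4 : K.subgroupOf N ≠ ⊥ := by
      intro h0
      apply hK
      rw [Subgroup.subgroupOf_eq_bot] at h0
      rw [eq_bot_iff]
      exact h0.le_bot.trans' (le_inf le_rfl hKN)
    rcases hN _ h3 h4 with ⟨φ, k, hk⟩ | ⟨p, hp, hMp, φ, k, hk⟩
    · left
      refine ⟨φ.comp e.symm.toMonoidHom, e k, ?_⟩
      have : (φ.comp e.symm.toMonoidHom) (e k) = φ k := by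
        change φ (e.symm (e k)) = φ k
        rw [MulEquiv.symm_apply_apply]
      rw [this]; exact hk
    · right
      refine ⟨p, hp, hMp, φ.comp e.symm.toMonoidHom, e k, ?_⟩
      have : (φ.comp e.symm.toMonoidHom) (e k) = φ k := by
        change φ (e.symm (e k)) = φ k
        rw [MulEquiv.symm_apply_apply]
      rw [this]; exact hk
  · have h1 : (K.map (QuotientGroup.mk' N)).FG := by
      obtain ⟨S, hS⟩ := hKfg
      exact ⟨S.image (QuotientGroup.mk' N), by
        rw [Finset.coe_image, ← MonoidHom.map_closure, hS]⟩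
    have hsurj := (QuotientGroup.mk' N).subgroupMap_surjective K
    rcases hQ _ h1 h2 with ⟨φ, k, hk⟩ | ⟨p, hp, hMp, φ, k, hk⟩
    · left
      obtain ⟨k', rfl⟩ := hsurj k
      exact ⟨φ.comp ((QuotientGroup.mk' N).subgroupMap K), k', hk⟩
    · right
      obtain ⟨k', rfl⟩ := hsurj k
      exact ⟨p, hp, hMp, φ.comp ((QuotientGroup.mk' N).subgroupMap K), k', hk⟩

section
variable {G : Type u} [Group G]

/-- The values of the elements of an invariant subspace are bounded by its dimension. -/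
theorem value_le (P : Submodule ℂ (EE G Unit)) (hP : Pool.Agent.W649.ZL.Inv P)
    (F : EE G Unit) (hF : F ∈ P) (x : G) : ‖F (x, ())‖ ^ 2 ≤ vd P * ‖F‖ ^ 2 := by
  classical
  have h1 : F (x, ()) = ⟪(dl ((1 : G), ()) : EE G Unit), tr x F⟫_ℂ := by
    rw [inner_dl_left, tr_apply, one_mul]
  have hmem : tr x F ∈ P.topologicalClosure := P.le_topologicalClosure (hP x F hF)
  have h2 : ⟪(dl ((1 : G), ()) : EE G Unit), tr x F⟫_ℂ
      = ⟪P.topologicalClosure.starProjection (dl ((1 : G), ())), tr x F⟫_ℂ := by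
    have h3 : ⟪(dl ((1 : G), ()) : EE G Unit)
        - P.topologicalClosure.starProjection (dl ((1 : G), ())), tr x F⟫_ℂ = 0 :=
      Submodule.starProjection_inner_eq_zero _ _ hmem
    rw [inner_sub_left, sub_eq_zero] at h3
    exact h3
  have h4 : vd P = ‖P.topologicalClosure.starProjection (dl ((1 : G), ()))‖ ^ 2 := by
    unfold vd
    simp
  rw [h1, h2, h4, ← mul_pow]
  have h5 := norm_inner_le_norm (𝕜 := ℂ)
    (P.topologicalClosure.starProjection (dl ((1 : G), ()))) (tr x F)
  rw [norm_tr] at h5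
  exact pow_le_pow_left₀ (norm_nonneg _) h5 2

end

/-- The dimension of a space of functions on a finite set all of whose elements are spread. -/
theorem finrank_le {X : Type u} [Fintype X] (V : Submodule ℂ (X → ℂ)) (c : ℝ) (hc : 0 ≤ c)
    (h : ∀ f ∈ V, ∀ x, ‖f x‖ ^ 2 ≤ c * ∑ y, ‖f y‖ ^ 2) :
    (Module.finrank ℂ V : ℝ) ≤ c * Fintype.card X := by
  classical
  let e := (WithLp.linearEquiv 2 ℂ (X → ℂ)).symm
  let W : Submodule ℂ (EuclideanSpace ℂ X) := V.map (e : (X → ℂ) →ₗ[ℂ] EuclideanSpace ℂ X)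
  have hfin : Module.finrank ℂ W = Module.finrank ℂ V := LinearEquiv.finrank_map_eq e V
  have hW : ∀ F ∈ W, ∀ x, ‖F x‖ ^ 2 ≤ c * ‖F‖ ^ 2 := by
    rintro _ ⟨f, hf, rfl⟩ x
    have h1 := h f hf x
    rw [EuclideanSpace.norm_sq_eq]
    exact h1
  let b := stdOrthonormalBasis ℂ W
  have hpt : ∀ x, ∑ i, ‖(b i : EuclideanSpace ℂ X) x‖ ^ 2 ≤ c := by
    intro x
    set s := ∑ i, ‖(b i : EuclideanSpace ℂ X) x‖ ^ 2 with hs
    let F : W := ∑ i, (starRingEnd ℂ) ((b i : EuclideanSpace ℂ X) x) • b i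
    have hval : (F : EuclideanSpace ℂ X) x = (s : ℂ) := by
      have h1 : (F : EuclideanSpace ℂ X)
          = ∑ i, (starRingEnd ℂ) ((b i : EuclideanSpace ℂ X) x) • (b i : EuclideanSpace ℂ X) := by
        simp [F]
      rw [h1]
      have h2 : (∑ i, (starRingEnd ℂ) ((b i : EuclideanSpace ℂ X) x) •
          (b i : EuclideanSpace ℂ X)) x
          = ∑ i, (starRingEnd ℂ) ((b i : EuclideanSpace ℂ X) x) *
            (b i : EuclideanSpace ℂ X) x := by
        simp
      rw [h2, hs]
      push_cast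
      refine Finset.sum_congr rfl fun i _ => ?_
      rw [mul_comm, Complex.mul_conj, Complex.normSq_eq_norm_sq]
      push_cast
      rfl
    have hnorm : ‖(F : EuclideanSpace ℂ X)‖ ^ 2 = s := by
      have h1 : ‖F‖ ^ 2 = ∑ i, ‖b.repr F i‖ ^ 2 := by
        rw [← EuclideanSpace.norm_sq_eq, LinearIsometryEquiv.norm_map]
      have h2 : ∀ i, b.repr F i = (starRingEnd ℂ) ((b i : EuclideanSpace ℂ X) x) := by
        intro i
        have h3 : F = b.repr.symm (WithLp.toLp 2 fun i =>
            (starRingEnd ℂ) ((b i : EuclideanSpace ℂ X) x)) := by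
          rw [← b.sum_repr_symm]
        rw [h3, LinearIsometryEquiv.apply_symm_apply]
      change ‖F‖ ^ 2 = s
      rw [h1, hs]
      refine Finset.sum_congr rfl fun i _ => ?_
      rw [h2, RCLike.norm_conj]
    have h3 := hW F F.2 x
    rw [hval, hnorm] at h3
    have hs0 : 0 ≤ s := Finset.sum_nonneg fun _ _ => by positivity
    rw [Complex.norm_real, Real.norm_of_nonneg hs0] at h3
    by_contra hlt
    push Not at hlt
    have hpos : 0 < s := lt_of_le_of_lt hc hlt
    nlinarith
  have htot : (Module.finrank ℂ W : ℝ) = ∑ x, ∑ i, ‖(b i : EuclideanSpace ℂ X) x‖ ^ 2 := by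
    rw [Finset.sum_comm]
    have h1 : ∀ i, ∑ x, ‖(b i : EuclideanSpace ℂ X) x‖ ^ 2 = 1 := by
      intro i
      rw [← EuclideanSpace.norm_sq_eq]
      have h2 : ‖(b i : EuclideanSpace ℂ X)‖ = ‖b i‖ := rfl
      rw [h2, b.orthonormal.1 i, one_pow]
    rw [Finset.sum_congr rfl fun i _ => h1 i, Finset.sum_const, Finset.card_univ,
      Fintype.card_fin, nsmul_eq_mul, mul_one]
  rw [← hfin, htot]
  calc ∑ x, ∑ i, ‖(b i : EuclideanSpace ℂ X) x‖ ^ 2 ≤ ∑ _x : X, c :=
        Finset.sum_le_sum fun x _ => hpt x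
    _ = c * Fintype.card X := by
        rw [Finset.sum_const, Finset.card_univ, nsmul_eq_mul, mul_comm]

end Pool.Agent.U700.SE
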